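import Mathlib
import Pool.Agent.W671.WU11

/-! Strict contact maps: they commute with the Reeb flow, and the critical point equation of the
generating function. -/

open scoped Topology ContDiff Manifold
open Set Metric Bundle Filter Pool.Agent.Helper186 Pool.Agent.H826R2.Wein Pool.Agent.W671.WU

noncomputable section

namespace Pool.Agent.R774.Root

set_option linter.unusedSectionVars false

universe u

variable {E : Type u} [NormedAddCommGroup E] [NormedSpace ℝ E] [FiniteDimensional ℝ E]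
  {P : Type*} [TopologicalSpace P] [ChartedSpace E P] [IsManifold 𝓘(ℝ, E) ∞ P]
  {F : Type*} [NormedAddCommGroup F] [NormedSpace ℝ F]
  {β : (x : P) → TangentSpace 𝓘(ℝ, E) x →L[ℝ] ℝ}
  {R : (x : P) → TangentSpace 𝓘(ℝ, E) x} {Fl : P → ℝ → P}

/-- strict contact maps -/
structure St (β : (x : P) → TangentSpace 𝓘(ℝ, E) x →L[ℝ] ℝ) (g : P → P) : Prop where
  smooth : ContMDiff 𝓘(ℝ, E) 𝓘(ℝ, E) ∞ g
  strict : ∀ (x : P) (u : TangentSpace 𝓘(ℝ, E) x),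
    β (g x) (mfderiv 𝓘(ℝ, E) 𝓘(ℝ, E) g x u) = β x u

namespace St

lemma HB_push {g : P → P} (hg : St β g) (hβ : SmoothForm β) (x : P)
    (u v : TangentSpace 𝓘(ℝ, E) x) :
    HB β (g x) (mfderiv 𝓘(ℝ, E) 𝓘(ℝ, E) g x u) (mfderiv 𝓘(ℝ, E) 𝓘(ℝ, E) g x v) =
      HB β x u v := by
  have h1 : pullForm 𝓘(ℝ, E) 𝓘(ℝ, E) g β = β := by
    ext1 y
    exact ContinuousLinearMap.ext fun w => hg.strict y w
  have h2 := extDer_pull hg.smooth hβ x u v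
  rw [h1] at h2
  rw [HB_apply, HB_apply, hg.strict, hg.strict, h2]

lemma surjD {g : P → P} (hg : St β g) (c : CD β R) (x : P) (w : E) :
    ∃ v : TangentSpace 𝓘(ℝ, E) x, (mfderiv 𝓘(ℝ, E) 𝓘(ℝ, E) g x v : E) = w := by
  let L : E →L[ℝ] E := mfderiv 𝓘(ℝ, E) 𝓘(ℝ, E) g x
  have hinj : Function.Injective (L : E →ₗ[ℝ] E) := by
    rw [injective_iff_map_eq_zero]
    intro u hu
    apply HB_nondeg c.contact c.reeb x u
    intro v
    have h1 := hg.HB_push c.contact.smooth x u v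
    rw [← h1]
    have h2 : (mfderiv 𝓘(ℝ, E) 𝓘(ℝ, E) g x u) = 0 := hu
    rw [h2, map_zero]
    rfl
  obtain ⟨v, hv⟩ := LinearMap.injective_iff_surjective.1 hinj w
  exact ⟨v, hv⟩

lemma push_R {g : P → P} (hg : St β g) (c : CD β R) (x : P) :
    (mfderiv 𝓘(ℝ, E) 𝓘(ℝ, E) g x (R x) : E) = R (g x) := by
  have e : ∀ y, c.X (fun _ => 1) y = R y := fun y => congrFun (reeb_eq c) y
  rw [← e (g x)]
  apply c.X_unique
  intro w
  obtain ⟨v, rfl⟩ := hg.surjD c x w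
  have hd : ∀ (y : P) (u : TangentSpace 𝓘(ℝ, E) y),
      dForm 𝓘(ℝ, E) (fun _ : P => (1:ℝ)) y u = 0 := by
    intro y u
    show mfderiv 𝓘(ℝ, E) 𝓘(ℝ, ℝ) (fun _ : P => (1:ℝ)) y u = 0
    rw [mfderiv_const]
    rfl
  have h1 := hg.HB_push c.contact.smooth x (R x) v
  refine h1.trans ?_
  rw [HB_apply, c.reeb.unit, c.reeb.kernel, hd, hg.strict]
  ring

/-- a strict contact map commutes with the Reeb flow -/
lemma comm [T2Space P] {g : P → P} (hg : St β g) (c : CD β R) (h : RF β R Fl) (x : P) (t : ℝ) :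
    g (Fl x t) = Fl (g x) t := by
  have : IsManifold 𝓘(ℝ, E) 1 P := IsManifold.of_le (n := ∞) (by simp)
  have h1 : IsMIntegralCurve (I := 𝓘(ℝ, E)) (fun t => g (Fl x t)) R := by
    intro s
    have h2 := HasMFDerivAt.comp s (g := g) (f := Fl x)
      (hg.smooth.mdifferentiableAt (by simp)).hasMFDerivAt (h.int x s)
    refine h2.congr_mfderiv ?_
    refine ContinuousLinearMap.ext fun (r : ℝ) => ?_
    have h3 := hg.push_R c (Fl x s)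
    show (mfderiv 𝓘(ℝ, E) 𝓘(ℝ, E) g (Fl x s)) ((r • R (Fl x s) : E)) =
      r • R (g (Fl x s))
    have h4 : (mfderiv 𝓘(ℝ, E) 𝓘(ℝ, E) g (Fl x s)) ((r • R (Fl x s) : E)) =
      (r • (mfderiv 𝓘(ℝ, E) 𝓘(ℝ, E) g (Fl x s) (R (Fl x s)) : E) : E) :=
      map_smul (mfderiv 𝓘(ℝ, E) 𝓘(ℝ, E) g (Fl x s)) _ _
    rw [h4]
    exact congrArg (fun w : E => r • w) h3
  have h2 : (fun t => g (Fl x t)) = Fl (g x) := by
    refine isMIntegralCurve_Ioo_eq_of_contMDiff_boundaryless (t₀ := 0)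
      ((smooth_reeb c).of_le (by simp)) h1 (h.int _) ?_
    simp [h.zero]
  exact congrFun h2 t

lemma comp {g₁ g₂ : P → P} (h1 : St β g₁) (h2 : St β g₂) : St β (fun x => g₂ (g₁ x)) where
  smooth := h2.smooth.comp h1.smooth
  strict := fun x u => by
    have e : mfderiv 𝓘(ℝ, E) 𝓘(ℝ, E) (fun x => g₂ (g₁ x)) x =
        (mfderiv 𝓘(ℝ, E) 𝓘(ℝ, E) g₂ (g₁ x)).comp (mfderiv 𝓘(ℝ, E) 𝓘(ℝ, E) g₁ x) :=
      mfderiv_comp x (h2.smooth.mdifferentiableAt (by simp)) (h1.smooth.mdifferentiableAt (by simp))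
    have e2 : (mfderiv 𝓘(ℝ, E) 𝓘(ℝ, E) (fun x => g₂ (g₁ x)) x u : E) =
        (mfderiv 𝓘(ℝ, E) 𝓘(ℝ, E) g₂ (g₁ x)) (mfderiv 𝓘(ℝ, E) 𝓘(ℝ, E) g₁ x u) :=
      DFunLike.congr_fun e u
    have e3 := h2.strict (g₁ x) (mfderiv 𝓘(ℝ, E) 𝓘(ℝ, E) g₁ x u)
    rw [h1.strict] at e3
    rw [← e3]
    exact congrArg (fun w : E => β (g₂ (g₁ x)) w) e2

lemma flow (h : RF β R Fl) (t : ℝ) : St β (fun x => Fl x t) := ⟨h.smooth_t t, h.strict t⟩

end St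

/-- the equation satisfied at a critical point -/
lemma crit_eq_map {φ : P → P} (hφ : St β φ) {n : ℕ} {f g : Fin n → P → ℝ}
    (hf : ∀ i, ContMDiff 𝓘(ℝ, E) 𝓘(ℝ, ℝ) ∞ (f i))
    (hg : ∀ i, ContMDiff 𝓘(ℝ, E) 𝓘(ℝ, ℝ) ∞ (g i))
    (hrep : ∀ (x : P) (v : TangentSpace 𝓘(ℝ, E) x),
        β x v = ∑ i, f i x * dForm 𝓘(ℝ, E) (g i) x v) (x₀ : P) {x : P}
    (hx : x ∈ (extChartAt 𝓘(ℝ, E) x₀).source) (hy : φ x ∈ (extChartAt 𝓘(ℝ, E) x₀).source)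
    (hcr : ∀ γ : ℝ → P, ContinuousAt γ 0 → γ 0 = x → ∀ d : ℝ,
        HasDerivAt (fun r => S f g (γ r) (φ (γ r))) d 0 → d = 0) (v : E) :
    (∑ i, ((fderiv ℝ (cf x₀ (f i)) (extChartAt 𝓘(ℝ, E) x₀ x) v +
      fderiv ℝ (cf x₀ (f i)) (extChartAt 𝓘(ℝ, E) x₀ (φ x))
        (fderiv ℝ (ch x₀ φ) (extChartAt 𝓘(ℝ, E) x₀ x) v)) *
      (cf x₀ (g i) (extChartAt 𝓘(ℝ, E) x₀ (φ x)) - cf x₀ (g i) (extChartAt 𝓘(ℝ, E) x₀ x)) -
      (cf x₀ (f i) (extChartAt 𝓘(ℝ, E) x₀ (φ x)) - cf x₀ (f i) (extChartAt 𝓘(ℝ, E) x₀ x)) *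
      (fderiv ℝ (cf x₀ (g i)) (extChartAt 𝓘(ℝ, E) x₀ x) v +
      fderiv ℝ (cf x₀ (g i)) (extChartAt 𝓘(ℝ, E) x₀ (φ x))
        (fderiv ℝ (ch x₀ φ) (extChartAt 𝓘(ℝ, E) x₀ x) v)))) = 0 := by
  set ψ := extChartAt 𝓘(ℝ, E) x₀ with hψ
  set p := ψ x with hp
  have hpt : p ∈ ψ.target := ψ.map_source hx
  have hps : ψ.symm p = x := ψ.left_inv hx
  have hq : ch x₀ φ p = ψ (φ x) := by
    show ψ (φ (ψ.symm p)) = _
    rw [hps]
  set q := ψ (φ x) with hqdef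
  have hqt : q ∈ ψ.target := ψ.map_source hy
  have hp2 : φ (ψ.symm p) ∈ ψ.source := by
    rw [hps]; exact hy
  set L := fderiv ℝ (ch x₀ φ) p with hL
  have hΨ : HasFDerivAt (ch x₀ φ) L p :=
    ((ch_smooth x₀ hφ.smooth hpt hp2).differentiableAt (by simp)).hasFDerivAt
  -- the curve
  have hline : HasDerivAt (fun r : ℝ => p + r • v) v 0 := by
    have := ((hasDerivAt_id (0:ℝ)).smul_const v).const_add p
    simpa using this
  have hline0 : p + (0:ℝ) • v = p := by simp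
  have hlc : ContinuousAt (fun r : ℝ => p + r • v) 0 := hline.continuousAt
  have hΨl : HasDerivAt (fun r : ℝ => ch x₀ φ (p + r • v)) (L v) 0 := by
    have h1 : HasFDerivAt (ch x₀ φ) L (p + (0:ℝ) • v) := by rw [hline0]; exact hΨ
    exact h1.comp_hasDerivAt (0:ℝ) hline
  have hcfd : ∀ {k : P → ℝ} (_ : ContMDiff 𝓘(ℝ, E) 𝓘(ℝ, ℝ) ∞ k),
      HasDerivAt (fun r : ℝ => cf x₀ k (p + r • v)) (fderiv ℝ (cf x₀ k) p v) 0 ∧
      HasDerivAt (fun r : ℝ => cf x₀ k (ch x₀ φ (p + r • v)))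
        (fderiv ℝ (cf x₀ k) q (L v)) 0 := by
    intro k hk
    constructor
    · have h1 : HasFDerivAt (cf x₀ k) (fderiv ℝ (cf x₀ k) p) (p + (0:ℝ) • v) := by
        rw [hline0]
        exact ((cf_smooth x₀ hk hpt).differentiableAt (by simp)).hasFDerivAt
      exact h1.comp_hasDerivAt (0:ℝ) hline
    · have h1 : HasFDerivAt (cf x₀ k) (fderiv ℝ (cf x₀ k) q)
          (ch x₀ φ (p + (0:ℝ) • v)) := by
        rw [hline0, hq]
        exact ((cf_smooth x₀ hk hqt).differentiableAt (by simp)).hasFDerivAt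
      exact h1.comp_hasDerivAt (0:ℝ) hΨl
  set d : ℝ := (∑ i, ((fderiv ℝ (cf x₀ (f i)) p v + fderiv ℝ (cf x₀ (f i)) q (L v)) *
      (cf x₀ (g i) q - cf x₀ (g i) p) + (cf x₀ (f i) p + cf x₀ (f i) q) *
      (fderiv ℝ (cf x₀ (g i)) q (L v) - fderiv ℝ (cf x₀ (g i)) p v))) / 2 with hd
  have hder : HasDerivAt (fun r : ℝ => (∑ i, (cf x₀ (f i) (p + r • v) +
      cf x₀ (f i) (ch x₀ φ (p + r • v))) *
      (cf x₀ (g i) (ch x₀ φ (p + r • v)) - cf x₀ (g i) (p + r • v))) / 2) d 0 := by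
    refine HasDerivAt.div_const ?_ _
    refine HasDerivAt.fun_sum fun i _ => ?_
    obtain ⟨f1, f2⟩ := hcfd (hf i)
    obtain ⟨g1, g2⟩ := hcfd (hg i)
    have h3 := (f1.add f2).mul (g2.sub g1)
    simp only [Pi.add_apply, Pi.sub_apply, hline0, hq] at h3
    exact h3
  have hγc : ContinuousAt (fun r : ℝ => ψ.symm (p + r • v)) 0 := by
    refine ContinuousAt.comp (g := ψ.symm) ?_ hlc
    rw [hline0]
    exact (continuousOn_extChartAt_symm x₀).continuousAt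
      ((isOpen_extChartAt_target x₀).mem_nhds hpt)
  have hd0 : d = 0 := by
    refine hcr (fun r => ψ.symm (p + r • v)) hγc (by simp only [hline0, hps]) d ?_
    refine hder.congr_of_eventuallyEq ?_
    have h1 : ContinuousAt (fun r : ℝ => φ (ψ.symm (p + r • v))) 0 :=
      hφ.smooth.continuous.continuousAt.comp hγc
    have h2 : (fun r : ℝ => φ (ψ.symm (p + r • v))) 0 ∈ ψ.source := by
      simp only [hline0, hps]
      exact hy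
    filter_upwards [h1.eventually ((isOpen_extChartAt_source x₀).mem_nhds h2)] with r hr
    have h3 : ∀ k : P → ℝ, cf x₀ k (ch x₀ φ (p + r • v)) =
        k (φ (ψ.symm (p + r • v))) := by
      intro k
      show k (ψ.symm (ψ (φ (ψ.symm (p + r • v))))) = _
      rw [ψ.left_inv hr]
    unfold S
    simp only [h3]
    rfl
  have hstrict : (∑ i, cf x₀ (f i) q * fderiv ℝ (cf x₀ (g i)) q (L v)) =
      ∑ i, cf x₀ (f i) p * fderiv ℝ (cf x₀ (g i)) p v := by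
    have h1 := chartForm_ch (β := β) x₀ hφ.smooth hφ.strict hpt hp2 v
    rw [chartForm_rep hg hrep x₀ hpt, hq, chartForm_rep hg hrep x₀ hqt] at h1
    exact h1
  have hfin : (∑ i, ((fderiv ℝ (cf x₀ (f i)) p v + fderiv ℝ (cf x₀ (f i)) q (L v)) *
      (cf x₀ (g i) q - cf x₀ (g i) p) - (cf x₀ (f i) q - cf x₀ (f i) p) *
      (fderiv ℝ (cf x₀ (g i)) p v + fderiv ℝ (cf x₀ (g i)) q (L v)))) =
      2 * d - 2 * ((∑ i, cf x₀ (f i) q * fderiv ℝ (cf x₀ (g i)) q (L v)) -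
      ∑ i, cf x₀ (f i) p * fderiv ℝ (cf x₀ (g i)) p v) := by
    rw [hd, mul_div_cancel₀ _ (two_ne_zero), ← Finset.sum_sub_distrib, Finset.mul_sum,
      ← Finset.sum_sub_distrib]
    refine Finset.sum_congr rfl fun i _ => ?_
    ring
  rw [hfin, hd0, hstrict]
  ring

/-- chain rule in the chart -/
lemma fderiv_ch_comp (x₀ : P) {φ₁ φ₂ : P → P} (h1 : ContMDiff 𝓘(ℝ, E) 𝓘(ℝ, E) ∞ φ₁)
    (h2 : ContMDiff 𝓘(ℝ, E) 𝓘(ℝ, E) ∞ φ₂) {p : E}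
    (hp : p ∈ (extChartAt 𝓘(ℝ, E) x₀).target)
    (hp2 : φ₁ ((extChartAt 𝓘(ℝ, E) x₀).symm p) ∈ (extChartAt 𝓘(ℝ, E) x₀).source)
    (hp3 : φ₂ (φ₁ ((extChartAt 𝓘(ℝ, E) x₀).symm p)) ∈ (extChartAt 𝓘(ℝ, E) x₀).source) :
    fderiv ℝ (ch x₀ (fun x => φ₂ (φ₁ x))) p =
      (fderiv ℝ (ch x₀ φ₂) (ch x₀ φ₁ p)).comp (fderiv ℝ (ch x₀ φ₁) p) := by
  set ψ := extChartAt 𝓘(ℝ, E) x₀ with hψ
  have hct : ch x₀ φ₁ p ∈ ψ.target := ψ.map_source hp2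
  have hcs : ψ.symm (ch x₀ φ₁ p) = φ₁ (ψ.symm p) := ψ.left_inv hp2
  have h3 : HasFDerivAt (ch x₀ φ₁) (fderiv ℝ (ch x₀ φ₁) p) p :=
    ((ch_smooth x₀ h1 hp hp2).differentiableAt (by simp)).hasFDerivAt
  have h4 : HasFDerivAt (ch x₀ φ₂) (fderiv ℝ (ch x₀ φ₂) (ch x₀ φ₁ p)) (ch x₀ φ₁ p) := by
    refine ((ch_smooth x₀ h2 hct ?_).differentiableAt (by simp)).hasFDerivAt
    rw [← hψ, hcs]
    exact hp3
  have h5 := h4.comp p h3
  have hFc : ContinuousAt (fun p => φ₁ (ψ.symm p)) p :=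
    h1.continuous.continuousAt.comp
      ((continuousOn_extChartAt_symm x₀).continuousAt ((isOpen_extChartAt_target x₀).mem_nhds hp))
  have e1 : (ch x₀ (fun x => φ₂ (φ₁ x))) =ᶠ[𝓝 p] (ch x₀ φ₂) ∘ (ch x₀ φ₁) := by
    filter_upwards [hFc.eventually ((isOpen_extChartAt_source x₀).mem_nhds hp2)] with p' hp'
    show ψ (φ₂ (φ₁ (ψ.symm p'))) = ψ (φ₂ (ψ.symm (ψ (φ₁ (ψ.symm p')))))
    rw [ψ.left_inv hp']
  rw [e1.fderiv_eq, h5.fderiv]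

/-- a map commuting with the flow preserves the field, in the chart -/
lemma fderiv_ch_Rc_map (h : RF β R Fl) {φ : P → P} (hφ : ContMDiff 𝓘(ℝ, E) 𝓘(ℝ, E) ∞ φ)
    (hc : ∀ x s, φ (Fl x s) = Fl (φ x) s) (x₀ : P) {p : E}
    (hp : p ∈ (extChartAt 𝓘(ℝ, E) x₀).target)
    (hp2 : φ ((extChartAt 𝓘(ℝ, E) x₀).symm p) ∈ (extChartAt 𝓘(ℝ, E) x₀).source) :
    fderiv ℝ (ch x₀ φ) p (RF.Rc Fl x₀ p) = RF.Rc Fl x₀ (ch x₀ φ p) := by
  have hq2 : Fl ((extChartAt 𝓘(ℝ, E) x₀).symm p) 0 ∈ (extChartAt 𝓘(ℝ, E) x₀).source := by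
    rw [h.zero]
    exact (extChartAt 𝓘(ℝ, E) x₀).map_target hp
  have hd : HasDerivAt (fun s => RF.H Fl x₀ (p, s)) (RF.Rc Fl x₀ p) 0 := h.hasDerivAt_H x₀ hp hq2
  set ψ := extChartAt 𝓘(ℝ, E) x₀ with hψ
  have hct : ch x₀ φ p ∈ ψ.target := ψ.map_source hp2
  have hcs : ψ.symm (ch x₀ φ p) = φ (ψ.symm p) := ψ.left_inv hp2
  have hd2 : HasDerivAt (fun s => RF.H Fl x₀ (ch x₀ φ p, s))
      (RF.Rc Fl x₀ (ch x₀ φ p)) 0 := by
    refine h.hasDerivAt_H x₀ hct ?_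
    rw [← hψ, hcs, h.zero]
    exact hp2
  have hΨ : HasFDerivAt (ch x₀ φ) (fderiv ℝ (ch x₀ φ) p)
      (RF.H Fl x₀ (p, 0)) := by
    rw [h.H_zero x₀ hp]
    exact ((ch_smooth x₀ hφ hp hp2).differentiableAt (by simp)).hasFDerivAt
  have hd3 := hΨ.comp_hasDerivAt (0:ℝ) hd
  have hFc : Continuous (Fl (ψ.symm p)) :=
    h.smooth.continuous.comp (continuous_const.prodMk continuous_id)
  have e1 : ((ch x₀ φ) ∘ fun s => RF.H Fl x₀ (p, s)) =ᶠ[𝓝 0]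
      (fun s => RF.H Fl x₀ (ch x₀ φ p, s)) := by
    filter_upwards [hFc.continuousAt.eventually ((isOpen_extChartAt_source x₀).mem_nhds hq2)]
      with s hs
    show ψ (φ (ψ.symm (ψ (Fl (ψ.symm p) s)))) = ψ (Fl (ψ.symm (ch x₀ φ p)) s)
    rw [ψ.left_inv hs, hcs, hc]
  exact hd3.unique (hd2.congr_of_eventuallyEq e1)

end Pool.Agent.R774.Root
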