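import Mathlib
import Pool.Agent.R774.Root1

/-! The limiting contradiction for strict contact maps. -/

open scoped Topology ContDiff Manifold
open Set Metric Bundle Filter Pool.Agent.Helper186 Pool.Agent.H826R2.Wein Pool.Agent.W671.WU

noncomputable section

namespace Pool.Agent.R774.Root

set_option linter.unusedSectionVars false

universe u

variable {E : Type u} [NormedAddCommGroup E] [NormedSpace ℝ E] [FiniteDimensional ℝ E]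
  {P : Type*} [TopologicalSpace P] [ChartedSpace E P] [IsManifold 𝓘(ℝ, E) ∞ P]
  {F : Type*} [NormedAddCommGroup F] [NormedSpace ℝ F]
  {β : (x : P) → TangentSpace 𝓘(ℝ, E) x →L[ℝ] ℝ}
  {R : (x : P) → TangentSpace 𝓘(ℝ, E) x} {Fl : P → ℝ → P}

attribute [local irreducible] S A

/-- the limiting contradiction -/
theorem no_limit_map [T2Space P] (c : CD β R) (h : RF β R Fl) {n : ℕ} {f g : Fin n → P → ℝ}
    (hf : ∀ i, ContMDiff 𝓘(ℝ, E) 𝓘(ℝ, ℝ) ∞ (f i))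
    (hg : ∀ i, ContMDiff 𝓘(ℝ, E) 𝓘(ℝ, ℝ) ∞ (g i))
    (hrep : ∀ (x : P) (v : TangentSpace 𝓘(ℝ, E) x),
        β x v = ∑ i, f i x * dForm 𝓘(ℝ, E) (g i) x v)
    {e : P → F} (he : ContMDiff 𝓘(ℝ, E) 𝓘(ℝ, F) ∞ e)
    (himm : ∀ x, Function.Injective (mfderiv 𝓘(ℝ, E) 𝓘(ℝ, F) e x))
    (l : Ultrafilter ℕ) {ψ : ℕ → P → P} (hψ : ∀ k, St β (ψ k))
    {x y y' : ℕ → P} {s : ℕ → ℝ} {x₀ : P}
    (hx₀ : Tendsto x l (𝓝 x₀)) (hy₀ : Tendsto y' l (𝓝 x₀)) (hy0 : Tendsto y l (𝓝 x₀))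
    (hs0 : Tendsto s l (𝓝 0))
    (hy' : ∀ k, y' k = ψ k (x k))
    (hyk : ∀ k, y k = Fl (y' k) (s k))
    (hne : ∀ᶠ k in (l : Filter ℕ), y k ≠ x k)
    (hS : ∀ᶠ k in (l : Filter ℕ), S f g (x k) (y k) = 0)
    (hcr : ∀ᶠ k in (l : Filter ℕ), ∀ γ : ℝ → P, ContinuousAt γ 0 → γ 0 = x k → ∀ d : ℝ,
        HasDerivAt (fun r => S f g (γ r) (Fl (ψ k (γ r)) (s k))) d 0 → d = 0)
    {C : ℝ}
    (hmod : ∀ᶠ k in (l : Filter ℕ), ∃ lam : E →L[ℝ] ℝ, ∀ (v : E),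
      ‖dv E e (y' k) (dm E (ψ k) (x k) v) +
        lam v • dv E e (y' k) (R (y' k))‖ ≤ C * ‖dv E e (x k) v‖ ∧
      ‖dv E e (x k) v‖ ≤ C * ‖dv E e (y' k) (dm E (ψ k) (x k) v) +
        lam v • dv E e (y' k) (R (y' k)) + dv E e (x k) v‖) : False := by
  -- the chart
  have hsrc : (extChartAt 𝓘(ℝ, E) x₀).source ∈ 𝓝 x₀ := extChartAt_source_mem_nhds x₀
  have htgt : (extChartAt 𝓘(ℝ, E) x₀).target ∈ 𝓝 (extChartAt 𝓘(ℝ, E) x₀ x₀) :=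
    extChartAt_target_mem_nhds x₀
  have hψc : ContinuousAt (extChartAt 𝓘(ℝ, E) x₀) x₀ := continuousAt_extChartAt x₀
  have hx₀t : extChartAt 𝓘(ℝ, E) x₀ x₀ ∈ (extChartAt 𝓘(ℝ, E) x₀).target := mem_extChartAt_target x₀
  have hxs : ∀ᶠ k in (l : Filter ℕ), x k ∈ (extChartAt 𝓘(ℝ, E) x₀).source := hx₀.eventually hsrc
  have hys : ∀ᶠ k in (l : Filter ℕ), y k ∈ (extChartAt 𝓘(ℝ, E) x₀).source := hy0.eventually hsrc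
  have hys' : ∀ᶠ k in (l : Filter ℕ), y' k ∈ (extChartAt 𝓘(ℝ, E) x₀).source :=
    hy₀.eventually hsrc
  have hp : Tendsto (fun k => extChartAt 𝓘(ℝ, E) x₀ (x k)) l (𝓝 (extChartAt 𝓘(ℝ, E) x₀ x₀)) :=
    hψc.tendsto.comp hx₀
  have hq : Tendsto (fun k => extChartAt 𝓘(ℝ, E) x₀ (y k)) l (𝓝 (extChartAt 𝓘(ℝ, E) x₀ x₀)) :=
    hψc.tendsto.comp hy0
  have hq' : Tendsto (fun k => extChartAt 𝓘(ℝ, E) x₀ (y' k)) l (𝓝 (extChartAt 𝓘(ℝ, E) x₀ x₀)) :=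
    hψc.tendsto.comp hy₀
  have hcht : ∀ k, x k ∈ (extChartAt 𝓘(ℝ, E) x₀).source → ∀ φ : P → P,
      ch x₀ φ (extChartAt 𝓘(ℝ, E) x₀ (x k)) =
        extChartAt 𝓘(ℝ, E) x₀ (φ (x k)) := by
    intro k hk φ
    show extChartAt 𝓘(ℝ, E) x₀ (φ ((extChartAt 𝓘(ℝ, E) x₀).symm
      (extChartAt 𝓘(ℝ, E) x₀ (x k)))) = _
    rw [(extChartAt 𝓘(ℝ, E) x₀).left_inv hk]
  have hb : ∀ᶠ p in 𝓝 (extChartAt 𝓘(ℝ, E) x₀ x₀), ∀ v, chartForm 𝓘(ℝ, E) β x₀ p v =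
      ∑ i, cf x₀ (f i) p * fderiv ℝ (cf x₀ (g i)) p v := by
    filter_upwards [htgt] with p hp v
    exact chartForm_rep hg hrep x₀ hp v
  have hbc : ContinuousAt (chartForm 𝓘(ℝ, E) β x₀) (extChartAt 𝓘(ℝ, E) x₀ x₀) :=
    ((contDiffOn_chartForm c.contact.smooth x₀).contDiffAt htgt).continuousAt
  have hnd : ∀ z : E, chartForm 𝓘(ℝ, E) β x₀ (extChartAt 𝓘(ℝ, E) x₀ x₀) z = 0 →
      (∀ w : E, (∑ i, (fderiv ℝ (cf x₀ (f i)) (extChartAt 𝓘(ℝ, E) x₀ x₀) w *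
        fderiv ℝ (cf x₀ (g i)) (extChartAt 𝓘(ℝ, E) x₀ x₀) z -
        fderiv ℝ (cf x₀ (f i)) (extChartAt 𝓘(ℝ, E) x₀ x₀) z *
        fderiv ℝ (cf x₀ (g i)) (extChartAt 𝓘(ℝ, E) x₀ x₀) w)) = 0) → z = 0 := by
    intro z hz1 hz2
    rw [chartForm_self] at hz1
    refine c.contact.nondeg x₀ z hz1 fun w _ => ?_
    rw [extDer_rep hf hg hrep x₀ z w]
    have h1 := hz2 w
    rw [← neg_eq_zero, ← Finset.sum_neg_distrib] at h1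
    refine Eq.trans (Finset.sum_congr rfl fun i _ => ?_) h1
    ring
  have hJ : ContinuousAt (fun p => fderiv ℝ (cf x₀ e) p) (extChartAt 𝓘(ℝ, E) x₀ x₀) :=
    ((cf_smooth x₀ he hx₀t).fderiv_right (m := 0) (by simp)).continuousAt
  have hJi : Function.Injective (fderiv ℝ (cf x₀ e) (extChartAt 𝓘(ℝ, E) x₀ x₀)) := by
    intro u w huw
    apply himm x₀
    have h1 := fderiv_cf_self x₀ he u
    have h2 := fderiv_cf_self x₀ he w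
    exact h1.symm.trans (huw.trans h2)
  have hbR : ∀ᶠ p in 𝓝 (extChartAt 𝓘(ℝ, E) x₀ x₀),
      chartForm 𝓘(ℝ, E) β x₀ p (RF.Rc Fl x₀ p) = 1 := by
    filter_upwards [htgt] with p hp
    have h1 : chartForm 𝓘(ℝ, E) β x₀ p (RF.Rc Fl x₀ p) =
      β ((extChartAt 𝓘(ℝ, E) x₀).symm p) (ds x₀ p (RF.Rc Fl x₀ p)) := rfl
    have h2 : β ((extChartAt 𝓘(ℝ, E) x₀).symm p) (ds x₀ p (RF.Rc Fl x₀ p)) =
        β ((extChartAt 𝓘(ℝ, E) x₀).symm p) (R ((extChartAt 𝓘(ℝ, E) x₀).symm p)) :=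
      congrArg (fun w : E => β ((extChartAt 𝓘(ℝ, E) x₀).symm p) w) (h.tangent_Rc x₀ hp)
    rw [h1, h2, c.reeb.unit]
  have hneq : ∀ᶠ k in (l : Filter ℕ), extChartAt 𝓘(ℝ, E) x₀ (y k) ≠
      extChartAt 𝓘(ℝ, E) x₀ (x k) := by
    filter_upwards [hne, hxs, hys] with k hk h1 h2 h3
    exact hk ((extChartAt 𝓘(ℝ, E) x₀).injOn h2 h1 h3)
  have hmem' : ∀ k, x k ∈ (extChartAt 𝓘(ℝ, E) x₀).source →
      y' k ∈ (extChartAt 𝓘(ℝ, E) x₀).source →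
      ψ k ((extChartAt 𝓘(ℝ, E) x₀).symm (extChartAt 𝓘(ℝ, E) x₀ (x k))) ∈
        (extChartAt 𝓘(ℝ, E) x₀).source := by
    intro k h1 h2
    rw [(extChartAt 𝓘(ℝ, E) x₀).left_inv h1, ← hy']
    exact h2
  have hN : Tendsto (fun k => fderiv ℝ (ch x₀ (fun z => Fl z (s k)))
      (extChartAt 𝓘(ℝ, E) x₀ (y' k))) l (𝓝 (ContinuousLinearMap.id ℝ E)) := by
    have h1 := h.continuousAt_fderiv_H x₀ (q := (extChartAt 𝓘(ℝ, E) x₀ x₀, 0)) hx₀t (by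
      rw [h.zero]
      exact (extChartAt 𝓘(ℝ, E) x₀).map_target hx₀t)
    have h2 : Tendsto (fun k => fderiv ℝ (RF.H Fl x₀) (extChartAt 𝓘(ℝ, E) x₀ (y' k), s k)) l
        (𝓝 (fderiv ℝ (RF.H Fl x₀) (extChartAt 𝓘(ℝ, E) x₀ x₀, 0))) :=
      h1.tendsto.comp (hq'.prodMk_nhds hs0)
    have h3 : Tendsto (fun k => (fderiv ℝ (RF.H Fl x₀)
        (extChartAt 𝓘(ℝ, E) x₀ (y' k), s k)).comp
        (ContinuousLinearMap.inl ℝ E ℝ)) l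
        (𝓝 ((fderiv ℝ (RF.H Fl x₀) (extChartAt 𝓘(ℝ, E) x₀ x₀, 0)).comp
        (ContinuousLinearMap.inl ℝ E ℝ))) := by
      have h4 : Continuous (fun B : (E × ℝ) →L[ℝ] E => B.comp (ContinuousLinearMap.inl ℝ E ℝ)) :=
        continuous_id.clm_comp continuous_const
      exact (h4.tendsto _).comp h2
    rw [h.fderiv_H_zero x₀ hx₀t] at h3
    refine h3.congr' ?_
    filter_upwards [hys', hys] with k hk hk2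
    refine (h.fderiv_ch_eq x₀ ((extChartAt 𝓘(ℝ, E) x₀).map_source hk) ?_).symm
    rw [(extChartAt 𝓘(ℝ, E) x₀).left_inv hk, ← hyk]
    exact hk2
  have hL : ∀ᶠ k in (l : Filter ℕ), ∀ v, chartForm 𝓘(ℝ, E) β x₀
      (extChartAt 𝓘(ℝ, E) x₀ (y' k)) (fderiv ℝ (ch x₀ (ψ k))
        (extChartAt 𝓘(ℝ, E) x₀ (x k)) v) =
      chartForm 𝓘(ℝ, E) β x₀ (extChartAt 𝓘(ℝ, E) x₀ (x k)) v := by
    filter_upwards [hxs, hys'] with k h1 h2 v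
    have h3 := chartForm_ch (β := β) x₀ (hψ k).smooth (hψ k).strict
      ((extChartAt 𝓘(ℝ, E) x₀).map_source h1) (hmem' k h1 h2) v
    rw [hcht k h1, ← hy'] at h3
    exact h3
  have hLR : ∀ᶠ k in (l : Filter ℕ), fderiv ℝ (ch x₀ (ψ k))
        (extChartAt 𝓘(ℝ, E) x₀ (x k)) (RF.Rc Fl x₀ (extChartAt 𝓘(ℝ, E) x₀ (x k))) =
      RF.Rc Fl x₀ (extChartAt 𝓘(ℝ, E) x₀ (y' k)) := by
    filter_upwards [hxs, hys'] with k h1 h2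
    have h3 := fderiv_ch_Rc_map h (hψ k).smooth ((hψ k).comm c h) x₀
      (p := extChartAt 𝓘(ℝ, E) x₀ (x k))
      ((extChartAt 𝓘(ℝ, E) x₀).map_source h1) (hmem' k h1 h2)
    rw [hcht k h1, ← hy'] at h3
    exact h3
  have hm : ∀ᶠ k in (l : Filter ℕ), ∃ lam : E →L[ℝ] ℝ, ∀ v,
      ‖fderiv ℝ (cf x₀ e) (extChartAt 𝓘(ℝ, E) x₀ (y' k))
        (fderiv ℝ (ch x₀ (ψ k)) (extChartAt 𝓘(ℝ, E) x₀ (x k)) v +
        lam v • RF.Rc Fl x₀ (extChartAt 𝓘(ℝ, E) x₀ (y' k)))‖ ≤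
      C * ‖fderiv ℝ (cf x₀ e) (extChartAt 𝓘(ℝ, E) x₀ (x k)) v‖ ∧
      ‖fderiv ℝ (cf x₀ e) (extChartAt 𝓘(ℝ, E) x₀ (x k)) v‖ ≤
      C * ‖fderiv ℝ (cf x₀ e) (extChartAt 𝓘(ℝ, E) x₀ (y' k))
        (fderiv ℝ (ch x₀ (ψ k)) (extChartAt 𝓘(ℝ, E) x₀ (x k)) v +
        lam v • RF.Rc Fl x₀ (extChartAt 𝓘(ℝ, E) x₀ (y' k))) +
        fderiv ℝ (cf x₀ e) (extChartAt 𝓘(ℝ, E) x₀ (x k)) v‖ := by
    filter_upwards [hmod, hxs, hys'] with k h0 h1 h2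
    obtain ⟨lam, h0⟩ := h0
    obtain ⟨mu, hmu⟩ : ∃ mu : E →L[ℝ] ℝ, ∀ v, mu v =
        lam (ds x₀ (extChartAt 𝓘(ℝ, E) x₀ (x k)) v) :=
      ⟨lam.comp (show E →L[ℝ] E from mfderiv 𝓘(ℝ, E) 𝓘(ℝ, E) (extChartAt 𝓘(ℝ, E) x₀).symm
        (extChartAt 𝓘(ℝ, E) x₀ (x k))), fun v => rfl⟩
    refine ⟨mu, fun v => ?_⟩
    have hxt : extChartAt 𝓘(ℝ, E) x₀ (x k) ∈ (extChartAt 𝓘(ℝ, E) x₀).target :=
      (extChartAt 𝓘(ℝ, E) x₀).map_source h1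
    have hyt : extChartAt 𝓘(ℝ, E) x₀ (y' k) ∈ (extChartAt 𝓘(ℝ, E) x₀).target :=
      (extChartAt 𝓘(ℝ, E) x₀).map_source h2
    have e1 : fderiv ℝ (cf x₀ e) (ch x₀ (ψ k) (extChartAt 𝓘(ℝ, E) x₀ (x k)))
        (fderiv ℝ (ch x₀ (ψ k)) (extChartAt 𝓘(ℝ, E) x₀ (x k)) v) =
        dv E e (ψ k ((extChartAt 𝓘(ℝ, E) x₀).symm (extChartAt 𝓘(ℝ, E) x₀ (x k))))
        (dm E (ψ k) ((extChartAt 𝓘(ℝ, E) x₀).symm (extChartAt 𝓘(ℝ, E) x₀ (x k)))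
          (ds x₀ (extChartAt 𝓘(ℝ, E) x₀ (x k)) v)) :=
      fderiv_cf_ch x₀ he (hψ k).smooth hxt (hmem' k h1 h2) v
    have e2 : fderiv ℝ (cf x₀ e) (extChartAt 𝓘(ℝ, E) x₀ (x k)) v =
        dv E e ((extChartAt 𝓘(ℝ, E) x₀).symm (extChartAt 𝓘(ℝ, E) x₀ (x k)))
          (ds x₀ (extChartAt 𝓘(ℝ, E) x₀ (x k)) v) := fderiv_cf x₀ he hxt v
    have e3 : fderiv ℝ (cf x₀ e) (extChartAt 𝓘(ℝ, E) x₀ (y' k))
        (RF.Rc Fl x₀ (extChartAt 𝓘(ℝ, E) x₀ (y' k))) =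
        dv E e ((extChartAt 𝓘(ℝ, E) x₀).symm (extChartAt 𝓘(ℝ, E) x₀ (y' k)))
          (ds x₀ (extChartAt 𝓘(ℝ, E) x₀ (y' k)) (RF.Rc Fl x₀ (extChartAt 𝓘(ℝ, E) x₀ (y' k)))) :=
      fderiv_cf x₀ he hyt (RF.Rc Fl x₀ (extChartAt 𝓘(ℝ, E) x₀ (y' k)))
    have e4 : (ds x₀ (extChartAt 𝓘(ℝ, E) x₀ (y' k))
        (RF.Rc Fl x₀ (extChartAt 𝓘(ℝ, E) x₀ (y' k))) : E) = R (y' k) := by
      refine (h.tangent_Rc x₀ hyt).trans ?_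
      rw [(extChartAt 𝓘(ℝ, E) x₀).left_inv h2]
    have ha := h0 (ds x₀ (extChartAt 𝓘(ℝ, E) x₀ (x k)) v)
    rw [hcht k h1, (extChartAt 𝓘(ℝ, E) x₀).left_inv h1, ← hy'] at e1
    rw [(extChartAt 𝓘(ℝ, E) x₀).left_inv h1] at e2
    rw [(extChartAt 𝓘(ℝ, E) x₀).left_inv h2, e4] at e3
    rw [map_add, map_smul, e1, e2, e3, hmu]
    exact ha
  have hSe : ∀ᶠ k in (l : Filter ℕ), (∑ i, (cf x₀ (f i) (extChartAt 𝓘(ℝ, E) x₀ (x k)) +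
      cf x₀ (f i) (extChartAt 𝓘(ℝ, E) x₀ (y k))) *
      (cf x₀ (g i) (extChartAt 𝓘(ℝ, E) x₀ (y k)) -
        cf x₀ (g i) (extChartAt 𝓘(ℝ, E) x₀ (x k)))) = 0 := by
    filter_upwards [hS, hxs, hys] with k h3 h1 h2
    have h4 : ∀ z ∈ (extChartAt 𝓘(ℝ, E) x₀).source, ∀ r : P → ℝ,
        cf x₀ r (extChartAt 𝓘(ℝ, E) x₀ z) = r z := by
      intro z hz r
      show r ((extChartAt 𝓘(ℝ, E) x₀).symm (extChartAt 𝓘(ℝ, E) x₀ z)) = r z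
      rw [(extChartAt 𝓘(ℝ, E) x₀).left_inv hz]
    simp only [h4 _ h1, h4 _ h2]
    unfold S at h3
    exact (div_eq_zero_iff.1 h3).resolve_right two_ne_zero
  have hEe : ∀ᶠ k in (l : Filter ℕ), ∀ v : E,
      (∑ i, ((fderiv ℝ (cf x₀ (f i)) (extChartAt 𝓘(ℝ, E) x₀ (x k)) v +
      fderiv ℝ (cf x₀ (f i)) (extChartAt 𝓘(ℝ, E) x₀ (y k))
        (fderiv ℝ (ch x₀ (fun z => Fl z (s k))) (extChartAt 𝓘(ℝ, E) x₀ (y' k))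
        (fderiv ℝ (ch x₀ (ψ k)) (extChartAt 𝓘(ℝ, E) x₀ (x k)) v))) *
      (cf x₀ (g i) (extChartAt 𝓘(ℝ, E) x₀ (y k)) -
        cf x₀ (g i) (extChartAt 𝓘(ℝ, E) x₀ (x k))) -
      (cf x₀ (f i) (extChartAt 𝓘(ℝ, E) x₀ (y k)) -
        cf x₀ (f i) (extChartAt 𝓘(ℝ, E) x₀ (x k))) *
      (fderiv ℝ (cf x₀ (g i)) (extChartAt 𝓘(ℝ, E) x₀ (x k)) v +
      fderiv ℝ (cf x₀ (g i)) (extChartAt 𝓘(ℝ, E) x₀ (y k))
        (fderiv ℝ (ch x₀ (fun z => Fl z (s k))) (extChartAt 𝓘(ℝ, E) x₀ (y' k))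
        (fderiv ℝ (ch x₀ (ψ k)) (extChartAt 𝓘(ℝ, E) x₀ (x k)) v))))) = 0 := by
    filter_upwards [hcr, hxs, hys, hys'] with k hk h1 h2 h2' v
    have hyy : Fl (ψ k (x k)) (s k) = y k := by rw [hyk, hy']
    have h2'' : Fl (ψ k (x k)) (s k) ∈ (extChartAt 𝓘(ℝ, E) x₀).source := by rw [hyy]; exact h2
    have h3 := crit_eq_map ((hψ k).comp (St.flow h (s k))) hf hg hrep x₀ h1 h2'' hk v
    have h4 := fderiv_ch_comp x₀ (φ₁ := ψ k) (φ₂ := fun x => Fl x (s k)) (hψ k).smooth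
      (h.smooth_t (s k)) (p := extChartAt 𝓘(ℝ, E) x₀ (x k))
      ((extChartAt 𝓘(ℝ, E) x₀).map_source h1) (hmem' k h1 h2')
      (by
        rw [(extChartAt 𝓘(ℝ, E) x₀).left_inv h1]
        exact h2'')
    rw [hcht k h1, ← hy'] at h4
    have h5 : fderiv ℝ (ch x₀ (fun z => Fl (ψ k z) (s k))) (extChartAt 𝓘(ℝ, E) x₀ (x k)) v =
        fderiv ℝ (ch x₀ (fun z => Fl z (s k))) (extChartAt 𝓘(ℝ, E) x₀ (y' k))
          (fderiv ℝ (ch x₀ (ψ k)) (extChartAt 𝓘(ℝ, E) x₀ (x k)) v) := by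
      rw [h4]; rfl
    simp only [hyy] at h3
    rw [← h5]
    exact h3
  exact no_limit l (f := fun i => cf x₀ (f i)) (g := fun i => cf x₀ (g i))
    (fun i => cf_smooth x₀ (hf i) hx₀t) (fun i => cf_smooth x₀ (hg i) hx₀t) hb hbc hnd hJ hJi
    (h.continuousAt_Rc x₀ hx₀t) hbR hp hq hq' hneq hN hL hLR hm hSe hEe

end Pool.Agent.R774.Root
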