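import Mathlib
import Pool.Agent.R774.Root3

/-! Translated points of strict contact maps which are transversely close to the identity. -/

open scoped Topology ContDiff Manifold
open Set Metric Bundle Filter Pool.Agent.Helper186 Pool.Agent.H826R2.Wein Pool.Agent.W671.WU

noncomputable section

namespace Pool.Agent.R774.Root

set_option linter.unusedSectionVars false

universe u

variable {E : Type u} [NormedAddCommGroup E] [NormedSpace ℝ E] [FiniteDimensional ℝ E]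
  {P : Type*} [TopologicalSpace P] [ChartedSpace E P] [IsManifold 𝓘(ℝ, E) ∞ P]
  {F : Type*} [NormedAddCommGroup F] [NormedSpace ℝ F]
  {β : (x : P) → TangentSpace 𝓘(ℝ, E) x →L[ℝ] ℝ}
  {R : (x : P) → TangentSpace 𝓘(ℝ, E) x} {Fl : P → ℝ → P}

attribute [local irreducible] S A

/-- For large `k` every critical pair is a translated point. -/
theorem translated_of_crit [T2Space P] [CompactSpace P] [Nonempty P] (c : CD β R) (h : RF β R Fl)
    {n : ℕ} {f g : Fin n → P → ℝ}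
    (hf : ∀ i, ContMDiff 𝓘(ℝ, E) 𝓘(ℝ, ℝ) ∞ (f i))
    (hg : ∀ i, ContMDiff 𝓘(ℝ, E) 𝓘(ℝ, ℝ) ∞ (g i))
    (hrep : ∀ (x : P) (v : TangentSpace 𝓘(ℝ, E) x),
        β x v = ∑ i, f i x * dForm 𝓘(ℝ, E) (g i) x v)
    {e : P → F} (he : ContMDiff 𝓘(ℝ, E) 𝓘(ℝ, F) ∞ e) (hinj : Function.Injective e)
    (himm : ∀ x, Function.Injective (mfderiv 𝓘(ℝ, E) 𝓘(ℝ, F) e x))
    {η : ℕ → P → P} (hη : ∀ k, St β (η k))
    {τ : ℕ → P → ℝ} {δ : ℝ}
    (hw : ∀ᶠ k in atTop, GWin f g R (fun x t => Fl (η k x) t) (τ k) δ)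
    (hconv : ∀ ε > 0, ∀ᶠ k in atTop, ∀ x, ‖e (Fl (η k x) (τ k x)) - e x‖ < ε)
    {C : ℝ}
    (hmod : ∀ᶠ k in atTop, ∀ (x : P), ∃ lam : E →L[ℝ] ℝ, ∀ (v : E),
      ‖dv E e (Fl (η k x) (τ k x)) (dm E (fun y => Fl (η k y) (τ k x)) x v) +
        lam v • dv E e (Fl (η k x) (τ k x)) (R (Fl (η k x) (τ k x)))‖ ≤ C * ‖dv E e x v‖ ∧
      ‖dv E e x v‖ ≤ C * ‖dv E e (Fl (η k x) (τ k x)) (dm E (fun y => Fl (η k y) (τ k x)) x v) +
        lam v • dv E e (Fl (η k x) (τ k x)) (R (Fl (η k x) (τ k x))) + dv E e x v‖) :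
    ∀ᶠ k in atTop, ∀ (x : P) (t : ℝ), t - τ k x ∈ Icc (-δ) δ →
      Crit f g (fun x t => Fl (η k x) t) x t → Fl (η k x) t = x := by
  by_contra hcon
  have hfreq : ∃ᶠ k in atTop, ∃ (q : P × ℝ), q.2 - τ k q.1 ∈ Icc (-δ) δ ∧
      Crit f g (fun x t => Fl (η k x) t) q.1 q.2 ∧ Fl (η k q.1) q.2 ≠ q.1 := by
    rw [Filter.not_eventually] at hcon
    refine hcon.mono fun k hk => ?_
    push Not at hk
    obtain ⟨x, t, h1, h2, h3⟩ := hk
    exact ⟨(x, t), h1, h2, h3⟩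
  have hne : NeBot (atTop ⊓ 𝓟 {k | ∃ (q : P × ℝ), q.2 - τ k q.1 ∈ Icc (-δ) δ ∧
      Crit f g (fun x t => Fl (η k x) t) q.1 q.2 ∧ Fl (η k q.1) q.2 ≠ q.1}) :=
    Filter.frequently_iff_neBot.1 hfreq
  obtain ⟨l, hl⟩ : ∃ l : Ultrafilter ℕ, (l : Filter ℕ) ≤ atTop ⊓ 𝓟 {k | ∃ (q : P × ℝ),
      q.2 - τ k q.1 ∈ Icc (-δ) δ ∧ Crit f g (fun x t => Fl (η k x) t) q.1 q.2 ∧
      Fl (η k q.1) q.2 ≠ q.1} :=
    ⟨_, Ultrafilter.of_le _⟩
  have hlt : (l : Filter ℕ) ≤ atTop := hl.trans inf_le_left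
  have hlb : ∀ᶠ k in (l : Filter ℕ), ∃ (q : P × ℝ), q.2 - τ k q.1 ∈ Icc (-δ) δ ∧
      Crit f g (fun x t => Fl (η k x) t) q.1 q.2 ∧ Fl (η k q.1) q.2 ≠ q.1 :=
    le_principal_iff.1 (hl.trans inf_le_right)
  have hmax : ∀ k, ∃ (q : P × ℝ), (∃ (q : P × ℝ), q.2 - τ k q.1 ∈ Icc (-δ) δ ∧
      Crit f g (fun x t => Fl (η k x) t) q.1 q.2 ∧ Fl (η k q.1) q.2 ≠ q.1) →
      (q.2 - τ k q.1 ∈ Icc (-δ) δ ∧ Crit f g (fun x t => Fl (η k x) t) q.1 q.2 ∧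
        Fl (η k q.1) q.2 ≠ q.1) := by
    intro k
    by_cases hk : ∃ (q : P × ℝ), q.2 - τ k q.1 ∈ Icc (-δ) δ ∧
      Crit f g (fun x t => Fl (η k x) t) q.1 q.2 ∧ Fl (η k q.1) q.2 ≠ q.1
    · obtain ⟨q, hq⟩ := hk
      exact ⟨q, fun _ => hq⟩
    · obtain ⟨z₀⟩ := (inferInstance : Nonempty P)
      exact ⟨(z₀, 0), fun h' => absurd h' hk⟩
  choose q hq using hmax
  obtain ⟨x, t, hqx, hqt⟩ : ∃ (x : ℕ → P) (t : ℕ → ℝ), (∀ k, (q k).1 = x k) ∧
      (∀ k, (q k).2 = t k) := ⟨_, _, fun _ => rfl, fun _ => rfl⟩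
  simp only [hqx, hqt] at hq
  have hqe := hlb.mono fun k hk => hq k hk
  have hFc : Continuous (fun p : P × ℝ => Fl p.1 p.2) := h.smooth.continuous
  have hSc := continuous_S (fun i => (hf i).continuous) (fun i => (hg i).continuous)
  obtain ⟨y', hy'⟩ : ∃ y' : ℕ → P, ∀ k, y' k = Fl (η k (x k)) (τ k (x k)) := ⟨_, fun _ => rfl⟩
  obtain ⟨s, hs⟩ : ∃ s : ℕ → ℝ, ∀ k, s k = t k - τ k (x k) := ⟨_, fun _ => rfl⟩
  obtain ⟨y, hy⟩ : ∃ y : ℕ → P, ∀ k, y k = Fl (η k (x k)) (t k) := ⟨_, fun _ => rfl⟩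
  obtain ⟨x₀, hx₀⟩ := exists_limit_compact l x
  obtain ⟨y₀, hy₀⟩ := exists_limit_compact l y'
  have hxy₀ : y₀ = x₀ := by
    apply hinj
    have h1 : Tendsto (fun k => e (y' k) - e (x k)) l (𝓝 0) := by
      rw [tendsto_zero_iff_norm_tendsto_zero]
      refine Metric.tendsto_nhds.2 fun η hη => ?_
      filter_upwards [(hconv η hη).filter_mono hlt] with k hk
      rw [dist_zero_right, norm_norm, hy']
      exact hk _
    have h2 : Tendsto (fun k => e (y' k) - e (x k)) l (𝓝 (e y₀ - e x₀)) :=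
      ((he.continuous.tendsto y₀).comp hy₀).sub ((he.continuous.tendsto x₀).comp hx₀)
    exact sub_eq_zero.1 (tendsto_nhds_unique h2 h1)
  rw [hxy₀] at hy₀
  have hs0 : Tendsto s l (𝓝 0) := by
    have h1 : Tendsto (fun k => S f g (x k) (y' k)) l (𝓝 (S f g x₀ x₀)) :=
      (hSc.tendsto (x₀, x₀)).comp (hx₀.prodMk_nhds hy₀)
    rw [S_self] at h1
    have h2 : Tendsto (fun k => 2 * |S f g (x k) (y' k)|) l (𝓝 0) := by
      have := h1.abs.const_mul 2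
      simpa using this
    refine squeeze_zero_norm' ?_ h2
    filter_upwards [hqe, hw.filter_mono hlt] with k hk hwk
    rw [hs, hy', Real.norm_eq_abs]
    refine hwk.bound hk.1 ?_
    rw [show τ k (x k) + (t k - τ k (x k)) = t k by ring]
    exact hk.2.1.1
  have hst : ∀ k, τ k (x k) + s k = t k := fun k => by rw [hs]; ring
  have hyk : ∀ k, y k = Fl (y' k) (s k) := by
    intro k
    rw [hy, hy', ← h.add, hst]
  have hy0 : Tendsto y l (𝓝 x₀) := by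
    have h1 : Tendsto (fun k => Fl (y' k) (s k)) l (𝓝 (Fl x₀ 0)) :=
      (hFc.tendsto (x₀, 0)).comp (hy₀.prodMk_nhds hs0)
    rw [h.zero] at h1
    exact h1.congr fun k => (hyk k).symm
  refine no_limit_map c h hf hg hrep he himm l (ψ := fun k z => Fl (η k z) (τ k (x k)))
    (fun k => (hη k).comp (St.flow h (τ k (x k)))) hx₀ hy₀ hy0 hs0
    hy' hyk ?_ ?_ ?_ (C := C) ?_
  · filter_upwards [hqe] with k hk
    rw [hy]
    exact hk.2.2
  · filter_upwards [hqe] with k hk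
    rw [hy]
    exact hk.2.1.1
  · filter_upwards [hqe] with k hk γ hγ hγ0 d hd
    refine hk.2.1.2 γ hγ hγ0 d ?_
    simp only [← h.add, hst] at hd
    exact hd
  · filter_upwards [hmod.filter_mono hlt] with k hk
    have := hk (x k)
    rw [← hy'] at this
    exact this

/-- **Core theorem**: translated points. -/
theorem root_core [T2Space P] [CompactSpace P] [Nonempty P]
    (c : CD β R) (h : RF β R Fl)
    {e : P → F} (he : ContMDiff 𝓘(ℝ, E) 𝓘(ℝ, F) ∞ e) (hinj : Function.Injective e)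
    (himm : ∀ x, Function.Injective (mfderiv 𝓘(ℝ, E) 𝓘(ℝ, F) e x))
    {η : ℕ → P → P} (hη : ∀ k, St β (η k))
    {τ : ℕ → P → ℝ} (hτ : ∀ k, Continuous (τ k))
    (hconv : ∀ ε > 0, ∀ᶠ k in atTop, ∀ x, ‖e (Fl (η k x) (τ k x)) - e x‖ < ε) {C : ℝ}
    (hmod : ∀ᶠ k in atTop, ∀ (x : P), ∃ lam : E →L[ℝ] ℝ, ∀ (v : E),
      ‖dv E e (Fl (η k x) (τ k x)) (dm E (fun y => Fl (η k y) (τ k x)) x v) +
        lam v • dv E e (Fl (η k x) (τ k x)) (R (Fl (η k x) (τ k x)))‖ ≤ C * ‖dv E e x v‖ ∧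
      ‖dv E e x v‖ ≤ C * ‖dv E e (Fl (η k x) (τ k x)) (dm E (fun y => Fl (η k y) (τ k x)) x v) +
        lam v • dv E e (Fl (η k x) (τ k x)) (R (Fl (η k x) (τ k x))) + dv E e x v‖) :
    ∀ᶠ k in atTop, ∃ (x₁ : P) (t₁ : ℝ) (x₂ : P) (t₂ : ℝ), Fl (η k x₁) t₁ = x₁ ∧
      Fl (η k x₂) t₂ = x₂ ∧ (t₁ = t₂ → ∀ x, Fl (η k x) t₁ = x) := by
  obtain ⟨m, e₀, he₀, -, hinj₀⟩ := exists_embedding_euclidean_of_compact (I := 𝓘(ℝ, E)) (M := P)
  obtain ⟨f, hf, hrep⟩ := exists_rep (⟨e₀, he₀, hinj₀⟩ : Imm (E := E) P m) c.contact.smooth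
  obtain ⟨g, hg, hrep⟩ : ∃ g : Fin m → P → ℝ, (∀ i, ContMDiff 𝓘(ℝ, E) 𝓘(ℝ, ℝ) ∞ (g i)) ∧
      ∀ (x : P) (v : TangentSpace 𝓘(ℝ, E) x),
        β x v = ∑ i, f i x * dForm 𝓘(ℝ, E) (g i) x v :=
    ⟨_, fun i => smooth_coord _ i, hrep⟩
  have hFc : Continuous (fun p : P × ℝ => Fl p.1 p.2) := h.smooth.continuous
  obtain ⟨δ, hδ, hδc, ε, hε, hwin⟩ := exists_window (c := (1:ℝ)) hf hg (smooth_reeb c)
    c.reeb.unit hrep h.zero hFc he.continuous hinj one_pos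
  have hw : ∀ᶠ k in atTop, GWin f g R (fun x t => Fl (η k x) t) (τ k) δ := by
    filter_upwards [hconv ε hε] with k hk
    exact ⟨hf, hg, fun x => h.int (η k x),
      hFc.comp (((hη k).smooth.continuous.comp continuous_fst).prodMk continuous_snd),
      hτ k, hδ,
      fun x s hs => by
        have := (hwin x _ (hk x)).1 s hs
        rwa [← h.add] at this,
      fun x => (hwin x _ (hk x)).2⟩
  filter_upwards [hw, translated_of_crit c h hf hg hrep he hinj himm hη hw hconv hmod]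
    with k hwk hclosed
  obtain ⟨x₁, s₁, x₂, s₂, hs₁, hs₂, hc₁, hc₂, heq⟩ := hwk.exists_extrema
  have hm₁ : τ k x₁ + s₁ - τ k x₁ ∈ Icc (-δ) δ := by rw [add_sub_cancel_left]; exact hs₁
  have hm₂ : τ k x₂ + s₂ - τ k x₂ ∈ Icc (-δ) δ := by rw [add_sub_cancel_left]; exact hs₂
  exact ⟨x₁, _, x₂, _, hclosed x₁ _ hm₁ hc₁, hclosed x₂ _ hm₂ hc₂,
    fun hT x => hclosed x _ (heq hT x).1 (heq hT x).2⟩

/-- iterates of a strict contact map at a translated point -/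
lemma iterate_translated [T2Space P] (c : CD β R) (h : RF β R Fl) {η : P → P} (hη : St β η)
    {x : P} {t : ℝ} (hx : Fl (η x) t = x) (n : ℕ) : η^[n] x = Fl x (-(n * t)) := by
  have h1 : η x = Fl x (-t) := by
    have h2 : Fl (Fl (η x) t) (-t) = Fl x (-t) := by rw [hx]
    rw [← h.add, add_neg_cancel, h.zero] at h2
    exact h2
  induction n with
  | zero => simp [h.zero]
  | succ n ih =>
    rw [Function.iterate_succ_apply', ih, hη.comm c h, h1, ← h.add]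
    congr 1
    push_cast
    ring

end Pool.Agent.R774.Root
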