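import Mathlib
import Pool.Agent.R774.Root4

/-! Maps read in two charts. -/

open scoped Topology ContDiff Manifold
open Set Metric Bundle Filter Pool.Agent.Helper186 Pool.Agent.H826R2.Wein Pool.Agent.W671.WU
open Pool.Agent.R774.Root

noncomputable section

namespace Pool.Agent.R774.Hyp

set_option linter.unusedSectionVars false

universe u

variable {E : Type u} [NormedAddCommGroup E] [NormedSpace ℝ E] [FiniteDimensional ℝ E]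
  {P : Type*} [TopologicalSpace P] [ChartedSpace E P] [IsManifold 𝓘(ℝ, E) ∞ P]
  {F : Type*} [NormedAddCommGroup F] [NormedSpace ℝ F]
  {β : (x : P) → TangentSpace 𝓘(ℝ, E) x →L[ℝ] ℝ}
  {R : (x : P) → TangentSpace 𝓘(ℝ, E) x} {Fl : P → ℝ → P}

/-- a map in the charts at `a` and `b` -/
def ch2 (a b : P) (φ : P → P) (p : E) : E :=
  extChartAt 𝓘(ℝ, E) b (φ ((extChartAt 𝓘(ℝ, E) a).symm p))

lemma ch2_smooth (a b : P) {φ : P → P} (hφ : ContMDiff 𝓘(ℝ, E) 𝓘(ℝ, E) ∞ φ) {p : E}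
    (hp : p ∈ (extChartAt 𝓘(ℝ, E) a).target)
    (hφp : φ ((extChartAt 𝓘(ℝ, E) a).symm p) ∈ (extChartAt 𝓘(ℝ, E) b).source) :
    ContDiffAt ℝ ∞ (ch2 a b φ) p := by
  rw [← contMDiffAt_iff_contDiffAt]
  have h1 : ContMDiffAt 𝓘(ℝ, E) 𝓘(ℝ, E) ∞ (fun p => φ ((extChartAt 𝓘(ℝ, E) a).symm p)) p :=
    (hφ _).comp p ((contMDiffOn_extChartAt_symm a).contMDiffAt
      ((isOpen_extChartAt_target a).mem_nhds hp))
  rw [extChartAt_source] at hφp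
  exact (contMDiffAt_extChartAt' hφp).comp p h1

/-- chain rule -/
lemma fderiv_ch2_comp (a b d : P) {φ₁ φ₂ : P → P} (h1 : ContMDiff 𝓘(ℝ, E) 𝓘(ℝ, E) ∞ φ₁)
    (h2 : ContMDiff 𝓘(ℝ, E) 𝓘(ℝ, E) ∞ φ₂) {p : E}
    (hp : p ∈ (extChartAt 𝓘(ℝ, E) a).target)
    (hp2 : φ₁ ((extChartAt 𝓘(ℝ, E) a).symm p) ∈ (extChartAt 𝓘(ℝ, E) b).source)
    (hp3 : φ₂ (φ₁ ((extChartAt 𝓘(ℝ, E) a).symm p)) ∈ (extChartAt 𝓘(ℝ, E) d).source) :
    fderiv ℝ (ch2 a d (fun x => φ₂ (φ₁ x))) p =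
      (fderiv ℝ (ch2 b d φ₂) (ch2 a b φ₁ p)).comp (fderiv ℝ (ch2 a b φ₁) p) := by
  have hct : ch2 a b φ₁ p ∈ (extChartAt 𝓘(ℝ, E) b).target :=
    (extChartAt 𝓘(ℝ, E) b).map_source hp2
  have hcs : (extChartAt 𝓘(ℝ, E) b).symm (ch2 a b φ₁ p) =
      φ₁ ((extChartAt 𝓘(ℝ, E) a).symm p) := (extChartAt 𝓘(ℝ, E) b).left_inv hp2
  have h3 : HasFDerivAt (ch2 a b φ₁) (fderiv ℝ (ch2 a b φ₁) p) p :=
    ((ch2_smooth a b h1 hp hp2).differentiableAt (by simp)).hasFDerivAt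
  have h4 : HasFDerivAt (ch2 b d φ₂) (fderiv ℝ (ch2 b d φ₂) (ch2 a b φ₁ p)) (ch2 a b φ₁ p) := by
    refine ((ch2_smooth b d h2 hct ?_).differentiableAt (by simp)).hasFDerivAt
    rw [hcs]
    exact hp3
  have h5 := h4.comp p h3
  have hFc : ContinuousAt (fun p => φ₁ ((extChartAt 𝓘(ℝ, E) a).symm p)) p :=
    h1.continuous.continuousAt.comp
      ((continuousOn_extChartAt_symm a).continuousAt ((isOpen_extChartAt_target a).mem_nhds hp))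
  have e1 : (ch2 a d (fun x => φ₂ (φ₁ x))) =ᶠ[𝓝 p] (ch2 b d φ₂) ∘ (ch2 a b φ₁) := by
    filter_upwards [hFc.eventually ((isOpen_extChartAt_source b).mem_nhds hp2)] with p' hp'
    show extChartAt 𝓘(ℝ, E) d (φ₂ (φ₁ ((extChartAt 𝓘(ℝ, E) a).symm p'))) =
      extChartAt 𝓘(ℝ, E) d (φ₂ ((extChartAt 𝓘(ℝ, E) b).symm
        (extChartAt 𝓘(ℝ, E) b (φ₁ ((extChartAt 𝓘(ℝ, E) a).symm p')))))
    rw [(extChartAt 𝓘(ℝ, E) b).left_inv hp']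
  rw [e1.fderiv_eq, h5.fderiv]

/-- the derivative of a map in charts -/
lemma tangent_ch2 (a b : P) {φ : P → P} (hφ : ContMDiff 𝓘(ℝ, E) 𝓘(ℝ, E) ∞ φ) {p : E}
    (hp : p ∈ (extChartAt 𝓘(ℝ, E) a).target)
    (hφp : φ ((extChartAt 𝓘(ℝ, E) a).symm p) ∈ (extChartAt 𝓘(ℝ, E) b).source) (v : E) :
    (⟨(extChartAt 𝓘(ℝ, E) b).symm (ch2 a b φ p),
        ds b (ch2 a b φ p) (fderiv ℝ (ch2 a b φ) p v)⟩ : TangentBundle 𝓘(ℝ, E) P) =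
      ⟨φ ((extChartAt 𝓘(ℝ, E) a).symm p),
        mfderiv 𝓘(ℝ, E) 𝓘(ℝ, E) φ ((extChartAt 𝓘(ℝ, E) a).symm p) (ds a p v)⟩ := by
  have hψc : ContinuousAt (fun p => φ ((extChartAt 𝓘(ℝ, E) a).symm p)) p := by
    exact hφ.continuous.continuousAt.comp ((continuousOn_extChartAt_symm a).continuousAt
      ((isOpen_extChartAt_target a).mem_nhds hp))
  have e1 : ((extChartAt 𝓘(ℝ, E) b).symm ∘ ch2 a b φ) =ᶠ[𝓝 p]
      (φ ∘ (extChartAt 𝓘(ℝ, E) a).symm) := by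
    filter_upwards [hψc.eventually ((isOpen_extChartAt_source b).mem_nhds hφp)] with p' hp'
    exact (extChartAt 𝓘(ℝ, E) b).left_inv hp'
  have e2 := tangentMap_congr_of_eventuallyEq (J := 𝓘(ℝ, E)) (I := 𝓘(ℝ, E))
    (v := (⟨p, v⟩ : TangentBundle 𝓘(ℝ, E) E)) e1
  have hc : ch2 a b φ p ∈ (extChartAt 𝓘(ℝ, E) b).target := (extChartAt 𝓘(ℝ, E) b).map_source hφp
  have e3 : tangentMap 𝓘(ℝ, E) 𝓘(ℝ, E) ((extChartAt 𝓘(ℝ, E) b).symm ∘ ch2 a b φ)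
      (⟨p, v⟩ : TangentBundle 𝓘(ℝ, E) E) =
      tangentMap 𝓘(ℝ, E) 𝓘(ℝ, E) (extChartAt 𝓘(ℝ, E) b).symm
        (tangentMap 𝓘(ℝ, E) 𝓘(ℝ, E) (ch2 a b φ) ⟨p, v⟩) := by
    apply tangentMap_comp_at
    · exact mdiff_symm b hc
    · exact (contMDiffAt_iff_contDiffAt.2 (ch2_smooth a b hφ hp hφp)).mdifferentiableAt (by simp)
  have e4 : tangentMap 𝓘(ℝ, E) 𝓘(ℝ, E) (φ ∘ (extChartAt 𝓘(ℝ, E) a).symm)
      (⟨p, v⟩ : TangentBundle 𝓘(ℝ, E) E) =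
      tangentMap 𝓘(ℝ, E) 𝓘(ℝ, E) φ
        (tangentMap 𝓘(ℝ, E) 𝓘(ℝ, E) (extChartAt 𝓘(ℝ, E) a).symm ⟨p, v⟩) := by
    apply tangentMap_comp_at
    · exact hφ.mdifferentiableAt (by simp)
    · exact mdiff_symm a hp
  rw [e3, e4] at e2
  simp only [tangentMap, mfderiv_eq_fderiv] at e2
  exact e2

lemma chartForm_ch2 (a b : P) {φ : P → P} (hφ : St β φ) {p : E}
    (hp : p ∈ (extChartAt 𝓘(ℝ, E) a).target)
    (hφp : φ ((extChartAt 𝓘(ℝ, E) a).symm p) ∈ (extChartAt 𝓘(ℝ, E) b).source) (v : E) :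
    chartForm 𝓘(ℝ, E) β b (ch2 a b φ p) (fderiv ℝ (ch2 a b φ) p v) =
      chartForm 𝓘(ℝ, E) β a p v := by
  have h1 := tangent_ch2 a b hφ.smooth hp hφp v
  have h2 := form_congr' β h1
  have h3 : chartForm 𝓘(ℝ, E) β a p v =
      β ((extChartAt 𝓘(ℝ, E) a).symm p) (ds a p v) := rfl
  rw [h3, ← hφ.strict]
  exact h2

lemma fderiv_cf_ch2 (a b : P) {g : P → F} (hg : ContMDiff 𝓘(ℝ, E) 𝓘(ℝ, F) ∞ g) {φ : P → P}
    (hφ : ContMDiff 𝓘(ℝ, E) 𝓘(ℝ, E) ∞ φ) {p : E}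
    (hp : p ∈ (extChartAt 𝓘(ℝ, E) a).target)
    (hφp : φ ((extChartAt 𝓘(ℝ, E) a).symm p) ∈ (extChartAt 𝓘(ℝ, E) b).source) (v : E) :
    fderiv ℝ (cf b g) (ch2 a b φ p) (fderiv ℝ (ch2 a b φ) p v) =
      mfderiv 𝓘(ℝ, E) 𝓘(ℝ, F) g (φ ((extChartAt 𝓘(ℝ, E) a).symm p))
        (mfderiv 𝓘(ℝ, E) 𝓘(ℝ, E) φ ((extChartAt 𝓘(ℝ, E) a).symm p) (ds a p v)) := by
  have hc : ch2 a b φ p ∈ (extChartAt 𝓘(ℝ, E) b).target := (extChartAt 𝓘(ℝ, E) b).map_source hφp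
  rw [fderiv_cf b hg hc]
  have h1 := tangent_ch2 a b hφ hp hφp v
  have h2 : ∀ {v w : TangentBundle 𝓘(ℝ, E) P} (_ : v = w),
      mfderiv 𝓘(ℝ, E) 𝓘(ℝ, F) g v.1 v.2 = mfderiv 𝓘(ℝ, E) 𝓘(ℝ, F) g w.1 w.2 := by
    rintro _ _ rfl; rfl
  exact h2 h1

/-- a map commuting with the flow preserves the field, in charts -/
lemma Rc_ch2 (h : RF β R Fl) {φ : P → P} (hφ : ContMDiff 𝓘(ℝ, E) 𝓘(ℝ, E) ∞ φ)
    (hc : ∀ x s, φ (Fl x s) = Fl (φ x) s) (a b : P) {p : E}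
    (hp : p ∈ (extChartAt 𝓘(ℝ, E) a).target)
    (hp2 : φ ((extChartAt 𝓘(ℝ, E) a).symm p) ∈ (extChartAt 𝓘(ℝ, E) b).source) :
    fderiv ℝ (ch2 a b φ) p (RF.Rc Fl a p) = RF.Rc Fl b (ch2 a b φ p) := by
  have hq2 : Fl ((extChartAt 𝓘(ℝ, E) a).symm p) 0 ∈ (extChartAt 𝓘(ℝ, E) a).source := by
    rw [h.zero]
    exact (extChartAt 𝓘(ℝ, E) a).map_target hp
  have hd : HasDerivAt (fun s => RF.H Fl a (p, s)) (RF.Rc Fl a p) 0 := h.hasDerivAt_H a hp hq2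
  have hct : ch2 a b φ p ∈ (extChartAt 𝓘(ℝ, E) b).target := (extChartAt 𝓘(ℝ, E) b).map_source hp2
  have hcs : (extChartAt 𝓘(ℝ, E) b).symm (ch2 a b φ p) = φ ((extChartAt 𝓘(ℝ, E) a).symm p) :=
    (extChartAt 𝓘(ℝ, E) b).left_inv hp2
  have hd2 : HasDerivAt (fun s => RF.H Fl b (ch2 a b φ p, s))
      (RF.Rc Fl b (ch2 a b φ p)) 0 := by
    refine h.hasDerivAt_H b hct ?_
    rw [hcs, h.zero]
    exact hp2
  have hΨ : HasFDerivAt (ch2 a b φ) (fderiv ℝ (ch2 a b φ) p)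
      (RF.H Fl a (p, 0)) := by
    rw [h.H_zero a hp]
    exact ((ch2_smooth a b hφ hp hp2).differentiableAt (by simp)).hasFDerivAt
  have hd3 := hΨ.comp_hasDerivAt (0:ℝ) hd
  have hFc : Continuous (Fl ((extChartAt 𝓘(ℝ, E) a).symm p)) :=
    h.smooth.continuous.comp (continuous_const.prodMk continuous_id)
  have e1 : ((ch2 a b φ) ∘ fun s => RF.H Fl a (p, s)) =ᶠ[𝓝 0]
      (fun s => RF.H Fl b (ch2 a b φ p, s)) := by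
    filter_upwards [hFc.continuousAt.eventually ((isOpen_extChartAt_source a).mem_nhds hq2)]
      with s hs
    show extChartAt 𝓘(ℝ, E) b (φ ((extChartAt 𝓘(ℝ, E) a).symm
      (extChartAt 𝓘(ℝ, E) a (Fl ((extChartAt 𝓘(ℝ, E) a).symm p) s)))) =
      extChartAt 𝓘(ℝ, E) b (Fl ((extChartAt 𝓘(ℝ, E) b).symm (ch2 a b φ p)) s)
    rw [(extChartAt 𝓘(ℝ, E) a).left_inv hs, hcs, hc]
  exact hd3.unique (hd2.congr_of_eventuallyEq e1)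

/-- the derivative on the manifold is the derivative in the preferred charts -/
lemma dm_eq {φ : P → P} (hφ : ContMDiff 𝓘(ℝ, E) 𝓘(ℝ, E) ∞ φ) (y : P) :
    dm E φ y = fderiv ℝ (ch2 y (φ y) φ) (extChartAt 𝓘(ℝ, E) y y) := by
  have h1 : MDifferentiableAt 𝓘(ℝ, E) 𝓘(ℝ, E) φ y := hφ.mdifferentiableAt (by simp)
  ext v
  unfold dm
  simp only [mfderiv, h1, if_true]
  simp only [modelWithCornersSelf_coe, range_id, fderivWithin_univ]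
  rfl

/-- the identity in one chart -/
lemma fderiv_ch2_id (a : P) {p : E} (hp : p ∈ (extChartAt 𝓘(ℝ, E) a).target) :
    fderiv ℝ (ch2 a a (fun x => x)) p = ContinuousLinearMap.id ℝ E := by
  have e1 : ch2 a a (fun x : P => x) =ᶠ[𝓝 p] id := by
    filter_upwards [(isOpen_extChartAt_target a).mem_nhds hp] with p' hp'
    exact (extChartAt 𝓘(ℝ, E) a).right_inv hp'
  rw [e1.fderiv_eq, fderiv_id]

end Pool.Agent.R774.Hyp
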