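import Mathlib
import Pool.Agent.R774.Cl1

/-! A map composed with a smooth family of maps, in charts: derivatives at the parameter zero. -/

open scoped Topology ContDiff Manifold
open Set Metric Filter

noncomputable section

set_option linter.unusedSectionVars false

namespace Pool.Agent.R774.Cl

section

variable {E₁ E₂ E₃ : Type*} [NormedAddCommGroup E₁] [NormedSpace ℝ E₁] [NormedAddCommGroup E₂]
  [NormedSpace ℝ E₂] [NormedAddCommGroup E₃] [NormedSpace ℝ E₃]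
  {M₁ M₂ M₃ : Type*} [TopologicalSpace M₁] [ChartedSpace E₁ M₁] [TopologicalSpace M₂]
  [ChartedSpace E₂ M₂] [TopologicalSpace M₃] [ChartedSpace E₃ M₃]

variable (E₁ E₂) in
/-- The derivative of `f` at `x`, a linear map between the model spaces (which are also the tangent
spaces). -/
def dr (f : M₁ → M₂) (x : M₁) : E₁ →L[ℝ] E₂ := mfderiv 𝓘(ℝ, E₁) 𝓘(ℝ, E₂) f x

lemma dr_comp {g : M₂ → M₃} {f : M₁ → M₂} {x : M₁}
    (hg : MDifferentiableAt 𝓘(ℝ, E₂) 𝓘(ℝ, E₃) g (f x))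
    (hf : MDifferentiableAt 𝓘(ℝ, E₁) 𝓘(ℝ, E₂) f x) :
    dr E₁ E₃ (fun y => g (f y)) x = (dr E₂ E₃ g (f x)).comp (dr E₁ E₂ f x) :=
  mfderiv_comp x hg hf

lemma dr_eq_fderiv (f : E₁ → E₂) (x : E₁) : dr E₁ E₂ f x = fderiv ℝ f x := mfderiv_eq_fderiv

lemma dr_congr {f g : M₁ → M₂} {x : M₁} (h : f =ᶠ[𝓝 x] g) : dr E₁ E₂ f x = dr E₁ E₂ g x :=
  h.mfderiv_eq

end

universe u v

variable {E : Type u} [NormedAddCommGroup E] [NormedSpace ℝ E] [FiniteDimensional ℝ E]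
  {T : Type v} [NormedAddCommGroup T] [NormedSpace ℝ T] [FiniteDimensional ℝ T]
  {N : Type*} [TopologicalSpace N] [ChartedSpace E N] [IsManifold 𝓘(ℝ, E) ∞ N]
  {F : Type*} [NormedAddCommGroup F] [NormedSpace ℝ F]

/-- the derivative of the chart -/
def th (a x : N) : E →L[ℝ] E := dr E E (extChartAt 𝓘(ℝ, E) a) x

lemma one_ne : (1 : WithTop ℕ∞) ≠ 0 := one_ne_zero

instance man1 : IsManifold 𝓘(ℝ, E) 1 N := IsManifold.of_le (n := ∞) (by simp)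

lemma md_ext {a x : N} (hx : x ∈ (extChartAt 𝓘(ℝ, E) a).source) :
    MDifferentiableAt 𝓘(ℝ, E) 𝓘(ℝ, E) (extChartAt 𝓘(ℝ, E) a) x :=
  mdifferentiableAt_extChartAt (by rwa [extChartAt_source] at hx)

lemma cmd_symm (a : N) {p : E} (hp : p ∈ (extChartAt 𝓘(ℝ, E) a).target) :
    ContMDiffAt 𝓘(ℝ, E) 𝓘(ℝ, E) 1 (extChartAt 𝓘(ℝ, E) a).symm p :=
  (contMDiffOn_extChartAt_symm a).contMDiffAt ((isOpen_extChartAt_target a).mem_nhds hp)

lemma cmd_ext {a x : N} (hx : x ∈ (extChartAt 𝓘(ℝ, E) a).source) :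
    ContMDiffAt 𝓘(ℝ, E) 𝓘(ℝ, E) 1 (extChartAt 𝓘(ℝ, E) a) x := by
  rw [extChartAt_source] at hx
  exact contMDiffAt_extChartAt' hx

lemma th_inv {a x : N} (hx : x ∈ (extChartAt 𝓘(ℝ, E) a).source) :
    (mfderiv 𝓘(ℝ, E) 𝓘(ℝ, E) (extChartAt 𝓘(ℝ, E) a) x).IsInvertible :=
  isInvertible_mfderiv_extChartAt hx

lemma th_inj {a x : N} (hx : x ∈ (extChartAt 𝓘(ℝ, E) a).source) {v : E} (h : th a x v = 0) :
    v = 0 := by
  have h1 := (th_inv hx).injective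
  apply h1
  exact h.trans (map_zero (th a x)).symm

lemma th_surj {a x : N} (hx : x ∈ (extChartAt 𝓘(ℝ, E) a).source) (z : E) :
    ∃ v : E, th a x v = z := (th_inv hx).surjective z

lemma chart_comp {f : N → N} (hf : ContMDiff 𝓘(ℝ, E) 𝓘(ℝ, E) 1 f) {a b x : N}
    (hx : x ∈ (extChartAt 𝓘(ℝ, E) a).source) (hfx : f x ∈ (extChartAt 𝓘(ℝ, E) b).source) (v : E) :
    fderiv ℝ (fun p => extChartAt 𝓘(ℝ, E) b (f ((extChartAt 𝓘(ℝ, E) a).symm p)))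
      (extChartAt 𝓘(ℝ, E) a x) (th a x v) = th b (f x) (dr E E f x v) := by
  have hs := (extChartAt 𝓘(ℝ, E) a).left_inv hx
  have h1 : dr E E (fun y => extChartAt 𝓘(ℝ, E) b (f y)) x =
      (th b (f x)).comp (dr E E f x) := dr_comp (md_ext hfx) (hf.mdifferentiableAt one_ne)
  have hch : MDifferentiableAt 𝓘(ℝ, E) 𝓘(ℝ, E)
      (fun p => extChartAt 𝓘(ℝ, E) b (f ((extChartAt 𝓘(ℝ, E) a).symm p)))
      (extChartAt 𝓘(ℝ, E) a x) := by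
    have h2 : MDifferentiableAt 𝓘(ℝ, E) 𝓘(ℝ, E) (fun p => f ((extChartAt 𝓘(ℝ, E) a).symm p))
        (extChartAt 𝓘(ℝ, E) a x) :=
      MDifferentiableAt.comp (g := f) _ (hf.mdifferentiableAt one_ne)
        ((cmd_symm a ((extChartAt 𝓘(ℝ, E) a).map_source hx)).mdifferentiableAt one_ne)
    refine MDifferentiableAt.comp (g := extChartAt 𝓘(ℝ, E) b) _ (md_ext ?_) h2
    rw [hs]
    exact hfx
  have h2 := dr_comp (E₁ := E) (E₂ := E) (E₃ := E)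
    (g := fun p => extChartAt 𝓘(ℝ, E) b (f ((extChartAt 𝓘(ℝ, E) a).symm p)))
    (f := extChartAt 𝓘(ℝ, E) a) (x := x) hch (md_ext hx)
  have h3 : (fun y => extChartAt 𝓘(ℝ, E) b (f y)) =ᶠ[𝓝 x] (fun y =>
      extChartAt 𝓘(ℝ, E) b (f ((extChartAt 𝓘(ℝ, E) a).symm (extChartAt 𝓘(ℝ, E) a y)))) := by
    filter_upwards [(isOpen_extChartAt_source a).mem_nhds hx] with y hy
    rw [(extChartAt 𝓘(ℝ, E) a).left_inv hy]
  rw [← dr_congr h3, h1, dr_eq_fderiv] at h2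
  exact (DFunLike.congr_fun h2 v).symm

lemma chart_comp_e {e : N → F} (he : ContMDiff 𝓘(ℝ, E) 𝓘(ℝ, F) 1 e) {a x : N}
    (hx : x ∈ (extChartAt 𝓘(ℝ, E) a).source) (v : E) :
    fderiv ℝ (fun p => e ((extChartAt 𝓘(ℝ, E) a).symm p))
      (extChartAt 𝓘(ℝ, E) a x) (th a x v) = dr E F e x v := by
  have hs := (extChartAt 𝓘(ℝ, E) a).left_inv hx
  have hch : MDifferentiableAt 𝓘(ℝ, E) 𝓘(ℝ, F)
      (fun p => e ((extChartAt 𝓘(ℝ, E) a).symm p)) (extChartAt 𝓘(ℝ, E) a x) :=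
    MDifferentiableAt.comp (g := e) _ (he.mdifferentiableAt one_ne)
        ((cmd_symm a ((extChartAt 𝓘(ℝ, E) a).map_source hx)).mdifferentiableAt one_ne)
  have h2 := dr_comp (E₁ := E) (E₂ := E) (E₃ := F)
    (g := fun p => e ((extChartAt 𝓘(ℝ, E) a).symm p))
    (f := extChartAt 𝓘(ℝ, E) a) (x := x) hch (md_ext hx)
  have h3 : e =ᶠ[𝓝 x] (fun y =>
      e ((extChartAt 𝓘(ℝ, E) a).symm (extChartAt 𝓘(ℝ, E) a y))) := by
    filter_upwards [(isOpen_extChartAt_source a).mem_nhds hx] with y hy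
    rw [(extChartAt 𝓘(ℝ, E) a).left_inv hy]
  rw [← dr_congr h3, dr_eq_fderiv] at h2
  exact (DFunLike.congr_fun h2 v).symm

/-- a `C¹` family of maps which is the identity at zero -/
structure Act (Φ : T → N → N) : Prop where
  smooth : ContMDiff (𝓘(ℝ, T).prod 𝓘(ℝ, E)) 𝓘(ℝ, E) 1 (fun q : T × N => Φ q.1 q.2)
  zero : ∀ y, Φ 0 y = y

/-- the family `Φ_s ∘ f` in charts -/
def JJ (Φ : T → N → N) (f : N → N) (a b : N) (q : E × T) : E :=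
  extChartAt 𝓘(ℝ, E) b (Φ q.2 (f ((extChartAt 𝓘(ℝ, E) a).symm q.1)))

lemma JJ_smooth {Φ : T → N → N} (hΦ : Act (E := E) Φ) {f : N → N}
    (hf : ContMDiff 𝓘(ℝ, E) 𝓘(ℝ, E) 1 f) {a b x : N}
    (hx : x ∈ (extChartAt 𝓘(ℝ, E) a).source) (hfx : f x ∈ (extChartAt 𝓘(ℝ, E) b).source) :
    ContDiffAt ℝ 1 (JJ Φ f a b) (extChartAt 𝓘(ℝ, E) a x, 0) := by
  have hs := (extChartAt 𝓘(ℝ, E) a).left_inv hx
  rw [← contMDiffAt_iff_contDiffAt]
  have h1 : ContMDiffAt 𝓘(ℝ, E × T) 𝓘(ℝ, E) 1 (fun q : E × T => q.1)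
      (extChartAt 𝓘(ℝ, E) a x, 0) := contDiffAt_fst.contMDiffAt
  have h2 : ContMDiffAt 𝓘(ℝ, E × T) 𝓘(ℝ, T) 1 (fun q : E × T => q.2)
      (extChartAt 𝓘(ℝ, E) a x, 0) := contDiffAt_snd.contMDiffAt
  have h3 : ContMDiffAt 𝓘(ℝ, E × T) 𝓘(ℝ, E) 1
      (fun q : E × T => (extChartAt 𝓘(ℝ, E) a).symm q.1) (extChartAt 𝓘(ℝ, E) a x, 0) :=
    ContMDiffAt.comp (g := (extChartAt 𝓘(ℝ, E) a).symm) (f := fun q : E × T => q.1)
      (extChartAt 𝓘(ℝ, E) a x, (0:T))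
      (cmd_symm a ((extChartAt 𝓘(ℝ, E) a).map_source hx)) h1
  have h4 : ContMDiffAt 𝓘(ℝ, E × T) 𝓘(ℝ, E) 1
      (fun q : E × T => f ((extChartAt 𝓘(ℝ, E) a).symm q.1)) (extChartAt 𝓘(ℝ, E) a x, 0) :=
    ContMDiffAt.comp (g := f) (f := fun q : E × T => (extChartAt 𝓘(ℝ, E) a).symm q.1)
      (extChartAt 𝓘(ℝ, E) a x, (0:T)) hf.contMDiffAt h3
  have h5 : ContMDiffAt 𝓘(ℝ, E × T) (𝓘(ℝ, T).prod 𝓘(ℝ, E)) 1
      (fun q : E × T => (q.2, f ((extChartAt 𝓘(ℝ, E) a).symm q.1)))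
      (extChartAt 𝓘(ℝ, E) a x, 0) := h2.prodMk h4
  have h6 : ContMDiffAt 𝓘(ℝ, E × T) 𝓘(ℝ, E) 1
      (fun q : E × T => Φ q.2 (f ((extChartAt 𝓘(ℝ, E) a).symm q.1)))
      (extChartAt 𝓘(ℝ, E) a x, 0) :=
    ContMDiffAt.comp (g := fun q : T × N => Φ q.1 q.2)
      (f := fun q : E × T => (q.2, f ((extChartAt 𝓘(ℝ, E) a).symm q.1)))
      (extChartAt 𝓘(ℝ, E) a x, (0:T)) hΦ.smooth.contMDiffAt h5
  refine ContMDiffAt.comp (g := extChartAt 𝓘(ℝ, E) b)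
    (f := fun q : E × T => Φ q.2 (f ((extChartAt 𝓘(ℝ, E) a).symm q.1)))
    (extChartAt 𝓘(ℝ, E) a x, (0:T)) (cmd_ext ?_) h6
  rw [hs, hΦ.zero]
  exact hfx

/-- the derivative of the family in charts -/
def JD (Φ : T → N → N) (f : N → N) (a b x : N) : E × T →L[ℝ] E :=
  fderiv ℝ (JJ Φ f a b) (extChartAt 𝓘(ℝ, E) a x, 0)

lemma JD_cont {Φ : T → N → N} (hΦ : Act (E := E) Φ) {f : N → N}
    (hf : ContMDiff 𝓘(ℝ, E) 𝓘(ℝ, E) 1 f) {a b x : N}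
    (hx : x ∈ (extChartAt 𝓘(ℝ, E) a).source) (hfx : f x ∈ (extChartAt 𝓘(ℝ, E) b).source) :
    ContinuousAt (JD (E := E) Φ f a b) x := by
  have h1 : ContinuousAt (fderiv ℝ (JJ Φ f a b)) (extChartAt 𝓘(ℝ, E) a x, 0) :=
    ((JJ_smooth hΦ hf hx hfx).fderiv_right (m := 0) (by simp)).continuousAt
  have h2 : ContinuousAt (fun x' => ((extChartAt 𝓘(ℝ, E) a x', 0) : E × T)) x :=
    (continuousAt_extChartAt' hx).prodMk continuousAt_const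
  exact ContinuousAt.comp (g := fderiv ℝ (JJ Φ f a b)) h1 h2

/-- the infinitesimal action in charts -/
def Xc (Φ : T → N → N) (b y : N) : T →L[ℝ] E :=
  fderiv ℝ (fun s => extChartAt 𝓘(ℝ, E) b (Φ s y)) 0

lemma JD_snd {Φ : T → N → N} (hΦ : Act (E := E) Φ) {f : N → N}
    (hf : ContMDiff 𝓘(ℝ, E) 𝓘(ℝ, E) 1 f) {a b x : N}
    (hx : x ∈ (extChartAt 𝓘(ℝ, E) a).source) (hfx : f x ∈ (extChartAt 𝓘(ℝ, E) b).source) :
    (JD Φ f a b x).comp (ContinuousLinearMap.inr ℝ E T) = Xc (E := E) Φ b (f x) := by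
  have hs := (extChartAt 𝓘(ℝ, E) a).left_inv hx
  have h1 := ((JJ_smooth hΦ hf hx hfx).differentiableAt (by simp)).hasFDerivAt
  have h2 : HasFDerivAt (fun s : T => ((extChartAt 𝓘(ℝ, E) a x, s) : E × T))
      (ContinuousLinearMap.inr ℝ E T) 0 := by
    have := (hasFDerivAt_const (𝕜 := ℝ) (extChartAt 𝓘(ℝ, E) a x) (0:T)).prodMk (hasFDerivAt_id 0)
    exact this
  have h3 := HasFDerivAt.comp (g := JJ Φ f a b) (0:T) h1 h2
  have h4 : (JJ Φ f a b ∘ fun s : T => ((extChartAt 𝓘(ℝ, E) a x, s) : E × T)) =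
      (fun s => extChartAt 𝓘(ℝ, E) b (Φ s (f x))) := by
    funext s
    show extChartAt 𝓘(ℝ, E) b (Φ s (f ((extChartAt 𝓘(ℝ, E) a).symm (extChartAt 𝓘(ℝ, E) a x)))) = _
    rw [hs]
  rw [h4] at h3
  exact h3.fderiv.symm

lemma JD_fst {Φ : T → N → N} (hΦ : Act (E := E) Φ) {f : N → N}
    (hf : ContMDiff 𝓘(ℝ, E) 𝓘(ℝ, E) 1 f) {a b x : N}
    (hx : x ∈ (extChartAt 𝓘(ℝ, E) a).source) (hfx : f x ∈ (extChartAt 𝓘(ℝ, E) b).source) (v : E) :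
    JD Φ f a b x (th a x v, 0) = th b (f x) (dr E E f x v) := by
  rw [← chart_comp hf hx hfx]
  have h1 := ((JJ_smooth hΦ hf hx hfx).differentiableAt (by simp)).hasFDerivAt
  have h2 : HasFDerivAt (fun p : E => ((p, 0) : E × T))
      (ContinuousLinearMap.inl ℝ E T) (extChartAt 𝓘(ℝ, E) a x) := by
    have := (hasFDerivAt_id (𝕜 := ℝ) (extChartAt 𝓘(ℝ, E) a x)).prodMk
      (hasFDerivAt_const (0:T) (extChartAt 𝓘(ℝ, E) a x))
    exact this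
  have h3 := HasFDerivAt.comp (g := JJ Φ f a b) (extChartAt 𝓘(ℝ, E) a x) h1 h2
  have h4 : (JJ Φ f a b ∘ fun p : E => ((p, 0) : E × T)) =
      (fun p => extChartAt 𝓘(ℝ, E) b (f ((extChartAt 𝓘(ℝ, E) a).symm p))) := by
    funext p
    show extChartAt 𝓘(ℝ, E) b (Φ 0 (f ((extChartAt 𝓘(ℝ, E) a).symm p))) = _
    rw [hΦ.zero]
  rw [h4] at h3
  rw [h3.fderiv]
  rfl

lemma JD_apply {Φ : T → N → N} (hΦ : Act (E := E) Φ) {f : N → N}
    (hf : ContMDiff 𝓘(ℝ, E) 𝓘(ℝ, E) 1 f) {a b x : N}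
    (hx : x ∈ (extChartAt 𝓘(ℝ, E) a).source) (hfx : f x ∈ (extChartAt 𝓘(ℝ, E) b).source)
    (z : E) (s : T) :
    JD Φ f a b x (z, s) = JD Φ f a b x (z, 0) + Xc Φ b (f x) s := by
  rw [← JD_snd hΦ hf hx hfx]
  have e : ((z, s) : E × T) = (z, 0) + ContinuousLinearMap.inr ℝ E T s := by ext <;> simp
  rw [e, map_add]
  rfl

lemma Xc_eq {Φ : T → N → N} (hΦ : Act (E := E) Φ) {b y : N}
    (hy : y ∈ (extChartAt 𝓘(ℝ, E) b).source) (s : T) :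
    Xc Φ b y s = th b y (dr T E (fun s => Φ s y) 0 s) := by
  have h1 : MDifferentiableAt 𝓘(ℝ, T) 𝓘(ℝ, E) (fun s => Φ s y) 0 := by
    have h2 : ContMDiffAt 𝓘(ℝ, T) (𝓘(ℝ, T).prod 𝓘(ℝ, E)) 1 (fun s : T => (s, y)) 0 :=
      contMDiffAt_id.prodMk contMDiffAt_const
    exact (ContMDiffAt.comp (g := fun q : T × N => Φ q.1 q.2) (f := fun s : T => (s, y)) (0:T)
      hΦ.smooth.contMDiffAt h2).mdifferentiableAt one_ne
  have h3 := dr_comp (E₁ := T) (E₂ := E) (E₃ := E) (g := extChartAt 𝓘(ℝ, E) b)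
    (f := fun s => Φ s y) (x := 0) (md_ext (by rw [hΦ.zero]; exact hy)) h1
  rw [dr_eq_fderiv] at h3
  unfold Xc
  rw [h3, hΦ.zero]
  rfl

lemma Xc_cont {Φ : T → N → N} (hΦ : Act (E := E) Φ) {b y : N}
    (hy : y ∈ (extChartAt 𝓘(ℝ, E) b).source) : ContinuousAt (Xc (E := E) Φ b) y := by
  have h1 : ContinuousAt (fun y => (JD Φ (fun x => x) b b y).comp
      (ContinuousLinearMap.inr ℝ E T)) y :=
    (JD_cont hΦ contMDiff_id hy hy).clm_comp continuousAt_const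
  refine h1.congr ?_
  filter_upwards [(isOpen_extChartAt_source b).mem_nhds hy] with y' hy'
  exact JD_snd hΦ contMDiff_id hy' hy'

/-- the quadratic form in charts -/
def qf (B : N → F →L[ℝ] F →L[ℝ] ℝ) (e : N → F) (a x : N) (z : E) : ℝ :=
  B x (fderiv ℝ (fun p => e ((extChartAt 𝓘(ℝ, E) a).symm p)) (extChartAt 𝓘(ℝ, E) a x) z)
    (fderiv ℝ (fun p => e ((extChartAt 𝓘(ℝ, E) a).symm p)) (extChartAt 𝓘(ℝ, E) a x) z)

lemma qf_smul (B : N → F →L[ℝ] F →L[ℝ] ℝ) (e : N → F) (a x : N) (r : ℝ) (z : E) :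
    qf B e a x (r • z) = r ^ 2 * qf B e a x z := by
  unfold qf
  simp only [map_smul, smul_apply, smul_eq_mul]
  ring

lemma qf_zero (B : N → F →L[ℝ] F →L[ℝ] ℝ) (e : N → F) (a x : N) :
    qf B e a x (0 : E) = 0 := by
  unfold qf
  simp

lemma qf_th {B : N → F →L[ℝ] F →L[ℝ] ℝ} {e : N → F} (he : ContMDiff 𝓘(ℝ, E) 𝓘(ℝ, F) 1 e)
    {a x : N} (hx : x ∈ (extChartAt 𝓘(ℝ, E) a).source) (v : E) :
    qf B e a x (th a x v) = B x (dr E F e x v) (dr E F e x v) := by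
  unfold qf
  rw [chart_comp_e he hx]

lemma ce_smooth {e : N → F} (he : ContMDiff 𝓘(ℝ, E) 𝓘(ℝ, F) 1 e) {a x : N}
    (hx : x ∈ (extChartAt 𝓘(ℝ, E) a).source) :
    ContDiffAt ℝ 1 (fun p => e ((extChartAt 𝓘(ℝ, E) a).symm p)) (extChartAt 𝓘(ℝ, E) a x) := by
  rw [← contMDiffAt_iff_contDiffAt]
  exact ContMDiffAt.comp (g := e) (f := (extChartAt 𝓘(ℝ, E) a).symm)
    (extChartAt 𝓘(ℝ, E) a x) he.contMDiffAt
      (cmd_symm a ((extChartAt 𝓘(ℝ, E) a).map_source hx))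

lemma contAt_J {e : N → F} (he : ContMDiff 𝓘(ℝ, E) 𝓘(ℝ, F) 1 e) {a x : N}
    (hx : x ∈ (extChartAt 𝓘(ℝ, E) a).source) :
    ContinuousAt (fun x' => fderiv ℝ (fun p => e ((extChartAt 𝓘(ℝ, E) a).symm p))
      (extChartAt 𝓘(ℝ, E) a x')) x :=
  ContinuousAt.comp (g := fderiv ℝ (fun p => e ((extChartAt 𝓘(ℝ, E) a).symm p)))
    (((ce_smooth he hx).fderiv_right (m := 0) (by simp)).continuousAt)
    (continuousAt_extChartAt' hx)

/-- joint continuity of the quadratic form -/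
lemma contAt_qf {B : N → F →L[ℝ] F →L[ℝ] ℝ} (hB : Continuous B) {e : N → F}
    (he : ContMDiff 𝓘(ℝ, E) 𝓘(ℝ, F) 1 e) {a : N} {X : Type*} [TopologicalSpace X] {y : X → N}
    {z : X → E} {x₀ : X} (hy : ContinuousAt y x₀) (hz : ContinuousAt z x₀)
    (hx : y x₀ ∈ (extChartAt 𝓘(ℝ, E) a).source) :
    ContinuousAt (fun x => qf B e a (y x) (z x)) x₀ := by
  unfold qf
  have h1 : ContinuousAt (fun x => fderiv ℝ (fun p => e ((extChartAt 𝓘(ℝ, E) a).symm p))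
      (extChartAt 𝓘(ℝ, E) a (y x))) x₀ :=
    ContinuousAt.comp (g := fun x' => fderiv ℝ (fun p => e ((extChartAt 𝓘(ℝ, E) a).symm p))
      (extChartAt 𝓘(ℝ, E) a x')) (contAt_J he hx) hy
  have h2 := h1.clm_apply hz
  have h3 : ContinuousAt (fun x => B (y x)) x₀ := hB.continuousAt.comp hy
  exact (h3.clm_apply h2).clm_apply h2

end Pool.Agent.R774.Cl
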