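import Mathlib
import Pool.Agent.R774.Cl2

/-! Local estimates and a uniformity principle. -/

open scoped Topology ContDiff Manifold
open Set Metric Filter

noncomputable section

set_option linter.unusedSectionVars false

namespace Pool.Agent.R774.Cl

section

variable {P : Type*} [TopologicalSpace P] {F : Type*} [NormedAddCommGroup F]

lemma ultra_const {α : Type*} (l : Ultrafilter ℕ) {t : Finset α} {a : ℕ → α}
    (h : ∀ k, a k ∈ t) : ∃ a₀ ∈ t, ∀ᶠ k in (l : Filter ℕ), a k = a₀ := by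
  have h1 : (t : Set α) ∈ l.map a := by
    rw [Ultrafilter.mem_map]
    exact Filter.univ_mem' h
  obtain ⟨a₀, ha₀, h2⟩ := Ultrafilter.eq_pure_of_finite_mem t.finite_toSet h1
  refine ⟨a₀, ha₀, ?_⟩
  have h3 : ({a₀} : Set α) ∈ l.map a := by rw [h2]; simp
  rw [Ultrafilter.mem_map] at h3
  exact h3

lemma exists_lim [CompactSpace P] (l : Ultrafilter ℕ) (x : ℕ → P) :
    ∃ x₀, Tendsto x (l : Filter ℕ) (𝓝 x₀) := by
  have : Nonempty P := ⟨x 0⟩
  exact ⟨_, (l.map x).le_nhds_lim⟩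

/-- **Uniformity principle** -/
theorem unif [CompactSpace P] [T2Space P] {e : P → F} (he : Continuous e)
    (hinj : Function.Injective e) {g : P → P} (hg : Continuous g) {K : Set P} (hK : IsClosed K)
    {t : Finset P} {V : P → Set P} (hV : ∀ a ∈ t, IsClosed (V a))
    {Q : ℕ → P → P → P → P → Prop}
    (mono : ∀ m n a b x y, m ≤ n → Q m a b x y → Q n a b x y)
    (loc : ∀ a ∈ t, ∀ b ∈ t, ∀ x ∈ K, x ∈ V a → g x ∈ V b →
      ∃ N, ∀ᶠ q in 𝓝 (x, g x), Q N a b q.1 q.2) :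
    ∃ N, ∃ δ > 0, ∀ a ∈ t, ∀ b ∈ t, ∀ x ∈ K, ∀ y, x ∈ V a → y ∈ V b → ‖e y - e (g x)‖ < δ →
      Q N a b x y := by
  by_contra hcon
  push Not at hcon
  have h1 : ∀ k : ℕ, ∃ a ∈ t, ∃ b ∈ t, ∃ x ∈ K, ∃ y, x ∈ V a ∧ y ∈ V b ∧
      ‖e y - e (g x)‖ < 1 / ((k : ℝ) + 1) ∧ ¬ Q k a b x y := fun k =>
    hcon k _ (by positivity)
  choose a ha b hb x hx y hxa hyb hxy hQ using h1
  obtain ⟨x₀, hx₀⟩ := exists_lim (hyperfilter ℕ) x
  obtain ⟨y₀, hy₀⟩ := exists_lim (hyperfilter ℕ) y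
  have hlat : ((hyperfilter ℕ : Ultrafilter ℕ) : Filter ℕ) ≤ atTop := by
    rw [← Nat.cofinite_eq_atTop]; exact hyperfilter_le_cofinite
  have hyx : y₀ = g x₀ := by
    apply hinj
    have h2 : Tendsto (fun k => e (y k) - e (g (x k))) (hyperfilter ℕ : Ultrafilter ℕ) (𝓝 0) := by
      rw [tendsto_zero_iff_norm_tendsto_zero]
      refine squeeze_zero' (Eventually.of_forall fun k => norm_nonneg _)
        (Eventually.of_forall fun k => (hxy k).le)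
        ((tendsto_one_div_add_atTop_nhds_zero_nat (𝕜 := ℝ)).mono_left hlat)
    have h3 : Tendsto (fun k => e (y k) - e (g (x k))) (hyperfilter ℕ : Ultrafilter ℕ)
        (𝓝 (e y₀ - e (g x₀))) :=
      ((he.tendsto y₀).comp hy₀).sub (((he.comp hg).tendsto x₀).comp hx₀)
    exact sub_eq_zero.1 (tendsto_nhds_unique h3 h2)
  obtain ⟨a₀, ha₀, hae⟩ := ultra_const (hyperfilter ℕ) ha
  obtain ⟨b₀, hb₀, hbe⟩ := ultra_const (hyperfilter ℕ) hb
  have hx₀K : x₀ ∈ K := hK.mem_of_tendsto hx₀ (Eventually.of_forall hx)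
  have hx₀V : x₀ ∈ V a₀ := (hV a₀ ha₀).mem_of_tendsto hx₀ (by
    filter_upwards [hae] with k hk
    rw [← hk]
    exact hxa k)
  have hy₀V : y₀ ∈ V b₀ := (hV b₀ hb₀).mem_of_tendsto hy₀ (by
    filter_upwards [hbe] with k hk
    rw [← hk]
    exact hyb k)
  rw [hyx] at hy₀ hy₀V
  obtain ⟨N, hN⟩ := loc a₀ ha₀ b₀ hb₀ x₀ hx₀K hx₀V hy₀V
  have h2 := (hx₀.prodMk_nhds hy₀).eventually hN
  have h3 : ∀ᶠ k in ((hyperfilter ℕ : Ultrafilter ℕ) : Filter ℕ), N ≤ k :=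
    (eventually_ge_atTop N).filter_mono hlat
  obtain ⟨k, h4, h5, h6, h7⟩ := (h2.and (h3.and (hae.and hbe))).exists
  apply hQ k
  rw [h6, h7]
  exact mono _ _ _ _ _ _ h5 h4

end

section

variable {E : Type*} [NormedAddCommGroup E]

/-- extraction of a radius -/
lemma ev_ball {X : Type*} [TopologicalSpace X] {Q : X → E → E → Prop} {p₀ : X}
    (h : ∀ᶠ z : X × E × E in 𝓝 (p₀, 0, 0), Q z.1 z.2.1 z.2.2) :
    ∃ N : ℕ, ∀ᶠ x in 𝓝 p₀, ∀ w w', ‖w‖ ≤ 1 / ((N:ℝ) + 1) → ‖w'‖ ≤ 1 / ((N:ℝ) + 1) →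
      Q x w w' := by
  rw [nhds_prod_eq, eventually_prod_iff] at h
  obtain ⟨pa, hpa, pb, hpb, hh⟩ := h
  obtain ⟨ε, hε, hb⟩ := Metric.eventually_nhds_iff.1 hpb
  obtain ⟨N, hN⟩ := exists_nat_one_div_lt hε
  refine ⟨N, ?_⟩
  filter_upwards [hpa] with x hx w w' hw hw'
  refine hh hx (y := (w, w')) (hb ?_)
  rw [dist_eq_norm]
  have h1 : ((w, w') : E × E) - (0, 0) = (w, w') := by simp
  rw [h1, Prod.norm_def]
  exact max_lt (hw.trans_lt hN) (hw'.trans_lt hN)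

lemma ev_ball1 {X : Type*} [TopologicalSpace X] {Q : X → E → Prop} {p₀ : X}
    (h : ∀ᶠ z : X × E in 𝓝 (p₀, 0), Q z.1 z.2) :
    ∃ N : ℕ, ∀ᶠ x in 𝓝 p₀, ∀ w, ‖w‖ ≤ 1 / ((N:ℝ) + 1) → Q x w := by
  rw [nhds_prod_eq, eventually_prod_iff] at h
  obtain ⟨pa, hpa, pb, hpb, hh⟩ := h
  obtain ⟨ε, hε, hb⟩ := Metric.eventually_nhds_iff.1 hpb
  obtain ⟨N, hN⟩ := exists_nat_one_div_lt hε
  refine ⟨N, ?_⟩
  filter_upwards [hpa] with x hx w hw
  refine hh hx (y := w) (hb ?_)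
  rw [dist_eq_norm, sub_zero]
  exact hw.trans_lt hN

lemma ev_bound {X : Type*} [TopologicalSpace X] {f : X → ℝ} {x : X} (hf : ContinuousAt f x) :
    ∃ N : ℕ, ∀ᶠ x' in 𝓝 x, f x' ≤ N := by
  obtain ⟨N, hN⟩ := exists_nat_gt (f x)
  exact ⟨N, (hf.eventually (gt_mem_nhds hN)).mono fun _ h => le_of_lt h⟩

end

universe u v

variable {E : Type u} [NormedAddCommGroup E] [NormedSpace ℝ E] [FiniteDimensional ℝ E]
  {T : Type v} [NormedAddCommGroup T] [NormedSpace ℝ T] [FiniteDimensional ℝ T]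
  {N : Type*} [TopologicalSpace N] [ChartedSpace E N] [IsManifold 𝓘(ℝ, E) ∞ N]
  {F : Type*} [NormedAddCommGroup F] [NormedSpace ℝ F]

/-- the projection along the range of `X` -/
def PL (b : E →L[ℝ] T) (X : T →L[ℝ] E) : E →L[ℝ] E := ContinuousLinearMap.id ℝ E - X.comp b

lemma PL_apply (b : E →L[ℝ] T) (X : T →L[ℝ] E) (w : E) : PL b X w = w - X (b w) := rfl

/-- the linearised equation -/
def AE (Φ : T → N → N) (f : N → N) (β : E →L[ℝ] T) (X : T →L[ℝ] E) (a b x : N) : E →L[ℝ] E :=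
  (JD Φ f a b x).comp ((PL β X).prod β)

lemma AE_apply (Φ : T → N → N) (f : N → N) (β : E →L[ℝ] T) (X : T →L[ℝ] E) (a b x : N) (w : E) :
    AE Φ f β X a b x w = JD Φ f a b x (PL β X w, β w) := rfl

/-- the nonlinear equation -/
def GE (Φ : T → N → N) (f : N → N) (β : E →L[ℝ] T) (X : T →L[ℝ] E) (a b x : N) (w : E) : E :=
  JJ Φ f a b (extChartAt 𝓘(ℝ, E) a x + PL β X w, β w)

lemma loc_bound {Φ : T → N → N} (hΦ : Act (E := E) Φ) {f : N → N}
    (hf : ContMDiff 𝓘(ℝ, E) 𝓘(ℝ, E) 1 f) {a b x : N}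
    (hx : x ∈ (extChartAt 𝓘(ℝ, E) a).source) (hfx : f x ∈ (extChartAt 𝓘(ℝ, E) b).source)
    {B : N → F →L[ℝ] F →L[ℝ] ℝ} (hB : Continuous B) {e : N → F}
    (he : ContMDiff 𝓘(ℝ, E) 𝓘(ℝ, F) 1 e) :
    ∃ C : ℕ, ∀ᶠ x' in 𝓝 x, ‖JD (E := E) Φ f a b x'‖ ≤ C ∧
      2 * ‖B x'‖ * ‖fderiv ℝ (fun p => e ((extChartAt 𝓘(ℝ, E) a).symm p))
        (extChartAt 𝓘(ℝ, E) a x')‖ ^ 2 ≤ C := by
  obtain ⟨N₁, h₁⟩ := ev_bound (JD_cont hΦ hf hx hfx).norm
  obtain ⟨N₄, h₄⟩ := ev_bound (((continuousAt_const (y := (2:ℝ))).mul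
    (show ContinuousAt (fun y => ‖B y‖) x from
      (Continuous.norm (f := B) hB).continuousAt)).mul ((contAt_J he hx).norm.pow 2))
  refine ⟨max N₁ N₄, ?_⟩
  have m₁ : (N₁ : ℝ) ≤ (max N₁ N₄ : ℕ) := by exact_mod_cast le_max_left _ _
  have m₄ : (N₄ : ℝ) ≤ (max N₁ N₄ : ℕ) := by exact_mod_cast le_max_right _ _
  filter_upwards [h₁, h₄] with x' e₁ e₄
  exact ⟨e₁.trans m₁, e₄.trans m₄⟩

lemma loc_q1 {Φ : T → N → N} (hΦ : Act (E := E) Φ) {f : N → N}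
    (hf : ContMDiff 𝓘(ℝ, E) 𝓘(ℝ, E) 1 f) {a b x : N}
    (hx : x ∈ (extChartAt 𝓘(ℝ, E) a).source) (hfx : f x ∈ (extChartAt 𝓘(ℝ, E) b).source)
    {B : N → F →L[ℝ] F →L[ℝ] ℝ} (hB : Continuous B) {e : N → F}
    (he : ContMDiff 𝓘(ℝ, E) 𝓘(ℝ, F) 1 e) {β : E →L[ℝ] T}
    (hyp : ∀ z : E, β z = 0 → z ≠ 0 → qf B e a x z < qf B e b (f x) (JD Φ f a b x (z, 0))) :
    ∃ C : ℕ, ∀ᶠ x' in 𝓝 x, ∀ z : E, β z = 0 →
      qf B e a x' z + 1 / ((C:ℝ) + 1) * ‖z‖ ^ 2 ≤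
        qf B e b (f x') (JD Φ f a b x' (z, 0)) := by
  have : ProperSpace E := FiniteDimensional.proper ℝ E
  set Ψ : N × E → ℝ := fun q => qf B e b (f q.1) (JD Φ f a b q.1 (q.2, 0)) -
    qf B e a q.1 q.2 with hΨ
  have hΨc : ∀ z : E, ContinuousAt Ψ (x, z) := by
    intro z
    have h1 : ContinuousAt (fun q : N × E => JD (E := E) Φ f a b q.1) (x, z) :=
      ContinuousAt.comp (x := ((x, z) : N × E)) (f := Prod.fst)
        (g := fun y => JD (E := E) Φ f a b y) (JD_cont hΦ hf hx hfx) continuousAt_fst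
    have h2 : ContinuousAt (fun q : N × E => f q.1) (x, z) :=
      (hf.continuous.comp continuous_fst).continuousAt
    exact (contAt_qf hB he h2 (h1.clm_apply (continuousAt_snd.prodMk continuousAt_const)) hfx).sub
      (contAt_qf hB he continuousAt_fst continuousAt_snd hx)
  set S : Set E := sphere (0:E) 1 ∩ {z | β z = 0} with hS
  have hSc : IsCompact S := (isCompact_sphere 0 1).inter_right
    (isClosed_eq β.continuous continuous_const)
  obtain ⟨κ, hκ, hκ2⟩ : ∃ κ > 0, ∀ z ∈ S, κ < Ψ (x, z) := by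
    rcases S.eq_empty_or_nonempty with hemp | hne
    · exact ⟨1, one_pos, fun z hz => by rw [hemp] at hz; exact hz.elim⟩
    · obtain ⟨z₀, hz₀, hmin⟩ := hSc.exists_isMinOn hne (f := fun z => Ψ (x, z))
        (fun z _ => (ContinuousAt.comp (g := Ψ) (f := fun z : E => (x, z)) (hΨc z)
          (by fun_prop)).continuousWithinAt)
      have hpos : 0 < Ψ (x, z₀) := by
        have h1 := hyp z₀ hz₀.2 (by
          intro h0
          have := hz₀.1
          rw [mem_sphere_zero_iff_norm, h0, norm_zero] at this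
          exact zero_ne_one this)
        simp only [hΨ]
        linarith
      refine ⟨Ψ (x, z₀) / 2, by positivity, fun z hz => ?_⟩
      have h1 : Ψ (x, z₀) ≤ Ψ (x, z) := hmin hz
      linarith
  obtain ⟨C, hC⟩ := exists_nat_one_div_lt hκ
  refine ⟨C, ?_⟩
  have h1 : ∀ᶠ x' in 𝓝 x, ∀ z ∈ S, κ < Ψ (x', z) :=
    IsCompact.eventually_forall_of_forall_eventually (X := N) (Y := E)
      (x₀ := x) (K := S) hSc (P := fun x' z => κ < Ψ (x', z))
      (fun z hz => (hΨc z).eventually (lt_mem_nhds (hκ2 z hz)))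
  filter_upwards [h1] with x' hx' z hz
  by_cases hz0 : z = 0
  · subst hz0
    have e1 : ((0, 0) : E × T) = 0 := rfl
    rw [e1, map_zero, qf_zero, qf_zero, norm_zero]
    simp
  · have hzn : ‖z‖ ≠ 0 := norm_ne_zero_iff.2 hz0
    have h2 := hx' (‖z‖⁻¹ • z) ⟨by
      rw [mem_sphere_zero_iff_norm, norm_smul, norm_inv, norm_norm, inv_mul_cancel₀ hzn], by
      show β _ = 0
      rw [map_smul, hz, smul_zero]⟩
    simp only [hΨ] at h2
    have e1 : ((‖z‖⁻¹ • z, 0) : E × T) = ‖z‖⁻¹ • ((z, 0) : E × T) := by ext <;> simp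
    rw [e1, map_smul, qf_smul, qf_smul, ← mul_sub] at h2
    have h3 : 0 < ‖z‖ ^ 2 := by positivity
    have h4 := mul_lt_mul_of_pos_left h2 h3
    have h5 : ‖z‖ ^ 2 * (‖z‖⁻¹ ^ 2 * (qf B e b (f x') (JD Φ f a b x' (z, 0)) - qf B e a x' z)) =
        qf B e b (f x') (JD Φ f a b x' (z, 0)) - qf B e a x' z := by
      field_simp
    rw [h5] at h4
    have h6 : 1 / ((C:ℝ) + 1) * ‖z‖ ^ 2 ≤ ‖z‖ ^ 2 * κ := by
      rw [mul_comm]
      gcongr
    linarith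

lemma loc_q3 {f : N → N} (hf : Continuous f) {b x : N}
    (hfx : f x ∈ (extChartAt 𝓘(ℝ, E) b).source)
    {B : N → F →L[ℝ] F →L[ℝ] ℝ} (hB : Continuous B) {e : N → F}
    (he : ContMDiff 𝓘(ℝ, E) 𝓘(ℝ, F) 1 e) {c₂ : ℝ} (hc₂ : 0 < c₂) :
    ∀ᶠ q in 𝓝 (x, f x), ∀ v : E, |qf B e b q.2 v - qf B e b (f q.1) v| ≤ c₂ * ‖v‖ ^ 2 := by
  have : ProperSpace E := FiniteDimensional.proper ℝ E
  set Ψ : (N × N) × E → ℝ := fun q => qf B e b q.1.2 q.2 - qf B e b (f q.1.1) q.2 with hΨ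
  have hΨc : ∀ z : E, ContinuousAt Ψ ((x, f x), z) := by
    intro z
    have h2 : ContinuousAt (fun q : (N × N) × E => f q.1.1) ((x, f x), z) :=
      (hf.comp (continuous_fst.comp continuous_fst)).continuousAt
    have h3 : ContinuousAt (fun q : (N × N) × E => q.1.2) ((x, f x), z) :=
      (continuous_snd.comp continuous_fst).continuousAt
    exact (contAt_qf hB he h3 continuousAt_snd hfx).sub (contAt_qf hB he h2 continuousAt_snd hfx)
  have h1 : ∀ᶠ q in 𝓝 (x, f x), ∀ z ∈ sphere (0:E) 1, |Ψ (q, z)| < c₂ :=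
    IsCompact.eventually_forall_of_forall_eventually (X := N × N) (Y := E)
      (x₀ := (x, f x)) (K := sphere (0:E) 1) (isCompact_sphere _ _)
      (P := fun q z => |Ψ (q, z)| < c₂)
      (fun z _ => (hΨc z).abs.eventually (gt_mem_nhds (by
        simp only [hΨ]
        rw [sub_self, abs_zero]
        exact hc₂)))
  filter_upwards [h1] with q hq v
  by_cases hv0 : v = 0
  · subst hv0
    rw [qf_zero, qf_zero, norm_zero]
    simp
  · have hvn : ‖v‖ ≠ 0 := norm_ne_zero_iff.2 hv0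
    have h2 := hq (‖v‖⁻¹ • v) (by
      rw [mem_sphere_zero_iff_norm, norm_smul, norm_inv, norm_norm, inv_mul_cancel₀ hvn])
    simp only [hΨ] at h2
    rw [qf_smul, qf_smul, ← mul_sub, abs_mul, abs_of_nonneg (sq_nonneg _)] at h2
    have h3 : 0 < ‖v‖ ^ 2 := by positivity
    have h4 := mul_lt_mul_of_pos_left h2 h3
    have h5 : ‖v‖ ^ 2 * (‖v‖⁻¹ ^ 2 * |qf B e b q.2 v - qf B e b (f q.1) v|) =
        |qf B e b q.2 v - qf B e b (f q.1) v| := by
      field_simp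
    rw [h5] at h4
    linarith

lemma loc_X {Φ : T → N → N} (hΦ : Act (E := E) Φ) {f : N → N} (hf : Continuous f) {b x : N}
    (hfx : f x ∈ (extChartAt 𝓘(ℝ, E) b).source) {β : E →L[ℝ] T}
    (h : ‖β.comp (Xc (E := E) Φ b (f x)) - ContinuousLinearMap.id ℝ T‖ ≤ 1 / 4) :
    ∀ᶠ x' in 𝓝 x, ‖β.comp (Xc (E := E) Φ b (f x')) - ContinuousLinearMap.id ℝ T‖ ≤ 1 / 2 := by
  have h1 : ContinuousAt (fun x' => Xc (E := E) Φ b (f x')) x :=
    ContinuousAt.comp (g := Xc (E := E) Φ b) (Xc_cont hΦ hfx) hf.continuousAt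
  have h2 : ContinuousAt (fun x' => ‖β.comp (Xc (E := E) Φ b (f x')) -
      ContinuousLinearMap.id ℝ T‖) x :=
    ((continuousAt_const.clm_comp h1).sub continuousAt_const).norm
  exact (h2.eventually (gt_mem_nhds (h.trans_lt (by norm_num : (1:ℝ) / 4 < 1 / 2)))).mono
    fun _ h => le_of_lt h

/-- **approximation by the linearised equation** -/
lemma loc_approx {Φ : T → N → N} (hΦ : Act (E := E) Φ) {f : N → N}
    (hf : ContMDiff 𝓘(ℝ, E) 𝓘(ℝ, E) 1 f) {a b x : N}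
    (hx : x ∈ (extChartAt 𝓘(ℝ, E) a).source) (hfx : f x ∈ (extChartAt 𝓘(ℝ, E) b).source)
    (β : E →L[ℝ] T) (X : T →L[ℝ] E) {c₁ : ℝ} (hc₁ : 0 < c₁) :
    ∃ C : ℕ, ∀ᶠ x' in 𝓝 x, ∀ w w', ‖w‖ ≤ 1 / ((C:ℝ) + 1) → ‖w'‖ ≤ 1 / ((C:ℝ) + 1) →
      ‖GE Φ f β X a b x' w - GE Φ f β X a b x' w' - AE Φ f β X a b x' (w - w')‖ ≤
        c₁ * ‖w - w'‖ := by
  apply ev_ball (Q := fun x' w w' =>
    ‖GE Φ f β X a b x' w - GE Φ f β X a b x' w' - AE Φ f β X a b x' (w - w')‖ ≤ c₁ * ‖w - w'‖)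
  have hJ : HasStrictFDerivAt (JJ Φ f a b) (JD Φ f a b x) (extChartAt 𝓘(ℝ, E) a x, 0) :=
    (JJ_smooth hΦ hf hx hfx).hasStrictFDerivAt (by simp)
  set C₀ : ℝ := ‖PL β X‖ + ‖β‖ + 1 with hC₀
  have hC₀0 : 0 < C₀ := by positivity
  have hκ : 0 < c₁ / (2 * C₀) := by positivity
  have h1 := hJ.isLittleO.def hκ
  -- the inner map
  have hext : ContinuousAt (fun z : N × E × E => extChartAt 𝓘(ℝ, E) a z.1) (x, 0, 0) :=
    ContinuousAt.comp (x := ((x, 0, 0) : N × E × E)) (f := Prod.fst)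
      (g := extChartAt 𝓘(ℝ, E) a) (continuousAt_extChartAt' hx) continuousAt_fst
  have h2 : Tendsto (fun z : N × E × E =>
      ((((extChartAt 𝓘(ℝ, E) a z.1 + PL β X z.2.1, β z.2.1) : E × T),
        ((extChartAt 𝓘(ℝ, E) a z.1 + PL β X z.2.2, β z.2.2) : E × T)) :
        (E × T) × (E × T))) (𝓝 (x, 0, 0))
        (𝓝 ((extChartAt 𝓘(ℝ, E) a x, 0), (extChartAt 𝓘(ℝ, E) a x, 0))) := by
    have h3 : ContinuousAt (fun z : N × E × E => ((extChartAt 𝓘(ℝ, E) a z.1 + PL β X z.2.1,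
        β z.2.1) : E × T)) (x, 0, 0) :=
      (hext.add ((PL β X).continuous.continuousAt.comp
        (continuous_fst.comp continuous_snd).continuousAt)).prodMk
        (β.continuous.continuousAt.comp (continuous_fst.comp continuous_snd).continuousAt)
    have h4 : ContinuousAt (fun z : N × E × E => ((extChartAt 𝓘(ℝ, E) a z.1 + PL β X z.2.2,
        β z.2.2) : E × T)) (x, 0, 0) :=
      (hext.add ((PL β X).continuous.continuousAt.comp
        (continuous_snd.comp continuous_snd).continuousAt)).prodMk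
        (β.continuous.continuousAt.comp (continuous_snd.comp continuous_snd).continuousAt)
    have h5 := (h3.prodMk h4).tendsto
    simp only [map_zero, add_zero] at h5
    exact h5
  have h3 := h2.eventually h1
  -- the difference of the operators
  have h6 : ∀ᶠ x' in 𝓝 x, ‖JD (E := E) Φ f a b x - JD Φ f a b x'‖ ≤ c₁ / (2 * C₀) := by
    have h8 := ((continuousAt_const (y := JD (E := E) Φ f a b x)).sub
      (JD_cont hΦ hf hx hfx)).norm.eventually (gt_mem_nhds (show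
        ‖JD (E := E) Φ f a b x - JD Φ f a b x‖ < c₁ / (2 * C₀) by
          rw [sub_self, norm_zero]; exact hκ))
    exact h8.mono fun _ h => le_of_lt h
  have h7 : Tendsto (fun z : N × E × E => z.1) (𝓝 (x, 0, 0)) (𝓝 x) := continuous_fst.tendsto _
  filter_upwards [h3, h7.eventually h6] with z e3 e6
  obtain ⟨x', w, w'⟩ := z
  simp only at e3 e6 ⊢
  unfold GE
  set u : E × T := (extChartAt 𝓘(ℝ, E) a x' + PL β X w, β w) with hu
  set u' : E × T := (extChartAt 𝓘(ℝ, E) a x' + PL β X w', β w') with hu'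
  have huu : u - u' = (PL β X (w - w'), β (w - w')) := by
    rw [hu, hu', map_sub, map_sub]
    ext
    · simp
    · simp
  have hn : ‖u - u'‖ ≤ C₀ * ‖w - w'‖ := by
    rw [huu, Prod.norm_def]
    refine max_le ?_ ?_
    · refine ((PL β X).le_opNorm _).trans ?_
      have : ‖PL β X‖ ≤ C₀ := by rw [hC₀]; linarith [norm_nonneg β]
      gcongr
    · refine (β.le_opNorm _).trans ?_
      have : ‖β‖ ≤ C₀ := by rw [hC₀]; linarith [norm_nonneg (PL β X)]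
      gcongr
  have hAE : AE Φ f β X a b x' (w - w') = JD Φ f a b x' (u - u') := by
    rw [AE_apply, huu]
  have hsplit : JJ Φ f a b u - JJ Φ f a b u' - AE Φ f β X a b x' (w - w') =
      (JJ Φ f a b u - JJ Φ f a b u' - JD Φ f a b x (u - u')) +
      (JD (E := E) Φ f a b x - JD (E := E) Φ f a b x' : E × T →L[ℝ] E) (u - u') := by
    rw [hAE, sub_apply]
    abel
  rw [hsplit]
  refine (norm_add_le _ _).trans ?_
  have e7 : c₁ / (2 * C₀) * ‖u - u'‖ ≤ c₁ / 2 * ‖w - w'‖ := by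
    calc c₁ / (2 * C₀) * ‖u - u'‖ ≤ c₁ / (2 * C₀) * (C₀ * ‖w - w'‖) := by gcongr
      _ = c₁ / 2 * ‖w - w'‖ := by field_simp
  have e8 := (ContinuousLinearMap.le_opNorm (JD (E := E) Φ f a b x - JD Φ f a b x')
    (u - u')).trans (mul_le_mul_of_nonneg_right e6 (norm_nonneg _))
  calc _ ≤ c₁ / 2 * ‖w - w'‖ + c₁ / 2 * ‖w - w'‖ := add_le_add (e3.trans e7) (e8.trans e7)
    _ = c₁ * ‖w - w'‖ := by ring

/-- properties near the zero section -/
lemma loc_dyn {a x : N} (hx : x ∈ (extChartAt 𝓘(ℝ, E) a).source) (β : E →L[ℝ] T)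
    (X : T →L[ℝ] E) {Q : N → N → T → Prop} (hQ : ∀ᶠ q in 𝓝 (x, x, (0:T)), Q q.1 q.2.1 q.2.2) :
    ∃ C : ℕ, ∀ᶠ x' in 𝓝 x, ∀ w : E, ‖w‖ ≤ 1 / ((C:ℝ) + 1) →
      Q x' ((extChartAt 𝓘(ℝ, E) a).symm (extChartAt 𝓘(ℝ, E) a x' + PL β X w)) (β w) := by
  apply ev_ball1 (Q := fun x' (w : E) => Q x' ((extChartAt 𝓘(ℝ, E) a).symm
    (extChartAt 𝓘(ℝ, E) a x' + PL β X w)) (β w))
  have hp := (extChartAt 𝓘(ℝ, E) a).map_source hx
  have h3 : ContinuousAt (fun z : N × E => extChartAt 𝓘(ℝ, E) a z.1) (x, 0) :=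
    ContinuousAt.comp (x := ((x, 0) : N × E)) (f := Prod.fst)
      (g := extChartAt 𝓘(ℝ, E) a) (continuousAt_extChartAt' hx) continuousAt_fst
  have h4 : ContinuousAt (fun z : N × E => extChartAt 𝓘(ℝ, E) a z.1 + PL β X z.2) (x, 0) :=
    h3.add ((PL β X).continuous.continuousAt.comp continuousAt_snd)
  have e4 : extChartAt 𝓘(ℝ, E) a x + PL β X 0 = extChartAt 𝓘(ℝ, E) a x := by
    rw [map_zero, add_zero]
  have h5 : ContinuousAt (fun z : N × E => (extChartAt 𝓘(ℝ, E) a).symm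
      (extChartAt 𝓘(ℝ, E) a z.1 + PL β X z.2)) (x, 0) := by
    refine ContinuousAt.comp (x := ((x, 0) : N × E)) (g := (extChartAt 𝓘(ℝ, E) a).symm) ?_ h4
    simp only
    rw [e4]
    exact (continuousOn_extChartAt_symm a).continuousAt ((isOpen_extChartAt_target a).mem_nhds hp)
  have h6 : ContinuousAt (fun z : N × E => ((z.1, (extChartAt 𝓘(ℝ, E) a).symm
      (extChartAt 𝓘(ℝ, E) a z.1 + PL β X z.2), β z.2) : N × N × T)) (x, 0) :=
    continuousAt_fst.prodMk (h5.prodMk (β.continuous.continuousAt.comp continuousAt_snd))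
  have h7 := h6.tendsto
  simp only [map_zero, add_zero, (extChartAt 𝓘(ℝ, E) a).left_inv hx] at h7
  exact h7.eventually hQ

end Pool.Agent.R774.Cl
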