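import Mathlib
import Pool.Agent.R774.Cl3

/-! Closing of pseudo-orbits modulo a commuting family of maps. -/

open scoped Topology ContDiff Manifold
open Set Metric Filter

noncomputable section

set_option linter.unusedSectionVars false

namespace Pool.Agent.R774.Cl

universe u v

variable {E : Type u} [NormedAddCommGroup E] [NormedSpace ℝ E] [FiniteDimensional ℝ E]
  {T : Type v} [NormedAddCommGroup T] [NormedSpace ℝ T] [FiniteDimensional ℝ T]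
  {N : Type*} [TopologicalSpace N] [ChartedSpace E N] [IsManifold 𝓘(ℝ, E) ∞ N]
  {F : Type*} [NormedAddCommGroup F] [NormedSpace ℝ F]
  {F' : Type*} [NormedAddCommGroup F']

/-- frames for the infinitesimal action -/
lemma exists_frames [CompactSpace N] [T2Space N] {Φ : T → N → N} (hΦ : Act (E := E) Φ)
    {K : Set N} (hK : IsClosed K)
    (hfree : ∀ x ∈ K, ∀ s, dr T E (fun s => Φ s x) 0 s = 0 → s = 0) :
    ∃ (t : Finset N) (V : N → Set N) (β : N → E →L[ℝ] T) (X : N → T →L[ℝ] E),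
      (∀ a ∈ t, IsClosed (V a)) ∧ (∀ a ∈ t, V a ⊆ (extChartAt 𝓘(ℝ, E) a).source) ∧
      (∀ a ∈ t, (β a).comp (X a) = ContinuousLinearMap.id ℝ T) ∧
      (∀ a ∈ t, ∀ x ∈ V a, ‖(β a).comp (Xc (E := E) Φ a x) - ContinuousLinearMap.id ℝ T‖ ≤
        1 / 4) ∧ ∀ x ∈ K, ∃ a ∈ t, x ∈ V a := by
  have h1 : ∀ a : N, ∃ (V : Set N) (β : E →L[ℝ] T) (X : T →L[ℝ] E), a ∈ K →
      (V ∈ 𝓝 a ∧ IsClosed V ∧ V ⊆ (extChartAt 𝓘(ℝ, E) a).source ∧
        β.comp X = ContinuousLinearMap.id ℝ T ∧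
        ∀ x ∈ V, ‖β.comp (Xc (E := E) Φ a x) - ContinuousLinearMap.id ℝ T‖ ≤ 1 / 4) := by
    intro a
    by_cases ha : a ∈ K
    · have has : a ∈ (extChartAt 𝓘(ℝ, E) a).source := mem_extChartAt_source a
      have hker : LinearMap.ker ((Xc (E := E) Φ a a : T →L[ℝ] E) : T →ₗ[ℝ] E) = ⊥ := by
        rw [LinearMap.ker_eq_bot']
        intro s hs
        have hs1 : Xc (E := E) Φ a a s = 0 := hs
        rw [Xc_eq hΦ has] at hs1
        exact hfree a ha s (th_inj has hs1)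
      obtain ⟨g, hg⟩ := LinearMap.exists_leftInverse_of_injective _ hker
      have hgc : (LinearMap.toContinuousLinearMap g).comp (Xc (E := E) Φ a a) =
          ContinuousLinearMap.id ℝ T := by
        ext s
        exact LinearMap.congr_fun hg s
      have h2 : ∀ᶠ x in 𝓝 a, ‖(LinearMap.toContinuousLinearMap g).comp (Xc (E := E) Φ a x) -
          ContinuousLinearMap.id ℝ T‖ < 1 / 4 := by
        have h3 : ContinuousAt (fun x => ‖(LinearMap.toContinuousLinearMap g).comp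
            (Xc (E := E) Φ a x) - ContinuousLinearMap.id ℝ T‖) a :=
          ((continuousAt_const.clm_comp (Xc_cont hΦ has)).sub continuousAt_const).norm
        refine h3.eventually (gt_mem_nhds ?_)
        show ‖(LinearMap.toContinuousLinearMap g).comp
            (Xc (E := E) Φ a a) - ContinuousLinearMap.id ℝ T‖ < 1 / 4
        rw [hgc, sub_self, norm_zero]
        norm_num
      obtain ⟨V, hV1, hV2, hV3⟩ := exists_mem_nhds_isClosed_subset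
        (h2.and (extChartAt_source_mem_nhds (I := 𝓘(ℝ, E)) a))
      exact ⟨V, LinearMap.toContinuousLinearMap g, Xc (E := E) Φ a a, fun _ =>
        ⟨hV1, hV2, fun x hx => (hV3 hx).2, hgc, fun x hx => (hV3 hx).1.le⟩⟩
    · exact ⟨∅, 0, 0, fun h => absurd h ha⟩
  choose V β X h using h1
  obtain ⟨t, ht, htc⟩ := hK.isCompact.elim_nhds_subcover V (fun a ha => (h a ha).1)
  refine ⟨t, V, β, X, fun a ha => (h a (ht a ha)).2.1, fun a ha => (h a (ht a ha)).2.2.1,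
    fun a ha => (h a (ht a ha)).2.2.2.1, fun a ha => (h a (ht a ha)).2.2.2.2, fun x hx => ?_⟩
  have h2 := htc hx
  simp only [mem_iUnion, exists_prop] at h2
  exact h2

/-- the quadratic form on the tangent spaces -/
def qd (e : N → F) (B : N → F →L[ℝ] F →L[ℝ] ℝ) (x : N) (v : E) : ℝ :=
  B x (dr E F e x v) (dr E F e x v)

lemma q_bound {B : N → F →L[ℝ] F →L[ℝ] ℝ} {e : N → F} {a x : N} {C : ℝ}
    (h : 2 * ‖B x‖ * ‖fderiv ℝ (fun p => e ((extChartAt 𝓘(ℝ, E) a).symm p))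
        (extChartAt 𝓘(ℝ, E) a x)‖ ^ 2 ≤ C) (v w : E) :
    |qf B e a x (v - w) - qf B e a x v| ≤ C * (‖v‖ * ‖w‖ + ‖w‖ ^ 2) := by
  unfold qf
  set J := fderiv ℝ (fun p => e ((extChartAt 𝓘(ℝ, E) a).symm p)) (extChartAt 𝓘(ℝ, E) a x)
    with hJ
  rw [map_sub]
  set u := J v with hu
  set u' := J w with hu'
  have e1 : B x (u - u') (u - u') - B x u u = B x u' u' - B x u u' - B x u' u := by
    simp only [map_sub, sub_apply]
    ring
  have e2 : ‖u‖ ≤ ‖J‖ * ‖v‖ := J.le_opNorm _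
  have e3 : ‖u'‖ ≤ ‖J‖ * ‖w‖ := J.le_opNorm _
  have e4 : ∀ s s' : F, |B x s s'| ≤ ‖B x‖ * ‖s‖ * ‖s'‖ := fun s s' =>
    ContinuousLinearMap.le_opNorm₂ (B x) s s'
  rw [e1]
  have hJ0 : 0 ≤ ‖J‖ := norm_nonneg _
  have hB0 : 0 ≤ ‖B x‖ := ContinuousLinearMap.opNorm_nonneg _
  calc |B x u' u' - B x u u' - B x u' u|
      ≤ |B x u' u'| + |B x u u'| + |B x u' u| := by
        refine (abs_sub _ _).trans ?_
        gcongr
        exact abs_sub _ _
    _ ≤ ‖B x‖ * ‖u'‖ * ‖u'‖ + ‖B x‖ * ‖u‖ * ‖u'‖ + ‖B x‖ * ‖u'‖ * ‖u‖ := by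
        gcongr <;> exact e4 _ _
    _ ≤ ‖B x‖ * (‖J‖ * ‖w‖) * (‖J‖ * ‖w‖) + ‖B x‖ * (‖J‖ * ‖v‖) * (‖J‖ * ‖w‖) +
        ‖B x‖ * (‖J‖ * ‖w‖) * (‖J‖ * ‖v‖) := by gcongr
    _ ≤ (2 * ‖B x‖ * ‖J‖ ^ 2) * (‖v‖ * ‖w‖ + ‖w‖ ^ 2) := by
        have : 0 ≤ ‖B x‖ * ‖J‖ ^ 2 * ‖w‖ ^ 2 := by positivity
        nlinarith
    _ ≤ C * (‖v‖ * ‖w‖ + ‖w‖ ^ 2) := by gcongr

/-- the quadratic form does not change in the direction of the orbits, in charts -/
lemma rad_chart {Φ : T → N → N} (hΦ : Act (E := E) Φ) {b y : N}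
    (hy : y ∈ (extChartAt 𝓘(ℝ, E) b).source) {B : N → F →L[ℝ] F →L[ℝ] ℝ} {e : N → F}
    (he : ContMDiff 𝓘(ℝ, E) 𝓘(ℝ, F) 1 e)
    (hrad : ∀ (v : E) s, qd e B y (v + dr T E (fun s => Φ s y) 0 s) = qd e B y v)
    (z : E) (s : T) : qf B e b y (z + Xc Φ b y s) = qf B e b y z := by
  obtain ⟨v, rfl⟩ := th_surj hy z
  rw [Xc_eq hΦ hy, ← map_add, qf_th he hy, qf_th he hy]
  exact hrad v s

/-- the strict inequality in charts -/
lemma strict_chart {Φ : T → N → N} (hΦ : Act (E := E) Φ) {f : N → N}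
    (hf : ContMDiff 𝓘(ℝ, E) 𝓘(ℝ, E) 1 f) {a b x : N}
    (hx : x ∈ (extChartAt 𝓘(ℝ, E) a).source) (hfx : f x ∈ (extChartAt 𝓘(ℝ, E) b).source)
    {B : N → F →L[ℝ] F →L[ℝ] ℝ} {e : N → F}
    (he : ContMDiff 𝓘(ℝ, E) 𝓘(ℝ, F) 1 e) {β : E →L[ℝ] T}
    (hβ : ‖β.comp (Xc (E := E) Φ a x) - ContinuousLinearMap.id ℝ T‖ ≤ 1 / 4)
    (hinc : ∀ v : E, (∀ s, v ≠ dr T E (fun s => Φ s x) 0 s) →
      qd e B x v < qd e B (f x) (dr E E f x v))
    {z : E} (hz : β z = 0) (hz0 : z ≠ 0) :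
    qf B e a x z < qf B e b (f x) (JD Φ f a b x (z, 0)) := by
  obtain ⟨v, rfl⟩ := th_surj hx z
  rw [JD_fst hΦ hf hx hfx, qf_th he hx, qf_th he hfx]
  apply hinc
  intro s hs
  rw [hs, ← Xc_eq hΦ hx] at hz hz0
  apply hz0
  have h1 := (β.comp (Xc (E := E) Φ a x) - ContinuousLinearMap.id ℝ T).le_opNorm s
  have h2 : (β.comp (Xc (E := E) Φ a x) - ContinuousLinearMap.id ℝ T) s = - s := by
    rw [sub_apply, ContinuousLinearMap.comp_apply, hz]
    simp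
  rw [h2, norm_neg] at h1
  have h3 : ‖β.comp (Xc (E := E) Φ a x) - ContinuousLinearMap.id ℝ T‖ * ‖s‖ ≤ 1 / 4 * ‖s‖ :=
    mul_le_mul_of_nonneg_right hβ (norm_nonneg _)
  have h4 : ‖s‖ = 0 := le_antisymm (by linarith) (norm_nonneg _)
  rw [norm_eq_zero.1 h4, map_zero]

attribute [local irreducible] PL AE GE JD Xc qf

/-- **Closing modulo a commuting family of maps.** -/
theorem closing [T2Space N] [CompactSpace N] {Φ : T → N → N} (hΦ : Act (E := E) Φ) {f : N → N}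
    (hf : ContMDiff 𝓘(ℝ, E) 𝓘(ℝ, E) 1 f)
    {B : N → F →L[ℝ] F →L[ℝ] ℝ} (hB : Continuous B) {e : N → F}
    (he : ContMDiff 𝓘(ℝ, E) 𝓘(ℝ, F) 1 e) {d : N → F'} (hd : Continuous d)
    (hdinj : Function.Injective d) {K : Set N} (hK : IsClosed K) (hfK : ∀ x ∈ K, f x ∈ K)
    (hfree : ∀ x ∈ K, ∀ s, dr T E (fun s => Φ s x) 0 s = 0 → s = 0)
    (hrad : ∀ x ∈ K, ∀ (v : E) s, qd e B x (v + dr T E (fun s => Φ s x) 0 s) = qd e B x v)
    (hinc : ∀ x ∈ K, ∀ v : E, (∀ s, v ≠ dr T E (fun s => Φ s x) 0 s) →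
      qd e B x v < qd e B (f x) (dr E E f x v))
    {Q : N → N → T → Prop} (hQ : ∀ x ∈ K, ∀ᶠ q in 𝓝 (x, x, (0:T)), Q q.1 q.2.1 q.2.2) :
    ∃ δ > 0, ∀ (n : ℕ) [NeZero n] (x : ZMod n → N), (∀ i, x i ∈ K) →
      (∀ i, ‖d (x (i + 1)) - d (f (x i))‖ < δ) →
      ∃ (y : ZMod n → N) (s : ZMod n → T), (∀ i, Φ (s i) (f (y i)) = y (i + 1)) ∧
        ∀ i, Q (x i) (y i) (s i) := by
  obtain ⟨t, V, β, X, hVc, hVs, hβX, hβ4, hVt⟩ := exists_frames hΦ hK hfree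
  choose! ctr hctr hctrV using hVt
  have hfc := hf.continuous
  -- bounds for the frames
  obtain ⟨Ct, hCt1, hCt⟩ : ∃ Ct : ℝ, 1 ≤ Ct ∧ ∀ a ∈ t, ‖PL (β a) (X a)‖ ≤ Ct ∧ ‖β a‖ ≤ Ct ∧
      ‖X a‖ ≤ Ct := by
    refine ⟨1 + ∑ a ∈ t, (‖PL (β a) (X a)‖ + ‖β a‖ + ‖X a‖), ?_, fun a ha => ?_⟩
    · have : 0 ≤ ∑ a ∈ t, (‖PL (β a) (X a)‖ + ‖β a‖ + ‖X a‖) :=
        Finset.sum_nonneg fun a _ => by positivity
      linarith
    · have h1 : ‖PL (β a) (X a)‖ + ‖β a‖ + ‖X a‖ ≤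
          ∑ a ∈ t, (‖PL (β a) (X a)‖ + ‖β a‖ + ‖X a‖) :=
        Finset.single_le_sum (f := fun a => ‖PL (β a) (X a)‖ + ‖β a‖ + ‖X a‖)
          (fun a _ => by positivity) ha
      have h2 := norm_nonneg (PL (β a) (X a))
      have h3 := norm_nonneg (β a)
      have h4 := norm_nonneg (X a)
      exact ⟨by linarith, by linarith, by linarith⟩
  -- bounds
  obtain ⟨C₀, δ₀, hδ₀, hC₀⟩ := unif hd hdinj hfc hK hVc (t := t)
    (Q := fun C a b x _ => ‖JD (E := E) Φ f a b x‖ ≤ C ∧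
      2 * ‖B x‖ * ‖fderiv ℝ (fun p => e ((extChartAt 𝓘(ℝ, E) a).symm p))
        (extChartAt 𝓘(ℝ, E) a x)‖ ^ 2 ≤ C)
    (by
      intro m n a b x y hmn ⟨h1, h2⟩
      have : (m : ℝ) ≤ n := by exact_mod_cast hmn
      exact ⟨h1.trans this, h2.trans this⟩)
    (by
      intro a ha b hb x _ hxa hgb
      obtain ⟨N, hN⟩ := loc_bound hΦ hf (hVs a ha hxa) (hVs b hb hgb) hB he
      exact ⟨N, (continuous_fst.tendsto (x, f x)).eventually hN⟩)
  obtain ⟨C, hCdef⟩ : ∃ C : ℝ, C = 2 * (1 + C₀) * Ct := ⟨_, rfl⟩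
  have hC₀0 : (0 : ℝ) ≤ C₀ := Nat.cast_nonneg C₀
  have hC2 : 2 ≤ C := by rw [hCdef]; nlinarith
  have hC1 : 1 ≤ C := by linarith
  have hC0 : 0 < C := by linarith
  have hCC : (C₀ : ℝ) ≤ C := by rw [hCdef]; nlinarith
  have hCCt : Ct ≤ C := by rw [hCdef]; nlinarith
  have hC3 : C₀ * Ct ≤ C := by rw [hCdef]; nlinarith
  have hC4 : 2 * (C₀ * Ct) ≤ C := by rw [hCdef]; nlinarith
  -- the image point is in the chart
  obtain ⟨_, δ₇, hδ₇, h7⟩ := unif hd hdinj hfc hK hVc (t := t)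
    (Q := fun _ _ b x _ => f x ∈ (extChartAt 𝓘(ℝ, E) b).source)
    (fun _ _ _ _ _ _ _ h1 => h1)
    (by
      intro a ha b hb x _ hxa hgb
      refine ⟨0, ?_⟩
      have h1 : ContinuousAt (fun q : N × N => f q.1) (x, f x) :=
        (hfc.comp continuous_fst).continuousAt
      exact h1.eventually ((isOpen_extChartAt_source b).mem_nhds (hVs b hb hgb)))
  -- the increase of the quadratic form
  obtain ⟨N₁, δ₁, hδ₁, hN₁⟩ := unif hd hdinj hfc hK hVc (t := t)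
    (Q := fun C a b x _ => ∀ z : E, β a z = 0 →
      qf B e a x z + 1 / ((C:ℝ) + 1) * ‖z‖ ^ 2 ≤ qf B e b (f x) (JD Φ f a b x (z, 0)))
    (by
      intro m n a b x y hmn h1 z hz
      refine le_trans ?_ (h1 z hz)
      have h2 : (m : ℝ) ≤ n := by exact_mod_cast hmn
      gcongr)
    (by
      intro a ha b hb x hx hxa hgb
      obtain ⟨N, hN⟩ := loc_q1 hΦ hf (hVs a ha hxa) (hVs b hb hgb) hB he (β := β a)
        (fun z hz hz0 => strict_chart hΦ hf (hVs a ha hxa) (hVs b hb hgb) he (hβ4 a ha x hxa)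
          (hinc x hx) hz hz0)
      exact ⟨N, (continuous_fst.tendsto (x, f x)).eventually hN⟩)
  set κ : ℝ := 1 / ((N₁:ℝ) + 1) with hκ
  have hκ0 : 0 < κ := by positivity
  set c₂ : ℝ := κ / (32 * C ^ 4) with hc₂
  have hc₂0 : 0 < c₂ := by positivity
  obtain ⟨_, δ₃, hδ₃, hq3⟩ := unif hd hdinj hfc hK hVc (t := t)
    (Q := fun _ a b x y => ∀ v : E, |qf B e b y v - qf B e b (f x) v| ≤ c₂ / C ^ 2 * ‖v‖ ^ 2)
    (fun _ _ _ _ _ _ _ h1 => h1)
    (fun a ha b hb x hx hxa hgb => ⟨0, loc_q3 hfc (hVs b hb hgb) hB he (by positivity)⟩)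
  obtain ⟨_, δ₂, hδ₂, hX2⟩ := unif hd hdinj hfc hK hVc (t := t)
    (Q := fun _ a b x y => ‖(β b).comp (Xc (E := E) Φ b (f x)) -
      ContinuousLinearMap.id ℝ T‖ ≤ 1 / 2)
    (fun _ _ _ _ _ _ _ h1 => h1)
    (by
      intro a ha b hb x hx hxa hgb
      exact ⟨0, (continuous_fst.tendsto (x, f x)).eventually
        (loc_X hΦ hfc (hVs b hb hgb) (hβ4 b hb _ hgb))⟩)
  have hKi := Ki_pos C κ
  set c₁ : ℝ := (Ki C κ)⁻¹ / 2 with hc₁
  have hc₁0 : 0 < c₁ := by positivity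
  obtain ⟨N₄, δ₄, hδ₄, h4⟩ := unif hd hdinj hfc hK hVc (t := t)
    (Q := fun C a b x _ => ∀ w w', ‖w‖ ≤ 1 / ((C:ℝ) + 1) → ‖w'‖ ≤ 1 / ((C:ℝ) + 1) →
      ‖GE Φ f (β a) (X a) a b x w - GE Φ f (β a) (X a) a b x w' -
        AE Φ f (β a) (X a) a b x (w - w')‖ ≤ c₁ * ‖w - w'‖)
    (by
      intro m n a b x y hmn h1 w w' hw hw'
      have h2 : (m : ℝ) ≤ n := by exact_mod_cast hmn
      have h3 : 1 / ((n:ℝ) + 1) ≤ 1 / ((m:ℝ) + 1) := by gcongr
      exact h1 w w' (hw.trans h3) (hw'.trans h3))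
    (by
      intro a ha b hb x _ hxa hgb
      obtain ⟨N, hN⟩ := loc_approx hΦ hf (hVs a ha hxa) (hVs b hb hgb) (β a) (X a) hc₁0
      exact ⟨N, (continuous_fst.tendsto (x, f x)).eventually hN⟩)
  have hΦc : Continuous (fun q : T × N => Φ q.1 q.2) := hΦ.smooth.continuous
  obtain ⟨N₅, δ₅, hδ₅, h5⟩ := unif hd hdinj hfc hK hVc (t := t)
    (Q := fun C a b x _ => ∀ w : E, ‖w‖ ≤ 1 / ((C:ℝ) + 1) →
      (Φ (β a w) (f ((extChartAt 𝓘(ℝ, E) a).symm (extChartAt 𝓘(ℝ, E) a x +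
        PL (β a) (X a) w))) ∈ (extChartAt 𝓘(ℝ, E) b).source ∧
      Q x ((extChartAt 𝓘(ℝ, E) a).symm (extChartAt 𝓘(ℝ, E) a x + PL (β a) (X a) w)) (β a w)))
    (by
      intro m n a b x y hmn h1 w hw
      have h2 : (m : ℝ) ≤ n := by exact_mod_cast hmn
      have h3 : 1 / ((n:ℝ) + 1) ≤ 1 / ((m:ℝ) + 1) := by gcongr
      exact h1 w (hw.trans h3))
    (by
      intro a ha b hb x hx hxa hgb
      have e1 : ∀ᶠ q in 𝓝 (x, x, (0:T)), Φ q.2.2 (f q.2.1) ∈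
          (extChartAt 𝓘(ℝ, E) b).source := by
        have h6 : Continuous (fun q : N × N × T => Φ q.2.2 (f q.2.1)) :=
          hΦc.comp ((continuous_snd.comp continuous_snd).prodMk
            (hfc.comp (continuous_fst.comp continuous_snd)))
        have h7 := h6.tendsto (x, x, (0:T))
        simp only [hΦ.zero] at h7
        exact h7.eventually ((isOpen_extChartAt_source b).mem_nhds (hVs b hb hgb))
      obtain ⟨N, hN⟩ := loc_dyn (hVs a ha hxa) (β a) (X a) (Q := fun x' y s =>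
        Φ s (f y) ∈ (extChartAt 𝓘(ℝ, E) b).source ∧ Q x' y s) (e1.and (hQ x hx))
      exact ⟨N, (continuous_fst.tendsto (x, f x)).eventually hN⟩)
  set ε : ℝ := min (1 / ((N₄:ℝ) + 1)) (1 / ((N₅:ℝ) + 1)) with hε
  have hε0 : 0 < ε := lt_min (by positivity) (by positivity)
  set r : ℝ := ((Ki C κ)⁻¹ - c₁) * ε with hr
  have hr0 : 0 < r := by
    have : (Ki C κ)⁻¹ - c₁ = (Ki C κ)⁻¹ / 2 := by rw [hc₁]; ring
    rw [hr, this]
    positivity
  obtain ⟨_, δ₆, hδ₆, h6⟩ := unif hd hdinj hfc hK hVc (t := t)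
    (Q := fun _ _ b x y => ‖extChartAt 𝓘(ℝ, E) b (f x) - extChartAt 𝓘(ℝ, E) b y‖ ≤ r)
    (fun _ _ _ _ _ _ _ h1 => h1)
    (by
      intro a ha b hb x _ hxa hgb
      refine ⟨0, ?_⟩
      have h7 : ContinuousAt (fun q : N × N => extChartAt 𝓘(ℝ, E) b (f q.1)) (x, f x) :=
        ContinuousAt.comp (x := ((x, f x) : N × N)) (f := fun q : N × N => f q.1)
          (g := extChartAt 𝓘(ℝ, E) b) (continuousAt_extChartAt' (hVs b hb hgb))
          (hfc.comp continuous_fst).continuousAt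
      have h8 : ContinuousAt (fun q : N × N => extChartAt 𝓘(ℝ, E) b q.2) (x, f x) :=
        ContinuousAt.comp (x := ((x, f x) : N × N)) (f := Prod.snd)
          (g := extChartAt 𝓘(ℝ, E) b) (continuousAt_extChartAt' (hVs b hb hgb))
          continuousAt_snd
      have h9 : Tendsto (fun q : N × N => ‖extChartAt 𝓘(ℝ, E) b (f q.1) -
          extChartAt 𝓘(ℝ, E) b q.2‖) (𝓝 (x, f x)) (𝓝 0) := by
        have h10 := ((h7.sub h8).norm).tendsto
        simp only [Pi.sub_apply, sub_self, norm_zero] at h10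
        exact h10
      exact (h9.eventually (gt_mem_nhds hr0)).mono fun _ h => le_of_lt h)
  obtain ⟨δ, hδ0, hd0, hd1, hd2, hd3, hd4, hd5, hd6, hd7⟩ : ∃ δ > 0, δ ≤ δ₀ ∧ δ ≤ δ₁ ∧ δ ≤ δ₂ ∧
      δ ≤ δ₃ ∧ δ ≤ δ₄ ∧ δ ≤ δ₅ ∧ δ ≤ δ₆ ∧ δ ≤ δ₇ := by
    refine ⟨min (min (min δ₀ δ₁) (min δ₂ δ₃)) (min (min δ₄ δ₅) (min δ₆ δ₇)), ?_, ?_⟩
    · refine lt_min (lt_min (lt_min ?_ ?_) (lt_min ?_ ?_))
        (lt_min (lt_min ?_ ?_) (lt_min ?_ ?_)) <;> assumption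
    · simp
  refine ⟨δ, hδ0, ?_⟩
  intro n _ x hxK hm
  obtain ⟨a, ha⟩ : ∃ a : ZMod n → N, ∀ i, a i = ctr (x i) := ⟨_, fun _ => rfl⟩
  have hat : ∀ i, a i ∈ t := fun i => by rw [ha]; exact hctr _ (hxK i)
  have haV : ∀ i, x i ∈ V (a i) := fun i => by rw [ha]; exact hctrV _ (hxK i)
  have hxs : ∀ i, x i ∈ (extChartAt 𝓘(ℝ, E) (a i)).source := fun i => hVs _ (hat i) (haV i)
  have hfxs : ∀ i, f (x i) ∈ (extChartAt 𝓘(ℝ, E) (a (i + 1))).source := fun i =>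
    h7 (a i) (hat i) (a (i + 1)) (hat _) (x i) (hxK i) (x (i + 1)) (haV i) (haV _)
      ((hm i).trans_le hd7)
  have hJD : ∀ i, ∀ u : E × T, ‖JD Φ f (a i) (a (i + 1)) (x i) u‖ ≤ C₀ * ‖u‖ := fun i u =>
    (ContinuousLinearMap.le_opNorm _ _).trans (mul_le_mul_of_nonneg_right
      (hC₀ (a i) (hat i) (a (i + 1)) (hat _) (x i) (hxK i) (x (i + 1)) (haV i) (haV _)
      ((hm i).trans_le hd0)).1 (norm_nonneg _))
  have hPn : ∀ i (w : E), ‖PL (β (a i)) (X (a i)) w‖ ≤ Ct * ‖w‖ := fun i w =>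
    (ContinuousLinearMap.le_opNorm _ _).trans (mul_le_mul_of_nonneg_right
      (hCt _ (hat i)).1 (norm_nonneg _))
  have hbn : ∀ i (w : E), ‖β (a i) w‖ ≤ Ct * ‖w‖ := fun i w =>
    (ContinuousLinearMap.le_opNorm _ _).trans (mul_le_mul_of_nonneg_right
      (hCt _ (hat i)).2.1 (norm_nonneg _))
  have hAn : ∀ i (w : E), ‖AE Φ f (β (a i)) (X (a i)) (a i) (a (i + 1)) (x i) w‖ ≤
      C * ‖w‖ := by
    intro i w
    rw [AE_apply]
    refine (hJD i _).trans ?_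
    have h8 : ‖((PL (β (a i)) (X (a i)) w, β (a i) w) : E × T)‖ ≤ Ct * ‖w‖ := by
      rw [Prod.norm_def]
      exact max_le (hPn i w) (hbn i w)
    calc (C₀ : ℝ) * ‖((PL (β (a i)) (X (a i)) w, β (a i) w) : E × T)‖ ≤ C₀ * (Ct * ‖w‖) := by
          gcongr
      _ = C₀ * Ct * ‖w‖ := by ring
      _ ≤ C * ‖w‖ := by gcongr
  have hLin : Lin (Equiv.addRight (1 : ZMod n))
      (fun i => AE Φ f (β (a i)) (X (a i)) (a i) (a (i + 1)) (x i))
      (fun i => PL (β (a i)) (X (a i))) (fun i => β (a i)) (fun i => qf B e (a i) (x i))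
      C κ c₂ := by
    refine ⟨hAn, ?_, ?_, ?_, ?_, ?_, ?_, ?_⟩
    · intro i w
      exact (hPn i w).trans (by gcongr)
    · intro i w
      exact (hbn i w).trans (by gcongr)
    · intro i w
      have h8 : w = PL (β (a i)) (X (a i)) w + X (a i) (β (a i) w) := by
        rw [PL_apply, sub_add_cancel]
      have h9 : ‖w‖ ≤ ‖PL (β (a i)) (X (a i)) w‖ + ‖X (a i) (β (a i) w)‖ := by
        nth_rewrite 1 [h8]
        exact norm_add_le _ _
      have h10 : ‖X (a i) (β (a i) w)‖ ≤ C * ‖β (a i) w‖ := by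
        refine (ContinuousLinearMap.le_opNorm _ _).trans ?_
        have := (hCt _ (hat i)).2.2
        gcongr
        exact this.trans hCCt
      linarith
    · intro i w
      show β (a i) (PL (β (a i)) (X (a i)) w) = 0
      rw [PL_apply, map_sub]
      have h8 := DFunLike.congr_fun (hβX _ (hat i)) (β (a i) w)
      have h9 : β (a i) (X (a i) (β (a i) w)) = β (a i) w := h8
      rw [h9, sub_self]
    · intro i w
      show ‖β (a i) w‖ ≤ C * (‖β (a (i + 1)) (AE Φ f (β (a i)) (X (a i)) (a i) (a (i + 1))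
        (x i) w)‖ + ‖PL (β (a i)) (X (a i)) w‖)
      rw [AE_apply, JD_apply hΦ hf (hxs i) (hfxs i), map_add]
      set p := PL (β (a i)) (X (a i)) w with hp
      set s := β (a i) w with hs
      set u₁ := β (a (i + 1)) (JD Φ f (a i) (a (i + 1)) (x i) (p, 0)) with hu₁
      set u₂ := β (a (i + 1)) (Xc Φ (a (i + 1)) (f (x i)) s) with hu₂
      have h8 : ‖u₁‖ ≤ C₀ * Ct * ‖p‖ := by
        refine (hbn (i + 1) _).trans ?_
        have h9 := hJD i (p, 0)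
        rw [Prod.norm_def] at h9
        simp only [norm_zero, max_eq_left (norm_nonneg p)] at h9
        calc Ct * ‖JD Φ f (a i) (a (i + 1)) (x i) (p, 0)‖ ≤ Ct * (C₀ * ‖p‖) := by gcongr
          _ = C₀ * Ct * ‖p‖ := by ring
      have h9 : ‖s‖ ≤ 2 * ‖u₂‖ := by
        have h10 := hX2 (a i) (hat i) (a (i + 1)) (hat _) (x i) (hxK i) (x (i + 1)) (haV i)
          (haV _) ((hm i).trans_le hd2)
        have h11 := ((β (a (i + 1))).comp (Xc (E := E) Φ (a (i + 1)) (f (x i))) -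
          ContinuousLinearMap.id ℝ T).le_opNorm s
        have h12 : ((β (a (i + 1))).comp (Xc (E := E) Φ (a (i + 1)) (f (x i))) -
          ContinuousLinearMap.id ℝ T) s = u₂ - s := rfl
        rw [h12] at h11
        have h13 : ‖(β (a (i + 1))).comp (Xc (E := E) Φ (a (i + 1)) (f (x i))) -
          ContinuousLinearMap.id ℝ T‖ * ‖s‖ ≤ 1 / 2 * ‖s‖ :=
          mul_le_mul_of_nonneg_right h10 (norm_nonneg _)
        have h14 : ‖s‖ ≤ ‖u₂‖ + ‖u₂ - s‖ := by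
          have : s = u₂ - (u₂ - s) := by abel
          nth_rewrite 1 [this]
          exact norm_sub_le _ _
        linarith
      have h10 : ‖u₂‖ ≤ ‖u₁ + u₂‖ + ‖u₁‖ := by
        have : u₂ = (u₁ + u₂) - u₁ := by abel
        nth_rewrite 1 [this]
        exact norm_sub_le _ _
      have h11 := norm_nonneg (u₁ + u₂)
      have h12 := norm_nonneg p
      calc ‖s‖ ≤ 2 * ‖u₁ + u₂‖ + 2 * (C₀ * Ct) * ‖p‖ := by linarith
        _ ≤ C * ‖u₁ + u₂‖ + C * ‖p‖ := by gcongr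
        _ = C * (‖u₁ + u₂‖ + ‖p‖) := by ring
    · intro i w
      show qf B e (a i) (x i) (PL (β (a i)) (X (a i)) w) + κ * ‖PL (β (a i)) (X (a i)) w‖ ^ 2 ≤
        qf B e (a (i + 1)) (x (i + 1)) (AE Φ f (β (a i)) (X (a i)) (a i) (a (i + 1))
        (x i) w) + c₂ * ‖w‖ ^ 2
      have h8 := hN₁ (a i) (hat i) (a (i + 1)) (hat _) (x i) (hxK i) (x (i + 1)) (haV i) (haV _)
        ((hm i).trans_le hd1) (PL (β (a i)) (X (a i)) w) (by
          rw [PL_apply, map_sub]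
          have h8 := DFunLike.congr_fun (hβX _ (hat i)) (β (a i) w)
          have h9 : β (a i) (X (a i) (β (a i) w)) = β (a i) w := h8
          rw [h9, sub_self])
      have h9 := rad_chart hΦ (hfxs i) he (hrad _ (hfK _ (hxK i)))
        (JD Φ f (a i) (a (i + 1)) (x i) (PL (β (a i)) (X (a i)) w, 0)) (β (a i) w)
      rw [← JD_apply hΦ hf (hxs i) (hfxs i), ← AE_apply] at h9
      have h10 := hq3 (a i) (hat i) (a (i + 1)) (hat _) (x i) (hxK i) (x (i + 1)) (haV i)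
        (haV _) ((hm i).trans_le hd3)
        (AE Φ f (β (a i)) (X (a i)) (a i) (a (i + 1)) (x i) w)
      have h11 := (abs_le.1 h10).1
      have h12 : c₂ / C ^ 2 * ‖AE Φ f (β (a i)) (X (a i)) (a i) (a (i + 1)) (x i) w‖ ^ 2 ≤
          c₂ * ‖w‖ ^ 2 := by
        have h13 := hAn i w
        calc _ ≤ c₂ / C ^ 2 * (C * ‖w‖) ^ 2 := by gcongr
          _ = c₂ * ‖w‖ ^ 2 := by field_simp
      rw [← h9] at h8
      linarith
    · intro i v w
      refine q_bound ?_ v w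
      exact (hC₀ (a i) (hat i) (a (i + 1)) (hat _) (x i) (hxK i) (x (i + 1)) (haV i) (haV _)
        ((hm i).trans_le hd0)).2.trans hCC
  -- the nonlinear equations
  obtain ⟨w, hwε, hw⟩ := shadow hLin hC1 hκ0 hc₂0.le le_rfl
    (Γ := fun i w => GE Φ f (β (a i)) (X (a i)) (a i) (a (i + 1)) (x i) w -
      extChartAt 𝓘(ℝ, E) (a (i + 1)) (x (i + 1))) hc₁0.le hε0
    (by
      intro i w w' hw hw'
      have h8 := h4 (a i) (hat i) (a (i + 1)) (hat _) (x i) (hxK i) (x (i + 1))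
        (haV i) (haV _) ((hm i).trans_le hd4) w w' (hw.trans (min_le_left _ _))
        (hw'.trans (min_le_left _ _))
      rw [sub_sub_sub_cancel_right]
      exact h8) (r := r) le_rfl hr0.le
    (by
      intro i
      have h8 : GE Φ f (β (a i)) (X (a i)) (a i) (a (i + 1)) (x i) 0 =
          extChartAt 𝓘(ℝ, E) (a (i + 1)) (f (x i)) := by
        unfold GE JJ
        rw [map_zero, map_zero, add_zero, hΦ.zero,
          (extChartAt 𝓘(ℝ, E) (a i)).left_inv (hxs i)]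
      simp only [h8]
      exact h6 (a i) (hat i) (a (i + 1)) (hat _) (x i) (hxK i) (x (i + 1)) (haV i) (haV _)
        ((hm i).trans_le hd6))
  refine ⟨fun i => (extChartAt 𝓘(ℝ, E) (a i)).symm
    (extChartAt 𝓘(ℝ, E) (a i) (x i) + PL (β (a i)) (X (a i)) (w i)), fun i => β (a i) (w i),
    fun i => ?_, fun i => ?_⟩
  · have h8 := h5 (a i) (hat i) (a (i + 1)) (hat _) (x i) (hxK i) (x (i + 1)) (haV i) (haV _)
      ((hm i).trans_le hd5) (w i) ((hwε i).trans (min_le_right _ _))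
    have h9 := hw i
    rw [sub_eq_iff_eq_add'] at h9
    simp only
    rw [← h9]
    unfold GE JJ
    rw [(extChartAt 𝓘(ℝ, E) (a (i + 1))).left_inv h8.1]
  · exact (h5 (a i) (hat i) (a (i + 1)) (hat _) (x i) (hxK i) (x (i + 1)) (haV i) (haV _)
      ((hm i).trans_le hd5) (w i) ((hwε i).trans (min_le_right _ _))).2

end Pool.Agent.R774.Cl
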