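import Mathlib
import Pool.Agent.R774.Cl2
import Pool.Agent.H718R2.G0

/-! Transversal hyperbolicity relative to a smooth action of `ℝᵏ`: definitions. -/

open scoped Topology ContDiff Manifold

noncomputable section

namespace Pool.Agent.R774.ClStmt

open Pool.Agent.H718R2.G Pool.Agent.R774.Cl

/-- A smooth action of `ℝᵏ` on `N`. -/
structure IsAction (k n : ℕ) (N : Type*) [TopologicalSpace N] [ChartedSpace (V n) N]
    (Φ : V k → N → N) : Prop where
  smooth : ContMDiff ((𝓡 k).prod (𝓡 n)) (𝓡 n) ∞ (fun q : V k × N => Φ q.1 q.2)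
  zero : ∀ y, Φ 0 y = y
  add : ∀ a b y, Φ (a + b) y = Φ a (Φ b y)

section

variable {k n m : ℕ} {N : Type*} [TopologicalSpace N] [ChartedSpace (V n) N]

/-- The tangent vector at `x` of the curve `t ↦ Φ (t s) x`. -/
def orb (Φ : V k → N → N) (x : N) (s : V k) : V n := dr (V k) (V n) (fun a => Φ a x) 0 s

/-- The quadratic form `Q_x(v) = B_x (De v, De v)` on the tangent space of `N` at `x`. -/
def quad (e : N → V m) (B : N → V m →L[ℝ] V m →L[ℝ] ℝ) (x : N) (v : V n) : ℝ :=
  B x (dr (V n) (V m) e x v) (dr (V n) (V m) e x v)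

/-- `K` is a closed set, invariant under `F`; near `K` the map `F` commutes with the action `Φ`, which
is locally free on `K`; the quadratic form `Q = quad e B` (of any signature) does not change in the
direction of the orbits of `Φ`, and it increases strictly under `DF` on all vectors which are not
tangent to the orbits, at the points of `K`. -/
structure HypSet (F : N → N) (Φ : V k → N → N) (K : Set N) (e : N → V m)
    (B : N → V m →L[ℝ] V m →L[ℝ] ℝ) : Prop where
  action : IsAction k n N Φ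
  closed : IsClosed K
  inv : ∀ x ∈ K, F x ∈ K
  comm : ∃ O : Set N, IsOpen O ∧ K ⊆ O ∧ (∀ a, ∀ y ∈ O, Φ a y ∈ O) ∧
    ∀ a, ∀ y ∈ O, F (Φ a y) = Φ a (F y)
  free : ∀ x ∈ K, ∀ s, orb (n := n) Φ x s = 0 → s = 0
  smooth : ContMDiff (𝓡 n) (𝓡 m) 1 e
  cont : Continuous B
  basic : ∀ x ∈ K, ∀ (v : V n) (s : V k), quad e B x (v + orb Φ x s) = quad e B x v
  incr : ∀ x ∈ K, ∀ v : V n, (∀ s, v ≠ orb Φ x s) →
    quad e B x v < quad e B (F x) (dr (V n) (V n) F x v)

end

/-- `z` is chain recurrent for the restriction of `F` to `K`: for every neighbourhood `W` of the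
diagonal there is a closed `W`-pseudo-orbit through `z` in `K`. -/
def ChainRecOn {N : Type*} [TopologicalSpace N] (F : N → N) (K : Set N) (z : N) : Prop :=
  ∀ W : Set (N × N), IsOpen W → (∀ x, (x, x) ∈ W) →
    ∃ (m : ℕ) (x : ℕ → N), 1 ≤ m ∧ x 0 = z ∧ x m = z ∧ (∀ i ≤ m, x i ∈ K) ∧
      ∀ i < m, (F (x i), x (i + 1)) ∈ W

end Pool.Agent.R774.ClStmt
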