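import Mathlib
import Pool.Agent.R774.Cl4
import Pool.Agent.R774.ClStmt
import Pool.Agent.W564.SC.Lib

/-! The `C^r` closing lemma for diffeomorphisms which are hyperbolic transversally to the orbits of a
commuting action. -/

open scoped Topology ContDiff Manifold
open Set Metric Filter

noncomputable section

set_option linter.unusedSectionVars false

namespace Pool.Agent.R774.ClStmt

open Pool.Agent.H718R2.G Pool.Agent.R774.Cl Pool.Agent.W564.SC

universe u

variable {k n m : ℕ} {N : Type u} [TopologicalSpace N] [ChartedSpace (V n) N]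
  [IsManifold (𝓡 n) ∞ N]

/-- the maps of the action -/
def actD {Φ : V k → N → N} (h : IsAction k n N Φ) (r : ℕ∞) (s : V k) : DiffM n N r where
  toFun := Φ s
  invFun := Φ (-s)
  left_inv := fun y => by rw [← h.add, neg_add_cancel, h.zero]
  right_inv := fun y => by rw [← h.add, add_neg_cancel, h.zero]
  contMDiff_toFun := by
    have h1 : ContMDiff (𝓡 n) ((𝓡 k).prod (𝓡 n)) ∞ (fun y : N => (s, y)) :=
      contMDiff_const.prodMk contMDiff_id
    exact (h.smooth.comp h1).of_le (by exact_mod_cast le_top)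
  contMDiff_invFun := by
    have h1 : ContMDiff (𝓡 n) ((𝓡 k).prod (𝓡 n)) ∞ (fun y : N => (-s, y)) :=
      contMDiff_const.prodMk contMDiff_id
    exact (h.smooth.comp h1).of_le (by exact_mod_cast le_top)

/-- the family of perturbations -/
def famD {Φ : V k → N → N} (h : IsAction k n N Φ) (r : ℕ∞) (F : DiffM n N r) (s : V k) :
    DiffM n N r := F.trans (actD h r s)

lemma famD_apply {Φ : V k → N → N} (h : IsAction k n N Φ) (r : ℕ∞) (F : DiffM n N r) (s : V k)
    (y : N) : famD h r F s y = Φ s (F y) := rfl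

lemma famD_zero {Φ : V k → N → N} (h : IsAction k n N Φ) (r : ℕ∞) (F : DiffM n N r) :
    famD h r F 0 = F := by
  ext y
  rw [famD_apply, h.zero]

lemma famD_isFam {Φ : V k → N → N} (h : IsAction k n N Φ) (r : ℕ∞) (F : DiffM n N r) :
    IsFam n N r (famD h r F) := by
  intro y
  have h1 : ContMDiff (𝓘(ℝ, V k).prod (𝓡 n)) ((𝓡 k).prod (𝓡 n)) r
      (fun q : V k × N => (q.1, F q.2)) :=
    contMDiff_fst.prodMk (F.contMDiff_toFun.comp contMDiff_snd)
  have h2 : ContMDiff ((𝓡 k).prod (𝓡 n)) (𝓡 n) r (fun q : V k × N => Φ q.1 q.2) :=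
    h.smooth.of_le (by exact_mod_cast le_top)
  exact (h2.comp h1).contMDiffAt

lemma wrap {m : ℕ} [NeZero m] {x : ℕ → N} (hx : x m = x 0) (i : ZMod m) :
    x (i + 1).val = x (i.val + 1) := by
  have h1 : i + 1 = ((i.val + 1 : ℕ) : ZMod m) := by
    push_cast
    rw [ZMod.natCast_zmod_val]
  have h2 := ZMod.val_lt i
  rw [h1, ZMod.val_natCast]
  rcases Nat.lt_or_ge (i.val + 1) m with h3 | h3
  · rw [Nat.mod_eq_of_lt h3]
  · have h4 : i.val + 1 = m := by omega
    rw [h4, Nat.mod_self, hx]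

lemma sum_cast {m : ℕ} [NeZero m] {G : Type*} [AddCommMonoid G] (s : ZMod m → G) :
    ∑ l ∈ Finset.range m, s (l : ZMod m) = ∑ i, s i := by
  symm
  refine Finset.sum_bij (fun i _ => i.val) ?_ ?_ ?_ ?_
  · intro i _
    exact Finset.mem_range.2 (ZMod.val_lt i)
  · intro i _ j _ h
    exact ZMod.val_injective m h
  · intro l hl
    exact ⟨(l : ZMod m), Finset.mem_univ _, ZMod.val_cast_of_lt (Finset.mem_range.1 hl)⟩
  · intro i _
    rw [ZMod.natCast_zmod_val]

theorem closable [T2Space N] [CompactSpace N] (r : ℕ∞) (hr : 1 ≤ r) (F : DiffM n N r)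
    {Φ : V k → N → N} {K : Set N} {e : N → V m} {B : N → V m →L[ℝ] V m →L[ℝ] ℝ}
    (h : HypSet (n := n) F Φ K e B) {z : N} (hz : ChainRecOn F K z)
    (U : Set (DiffM n N r)) (hU : IsOpen[strongTop n N r] U) (hFU : F ∈ U) :
    ∃ G ∈ U, IsPer G z := by
  have hzK : z ∈ K := by
    obtain ⟨m, x, _, h0, _, h2, _⟩ := hz univ isOpen_univ (fun _ => trivial)
    rw [← h0]
    exact h2 0 (Nat.zero_le _)
  obtain ⟨χ, hχ⟩ := Pool.Agent.W699.SC.gc n N z
  obtain ⟨k', _, κ, hκ, hCL⟩ := t_CL n N r hr (V k) (famD h.action r F)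
    (famD_isFam h.action r F) χ z hχ U hU (by rw [famD_zero]; exact hFU)
  obtain ⟨O, hO, hKO, hOinv, hOcomm⟩ := h.comm
  have hΦ : Act (E := V n) Φ :=
    ⟨h.action.smooth.of_le (by exact_mod_cast le_top), h.action.zero⟩
  have hF1 : ContMDiff (𝓡 n) (𝓡 n) 1 F :=
    F.contMDiff_toFun.of_le (by exact_mod_cast hr)
  obtain ⟨M, d, hd1, hd2, -⟩ := exists_embedding_euclidean_of_compact (I := 𝓡 n) (M := N)
  have hW' : {y : N | y ∈ χ.source ∧ ‖χ y‖ < κ} ∈ 𝓝 z := by
    have h5 : χ.source ∈ 𝓝 z := χ.open_source.mem_nhds hχ.src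
    have h6 : ContinuousAt (fun y => ‖χ y‖) z := (χ.continuousAt hχ.src).norm
    have h7 : ∀ᶠ y in 𝓝 z, ‖χ y‖ < κ := by
      have h8 : ‖χ z‖ < κ := by rw [hχ.zero, norm_zero]; exact hκ
      exact h6.eventually_lt_const h8
    filter_upwards [h5, h7] with y hy1 hy2
    exact ⟨hy1, hy2⟩
  obtain ⟨δ, hδ, hcl⟩ := closing (E := V n) (T := V k) hΦ hF1 h.cont h.smooth
    (d := d) hd1.continuous hd2.injective h.closed h.inv h.free h.basic h.incr
    (Q := fun x y s => y ∈ O ∧ ‖s‖ < κ ∧ (x = z → y ∈ {y : N | y ∈ χ.source ∧ ‖χ y‖ < κ}))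
    (by
      intro x hx
      have e1 : ∀ᶠ q : N × N × V k in 𝓝 (x, x, (0 : V k)), q.2.1 ∈ O := by
        have h1 : Continuous (fun q : N × N × V k => q.2.1) := continuous_fst.comp continuous_snd
        exact (h1.tendsto (x, x, (0 : V k))).eventually (hO.mem_nhds (hKO hx))
      have e2 : ∀ᶠ q : N × N × V k in 𝓝 (x, x, (0 : V k)), ‖q.2.2‖ < κ := by
        have h1 : Continuous (fun q : N × N × V k => ‖q.2.2‖) :=
          (continuous_snd.comp continuous_snd).norm
        have h2 := h1.tendsto (x, x, (0 : V k))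
        simp only [norm_zero] at h2
        exact h2.eventually (gt_mem_nhds hκ)
      have e3 : ∀ᶠ q : N × N × V k in 𝓝 (x, x, (0 : V k)),
          (q.1 = z → q.2.1 ∈ {y : N | y ∈ χ.source ∧ ‖χ y‖ < κ}) := by
        by_cases hxz : x = z
        · have h1 : Continuous (fun q : N × N × V k => q.2.1) :=
            continuous_fst.comp continuous_snd
          rw [← hxz] at hW'
          filter_upwards [(h1.tendsto (x, x, (0 : V k))).eventually hW'] with q hq _
          exact hq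
        · have h1 : Continuous (fun q : N × N × V k => q.1) := continuous_fst
          filter_upwards [(h1.tendsto (x, x, (0 : V k))).eventually
            (isOpen_ne.mem_nhds hxz)] with q hq h2
          exact absurd h2 hq
      filter_upwards [e1, e2, e3] with q h1 h2 h3
      exact ⟨h1, h2, h3⟩)
  obtain ⟨m', x, hm', hx0, hxm, hxK, hxW⟩ := hz {q | ‖d q.2 - d q.1‖ < δ}
    (isOpen_lt ((hd1.continuous.comp continuous_snd).sub
      (hd1.continuous.comp continuous_fst)).norm continuous_const)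
    (fun x => by simpa using hδ)
  have : NeZero m' := ⟨by omega⟩
  have hmpos : (0:ℝ) < m' := by exact_mod_cast hm'
  obtain ⟨y, s, hys, hQ⟩ := hcl m' (fun i => x i.val)
    (fun i => hxK _ (ZMod.val_lt i).le) (fun i => by
      have h1 := hxW i.val (ZMod.val_lt i)
      rw [wrap (hxm.trans hx0.symm) i]
      exact h1)
  have hyO : ∀ i, y i ∈ O := fun i => (hQ i).1
  have hsκ : ∀ i, ‖s i‖ < κ := fun i => (hQ i).2.1
  have hy0 : y 0 ∈ χ.source ∧ ‖χ (y 0)‖ < κ := (hQ 0).2.2 (by rw [ZMod.val_zero, hx0])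
  obtain ⟨c, hc⟩ : ∃ c : V k, c = (m' : ℝ)⁻¹ • ∑ i, s i := ⟨_, rfl⟩
  have hcκ : ‖c‖ < κ := by
    rw [hc, norm_smul, norm_inv, Real.norm_natCast, inv_mul_lt_iff₀ hmpos]
    calc ‖∑ i, s i‖ ≤ ∑ i, ‖s i‖ := norm_sum_le _ _
      _ < ∑ _i : ZMod m', κ := Finset.sum_lt_sum_of_nonempty ⟨0, Finset.mem_univ _⟩
          fun i _ => hsκ i
      _ = m' * κ := by simp [ZMod.card]
  have hstep : ∀ i, F (y i) = Φ (-(s i)) (y (i + 1)) := by
    intro i
    rw [← hys i, ← h.action.add, neg_add_cancel, h.action.zero]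
  have hit : ∀ j : ℕ, (famD h.action r F c)^[j] (y 0) =
      Φ ((j : ℝ) • c - ∑ l ∈ Finset.range j, s (l : ZMod m')) (y (j : ZMod m')) := by
    intro j
    induction j with
    | zero => simp [h.action.zero]
    | succ j ih =>
      rw [Function.iterate_succ_apply', ih, famD_apply, hOcomm _ _ (hyO _), hstep,
        ← h.action.add, ← h.action.add, Finset.sum_range_succ]
      have e1 : ((j + 1 : ℕ) : ZMod m') = (j : ZMod m') + 1 := by push_cast; rfl
      rw [e1]
      congr 1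
      push_cast
      rw [add_smul, one_smul]
      abel
  have hper : (famD h.action r F c)^[m'] (y 0) = y 0 := by
    rw [hit, sum_cast, hc, smul_smul, mul_inv_cancel₀ hmpos.ne', one_smul, sub_self,
      h.action.zero, ZMod.natCast_self]
  -- the minimal period
  have hpp : Function.IsPeriodicPt (famD h.action r F c) m' (y 0) := hper
  obtain ⟨p, hp⟩ : ∃ p, p = Function.minimalPeriod (famD h.action r F c) (y 0) := ⟨_, rfl⟩
  have hp0 : 0 < p := by
    rw [hp]
    exact hpp.minimalPeriod_pos (by omega)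
  have hpfix : (famD h.action r F c)^[p] (y 0) = y 0 := by
    rw [hp]
    exact Function.iterate_minimalPeriod
  have hpne : ∀ i, 0 < i → i < p → (famD h.action r F c)^[i] (y 0) ≠ y 0 := by
    intro i hi hip heq
    rw [hp] at hip
    exact Function.not_isPeriodicPt_of_pos_of_lt_minimalPeriod hi.ne' hip heq
  obtain ⟨ρ, hρ0, hρκ, hρ⟩ : ∃ ρ : ℝ, 0 < ρ ∧ ρ < κ ∧ ∀ i < p, 0 < i →
      (famD h.action r F c)^[i] (y 0) ∈ χ.source →
      2 * ρ ≤ ‖χ ((famD h.action r F c)^[i] (y 0)) - χ (y 0)‖ := by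
    have h1 : ∀ i < p, ∀ᶠ ρ in 𝓝[>] (0:ℝ), (0 < i →
      (famD h.action r F c)^[i] (y 0) ∈ χ.source →
      2 * ρ ≤ ‖χ ((famD h.action r F c)^[i] (y 0)) - χ (y 0)‖) := by
      intro i hip
      by_cases hi : 0 < i
      · by_cases hs : (famD h.action r F c)^[i] (y 0) ∈ χ.source
        · have h2 : 0 < ‖χ ((famD h.action r F c)^[i] (y 0)) - χ (y 0)‖ := by
            rw [norm_pos_iff, sub_ne_zero]
            intro h3
            exact hpne i hi hip (χ.injOn hs hy0.1 h3)
          have h3 : ∀ᶠ ρ in 𝓝[>] (0:ℝ), ρ < ‖χ ((famD h.action r F c)^[i] (y 0)) -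
              χ (y 0)‖ / 2 :=
            mem_nhdsWithin_of_mem_nhds (gt_mem_nhds (by positivity))
          filter_upwards [h3] with ρ hρ _ _
          linarith
        · exact Eventually.of_forall fun ρ _ h => absurd h hs
      · exact Eventually.of_forall fun ρ h => absurd h hi
    have h2 : ∀ᶠ ρ in 𝓝[>] (0:ℝ), ∀ i ∈ Finset.range p, (0 < i →
      (famD h.action r F c)^[i] (y 0) ∈ χ.source →
      2 * ρ ≤ ‖χ ((famD h.action r F c)^[i] (y 0)) - χ (y 0)‖) := by
      rw [Filter.eventually_all_finset]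
      intro i hi
      exact h1 i (Finset.mem_range.1 hi)
    have h3 : ∀ᶠ ρ in 𝓝[>] (0:ℝ), 0 < ρ := eventually_mem_nhdsWithin
    have h4 : ∀ᶠ ρ in 𝓝[>] (0:ℝ), ρ < κ := mem_nhdsWithin_of_mem_nhds (gt_mem_nhds hκ)
    obtain ⟨ρ, h5, h6, h7⟩ := (h2.and (h3.and h4)).exists
    exact ⟨ρ, h6, h7, fun i hi => h5 i (Finset.mem_range.2 hi)⟩
  refine hCL c (y 0) ρ p hcκ hy0.1 hy0.2 hρ0 hρκ hp0 ?_ ?_ ?_
  · rw [hpfix]
    exact hy0.1
  · rw [hpfix, sub_self, norm_zero]
    positivity
  · intro i hi hip hs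
    exact hρ i hip hi hs

end Pool.Agent.R774.ClStmt
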