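import Mathlib
import Pool.Agent.R774.Chart2

/-! A Reeb orbit fixed by strict contact maps whose linearisations have no common fixed direction is
closed. -/

open scoped Topology ContDiff Manifold
open Set Metric Bundle Filter Pool.Agent.Helper186 Pool.Agent.H826R2.Wein Pool.Agent.W671.WU
open Pool.Agent.R774.Root

noncomputable section

namespace Pool.Agent.R774.Hyp

set_option linter.unusedSectionVars false

universe u

section

variable {E : Type u} [NormedAddCommGroup E] [NormedSpace ℝ E]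
  {G : Type*} [NormedAddCommGroup G] [NormedSpace ℝ G]

lemma tendsto_quot_vec {l : Filter ℕ} {F : E → G} {F' : E →L[ℝ] G} {p₀ : E}
    (hF : HasStrictFDerivAt F F' p₀)
    {p q : ℕ → E} (hp : Tendsto p l (𝓝 p₀)) (hq : Tendsto q l (𝓝 p₀)) {z : E}
    (hz : Tendsto (fun k => ‖q k - p k‖⁻¹ • (q k - p k)) l (𝓝 z)) :
    Tendsto (fun k => ‖q k - p k‖⁻¹ • (F (q k) - F (p k))) l (𝓝 (F' z)) := by
  have h1 := hF.isLittleO
  have h2 : Tendsto (fun k => (q k, p k)) l (𝓝 (p₀, p₀)) := hq.prodMk_nhds hp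
  have h3 := (h1.comp_tendsto h2).norm_right
  have h4 := h3.tendsto_inv_smul_nhds_zero
  have h6 : Tendsto (fun k => F' (‖q k - p k‖⁻¹ • (q k - p k))) l (𝓝 (F' z)) :=
    (F'.continuous.tendsto z).comp hz
  have h7 := h4.add h6
  rw [zero_add] at h7
  refine h7.congr fun k => ?_
  simp only [Function.comp]
  rw [map_smul, ← smul_add, sub_add_cancel]

lemma limit_eq_S {l : Filter ℕ} [NeBot l] {n : ℕ} {f g : Fin n → E → ℝ} {p₀ : E}
    (hf : ∀ i, ContDiffAt ℝ ∞ (f i) p₀)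
    (hg : ∀ i, ContDiffAt ℝ ∞ (g i) p₀) {p q : ℕ → E} (hp : Tendsto p l (𝓝 p₀))
    (hq : Tendsto q l (𝓝 p₀)) {z : E}
    (hz : Tendsto (fun k => ‖q k - p k‖⁻¹ • (q k - p k)) l (𝓝 z))
    (hS : ∀ᶠ k in l, (∑ i, (f i (p k) + f i (q k)) * (g i (q k) - g i (p k))) = 0) :
    (∑ i, f i p₀ * fderiv ℝ (g i) p₀ z) = 0 := by
  have hgs : ∀ i, HasStrictFDerivAt (g i) (fderiv ℝ (g i) p₀) p₀ := fun i =>
    (hg i).hasStrictFDerivAt (by simp)
  have hfc : ∀ i, ContinuousAt (f i) p₀ := fun i => (hf i).continuousAt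
  have hqg := fun i => tendsto_quot (hgs i) hp hq hz
  have h1 : Tendsto (fun k => ∑ i, (f i (p k) + f i (q k)) *
      ((g i (q k) - g i (p k)) * ‖q k - p k‖⁻¹)) l
      (𝓝 (∑ i, (f i p₀ + f i p₀) * fderiv ℝ (g i) p₀ z)) := by
    refine tendsto_finsetSum _ fun i _ => ?_
    exact (((hfc i).tendsto.comp hp).add ((hfc i).tendsto.comp hq)).mul (hqg i)
  have h2 : Tendsto (fun k => ∑ i, (f i (p k) + f i (q k)) *
      ((g i (q k) - g i (p k)) * ‖q k - p k‖⁻¹)) l (𝓝 0) := by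
    refine tendsto_const_nhds.congr' ?_
    filter_upwards [hS] with k hk
    have h3 : (∑ i, (f i (p k) + f i (q k)) * ((g i (q k) - g i (p k)) * ‖q k - p k‖⁻¹)) =
        (∑ i, (f i (p k) + f i (q k)) * (g i (q k) - g i (p k))) * ‖q k - p k‖⁻¹ := by
      rw [Finset.sum_mul]
      exact Finset.sum_congr rfl fun i _ => by ring
    rw [h3, hk, zero_mul]
  have h4 := tendsto_nhds_unique h1 h2
  have h5 : (∑ i, (f i p₀ + f i p₀) * fderiv ℝ (g i) p₀ z) =
      2 * ∑ i, f i p₀ * fderiv ℝ (g i) p₀ z := by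
    rw [Finset.mul_sum]
    exact Finset.sum_congr rfl fun i _ => by ring
  rw [h5] at h4
  linarith

end

variable {E : Type u} [NormedAddCommGroup E] [NormedSpace ℝ E] [FiniteDimensional ℝ E]
  {P : Type*} [TopologicalSpace P] [ChartedSpace E P] [IsManifold 𝓘(ℝ, E) ∞ P]
  {β : (x : P) → TangentSpace 𝓘(ℝ, E) x →L[ℝ] ℝ}
  {R : (x : P) → TangentSpace 𝓘(ℝ, E) x} {Fl : P → ℝ → P}

attribute [local irreducible] S A

lemma exists_shift (h : RF β R Fl) {n : ℕ} {f g : Fin n → P → ℝ}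
    (hf : ∀ i, ContMDiff 𝓘(ℝ, E) 𝓘(ℝ, ℝ) ∞ (f i))
    (hg : ∀ i, ContMDiff 𝓘(ℝ, E) 𝓘(ℝ, ℝ) ∞ (g i)) {δ : ℝ} (hδ : 0 < δ) {x y : P}
    (hA : ∀ s ∈ Icc (-δ) δ, 1 / 2 < A f g R x (Fl y s)) (hS : |S f g x y| < δ / 4) :
    ∃ s ∈ Icc (-δ) δ, S f g x (Fl y s) = 0 ∧ |s| ≤ 2 * |S f g x y| := by
  have hd : ∀ s, HasDerivAt (fun s => S f g x (Fl y s)) (A f g R x (Fl y s)) s := fun s =>
    hasDerivAt_S hf hg x (h.int y s)
  have mono : ∀ {s₁ s₂ : ℝ}, s₁ ∈ Icc (-δ) δ → s₂ ∈ Icc (-δ) δ → s₁ ≤ s₂ →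
      (s₂ - s₁) / 2 ≤ S f g x (Fl y s₂) - S f g x (Fl y s₁) := by
    intro s₁ s₂ h1 h2 h12
    rcases h12.eq_or_lt with rfl | h12
    · simp
    · have h3 := Convex.mul_sub_lt_image_sub_of_lt_deriv (convex_Icc (-δ) δ)
        (f := fun s => S f g x (Fl y s))
        (fun s _ => (hd s).continuousAt.continuousWithinAt)
        (fun s _ => (hd s).differentiableAt.differentiableWithinAt) (C := 1 / 2)
        (fun s hs => by
          rw [(hd s).deriv]
          exact hA s (interior_subset hs)) s₁ h1 s₂ h2 h12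
      linarith
  have h0m : (0 : ℝ) ∈ Icc (-δ) δ := ⟨by linarith, hδ.le⟩
  have e0 : S f g x (Fl y 0) = S f g x y := by rw [h.zero]
  have hex : ∃ s ∈ Icc (-δ) δ, S f g x (Fl y s) = 0 := by
    have h1 := mono (s₁ := -δ) ⟨le_rfl, by linarith⟩ h0m (by linarith)
    have h2 := mono (s₂ := δ) h0m ⟨by linarith, le_rfl⟩ hδ.le
    have h3 := abs_lt.1 hS
    rw [e0] at h1 h2
    have h4 : (0 : ℝ) ∈ Icc (S f g x (Fl y (-δ))) (S f g x (Fl y δ)) :=
      ⟨by linarith, by linarith⟩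
    have h5 := intermediate_value_Icc (show -δ ≤ δ by linarith)
      (f := fun s => S f g x (Fl y s))
      (fun s _ => (hd s).continuousAt.continuousWithinAt) h4
    obtain ⟨s, hs, hs0⟩ := h5
    exact ⟨s, hs, hs0⟩
  obtain ⟨s, hs, hs0⟩ := hex
  refine ⟨s, hs, hs0, ?_⟩
  rcases le_total 0 s with h' | h'
  · have h1 := mono h0m hs h'
    rw [hs0, e0] at h1
    rw [abs_of_nonneg h']
    have := neg_abs_le (S f g x y)
    linarith
  · have h1 := mono hs h0m h'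
    rw [hs0, e0] at h1
    rw [abs_of_nonpos h']
    have := le_abs_self (S f g x y)
    linarith

/-- the operator `∑ a i • D(g i) + R ⊗ β` in the chart at `b` -/
def Top {ι : Type*} [Fintype ι] (β : (x : P) → TangentSpace 𝓘(ℝ, E) x →L[ℝ] ℝ) (Fl : P → ℝ → P)
    (g : ι → P → P) (a : ι → ℝ) (b : P) (p : E) : E →L[ℝ] E :=
  ∑ i, a i • fderiv ℝ (ch2 b b (g i)) p +
    (chartForm 𝓘(ℝ, E) β b p).smulRight (RF.Rc Fl b p)

lemma Top_apply {ι : Type*} [Fintype ι] (g : ι → P → P) (a : ι → ℝ) (b : P) (p v : E) :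
    Top β Fl g a b p v = ∑ i, a i • fderiv ℝ (ch2 b b (g i)) p v +
      (chartForm 𝓘(ℝ, E) β b p v) • RF.Rc Fl b p := by
  unfold Top
  rw [add_apply, sum_apply]
  rfl

lemma chartForm_Rc (c : CD β R) (h : RF β R Fl) (b : P) {p : E}
    (hp : p ∈ (extChartAt 𝓘(ℝ, E) b).target) :
    chartForm 𝓘(ℝ, E) β b p (RF.Rc Fl b p) = 1 := by
  have h1 : chartForm 𝓘(ℝ, E) β b p (RF.Rc Fl b p) =
    β ((extChartAt 𝓘(ℝ, E) b).symm p) (ds b p (RF.Rc Fl b p)) := rfl
  have h2 : β ((extChartAt 𝓘(ℝ, E) b).symm p) (ds b p (RF.Rc Fl b p)) =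
      β ((extChartAt 𝓘(ℝ, E) b).symm p) (R ((extChartAt 𝓘(ℝ, E) b).symm p)) :=
    congrArg (fun w : E => β ((extChartAt 𝓘(ℝ, E) b).symm p) w) (h.tangent_Rc b hp)
  rw [h1, h2, c.reeb.unit]

lemma det_flow_ne (h : RF β R Fl) (y b : P) (t : ℝ)
    (hb : Fl y t ∈ (extChartAt 𝓘(ℝ, E) b).source) :
    (fderiv ℝ (ch2 y b (fun x => Fl x t)) (extChartAt 𝓘(ℝ, E) y y)).det ≠ 0 := by
  have hys : (extChartAt 𝓘(ℝ, E) y).symm (extChartAt 𝓘(ℝ, E) y y) = y := extChartAt_to_inv y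
  have hyt : extChartAt 𝓘(ℝ, E) y y ∈ (extChartAt 𝓘(ℝ, E) y).target := mem_extChartAt_target y
  have hid : (fun x : P => Fl (Fl x t) (-t)) = fun x => x := by
    ext1 x; rw [← h.add, add_neg_cancel, h.zero]
  have h1 := fderiv_ch2_comp y b y (φ₁ := fun x => Fl x t) (φ₂ := fun x => Fl x (-t))
    (h.smooth_t t) (h.smooth_t (-t)) hyt (by rw [hys]; exact hb) (by
      rw [hys, ← h.add, add_neg_cancel, h.zero]
      exact mem_extChartAt_source y)
  rw [hid, fderiv_ch2_id y hyt] at h1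
  intro h0
  have h2 := congrArg ContinuousLinearMap.det h1
  have h3 : ∀ A B : E →L[ℝ] E, (A.comp B).det = A.det * B.det := fun A B =>
    LinearMap.det_comp (A : E →ₗ[ℝ] E) (B : E →ₗ[ℝ] E)
  rw [h3, h0, mul_zero] at h2
  have h4 : (ContinuousLinearMap.id ℝ E).det = 1 := LinearMap.det_id
  rw [h4] at h2
  exact one_ne_zero h2

lemma det_const [T2Space P] (c : CD β R) (h : RF β R Fl)
    {ι : Type*} [Fintype ι] {g : ι → P → P} (hg : ∀ i, St β (g i)) (a : ι → ℝ)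
    {y : P} (hy : ∀ i, g i y = y) (b : P) (t : ℝ)
    (hb : Fl y t ∈ (extChartAt 𝓘(ℝ, E) b).source) :
    (Top β Fl g a b (extChartAt 𝓘(ℝ, E) b (Fl y t))).det =
      (Top β Fl g a y (extChartAt 𝓘(ℝ, E) y y)).det := by
  have hys : (extChartAt 𝓘(ℝ, E) y).symm (extChartAt 𝓘(ℝ, E) y y) = y := extChartAt_to_inv y
  have hyt : extChartAt 𝓘(ℝ, E) y y ∈ (extChartAt 𝓘(ℝ, E) y).target := mem_extChartAt_target y
  have hz : ch2 y b (fun x => Fl x t) (extChartAt 𝓘(ℝ, E) y y) =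
      extChartAt 𝓘(ℝ, E) b (Fl y t) := by
    show extChartAt 𝓘(ℝ, E) b (Fl ((extChartAt 𝓘(ℝ, E) y).symm (extChartAt 𝓘(ℝ, E) y y)) t) = _
    rw [hys]
  have hfix : ∀ i, g i (Fl y t) = Fl y t := fun i => by rw [(hg i).comm c h, hy]
  have hcomp : (Top β Fl g a b (extChartAt 𝓘(ℝ, E) b (Fl y t))).comp
      (fderiv ℝ (ch2 y b (fun x => Fl x t)) (extChartAt 𝓘(ℝ, E) y y)) =
      (fderiv ℝ (ch2 y b (fun x => Fl x t)) (extChartAt 𝓘(ℝ, E) y y)).comp
        (Top β Fl g a y (extChartAt 𝓘(ℝ, E) y y)) := by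
    ext v
    rw [ContinuousLinearMap.comp_apply, ContinuousLinearMap.comp_apply, Top_apply, Top_apply,
      map_add, map_sum, map_smul]
    congr 1
    · refine Finset.sum_congr rfl fun i _ => ?_
      rw [map_smul]
      congr 1
      have h1 := fderiv_ch2_comp y b b (φ₁ := fun x => Fl x t) (φ₂ := g i)
        (h.smooth_t t) (hg i).smooth hyt (by rw [hys]; exact hb) (by
          rw [hys, hfix]; exact hb)
      have h2 := fderiv_ch2_comp y y b (φ₁ := g i) (φ₂ := fun x => Fl x t)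
        (hg i).smooth (h.smooth_t t) hyt (by rw [hys, hy]; exact mem_extChartAt_source y) (by
          rw [hys, hy]; exact hb)
      have h3 : (fun x => Fl (g i x) t) = fun x => g i (Fl x t) := by
        ext1 x; rw [(hg i).comm c h]
      have h4 : ch2 y y (g i) (extChartAt 𝓘(ℝ, E) y y) = extChartAt 𝓘(ℝ, E) y y := by
        show extChartAt 𝓘(ℝ, E) y (g i ((extChartAt 𝓘(ℝ, E) y).symm
          (extChartAt 𝓘(ℝ, E) y y))) = _
        rw [hys, hy]
      rw [h3, h1, hz, h4] at h2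
      exact DFunLike.congr_fun h2 v
    · have h1 := chartForm_ch2 (β := β) y b (St.flow h t) hyt (by rw [hys]; exact hb) v
      rw [hz] at h1
      have h2 := Rc_ch2 h (h.smooth_t t) (fun x s => by
        show Fl (Fl x s) t = Fl (Fl x t) s
        rw [← h.add, ← h.add, add_comm]) y b hyt (by rw [hys]; exact hb)
      rw [hz] at h2
      rw [h1, h2]
  have h3 : ∀ A B : E →L[ℝ] E, (A.comp B).det = A.det * B.det := fun A B =>
    LinearMap.det_comp (A : E →ₗ[ℝ] E) (B : E →ₗ[ℝ] E)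
  have h4 := congrArg ContinuousLinearMap.det hcomp
  rw [h3, h3, mul_comm] at h4
  exact mul_left_cancel₀ (det_flow_ne h y b t hb) h4

lemma det_ne (c : CD β R) (h : RF β R Fl)
    {ι : Type*} [Fintype ι] {g : ι → P → P} (hg : ∀ i, St β (g i)) {a : ι → ℝ}
    (ha : ∑ i, a i = 0) {y : P} (hy : ∀ i, g i y = y)
    (hnd : ∀ v : E, β y v = 0 → ∑ i, a i • dm E (g i) y v = 0 → v = 0) :
    (Top β Fl g a y (extChartAt 𝓘(ℝ, E) y y)).det ≠ 0 := by
  have hys : (extChartAt 𝓘(ℝ, E) y).symm (extChartAt 𝓘(ℝ, E) y y) = y := extChartAt_to_inv y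
  have hyt : extChartAt 𝓘(ℝ, E) y y ∈ (extChartAt 𝓘(ℝ, E) y).target := mem_extChartAt_target y
  have hinj : Function.Injective (Top β Fl g a y (extChartAt 𝓘(ℝ, E) y y) : E →ₗ[ℝ] E) := by
    rw [injective_iff_map_eq_zero]
    intro v hv
    have hv1 : Top β Fl g a y (extChartAt 𝓘(ℝ, E) y y) v = 0 := hv
    rw [Top_apply] at hv1
    have h1 : ∀ i, chartForm 𝓘(ℝ, E) β y (extChartAt 𝓘(ℝ, E) y y)
        (fderiv ℝ (ch2 y y (g i)) (extChartAt 𝓘(ℝ, E) y y) v) =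
        chartForm 𝓘(ℝ, E) β y (extChartAt 𝓘(ℝ, E) y y) v := by
      intro i
      have h2 := chartForm_ch2 (β := β) y y (hg i) hyt
        (by rw [hys, hy]; exact mem_extChartAt_source y) v
      have h4 : ch2 y y (g i) (extChartAt 𝓘(ℝ, E) y y) = extChartAt 𝓘(ℝ, E) y y := by
        show extChartAt 𝓘(ℝ, E) y (g i ((extChartAt 𝓘(ℝ, E) y).symm
          (extChartAt 𝓘(ℝ, E) y y))) = _
        rw [hys, hy]
      rw [h4] at h2
      exact h2
    have h5 := congrArg (chartForm 𝓘(ℝ, E) β y (extChartAt 𝓘(ℝ, E) y y)) hv1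
    rw [map_add, map_sum, map_smul, map_zero, chartForm_Rc c h y hyt] at h5
    simp only [map_smul, h1, smul_eq_mul, mul_one] at h5
    rw [← Finset.sum_mul, ha, zero_mul, zero_add] at h5
    rw [h5, zero_smul, add_zero] at hv1
    apply hnd v
    · rw [chartForm_self] at h5
      exact h5
    · refine Eq.trans (Finset.sum_congr rfl fun i _ => ?_) hv1
      rw [dm_eq (hg i).smooth, hy]
  intro h0
  have h1 : IsUnit (Top β Fl g a y (extChartAt 𝓘(ℝ, E) y y) : E →ₗ[ℝ] E) := by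
    rw [LinearMap.isUnit_iff_ker_eq_bot]
    exact LinearMap.ker_eq_bot.2 hinj
  have h2 := LinearMap.isUnit_det _ h1
  exact h2.ne_zero h0

lemma continuousAt_Top (c : CD β R) (h : RF β R Fl)
    {ι : Type*} [Fintype ι] {g : ι → P → P} (hg : ∀ i, St β (g i)) (a : ι → ℝ)
    {q : P} (hq : ∀ i, g i q = q) :
    ContinuousAt (Top β Fl g a q) (extChartAt 𝓘(ℝ, E) q q) := by
  have hqt : extChartAt 𝓘(ℝ, E) q q ∈ (extChartAt 𝓘(ℝ, E) q).target := mem_extChartAt_target q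
  have hqs : (extChartAt 𝓘(ℝ, E) q).symm (extChartAt 𝓘(ℝ, E) q q) = q := extChartAt_to_inv q
  have h1 : ∀ i, ContinuousAt (fun p => a i • fderiv ℝ (ch2 q q (g i)) p)
      (extChartAt 𝓘(ℝ, E) q q) := by
    intro i
    have h2 : ContDiffAt ℝ ∞ (ch2 q q (g i)) (extChartAt 𝓘(ℝ, E) q q) :=
      ch2_smooth q q (hg i).smooth hqt (by rw [hqs, hq]; exact mem_extChartAt_source q)
    exact ((h2.fderiv_right (m := 0) (by simp)).continuousAt).const_smul (a i)
  have hb : ContinuousAt (chartForm 𝓘(ℝ, E) β q) (extChartAt 𝓘(ℝ, E) q q) :=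
    ((contDiffOn_chartForm c.contact.smooth q).contDiffAt
      (extChartAt_target_mem_nhds q)).continuousAt
  have hR := h.continuousAt_Rc q hqt
  have h3 : ContinuousAt (fun p => ∑ i, a i • fderiv ℝ (ch2 q q (g i)) p)
      (extChartAt 𝓘(ℝ, E) q q) := tendsto_finsetSum _ fun i _ => h1 i
  have h4 : ContinuousAt (fun p => (chartForm 𝓘(ℝ, E) β q p).smulRight (RF.Rc Fl q p))
      (extChartAt 𝓘(ℝ, E) q q) := by
    have h5 : Continuous (fun x : (E →L[ℝ] ℝ) × E =>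
        ContinuousLinearMap.smulRightL ℝ E E x.1 x.2) :=
      (ContinuousLinearMap.smulRightL ℝ E E).continuous₂
    exact h5.continuousAt.comp (hb.prodMk hR)
  exact h3.add h4

/-- **Orbits fixed by strict contact maps without common fixed direction are closed.** -/
theorem closed_of_nondeg [T2Space P] [CompactSpace P] (c : CD β R) (h : RF β R Fl)
    {ι : Type*} [Fintype ι] {g : ι → P → P} (hg : ∀ i, St β (g i)) {a : ι → ℝ}
    (ha : ∑ i, a i = 0) {y : P} (hy : ∀ i, g i y = y)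
    (hnd : ∀ v : E, β y v = 0 → ∑ i, a i • dm E (g i) y v = 0 → v = 0) :
    ∃ T, 0 < T ∧ Fl y T = y := by
  by_contra hno
  push Not at hno
  have : Nonempty P := ⟨y⟩
  obtain ⟨m, e, he, hecl, hinj₀⟩ :=
    exists_embedding_euclidean_of_compact (I := 𝓘(ℝ, E)) (M := P)
  have hinj : Function.Injective e := hecl.injective
  obtain ⟨f, hf, hrep⟩ := exists_rep (⟨e, he, hinj₀⟩ : Imm (E := E) P m) c.contact.smooth
  obtain ⟨g', hg', hrep⟩ : ∃ g : Fin m → P → ℝ, (∀ i, ContMDiff 𝓘(ℝ, E) 𝓘(ℝ, ℝ) ∞ (g i)) ∧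
      ∀ (x : P) (v : TangentSpace 𝓘(ℝ, E) x),
        β x v = ∑ i, f i x * dForm 𝓘(ℝ, E) (g i) x v :=
    ⟨_, fun i => smooth_coord _ i, hrep⟩
  have hFc : Continuous (fun p : P × ℝ => Fl p.1 p.2) := h.smooth.continuous
  obtain ⟨δ, hδ, hδ1, ε, hε, hwin⟩ := exists_window (c := (1:ℝ)) hf hg' (smooth_reeb c)
    c.reeb.unit hrep h.zero hFc he.continuous hinj one_pos
  have hSc := continuous_S (fun i => (hf i).continuous) (fun i => (hg' i).continuous)
  -- the limit point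
  obtain ⟨x, hxk⟩ : ∃ x : ℕ → P, ∀ k, x k = Fl y k := ⟨_, fun _ => rfl⟩
  obtain ⟨q, hq⟩ := exists_limit_compact (hyperfilter ℕ) x
  have hlat : ((hyperfilter ℕ : Ultrafilter ℕ) : Filter ℕ) ≤ atTop := by
    rw [← Nat.cofinite_eq_atTop]; exact hyperfilter_le_cofinite
  have hb : ∀ k : ℕ, ∃ j : ℕ, k + 1 ≤ j ∧ ‖e (x j) - e q‖ < 1 / ((k : ℝ) + 1) := by
    intro k
    have h1 : ∀ᶠ j in ((hyperfilter ℕ : Ultrafilter ℕ) : Filter ℕ), k + 1 ≤ j :=
      (eventually_ge_atTop (k + 1)).filter_mono hlat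
    have h2 : Tendsto (fun j => ‖e (x j) - e q‖) (hyperfilter ℕ : Ultrafilter ℕ) (𝓝 0) := by
      have h3 := ((he.continuous.tendsto q).comp hq).sub_const (e q)
      rw [sub_self] at h3
      have h4 := h3.norm
      rw [norm_zero] at h4
      exact h4
    exact (h1.and (h2.eventually (gt_mem_nhds
      (show (0:ℝ) < 1 / ((k : ℝ) + 1) by positivity)))).exists
  choose j hj1 hj2 using hb
  obtain ⟨y', hy'⟩ : ∃ y' : ℕ → P, ∀ k, y' k = Fl y (j k) := ⟨_, fun _ => rfl⟩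
  have hyq : Tendsto y' (hyperfilter ℕ : Ultrafilter ℕ) (𝓝 q) := by
    obtain ⟨q', hq'⟩ := exists_limit_compact (hyperfilter ℕ) y'
    have h1 : Tendsto (fun k => e (y' k)) (hyperfilter ℕ : Ultrafilter ℕ) (𝓝 (e q)) := by
      rw [tendsto_iff_norm_sub_tendsto_zero]
      refine squeeze_zero_norm' ?_ ((tendsto_one_div_add_atTop_nhds_zero_nat (𝕜 := ℝ)).mono_left
        hlat)
      filter_upwards with k
      rw [norm_norm, hy', ← hxk]
      exact (hj2 k).le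
    have h2 : Tendsto (fun k => e (y' k)) (hyperfilter ℕ : Ultrafilter ℕ) (𝓝 (e q')) :=
      (he.continuous.tendsto q').comp hq'
    have h3 := hinj (tendsto_nhds_unique h1 h2)
    rw [h3]
    exact hq'
  -- the shifts
  have hs : ∀ k, ∃ s : ℝ, ‖e (y' k) - e (x k)‖ < ε → (s ∈ Icc (-δ) δ ∧
      S f g' (x k) (Fl (y' k) s) = 0 ∧ |s| ≤ 2 * |S f g' (x k) (y' k)|) := by
    intro k
    by_cases hk : ‖e (y' k) - e (x k)‖ < ε
    · obtain ⟨s, h1, h2, h3⟩ := exists_shift h hf hg' hδ (hwin _ _ hk).1 (hwin _ _ hk).2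
      exact ⟨s, fun _ => ⟨h1, h2, h3⟩⟩
    · exact ⟨0, fun h' => absurd h' hk⟩
  choose s hs using hs
  have hclose : ∀ᶠ k in ((hyperfilter ℕ : Ultrafilter ℕ) : Filter ℕ),
      ‖e (y' k) - e (x k)‖ < ε := by
    have h1 := ((he.continuous.tendsto q).comp hyq).sub ((he.continuous.tendsto q).comp hq)
    rw [sub_self] at h1
    have h2 := h1.norm
    rw [norm_zero] at h2
    exact h2.eventually (gt_mem_nhds hε)
  have hs0 : Tendsto s (hyperfilter ℕ : Ultrafilter ℕ) (𝓝 0) := by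
    have h1 : Tendsto (fun k => S f g' (x k) (y' k)) (hyperfilter ℕ : Ultrafilter ℕ)
        (𝓝 (S f g' q q)) := (hSc.tendsto (q, q)).comp (hq.prodMk_nhds hyq)
    rw [S_self] at h1
    have h2 : Tendsto (fun k => 2 * |S f g' (x k) (y' k)|) (hyperfilter ℕ : Ultrafilter ℕ)
        (𝓝 0) := by
      have := h1.abs.const_mul 2
      simpa using this
    refine squeeze_zero_norm' ?_ h2
    filter_upwards [hclose] with k hk
    exact (hs k hk).2.2
  obtain ⟨z, hz⟩ : ∃ z : ℕ → P, ∀ k, z k = Fl (y' k) (s k) := ⟨_, fun _ => rfl⟩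
  have hzq : Tendsto z (hyperfilter ℕ : Ultrafilter ℕ) (𝓝 q) := by
    have h1 : Tendsto (fun k => Fl (y' k) (s k)) (hyperfilter ℕ : Ultrafilter ℕ)
        (𝓝 (Fl q 0)) := (hFc.tendsto (q, 0)).comp (hyq.prodMk_nhds hs0)
    rw [h.zero] at h1
    exact h1.congr fun k => (hz k).symm
  have hne : ∀ᶠ k in ((hyperfilter ℕ : Ultrafilter ℕ) : Filter ℕ), z k ≠ x k := by
    filter_upwards [hclose] with k hk heq
    have h1 := (hs k hk).1
    rw [hz, hy', hxk, ← h.add] at heq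
    have h2 : Fl (Fl y k) ((j k : ℝ) + s k - k) = Fl y k := by
      rw [← h.add]
      rw [show (k : ℝ) + ((j k : ℝ) + s k - k) = (j k : ℝ) + s k by ring]
      exact heq
    have h3 : Fl y ((j k : ℝ) + s k - k) = y := by
      have h4 : Fl (Fl (Fl y k) ((j k : ℝ) + s k - k)) (-k) = Fl (Fl y k) (-k) := by rw [h2]
      rw [← h.add, ← h.add, ← h.add, add_neg_cancel, h.zero] at h4
      rw [show (k : ℝ) + (((j k : ℝ) + s k - k) + -k) = (j k : ℝ) + s k - k by ring] at h4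
      exact h4
    refine hno _ ?_ h3
    have h5 : (k : ℝ) + 1 ≤ j k := by exact_mod_cast hj1 k
    linarith [h1.1]
  -- fixed points
  have hfy : ∀ i t, g i (Fl y t) = Fl y t := fun i t => by rw [(hg i).comm c h, hy]
  have hfx : ∀ i k, g i (x k) = x k := fun i k => by rw [hxk]; exact hfy i _
  have hfz : ∀ i k, g i (z k) = z k := fun i k => by
    rw [hz, hy', ← h.add]; exact hfy i _
  have hfq : ∀ i, g i q = q := fun i => by
    have h1 : Tendsto (fun k => g i (x k)) (hyperfilter ℕ : Ultrafilter ℕ) (𝓝 (g i q)) :=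
      ((hg i).smooth.continuous.tendsto q).comp hq
    simp only [hfx] at h1
    exact tendsto_nhds_unique h1 hq
  -- the chart at `q`
  have hsrc : (extChartAt 𝓘(ℝ, E) q).source ∈ 𝓝 q := extChartAt_source_mem_nhds q
  have hqt : extChartAt 𝓘(ℝ, E) q q ∈ (extChartAt 𝓘(ℝ, E) q).target := mem_extChartAt_target q
  have hqs : (extChartAt 𝓘(ℝ, E) q).symm (extChartAt 𝓘(ℝ, E) q q) = q := extChartAt_to_inv q
  have hψc : ContinuousAt (extChartAt 𝓘(ℝ, E) q) q := continuousAt_extChartAt q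
  have hxs := hq.eventually hsrc
  have hzs := hzq.eventually hsrc
  have hp : Tendsto (fun k => extChartAt 𝓘(ℝ, E) q (x k)) (hyperfilter ℕ : Ultrafilter ℕ)
      (𝓝 (extChartAt 𝓘(ℝ, E) q q)) := hψc.tendsto.comp hq
  have hp' : Tendsto (fun k => extChartAt 𝓘(ℝ, E) q (z k)) (hyperfilter ℕ : Ultrafilter ℕ)
      (𝓝 (extChartAt 𝓘(ℝ, E) q q)) := hψc.tendsto.comp hzq
  have hnorm : ∀ᶠ k in ((hyperfilter ℕ : Ultrafilter ℕ) : Filter ℕ),
      ‖(‖extChartAt 𝓘(ℝ, E) q (z k) - extChartAt 𝓘(ℝ, E) q (x k)‖⁻¹ •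
        (extChartAt 𝓘(ℝ, E) q (z k) - extChartAt 𝓘(ℝ, E) q (x k)))‖ = 1 := by
    filter_upwards [hne, hxs, hzs] with k h1 h2 h3
    have h4 : extChartAt 𝓘(ℝ, E) q (z k) - extChartAt 𝓘(ℝ, E) q (x k) ≠ 0 := by
      rw [sub_ne_zero]
      intro h5
      exact h1 ((extChartAt 𝓘(ℝ, E) q).injOn h3 h2 h5)
    rw [norm_smul, norm_inv, norm_norm, inv_mul_cancel₀ (norm_ne_zero_iff.2 h4)]
  obtain ⟨v, hv⟩ := exists_limit (hyperfilter ℕ)
    (a := fun k => ‖extChartAt 𝓘(ℝ, E) q (z k) - extChartAt 𝓘(ℝ, E) q (x k)‖⁻¹ •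
        (extChartAt 𝓘(ℝ, E) q (z k) - extChartAt 𝓘(ℝ, E) q (x k))) (C := 1)
    (hnorm.mono fun k hk => hk.le)
  have hv1 : ‖v‖ = 1 := tendsto_nhds_unique hv.norm
    (tendsto_const_nhds.congr' (hnorm.mono fun k hk => hk.symm))
  -- `β v = 0`
  have hβv : chartForm 𝓘(ℝ, E) β q (extChartAt 𝓘(ℝ, E) q q) v = 0 := by
    rw [chartForm_rep hg' hrep q hqt]
    refine limit_eq_S (fun i => cf_smooth q (hf i) hqt) (fun i => cf_smooth q (hg' i) hqt)
      hp hp' hv ?_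
    filter_upwards [hclose, hxs, hzs] with k hk h1 h2
    have h3 := (hs k hk).2.1
    rw [← hz] at h3
    have h4 : ∀ w ∈ (extChartAt 𝓘(ℝ, E) q).source, ∀ r : P → ℝ,
        cf q r (extChartAt 𝓘(ℝ, E) q w) = r w := by
      intro w hw r
      show r ((extChartAt 𝓘(ℝ, E) q).symm (extChartAt 𝓘(ℝ, E) q w)) = r w
      rw [(extChartAt 𝓘(ℝ, E) q).left_inv hw]
    simp only [h4 _ h1, h4 _ h2]
    unfold S at h3
    exact (div_eq_zero_iff.1 h3).resolve_right two_ne_zero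
  -- `D(g i) v = v`
  have hDv : ∀ i, fderiv ℝ (ch2 q q (g i)) (extChartAt 𝓘(ℝ, E) q q) v = v := by
    intro i
    have h1 : ContDiffAt ℝ ∞ (ch2 q q (g i)) (extChartAt 𝓘(ℝ, E) q q) :=
      ch2_smooth q q (hg i).smooth hqt (by rw [hqs, hfq]; exact mem_extChartAt_source q)
    have h2 := tendsto_quot_vec (h1.hasStrictFDerivAt (by simp)) hp hp' hv
    have h5 : ∀ w ∈ (extChartAt 𝓘(ℝ, E) q).source, g i w = w →
        ch2 q q (g i) (extChartAt 𝓘(ℝ, E) q w) = extChartAt 𝓘(ℝ, E) q w := by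
      intro w hw hgw
      show extChartAt 𝓘(ℝ, E) q (g i ((extChartAt 𝓘(ℝ, E) q).symm
        (extChartAt 𝓘(ℝ, E) q w))) = _
      rw [(extChartAt 𝓘(ℝ, E) q).left_inv hw, hgw]
    have h6 : (fun k => ‖extChartAt 𝓘(ℝ, E) q (z k) - extChartAt 𝓘(ℝ, E) q (x k)‖⁻¹ •
        (extChartAt 𝓘(ℝ, E) q (z k) - extChartAt 𝓘(ℝ, E) q (x k)))
        =ᶠ[((hyperfilter ℕ : Ultrafilter ℕ) : Filter ℕ)]
        (fun k => ‖extChartAt 𝓘(ℝ, E) q (z k) - extChartAt 𝓘(ℝ, E) q (x k)‖⁻¹ •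
        (ch2 q q (g i) (extChartAt 𝓘(ℝ, E) q (z k)) -
          ch2 q q (g i) (extChartAt 𝓘(ℝ, E) q (x k)))) := by
      filter_upwards [hxs, hzs] with k h3 h4
      rw [h5 _ h3 (hfx i k), h5 _ h4 (hfz i k)]
    have h7 := Filter.Tendsto.congr' h6 hv
    exact tendsto_nhds_unique h2 h7
  have hTv : Top β Fl g a q (extChartAt 𝓘(ℝ, E) q q) v = 0 := by
    rw [Top_apply, hβv, zero_smul, add_zero]
    simp only [hDv]
    rw [← Finset.sum_smul, ha, zero_smul]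
  -- the determinant
  have hdet : Tendsto (fun k => (Top β Fl g a q (extChartAt 𝓘(ℝ, E) q (x k))).det)
      (hyperfilter ℕ : Ultrafilter ℕ)
      (𝓝 (Top β Fl g a q (extChartAt 𝓘(ℝ, E) q q)).det) :=
    ((ContinuousLinearMap.continuous_det.tendsto _).comp
      (continuousAt_Top c h hg a hfq).tendsto).comp hp
  have hdet2 : (Top β Fl g a q (extChartAt 𝓘(ℝ, E) q q)).det =
      (Top β Fl g a y (extChartAt 𝓘(ℝ, E) y y)).det := by
    have h3 : (fun k => (Top β Fl g a q (extChartAt 𝓘(ℝ, E) q (x k))).det)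
        =ᶠ[((hyperfilter ℕ : Ultrafilter ℕ) : Filter ℕ)]
        (fun _ => (Top β Fl g a y (extChartAt 𝓘(ℝ, E) y y)).det) := by
      filter_upwards [hxs] with k hk
      rw [hxk] at hk ⊢
      exact det_const c h hg a hy q _ hk
    have h4 := Filter.Tendsto.congr' h3 hdet
    exact tendsto_nhds_unique h4 tendsto_const_nhds
  have hd := det_ne c h hg ha hy hnd
  rw [← hdet2] at hd
  have hinj2 : Function.Injective (Top β Fl g a q (extChartAt 𝓘(ℝ, E) q q) : E →ₗ[ℝ] E) :=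
    (LinearEquiv.ofIsUnitDet (f := (Top β Fl g a q (extChartAt 𝓘(ℝ, E) q q) : E →ₗ[ℝ] E))
      (v := Module.finBasis ℝ E) (v' := Module.finBasis ℝ E)
      (by rw [LinearMap.det_toMatrix]; exact isUnit_iff_ne_zero.2 hd)).injective
  have hv0 : v = 0 := hinj2 (by rw [map_zero]; exact hTv)
  rw [hv0, norm_zero] at hv1
  exact zero_ne_one hv1

end Pool.Agent.R774.Hyp
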