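import Mathlib

/-! Shadowing of periodic pseudo-orbits, abstract form: a cyclic system of nonlinear equations which
is a small perturbation of a linear system with a Lyapunov function. The estimate is in the `ℓ²` norm
and does not depend on the length of the cycle. -/

open scoped NNReal
open Set Metric Filter

noncomputable section

namespace Pool.Agent.R774.Hyp

universe u

variable {E : Type u} [NormedAddCommGroup E] [NormedSpace ℝ E]

/-- pointwise inequality -/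
lemma ptwise {C c c₂ a d p β Δ : ℝ} (hC : 1 ≤ C) (hc : 0 < c) (hc₂ : 0 ≤ c₂)
    (h1 : C * c₂ ≤ 1 / 2) (h2 : c₂ ≤ c / 32) (ha : 0 ≤ a) (hd : 0 ≤ d) (hp : 0 ≤ p) (hβ : 0 ≤ β)
    (e1 : β ≤ C * d + c₂ * a) (e2 : a ≤ p + C * β)
    (e3 : c * p ^ 2 ≤ Δ + c₂ * a ^ 2 + C * (C * a * d + d ^ 2)) :
    a ^ 2 / 2 ≤ (8 / c) * Δ + (64 * C ^ 4 / c ^ 2 + 8 * C / c + 8 * C ^ 4) * d ^ 2 := by
  have hC0 : 0 < C := by linarith
  have h3 : a ≤ 2 * p + 2 * C ^ 2 * d := by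
    have h4 : C * β ≤ C * (C * d + c₂ * a) := mul_le_mul_of_nonneg_left e1 hC0.le
    have h5 : C * c₂ * a ≤ 1 / 2 * a := mul_le_mul_of_nonneg_right h1 ha
    nlinarith
  have h4 : a ^ 2 ≤ 8 * p ^ 2 + 8 * C ^ 4 * d ^ 2 := by
    have h5 : a ^ 2 ≤ (2 * p + 2 * C ^ 2 * d) ^ 2 := by gcongr
    nlinarith [sq_nonneg (2 * p - 2 * C ^ 2 * d)]
  have h5 : p ^ 2 ≤ (Δ + c₂ * a ^ 2 + C * (C * a * d + d ^ 2)) / c := by
    rw [le_div_iff₀ hc]; linarith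
  have h6 : (8 / c) * (C ^ 2 * a * d) ≤ a ^ 2 / 4 + 64 * C ^ 4 / c ^ 2 * d ^ 2 := by
    have h7 := sq_nonneg (a / 2 - 8 * C ^ 2 * d / c)
    have h8 : (a / 2 - 8 * C ^ 2 * d / c) ^ 2 =
        a ^ 2 / 4 + 64 * C ^ 4 / c ^ 2 * d ^ 2 - (8 / c) * (C ^ 2 * a * d) := by
      field_simp
      ring
    linarith
  have h7 : (8 / c) * (c₂ * a ^ 2) ≤ a ^ 2 / 4 := by
    have h8 : (8 / c) * (c₂ * a ^ 2) ≤ (8 / c) * (c / 32 * a ^ 2) := by gcongr
    have h9 : (8 / c) * (c / 32 * a ^ 2) = a ^ 2 / 4 := by field_simp; ring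
    linarith
  have h8 : 8 * p ^ 2 ≤ (8 / c) * Δ + (8 / c) * (c₂ * a ^ 2) + (8 / c) * (C ^ 2 * a * d) +
      8 * C / c * d ^ 2 := by
    have h9 : 8 * ((Δ + c₂ * a ^ 2 + C * (C * a * d + d ^ 2)) / c) =
        (8 / c) * Δ + (8 / c) * (c₂ * a ^ 2) + (8 / c) * (C ^ 2 * a * d) +
      8 * C / c * d ^ 2 := by
      field_simp
      ring
    linarith
  nlinarith

variable {ι : Type*} [Fintype ι] (σ : ι ≃ ι)

/-- linear data along a pseudo-orbit -/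
structure Lin (A P : ι → E →L[ℝ] E) (b : ι → E →L[ℝ] ℝ) (q : ι → E → ℝ) (C c c₂ : ℝ) :
    Prop where
  hA : ∀ i w, ‖A i w‖ ≤ C * ‖w‖
  hb : ∀ i w, |b i w| ≤ C * ‖w‖
  hw : ∀ i w, ‖w‖ ≤ ‖P i w‖ + C * |b i w|
  hbP : ∀ i w, b i (P i w) = 0
  hPP : ∀ i w, P i (P i w) = P i w
  hbA : ∀ i w, |b (σ i) (A i w) - b i w| ≤ c₂ * ‖w‖
  hq : ∀ i w, q i (P i w) + c * ‖P i w‖ ^ 2 ≤ q (σ i) (P (σ i) (A i w)) + c₂ * ‖w‖ ^ 2
  hqq : ∀ i v w, |q i (P i (v - w)) - q i (P i v)| ≤ C * (‖v‖ * ‖w‖ + ‖w‖ ^ 2)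

/-- the constant in the estimate -/
def Kc (C c : ℝ) : ℝ := 2 * (64 * C ^ 4 / c ^ 2 + 8 * C / c + 8 * C ^ 4)

lemma Kc_pos {C c : ℝ} (hC : 1 ≤ C) (hc : 0 < c) : 0 < Kc C c := by
  unfold Kc
  have : 0 < C := by linarith
  positivity

variable {σ}

theorem lin_est {A P : ι → E →L[ℝ] E} {b : ι → E →L[ℝ] ℝ} {q : ι → E → ℝ} {C c c₂ : ℝ}
    (h : Lin σ A P b q C c c₂) (hC : 1 ≤ C) (hc : 0 < c) (hc₂ : 0 ≤ c₂)
    (h1 : C * c₂ ≤ 1 / 2) (h2 : c₂ ≤ c / 32) (w : ι → E) :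
    ∑ i, ‖w i‖ ^ 2 ≤ Kc C c * ∑ i, ‖A i (w i) - P (σ i) (w (σ i))‖ ^ 2 := by
  have hC0 : 0 < C := by linarith
  have key : ∀ i, ‖w i‖ ^ 2 / 2 ≤ (8 / c) * (q (σ i) (P (σ i) (w (σ i))) - q i (P i (w i))) +
      (64 * C ^ 4 / c ^ 2 + 8 * C / c + 8 * C ^ 4) *
        ‖A i (w i) - P (σ i) (w (σ i))‖ ^ 2 := by
    intro i
    set u := A i (w i) - P (σ i) (w (σ i)) with hu
    refine ptwise hC hc hc₂ h1 h2 (norm_nonneg _) (norm_nonneg _) (norm_nonneg (P i (w i)))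
      (abs_nonneg (b i (w i))) ?_ (h.hw i _) ?_
    · have e1 : b (σ i) (A i (w i)) = b (σ i) u := by
        rw [hu, map_sub, h.hbP, sub_zero]
      have e2 := h.hbA i (w i)
      rw [e1] at e2
      have e3 := h.hb (σ i) u
      have e4 : |b i (w i)| ≤ |b (σ i) u| + |b (σ i) u - b i (w i)| := by
        have := abs_sub_abs_le_abs_sub (b i (w i)) (b (σ i) u)
        rw [abs_sub_comm] at this
        linarith
      linarith
    · have e1 : P (σ i) (A i (w i) - u) = P (σ i) (w (σ i)) := by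
        rw [hu, sub_sub_cancel, h.hPP]
      have e2 := h.hqq (σ i) (A i (w i)) u
      rw [e1] at e2
      have e3 := (abs_le.1 e2).1
      have e4 := h.hq i (w i)
      have e5 : C * (‖A i (w i)‖ * ‖u‖ + ‖u‖ ^ 2) ≤ C * (C * ‖w i‖ * ‖u‖ + ‖u‖ ^ 2) := by
        have := h.hA i (w i)
        gcongr
      linarith
  have hsum : ∑ i, (q (σ i) (P (σ i) (w (σ i))) - q i (P i (w i))) = 0 := by
    rw [Finset.sum_sub_distrib, Equiv.sum_comp σ (fun i => q i (P i (w i))), sub_self]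
  have h3 := Finset.sum_le_sum fun i (_ : i ∈ Finset.univ) => key i
  rw [Finset.sum_add_distrib, ← Finset.mul_sum, hsum, mul_zero, zero_add, ← Finset.mul_sum,
    ← Finset.sum_div] at h3
  unfold Kc
  linarith

/-- **Shadowing, abstract form** -/
theorem shadow [FiniteDimensional ℝ E] {A P : ι → E →L[ℝ] E} {b : ι → E →L[ℝ] ℝ}
    {q : ι → E → ℝ} {C c c₂ : ℝ}
    (h : Lin σ A P b q C c c₂) (hC : 1 ≤ C) (hc : 0 < c) (hc₂ : 0 ≤ c₂)
    (h1 : C * c₂ ≤ 1 / 2) (h2 : c₂ ≤ c / 32) {K : ℝ} (hK : 0 < K) (hKc : Kc C c ≤ K ^ 2)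
    {Γ : ι → E → E} {c₁ ε : ℝ} (hc₁ : 0 ≤ c₁) (hε : 0 < ε)
    (hΓ : ∀ i w w', ‖w‖ ≤ ε → ‖w'‖ ≤ ε → ‖Γ i w - Γ i w' - A i (w - w')‖ ≤ c₁ * ‖w - w'‖)
    {r : ℝ} (hr : r ≤ (K⁻¹ - c₁) * ε) (hr0 : 0 ≤ r) (h0 : ∑ i, ‖Γ i 0‖ ^ 2 ≤ r ^ 2) :
    ∃ w : ι → E, (∀ i, ‖w i‖ ≤ ε) ∧ ∀ i, Γ i (w i) = P (σ i) (w (σ i)) := by
  classical
  let f : PiLp 2 (fun _ : ι => E) → PiLp 2 (fun _ : ι => E) := fun w =>
    WithLp.toLp 2 (fun j => Γ (σ.symm j) (w (σ.symm j)) - P j (w j))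
  let L₀ : PiLp 2 (fun _ : ι => E) →ₗ[ℝ] PiLp 2 (fun _ : ι => E) :=
    { toFun := fun w => WithLp.toLp 2 (fun j => A (σ.symm j) (w (σ.symm j)) - P j (w j))
      map_add' := fun w w' => by
        ext j
        simp only [PiLp.add_apply, map_add]
        abel
      map_smul' := fun a w => by
        ext j
        simp only [PiLp.smul_apply, map_smul, RingHom.id_apply, smul_sub] }
  let L : PiLp 2 (fun _ : ι => E) →L[ℝ] PiLp 2 (fun _ : ι => E) := LinearMap.toContinuousLinearMap L₀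
  have hLa : ∀ w j, L w j = A (σ.symm j) (w (σ.symm j)) - P j (w j) := fun w j => rfl
  have hfa : ∀ w j, f w j = Γ (σ.symm j) (w (σ.symm j)) - P j (w j) := fun w j => rfl
  have hest : ∀ w, ‖w‖ ≤ K * ‖L w‖ := by
    intro w
    have h3 := lin_est h hC hc hc₂ h1 h2 (fun i => w i)
    have h4 : ∑ i, ‖A i (w i) - P (σ i) (w (σ i))‖ ^ 2 = ‖L w‖ ^ 2 := by
      rw [PiLp.norm_sq_eq_of_L2, ← Equiv.sum_comp σ (fun j => ‖(L w) j‖ ^ 2)]
      refine Finset.sum_congr rfl fun i _ => ?_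
      rw [hLa, Equiv.symm_apply_apply]
    rw [h4, ← PiLp.norm_sq_eq_of_L2] at h3
    have h5 : ‖w‖ ^ 2 ≤ (K * ‖L w‖) ^ 2 := by
      rw [mul_pow]
      refine h3.trans ?_
      gcongr
    exact (abs_le_of_sq_le_sq' h5 (by positivity)).2
  have hinj : Function.Injective L₀ := by
    rw [injective_iff_map_eq_zero]
    intro w hw
    have h3 := hest w
    have h4 : L w = 0 := hw
    rw [h4, norm_zero, mul_zero] at h3
    exact norm_le_zero_iff.1 h3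
  have hsurj : Function.Surjective L₀ := LinearMap.injective_iff_surjective.1 hinj
  choose g hg using hsurj
  let N : L.NonlinearRightInverse :=
    { toFun := g
      nnnorm := ⟨K, hK.le⟩
      bound' := fun y => by
        have h3 := hest (g y)
        have h4 : L (g y) = y := hg y
        rw [h4] at h3
        exact h3
      right_inv' := fun y => hg y }
  have hcomp : ∀ w : PiLp 2 (fun _ : ι => E), ∀ i, ‖w i‖ ≤ ‖w‖ := fun w i => PiLp.norm_apply_le w i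
  have happ : ApproximatesLinearOn f L (closedBall 0 ε) ⟨c₁, hc₁⟩ := by
    intro w hw w' hw'
    rw [mem_closedBall_zero_iff] at hw hw'
    have h3 : ‖f w - f w' - L (w - w')‖ ^ 2 ≤ (c₁ * ‖w - w'‖) ^ 2 := by
      rw [PiLp.norm_sq_eq_of_L2, mul_pow, PiLp.norm_sq_eq_of_L2, Finset.mul_sum,
        ← Equiv.sum_comp σ]
      refine Finset.sum_le_sum fun i _ => ?_
      have h4 := hΓ i (w i) (w' i) ((hcomp w i).trans hw) ((hcomp w' i).trans hw')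
      have h5 : (f w - f w' - L (w - w')) (σ i) =
          Γ i (w i) - Γ i (w' i) - A i (w i - w' i) := by
        simp only [PiLp.sub_apply, hfa, hLa, Equiv.symm_apply_apply, map_sub]
        abel
      rw [h5, ← mul_pow]
      gcongr
      exact h4
    exact (abs_le_of_sq_le_sq' h3 (by positivity)).2
  have hso := happ.surjOn_closedBall_of_nonlinearRightInverse N hε.le subset_rfl
  have hf0 : ‖f 0‖ ≤ r := by
    have h3 : ‖f 0‖ ^ 2 ≤ r ^ 2 := by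
      refine le_trans (le_of_eq ?_) h0
      rw [PiLp.norm_sq_eq_of_L2, ← Equiv.sum_comp σ]
      refine Finset.sum_congr rfl fun i _ => ?_
      rw [hfa, Equiv.symm_apply_apply]
      simp
    exact (abs_le_of_sq_le_sq' h3 hr0).2
  have hmem : (0 : PiLp 2 (fun _ : ι => E)) ∈
      closedBall (f 0) ((((N.nnnorm : ℝ≥0) : ℝ)⁻¹ - ((⟨c₁, hc₁⟩ : ℝ≥0) : ℝ)) * ε) := by
    rw [mem_closedBall, dist_eq_norm, zero_sub, norm_neg]
    exact hf0.trans hr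
  obtain ⟨w, hw, hw0⟩ := hso hmem
  rw [mem_closedBall_zero_iff] at hw
  refine ⟨fun i => w i, fun i => (hcomp w i).trans hw, fun i => ?_⟩
  have h3 : f w (σ i) = 0 := by rw [hw0]; rfl
  rw [hfa, Equiv.symm_apply_apply, sub_eq_zero] at h3
  exact h3

end Pool.Agent.R774.Hyp
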