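import Mathlib
import Pool.Agent.R774.Fix1

/-! A uniformity principle on a compact manifold with finitely many charts. -/

open scoped Topology ContDiff Manifold
open Set Metric Bundle Filter Pool.Agent.Helper186 Pool.Agent.H826R2.Wein Pool.Agent.W671.WU
open Pool.Agent.R774.Root

noncomputable section

namespace Pool.Agent.R774.Hyp

set_option linter.unusedSectionVars false

universe u

section

variable {P : Type*} [TopologicalSpace P] {F : Type*} [NormedAddCommGroup F]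

lemma ultra_const {α : Type*} (l : Ultrafilter ℕ) {t : Finset α} {a : ℕ → α}
    (h : ∀ k, a k ∈ t) : ∃ a₀ ∈ t, ∀ᶠ k in (l : Filter ℕ), a k = a₀ := by
  have h1 : (t : Set α) ∈ l.map a := by
    rw [Ultrafilter.mem_map]
    exact Filter.univ_mem' h
  obtain ⟨a₀, ha₀, h2⟩ := Ultrafilter.eq_pure_of_finite_mem t.finite_toSet h1
  refine ⟨a₀, ha₀, ?_⟩
  have h3 : ({a₀} : Set α) ∈ l.map a := by rw [h2]; simp
  rw [Ultrafilter.mem_map] at h3
  exact h3

/-- **Uniformity principle** -/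
theorem unif [CompactSpace P] [T2Space P] {e : P → F} (he : Continuous e)
    (hinj : Function.Injective e) {g : P → P} (hg : Continuous g) {K : Set P} (hK : IsClosed K)
    {t : Finset P} {V : P → Set P} (hV : ∀ a, IsClosed (V a))
    {Q : ℕ → P → P → P → P → Prop}
    (mono : ∀ m n a b x y, m ≤ n → Q m a b x y → Q n a b x y)
    (loc : ∀ a ∈ t, ∀ b ∈ t, ∀ x ∈ K, x ∈ V a → g x ∈ V b →
      ∃ N, ∀ᶠ q in 𝓝 (x, g x), Q N a b q.1 q.2) :
    ∃ N, ∃ δ > 0, ∀ a ∈ t, ∀ b ∈ t, ∀ x ∈ K, ∀ y, x ∈ V a → y ∈ V b → ‖e y - e (g x)‖ < δ →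
      Q N a b x y := by
  by_contra hcon
  push Not at hcon
  have h1 : ∀ k : ℕ, ∃ a ∈ t, ∃ b ∈ t, ∃ x ∈ K, ∃ y, x ∈ V a ∧ y ∈ V b ∧
      ‖e y - e (g x)‖ < 1 / ((k : ℝ) + 1) ∧ ¬ Q k a b x y := fun k =>
    hcon k _ (by positivity)
  choose a ha b hb x hx y hxa hyb hxy hQ using h1
  obtain ⟨x₀, hx₀⟩ := exists_limit_compact (hyperfilter ℕ) x
  obtain ⟨y₀, hy₀⟩ := exists_limit_compact (hyperfilter ℕ) y
  have hlat : ((hyperfilter ℕ : Ultrafilter ℕ) : Filter ℕ) ≤ atTop := by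
    rw [← Nat.cofinite_eq_atTop]; exact hyperfilter_le_cofinite
  have hyx : y₀ = g x₀ := by
    apply hinj
    have h2 : Tendsto (fun k => e (y k) - e (g (x k))) (hyperfilter ℕ : Ultrafilter ℕ) (𝓝 0) := by
      rw [tendsto_zero_iff_norm_tendsto_zero]
      refine squeeze_zero' (Eventually.of_forall fun k => norm_nonneg _)
        (Eventually.of_forall fun k => (hxy k).le)
        ((tendsto_one_div_add_atTop_nhds_zero_nat (𝕜 := ℝ)).mono_left hlat)
    have h3 : Tendsto (fun k => e (y k) - e (g (x k))) (hyperfilter ℕ : Ultrafilter ℕ)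
        (𝓝 (e y₀ - e (g x₀))) :=
      ((he.tendsto y₀).comp hy₀).sub (((he.comp hg).tendsto x₀).comp hx₀)
    exact sub_eq_zero.1 (tendsto_nhds_unique h3 h2)
  obtain ⟨a₀, ha₀, hae⟩ := ultra_const (hyperfilter ℕ) ha
  obtain ⟨b₀, hb₀, hbe⟩ := ultra_const (hyperfilter ℕ) hb
  have hx₀K : x₀ ∈ K := hK.mem_of_tendsto hx₀ (Eventually.of_forall hx)
  have hx₀V : x₀ ∈ V a₀ := (hV a₀).mem_of_tendsto hx₀ (by
    filter_upwards [hae] with k hk
    rw [← hk]
    exact hxa k)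
  have hy₀V : y₀ ∈ V b₀ := (hV b₀).mem_of_tendsto hy₀ (by
    filter_upwards [hbe] with k hk
    rw [← hk]
    exact hyb k)
  rw [hyx] at hy₀ hy₀V
  obtain ⟨N, hN⟩ := loc a₀ ha₀ b₀ hb₀ x₀ hx₀K hx₀V hy₀V
  have h2 := (hx₀.prodMk_nhds hy₀).eventually hN
  have h3 : ∀ᶠ k in ((hyperfilter ℕ : Ultrafilter ℕ) : Filter ℕ), N ≤ k :=
    (eventually_ge_atTop N).filter_mono hlat
  obtain ⟨k, h4, h5, h6, h7⟩ := (h2.and (h3.and (hae.and hbe))).exists
  apply hQ k
  rw [h6, h7]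
  exact mono _ _ _ _ _ _ h5 h4

end

variable {E : Type u} [NormedAddCommGroup E] [NormedSpace ℝ E] [FiniteDimensional ℝ E]
  {P : Type*} [TopologicalSpace P] [ChartedSpace E P] [IsManifold 𝓘(ℝ, E) ∞ P]

variable (E P) in
/-- finitely many charts -/
lemma exists_cover [CompactSpace P] [T2Space P] : ∃ (t : Finset P) (V : P → Set P),
    (∀ a, IsClosed (V a)) ∧ (∀ a, V a ⊆ (extChartAt 𝓘(ℝ, E) a).source) ∧
    ∀ x, ∃ a ∈ t, x ∈ V a := by
  have h1 : ∀ a : P, ∃ V ∈ 𝓝 a, IsClosed V ∧ V ⊆ (extChartAt 𝓘(ℝ, E) a).source := fun a =>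
    exists_mem_nhds_isClosed_subset (extChartAt_source_mem_nhds a)
  choose V hV1 hV2 hV3 using h1
  obtain ⟨t, ht⟩ := CompactSpace.elim_nhds_subcover V hV1
  refine ⟨t, V, hV2, hV3, fun x => ?_⟩
  have h2 : x ∈ ⋃ a ∈ t, V a := by rw [ht]; trivial
  simp only [mem_iUnion, exists_prop] at h2
  exact h2

end Pool.Agent.R774.Hyp
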