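import Mathlib
import Pool.Agent.R774.Hyp2

/-! Local estimates for a strict contact map in charts. -/

open scoped Topology ContDiff Manifold
open Set Metric Bundle Filter Pool.Agent.Helper186 Pool.Agent.H826R2.Wein Pool.Agent.W671.WU
open Pool.Agent.R774.Root

noncomputable section

namespace Pool.Agent.R774.Hyp

set_option linter.unusedSectionVars false

universe u

variable {E : Type u} [NormedAddCommGroup E] [NormedSpace ℝ E] [FiniteDimensional ℝ E]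
  {P : Type*} [TopologicalSpace P] [ChartedSpace E P] [IsManifold 𝓘(ℝ, E) ∞ P]
  {F : Type*} [NormedAddCommGroup F] [NormedSpace ℝ F]
  {β : (x : P) → TangentSpace 𝓘(ℝ, E) x →L[ℝ] ℝ}
  {R : (x : P) → TangentSpace 𝓘(ℝ, E) x} {Fl : P → ℝ → P}

/-- projection to the kernel of the contact form -/
def PE (β : (x : P) → TangentSpace 𝓘(ℝ, E) x →L[ℝ] ℝ) (Fl : P → ℝ → P) (a : P) (p : E) :
    E →L[ℝ] E :=
  ContinuousLinearMap.id ℝ E - (chartForm 𝓘(ℝ, E) β a p).smulRight (RF.Rc Fl a p)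

lemma PE_apply (a : P) (p w : E) :
    PE β Fl a p w = w - chartForm 𝓘(ℝ, E) β a p w • RF.Rc Fl a p := rfl

/-- the linearised equation -/
def AE (β : (x : P) → TangentSpace 𝓘(ℝ, E) x →L[ℝ] ℝ) (Fl : P → ℝ → P) (g : P → P)
    (a b : P) (p : E) : E →L[ℝ] E :=
  (fderiv ℝ (ch2 a b g) p).comp (PE β Fl a p) +
    (chartForm 𝓘(ℝ, E) β a p).smulRight (RF.Rc Fl b (ch2 a b g p))

lemma AE_apply (g : P → P) (a b : P) (p w : E) :
    AE β Fl g a b p w = fderiv ℝ (ch2 a b g) p (PE β Fl a p w) +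
      chartForm 𝓘(ℝ, E) β a p w • RF.Rc Fl b (ch2 a b g p) := rfl

/-- the map `w ↦ φ_s (g y)` in charts, `w = z + s R`, `y` given by `z` -/
def GE (β : (x : P) → TangentSpace 𝓘(ℝ, E) x →L[ℝ] ℝ) (Fl : P → ℝ → P) (g : P → P)
    (a b : P) (p w : E) : E :=
  extChartAt 𝓘(ℝ, E) b (Fl (g ((extChartAt 𝓘(ℝ, E) a).symm (p + PE β Fl a p w)))
    (chartForm 𝓘(ℝ, E) β a p w))

/-- auxiliary map -/
def JJ (Fl : P → ℝ → P) (g : P → P) (a b : P) (q : E × ℝ) : E :=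
  extChartAt 𝓘(ℝ, E) b (Fl (g ((extChartAt 𝓘(ℝ, E) a).symm q.1)) q.2)

lemma GE_eq (g : P → P) (a b : P) (p w : E) :
    GE β Fl g a b p w = JJ Fl g a b (p + PE β Fl a p w, chartForm 𝓘(ℝ, E) β a p w) := rfl

lemma JJ_strict (h : RF β R Fl) {g : P → P} (hg : ContMDiff 𝓘(ℝ, E) 𝓘(ℝ, E) ∞ g) (a b : P)
    {p : E} (hp : p ∈ (extChartAt 𝓘(ℝ, E) a).target)
    (hgp : g ((extChartAt 𝓘(ℝ, E) a).symm p) ∈ (extChartAt 𝓘(ℝ, E) b).source) :
    HasStrictFDerivAt (JJ Fl g a b) ((fderiv ℝ (ch2 a b g) p).comp (ContinuousLinearMap.fst ℝ E ℝ) +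
      (ContinuousLinearMap.snd ℝ E ℝ).smulRight (RF.Rc Fl b (ch2 a b g p))) (p, 0) := by
  have hct : ch2 a b g p ∈ (extChartAt 𝓘(ℝ, E) b).target := (extChartAt 𝓘(ℝ, E) b).map_source hgp
  have hcs : (extChartAt 𝓘(ℝ, E) b).symm (ch2 a b g p) = g ((extChartAt 𝓘(ℝ, E) a).symm p) :=
    (extChartAt 𝓘(ℝ, E) b).left_inv hgp
  have h1 : ContDiffAt ℝ ∞ (RF.H Fl b) (ch2 a b g p, 0) := by
    refine h.smooth_H b (q := (ch2 a b g p, 0)) hct ?_
    simp only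
    rw [h.zero, hcs]
    exact hgp
  have h2 := h1.hasStrictFDerivAt (n := ∞) (by simp)
  have h3 : HasStrictFDerivAt (ch2 a b g) (fderiv ℝ (ch2 a b g) p) p :=
    (ch2_smooth a b hg hp hgp).hasStrictFDerivAt (by simp)
  have h4 : HasStrictFDerivAt (fun q : E × ℝ => (ch2 a b g q.1, q.2))
      (((fderiv ℝ (ch2 a b g) p).comp (ContinuousLinearMap.fst ℝ E ℝ)).prod
        (ContinuousLinearMap.snd ℝ E ℝ)) (p, 0) := by
    refine HasStrictFDerivAt.prodMk ?_ hasStrictFDerivAt_snd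
    exact HasStrictFDerivAt.comp (p, (0:ℝ)) (g := ch2 a b g) (f := Prod.fst) h3
      hasStrictFDerivAt_fst
  have h5 := HasStrictFDerivAt.comp (p, (0:ℝ)) (g := RF.H Fl b)
    (f := fun q : E × ℝ => (ch2 a b g q.1, q.2)) h2 h4
  have h6 : (RF.H Fl b ∘ fun q : E × ℝ => (ch2 a b g q.1, q.2)) =ᶠ[𝓝 (p, 0)] JJ Fl g a b := by
    have hFc : ContinuousAt (fun q : E × ℝ => g ((extChartAt 𝓘(ℝ, E) a).symm q.1)) (p, 0) := by
      have h7 : ContinuousAt (fun p : E => g ((extChartAt 𝓘(ℝ, E) a).symm p)) p :=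
        hg.continuous.continuousAt.comp ((continuousOn_extChartAt_symm a).continuousAt
          ((isOpen_extChartAt_target a).mem_nhds hp))
      exact ContinuousAt.comp (x := ((p, 0) : E × ℝ)) (f := Prod.fst)
        (g := fun p : E => g ((extChartAt 𝓘(ℝ, E) a).symm p)) h7 continuousAt_fst
    filter_upwards [hFc.eventually ((isOpen_extChartAt_source b).mem_nhds hgp)] with q hq
    show extChartAt 𝓘(ℝ, E) b (Fl ((extChartAt 𝓘(ℝ, E) b).symm
      (extChartAt 𝓘(ℝ, E) b (g ((extChartAt 𝓘(ℝ, E) a).symm q.1)))) q.2) = _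
    rw [(extChartAt 𝓘(ℝ, E) b).left_inv hq]
    rfl
  have h7 := h5.congr_of_eventuallyEq h6
  refine h7.congr_fderiv ?_
  have hinl := h.fderiv_H_zero b hct
  refine ContinuousLinearMap.ext fun v => ?_
  have e1 : fderiv ℝ (RF.H Fl b) (ch2 a b g p, 0) (fderiv ℝ (ch2 a b g) p v.1, v.2) =
      fderiv ℝ (ch2 a b g) p v.1 + v.2 • RF.Rc Fl b (ch2 a b g p) := by
    have e2 : ((fderiv ℝ (ch2 a b g) p v.1, v.2) : E × ℝ) =
        ContinuousLinearMap.inl ℝ E ℝ (fderiv ℝ (ch2 a b g) p v.1) + v.2 • ((0, 1) : E × ℝ) := by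
      ext <;> simp
    rw [e2, map_add, map_smul]
    congr 1
    exact DFunLike.congr_fun hinl _
  exact e1

lemma contAt_b (c : CD β R) (a : P) {p : E} (hp : p ∈ (extChartAt 𝓘(ℝ, E) a).target) :
    ContinuousAt (chartForm 𝓘(ℝ, E) β a) p :=
  ((contDiffOn_chartForm c.contact.smooth a).contDiffAt
    ((isOpen_extChartAt_target a).mem_nhds hp)).continuousAt

lemma contAt_smulRight {X : Type*} [TopologicalSpace X] {x : X} {f : X → E →L[ℝ] ℝ} {r : X → E}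
    (hf : ContinuousAt f x) (hr : ContinuousAt r x) :
    ContinuousAt (fun y => (f y).smulRight (r y)) x := by
  have h5 : Continuous (fun x : (E →L[ℝ] ℝ) × E =>
      ContinuousLinearMap.smulRightL ℝ E E x.1 x.2) :=
    (ContinuousLinearMap.smulRightL ℝ E E).continuous₂
  exact h5.continuousAt.comp (hf.prodMk hr)

lemma contAt_PE (c : CD β R) (h : RF β R Fl) (a : P) {p : E}
    (hp : p ∈ (extChartAt 𝓘(ℝ, E) a).target) : ContinuousAt (PE β Fl a) p :=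
  continuousAt_const.sub (contAt_smulRight (contAt_b c a hp) (h.continuousAt_Rc a hp))

lemma contAt_ch2 {g : P → P} (hg : ContMDiff 𝓘(ℝ, E) 𝓘(ℝ, E) ∞ g) (a b : P)
    {p : E} (hp : p ∈ (extChartAt 𝓘(ℝ, E) a).target)
    (hgp : g ((extChartAt 𝓘(ℝ, E) a).symm p) ∈ (extChartAt 𝓘(ℝ, E) b).source) :
    ContinuousAt (ch2 a b g) p := (ch2_smooth a b hg hp hgp).continuousAt

lemma contAt_dch2 {g : P → P} (hg : ContMDiff 𝓘(ℝ, E) 𝓘(ℝ, E) ∞ g) (a b : P)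
    {p : E} (hp : p ∈ (extChartAt 𝓘(ℝ, E) a).target)
    (hgp : g ((extChartAt 𝓘(ℝ, E) a).symm p) ∈ (extChartAt 𝓘(ℝ, E) b).source) :
    ContinuousAt (fderiv ℝ (ch2 a b g)) p :=
  ((ch2_smooth a b hg hp hgp).fderiv_right (m := 0) (by simp)).continuousAt

lemma contAt_Rch2 (h : RF β R Fl) {g : P → P} (hg : ContMDiff 𝓘(ℝ, E) 𝓘(ℝ, E) ∞ g) (a b : P)
    {p : E} (hp : p ∈ (extChartAt 𝓘(ℝ, E) a).target)
    (hgp : g ((extChartAt 𝓘(ℝ, E) a).symm p) ∈ (extChartAt 𝓘(ℝ, E) b).source) :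
    ContinuousAt (fun p => RF.Rc Fl b (ch2 a b g p)) p :=
  ContinuousAt.comp (g := RF.Rc Fl b)
    (h.continuousAt_Rc b ((extChartAt 𝓘(ℝ, E) b).map_source hgp)) (contAt_ch2 hg a b hp hgp)

lemma contAt_AE (c : CD β R) (h : RF β R Fl) {g : P → P}
    (hg : ContMDiff 𝓘(ℝ, E) 𝓘(ℝ, E) ∞ g) (a b : P)
    {p : E} (hp : p ∈ (extChartAt 𝓘(ℝ, E) a).target)
    (hgp : g ((extChartAt 𝓘(ℝ, E) a).symm p) ∈ (extChartAt 𝓘(ℝ, E) b).source) :
    ContinuousAt (AE β Fl g a b) p :=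
  ((contAt_dch2 hg a b hp hgp).clm_comp (contAt_PE c h a hp)).add
    (contAt_smulRight (contAt_b c a hp) (contAt_Rch2 h hg a b hp hgp))

/-- at the image point the Reeb component of the linearisation is the Reeb component -/
lemma b_AE (c : CD β R) (h : RF β R Fl) {g : P → P} (hg : St β g) (a b : P)
    {p : E} (hp : p ∈ (extChartAt 𝓘(ℝ, E) a).target)
    (hgp : g ((extChartAt 𝓘(ℝ, E) a).symm p) ∈ (extChartAt 𝓘(ℝ, E) b).source) (w : E) :
    chartForm 𝓘(ℝ, E) β b (ch2 a b g p) (AE β Fl g a b p w) = chartForm 𝓘(ℝ, E) β a p w := by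
  have hct : ch2 a b g p ∈ (extChartAt 𝓘(ℝ, E) b).target := (extChartAt 𝓘(ℝ, E) b).map_source hgp
  rw [AE_apply, map_add, map_smul, chartForm_ch2 a b hg hp hgp, chartForm_Rc c h b hct, PE_apply,
    map_sub, map_smul, chartForm_Rc c h a hp]
  simp

/-- at the image point the other component of the linearisation is the derivative -/
lemma P_AE (c : CD β R) (h : RF β R Fl) {g : P → P} (hg : St β g) (a b : P)
    {p : E} (hp : p ∈ (extChartAt 𝓘(ℝ, E) a).target)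
    (hgp : g ((extChartAt 𝓘(ℝ, E) a).symm p) ∈ (extChartAt 𝓘(ℝ, E) b).source) (w : E) :
    PE β Fl b (ch2 a b g p) (AE β Fl g a b p w) =
      fderiv ℝ (ch2 a b g) p (PE β Fl a p w) := by
  rw [PE_apply (a := b), b_AE c h hg a b hp hgp, AE_apply, add_sub_cancel_right]

lemma b_PE (c : CD β R) (h : RF β R Fl) (a : P)
    {p : E} (hp : p ∈ (extChartAt 𝓘(ℝ, E) a).target) (w : E) :
    chartForm 𝓘(ℝ, E) β a p (PE β Fl a p w) = 0 := by
  rw [PE_apply, map_sub, map_smul, chartForm_Rc c h a hp]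
  simp

lemma P_PE (c : CD β R) (h : RF β R Fl) (a : P)
    {p : E} (hp : p ∈ (extChartAt 𝓘(ℝ, E) a).target) (w : E) :
    PE β Fl a p (PE β Fl a p w) = PE β Fl a p w := by
  rw [PE_apply a p (PE β Fl a p w), b_PE c h a hp, zero_smul, sub_zero]

/-- extraction of a radius -/
lemma ev_ball {X : Type*} [TopologicalSpace X] {Q : X → E → E → Prop} {p₀ : X}
    (h : ∀ᶠ z : X × E × E in 𝓝 (p₀, 0, 0), Q z.1 z.2.1 z.2.2) :
    ∃ N : ℕ, ∀ᶠ x in 𝓝 p₀, ∀ w w', ‖w‖ ≤ 1 / ((N:ℝ) + 1) → ‖w'‖ ≤ 1 / ((N:ℝ) + 1) →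
      Q x w w' := by
  rw [nhds_prod_eq, eventually_prod_iff] at h
  obtain ⟨pa, hpa, pb, hpb, hh⟩ := h
  obtain ⟨ε, hε, hb⟩ := Metric.eventually_nhds_iff.1 hpb
  obtain ⟨N, hN⟩ := exists_nat_one_div_lt hε
  refine ⟨N, ?_⟩
  filter_upwards [hpa] with x hx w w' hw hw'
  refine hh hx (y := (w, w')) (hb ?_)
  rw [dist_eq_norm]
  have h1 : ((w, w') : E × E) - (0, 0) = (w, w') := by simp
  rw [h1, Prod.norm_def]
  exact max_lt (hw.trans_lt hN) (hw'.trans_lt hN)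

lemma ev_ball1 {X : Type*} [TopologicalSpace X] {Q : X → E → Prop} {p₀ : X}
    (h : ∀ᶠ z : X × E in 𝓝 (p₀, 0), Q z.1 z.2) :
    ∃ N : ℕ, ∀ᶠ x in 𝓝 p₀, ∀ w, ‖w‖ ≤ 1 / ((N:ℝ) + 1) → Q x w := by
  rw [nhds_prod_eq, eventually_prod_iff] at h
  obtain ⟨pa, hpa, pb, hpb, hh⟩ := h
  obtain ⟨ε, hε, hb⟩ := Metric.eventually_nhds_iff.1 hpb
  obtain ⟨N, hN⟩ := exists_nat_one_div_lt hε
  refine ⟨N, ?_⟩
  filter_upwards [hpa] with x hx w hw
  refine hh hx (y := w) (hb ?_)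
  rw [dist_eq_norm, sub_zero]
  exact hw.trans_lt hN

/-- **approximation by the linearised equation** -/
lemma loc_approx (c : CD β R) (h : RF β R Fl) {g : P → P}
    (hg : ContMDiff 𝓘(ℝ, E) 𝓘(ℝ, E) ∞ g) (a b : P)
    {p : E} (hp : p ∈ (extChartAt 𝓘(ℝ, E) a).target)
    (hgp : g ((extChartAt 𝓘(ℝ, E) a).symm p) ∈ (extChartAt 𝓘(ℝ, E) b).source)
    {c₁ : ℝ} (hc₁ : 0 < c₁) :
    ∃ N : ℕ, ∀ᶠ p' in 𝓝 p, ∀ w w', ‖w‖ ≤ 1 / ((N:ℝ) + 1) → ‖w'‖ ≤ 1 / ((N:ℝ) + 1) →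
      ‖GE β Fl g a b p' w - GE β Fl g a b p' w' - AE β Fl g a b p' (w - w')‖ ≤
        c₁ * ‖w - w'‖ := by
  apply ev_ball (Q := fun p' w w' =>
    ‖GE β Fl g a b p' w - GE β Fl g a b p' w' - AE β Fl g a b p' (w - w')‖ ≤ c₁ * ‖w - w'‖)
  have hJ := JJ_strict h hg a b hp hgp
  set J' := (fderiv ℝ (ch2 a b g) p).comp (ContinuousLinearMap.fst ℝ E ℝ) +
      (ContinuousLinearMap.snd ℝ E ℝ).smulRight (RF.Rc Fl b (ch2 a b g p)) with hJ'
  have hPc := contAt_PE c h a hp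
  have hbc := contAt_b c a hp
  set C₀ : ℝ := ‖PE β Fl a p‖ + ‖chartForm 𝓘(ℝ, E) β a p‖ + 1 with hC₀
  have hC₀0 : 0 < C₀ := by positivity
  have hκ : 0 < c₁ / (2 * C₀) := by positivity
  have h1 := hJ.isLittleO.def hκ
  -- the inner map
  have hΞ : ContinuousAt (fun z : E × E => ((z.1 + PE β Fl a z.1 z.2,
      chartForm 𝓘(ℝ, E) β a z.1 z.2) : E × ℝ)) (p, 0) := by
    have h2 : ContinuousAt (fun z : E × E => PE β Fl a z.1) (p, 0) :=
      ContinuousAt.comp (x := ((p, 0) : E × E)) (f := Prod.fst) (g := PE β Fl a) hPc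
        continuousAt_fst
    have h3 : ContinuousAt (fun z : E × E => chartForm 𝓘(ℝ, E) β a z.1) (p, 0) :=
      ContinuousAt.comp (x := ((p, 0) : E × E)) (f := Prod.fst)
        (g := chartForm 𝓘(ℝ, E) β a) hbc continuousAt_fst
    exact (continuousAt_fst.add (h2.clm_apply continuousAt_snd)).prodMk
      (h3.clm_apply continuousAt_snd)
  have hΞ0 : ((p + PE β Fl a p 0, chartForm 𝓘(ℝ, E) β a p 0) : E × ℝ) = (p, 0) := by
    rw [map_zero, map_zero, add_zero]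
  have h2 : Tendsto (fun z : E × E × E =>
      ((((z.1 + PE β Fl a z.1 z.2.1, chartForm 𝓘(ℝ, E) β a z.1 z.2.1) : E × ℝ),
        ((z.1 + PE β Fl a z.1 z.2.2, chartForm 𝓘(ℝ, E) β a z.1 z.2.2) : E × ℝ)) :
        (E × ℝ) × (E × ℝ))) (𝓝 (p, 0, 0)) (𝓝 ((p, 0), (p, 0))) := by
    have h3 : Tendsto (fun z : E × E × E => ((z.1, z.2.1) : E × E)) (𝓝 (p, 0, 0)) (𝓝 (p, 0)) :=
      (continuous_fst.prodMk (continuous_fst.comp continuous_snd)).tendsto _
    have h4 : Tendsto (fun z : E × E × E => ((z.1, z.2.2) : E × E)) (𝓝 (p, 0, 0)) (𝓝 (p, 0)) :=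
      (continuous_fst.prodMk (continuous_snd.comp continuous_snd)).tendsto _
    have h5 := hΞ.tendsto
    simp only [hΞ0] at h5
    exact (h5.comp h3).prodMk_nhds (h5.comp h4)
  have h3 := h2.eventually h1
  -- bounds near `p`
  have h4 : ∀ᶠ p' in 𝓝 p, ‖PE β Fl a p'‖ ≤ C₀ := by
    have := hPc.norm.eventually (gt_mem_nhds (show ‖PE β Fl a p‖ < C₀ by
      rw [hC₀]; linarith [norm_nonneg (chartForm 𝓘(ℝ, E) β a p)]))
    exact this.mono fun _ h => h.le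
  have h5 : ∀ᶠ p' in 𝓝 p, ‖chartForm 𝓘(ℝ, E) β a p'‖ ≤ C₀ := by
    have := hbc.norm.eventually (gt_mem_nhds (show ‖chartForm 𝓘(ℝ, E) β a p‖ < C₀ by
      rw [hC₀]; linarith [norm_nonneg (PE β Fl a p)]))
    exact this.mono fun _ h => h.le
  -- the difference of the operators
  have h6 : ∀ᶠ p' in 𝓝 p, ‖((fderiv ℝ (ch2 a b g) p).comp (PE β Fl a p') +
      (chartForm 𝓘(ℝ, E) β a p').smulRight (RF.Rc Fl b (ch2 a b g p))) -
      AE β Fl g a b p'‖ ≤ c₁ / 2 := by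
    have h7 : ContinuousAt (fun p' => ((fderiv ℝ (ch2 a b g) p).comp (PE β Fl a p') +
      (chartForm 𝓘(ℝ, E) β a p').smulRight (RF.Rc Fl b (ch2 a b g p))) -
      AE β Fl g a b p') p :=
      ((continuousAt_const.clm_comp hPc).add (contAt_smulRight hbc continuousAt_const)).sub
        (contAt_AE c h hg a b hp hgp)
    have h8 := h7.norm.eventually (gt_mem_nhds (show ‖((fderiv ℝ (ch2 a b g) p).comp
      (PE β Fl a p) +
      (chartForm 𝓘(ℝ, E) β a p).smulRight (RF.Rc Fl b (ch2 a b g p))) -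
      AE β Fl g a b p‖ < c₁ / 2 by
        have : ((fderiv ℝ (ch2 a b g) p).comp (PE β Fl a p) +
          (chartForm 𝓘(ℝ, E) β a p).smulRight (RF.Rc Fl b (ch2 a b g p))) -
          AE β Fl g a b p = 0 := sub_self _
        rw [this, norm_zero]; positivity))
    exact h8.mono fun _ h => h.le
  have h7 : Tendsto (fun z : E × E × E => z.1) (𝓝 (p, 0, 0)) (𝓝 p) :=
    continuous_fst.tendsto _
  filter_upwards [h3, h7.eventually h4, h7.eventually h5, h7.eventually h6] with z e3 e4 e5 e6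
  obtain ⟨p', w, w'⟩ := z
  simp only at e3 e4 e5 e6 ⊢
  rw [GE_eq, GE_eq]
  set u : E × ℝ := (p' + PE β Fl a p' w, chartForm 𝓘(ℝ, E) β a p' w) with hu
  set u' : E × ℝ := (p' + PE β Fl a p' w', chartForm 𝓘(ℝ, E) β a p' w') with hu'
  have huu : u - u' = (PE β Fl a p' (w - w'), chartForm 𝓘(ℝ, E) β a p' (w - w')) := by
    rw [hu, hu', map_sub, map_sub]
    ext
    · simp
    · simp
  have hn : ‖u - u'‖ ≤ C₀ * ‖w - w'‖ := by
    rw [huu, Prod.norm_def]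
    refine max_le ?_ ?_
    · exact ((PE β Fl a p').le_opNorm _).trans (by gcongr)
    · exact ((chartForm 𝓘(ℝ, E) β a p').le_opNorm _).trans (by gcongr)
  have hJu : J' (u - u') = ((fderiv ℝ (ch2 a b g) p).comp (PE β Fl a p') +
      (chartForm 𝓘(ℝ, E) β a p').smulRight (RF.Rc Fl b (ch2 a b g p))) (w - w') := by
    rw [huu]; rfl
  have hsplit : JJ Fl g a b u - JJ Fl g a b u' - AE β Fl g a b p' (w - w') =
      (JJ Fl g a b u - JJ Fl g a b u' - J' (u - u')) +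
      (((fderiv ℝ (ch2 a b g) p).comp (PE β Fl a p') +
      (chartForm 𝓘(ℝ, E) β a p').smulRight (RF.Rc Fl b (ch2 a b g p))) -
      AE β Fl g a b p') (w - w') := by
    rw [hJu, sub_apply]
    abel
  rw [hsplit]
  refine (norm_add_le _ _).trans ?_
  have e7 : c₁ / (2 * C₀) * ‖u - u'‖ ≤ c₁ / 2 * ‖w - w'‖ := by
    calc c₁ / (2 * C₀) * ‖u - u'‖ ≤ c₁ / (2 * C₀) * (C₀ * ‖w - w'‖) := by gcongr
      _ = c₁ / 2 * ‖w - w'‖ := by field_simp
  have e8 := (ContinuousLinearMap.le_opNorm (((fderiv ℝ (ch2 a b g) p).comp (PE β Fl a p') +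
      (chartForm 𝓘(ℝ, E) β a p').smulRight (RF.Rc Fl b (ch2 a b g p))) -
      AE β Fl g a b p') (w - w')).trans (mul_le_mul_of_nonneg_right e6 (norm_nonneg _))
  calc _ ≤ c₁ / 2 * ‖w - w'‖ + c₁ / 2 * ‖w - w'‖ := add_le_add (e3.trans e7) e8
    _ = c₁ * ‖w - w'‖ := by ring

end Pool.Agent.R774.Hyp
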