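import Mathlib
import Pool.Agent.R774.Hyp3

/-! Local estimates for a strict contact map with a Lyapunov quadratic form. -/

open scoped Topology ContDiff Manifold
open Set Metric Bundle Filter Pool.Agent.Helper186 Pool.Agent.H826R2.Wein Pool.Agent.W671.WU
open Pool.Agent.R774.Root

noncomputable section

namespace Pool.Agent.R774.Hyp

set_option linter.unusedSectionVars false

universe u

variable {E : Type u} [NormedAddCommGroup E] [NormedSpace ℝ E] [FiniteDimensional ℝ E]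
  {P : Type*} [TopologicalSpace P] [ChartedSpace E P] [IsManifold 𝓘(ℝ, E) ∞ P]
  {F : Type*} [NormedAddCommGroup F] [NormedSpace ℝ F]
  {β : (x : P) → TangentSpace 𝓘(ℝ, E) x →L[ℝ] ℝ}
  {R : (x : P) → TangentSpace 𝓘(ℝ, E) x} {Fl : P → ℝ → P}

lemma contAt_chart {G : Type*} [TopologicalSpace G] {f : E → G} {a x : P}
    (hx : x ∈ (extChartAt 𝓘(ℝ, E) a).source)
    (hf : ContinuousAt f (extChartAt 𝓘(ℝ, E) a x)) :
    ContinuousAt (fun x' => f (extChartAt 𝓘(ℝ, E) a x')) x :=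
  ContinuousAt.comp (g := f) hf (continuousAt_extChartAt' hx)

/-- properties near the zero section -/
lemma loc_dyn (c : CD β R) (h : RF β R Fl) {a x : P} (hx : x ∈ (extChartAt 𝓘(ℝ, E) a).source)
    {Q : P → P → ℝ → Prop} (hQ : ∀ᶠ q in 𝓝 (x, x, (0:ℝ)), Q q.1 q.2.1 q.2.2) :
    ∃ N : ℕ, ∀ᶠ x' in 𝓝 x, ∀ w : E, ‖w‖ ≤ 1 / ((N:ℝ) + 1) →
      Q x' ((extChartAt 𝓘(ℝ, E) a).symm (extChartAt 𝓘(ℝ, E) a x' +
        PE β Fl a (extChartAt 𝓘(ℝ, E) a x') w))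
        (chartForm 𝓘(ℝ, E) β a (extChartAt 𝓘(ℝ, E) a x') w) := by
  apply ev_ball1 (Q := fun x' (w : E) => Q x' ((extChartAt 𝓘(ℝ, E) a).symm
    (extChartAt 𝓘(ℝ, E) a x' + PE β Fl a (extChartAt 𝓘(ℝ, E) a x') w))
        (chartForm 𝓘(ℝ, E) β a (extChartAt 𝓘(ℝ, E) a x') w))
  have hp := (extChartAt 𝓘(ℝ, E) a).map_source hx
  have h1 : ContinuousAt (fun z : P × E => PE β Fl a (extChartAt 𝓘(ℝ, E) a z.1)) (x, 0) :=
    ContinuousAt.comp (x := ((x, 0) : P × E)) (f := Prod.fst)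
      (g := fun x' => PE β Fl a (extChartAt 𝓘(ℝ, E) a x'))
      (contAt_chart hx (contAt_PE c h a hp)) continuousAt_fst
  have h2 : ContinuousAt (fun z : P × E => chartForm 𝓘(ℝ, E) β a (extChartAt 𝓘(ℝ, E) a z.1))
      (x, 0) :=
    ContinuousAt.comp (x := ((x, 0) : P × E)) (f := Prod.fst)
      (g := fun x' => chartForm 𝓘(ℝ, E) β a (extChartAt 𝓘(ℝ, E) a x'))
      (contAt_chart hx (contAt_b c a hp)) continuousAt_fst
  have h3 : ContinuousAt (fun z : P × E => extChartAt 𝓘(ℝ, E) a z.1) (x, 0) :=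
    ContinuousAt.comp (x := ((x, 0) : P × E)) (f := Prod.fst)
      (g := extChartAt 𝓘(ℝ, E) a) (continuousAt_extChartAt' hx) continuousAt_fst
  have h4 : ContinuousAt (fun z : P × E => extChartAt 𝓘(ℝ, E) a z.1 +
      PE β Fl a (extChartAt 𝓘(ℝ, E) a z.1) z.2) (x, 0) :=
    h3.add (h1.clm_apply continuousAt_snd)
  have e4 : extChartAt 𝓘(ℝ, E) a x + PE β Fl a (extChartAt 𝓘(ℝ, E) a x) 0 =
      extChartAt 𝓘(ℝ, E) a x := by rw [map_zero, add_zero]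
  have h5 : ContinuousAt (fun z : P × E => (extChartAt 𝓘(ℝ, E) a).symm
      (extChartAt 𝓘(ℝ, E) a z.1 + PE β Fl a (extChartAt 𝓘(ℝ, E) a z.1) z.2)) (x, 0) := by
    refine ContinuousAt.comp (x := ((x, 0) : P × E)) (g := (extChartAt 𝓘(ℝ, E) a).symm) ?_ h4
    simp only
    rw [e4]
    exact (continuousOn_extChartAt_symm a).continuousAt ((isOpen_extChartAt_target a).mem_nhds hp)
  have h6 : ContinuousAt (fun z : P × E => ((z.1, (extChartAt 𝓘(ℝ, E) a).symm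
      (extChartAt 𝓘(ℝ, E) a z.1 + PE β Fl a (extChartAt 𝓘(ℝ, E) a z.1) z.2),
      chartForm 𝓘(ℝ, E) β a (extChartAt 𝓘(ℝ, E) a z.1) z.2) : P × P × ℝ)) (x, 0) :=
    continuousAt_fst.prodMk (h5.prodMk (h2.clm_apply continuousAt_snd))
  have h7 := h6.tendsto
  simp only [map_zero, add_zero, (extChartAt 𝓘(ℝ, E) a).left_inv hx] at h7
  exact h7.eventually hQ

lemma ev_bound {X : Type*} [TopologicalSpace X] {f : X → ℝ} {x : X} (hf : ContinuousAt f x) :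
    ∃ N : ℕ, ∀ᶠ x' in 𝓝 x, f x' ≤ N := by
  obtain ⟨N, hN⟩ := exists_nat_gt (f x)
  exact ⟨N, (hf.eventually (gt_mem_nhds hN)).mono fun _ h => le_of_lt h⟩

/-- the quadratic form in charts -/
def qf (B : P → F →L[ℝ] F →L[ℝ] ℝ) (e : P → F) (a x : P) (z : E) : ℝ :=
  B x (fderiv ℝ (cf a e) (extChartAt 𝓘(ℝ, E) a x) z)
    (fderiv ℝ (cf a e) (extChartAt 𝓘(ℝ, E) a x) z)

lemma qf_smul (B : P → F →L[ℝ] F →L[ℝ] ℝ) (e : P → F) (a x : P) (r : ℝ) (z : E) :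
    qf B e a x (r • z) = r ^ 2 * qf B e a x z := by
  unfold qf
  simp only [map_smul, smul_apply, smul_eq_mul]
  ring

lemma contAt_J {e : P → F} (he : ContMDiff 𝓘(ℝ, E) 𝓘(ℝ, F) ∞ e) {a x : P}
    (hx : x ∈ (extChartAt 𝓘(ℝ, E) a).source) :
    ContinuousAt (fun x' => fderiv ℝ (cf a e) (extChartAt 𝓘(ℝ, E) a x')) x :=
  contAt_chart hx (((cf_smooth a he ((extChartAt 𝓘(ℝ, E) a).map_source hx)).fderiv_right
    (m := 0) (by simp)).continuousAt)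

/-- joint continuity of the quadratic form -/
lemma contAt_qf {B : P → F →L[ℝ] F →L[ℝ] ℝ} (hB : Continuous B) {e : P → F}
    (he : ContMDiff 𝓘(ℝ, E) 𝓘(ℝ, F) ∞ e) {a : P} {X : Type*} [TopologicalSpace X] {y : X → P}
    {z : X → E} {x₀ : X} (hy : ContinuousAt y x₀) (hz : ContinuousAt z x₀)
    (hx : y x₀ ∈ (extChartAt 𝓘(ℝ, E) a).source) :
    ContinuousAt (fun x => qf B e a (y x) (z x)) x₀ := by
  unfold qf
  have h1 : ContinuousAt (fun x => fderiv ℝ (cf a e) (extChartAt 𝓘(ℝ, E) a (y x))) x₀ :=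
    ContinuousAt.comp (g := fun x' => fderiv ℝ (cf a e) (extChartAt 𝓘(ℝ, E) a x'))
      (contAt_J he hx) hy
  have h2 := h1.clm_apply hz
  have h3 : ContinuousAt (fun x => B (y x)) x₀ := hB.continuousAt.comp hy
  exact (h3.clm_apply h2).clm_apply h2

lemma loc_bound (c : CD β R) (h : RF β R Fl) {g : P → P} (hg : St β g) {a b x : P}
    (hx : x ∈ (extChartAt 𝓘(ℝ, E) a).source) (hgx : g x ∈ (extChartAt 𝓘(ℝ, E) b).source)
    {B : P → F →L[ℝ] F →L[ℝ] ℝ} (hB : Continuous B) {e : P → F}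
    (he : ContMDiff 𝓘(ℝ, E) 𝓘(ℝ, F) ∞ e) :
    ∃ N : ℕ, ∀ᶠ x' in 𝓝 x, ‖AE β Fl g a b (extChartAt 𝓘(ℝ, E) a x')‖ ≤ N ∧
      ‖chartForm 𝓘(ℝ, E) β a (extChartAt 𝓘(ℝ, E) a x')‖ ≤ N ∧
      ‖RF.Rc Fl a (extChartAt 𝓘(ℝ, E) a x')‖ ≤ N ∧
      2 * ‖B x'‖ * ‖fderiv ℝ (cf a e) (extChartAt 𝓘(ℝ, E) a x')‖ ^ 2 *
        ‖PE β Fl a (extChartAt 𝓘(ℝ, E) a x')‖ ^ 2 ≤ N := by
  have hp := (extChartAt 𝓘(ℝ, E) a).map_source hx
  have hgp : g ((extChartAt 𝓘(ℝ, E) a).symm (extChartAt 𝓘(ℝ, E) a x)) ∈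
      (extChartAt 𝓘(ℝ, E) b).source := by
    rw [(extChartAt 𝓘(ℝ, E) a).left_inv hx]; exact hgx
  obtain ⟨N₁, h₁⟩ := ev_bound (contAt_chart hx (contAt_AE c h hg.smooth a b hp hgp)).norm
  obtain ⟨N₂, h₂⟩ := ev_bound (contAt_chart hx (contAt_b c a hp)).norm
  obtain ⟨N₃, h₃⟩ := ev_bound (contAt_chart hx (h.continuousAt_Rc a hp)).norm
  obtain ⟨N₄, h₄⟩ := ev_bound (((continuousAt_const (y := (2:ℝ))).mul
    (show ContinuousAt (fun y => ‖B y‖) x from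
      (Continuous.norm (f := B) hB).continuousAt)).mul ((contAt_J he hx).norm.pow 2) |>.mul
    ((contAt_chart hx (contAt_PE c h a hp)).norm.pow 2))
  refine ⟨max (max N₁ N₂) (max N₃ N₄), ?_⟩
  have m₁ : (N₁ : ℝ) ≤ (max (max N₁ N₂) (max N₃ N₄) : ℕ) := by
    exact_mod_cast (le_max_left _ _).trans (le_max_left _ _)
  have m₂ : (N₂ : ℝ) ≤ (max (max N₁ N₂) (max N₃ N₄) : ℕ) := by
    exact_mod_cast (le_max_right _ _).trans (le_max_left _ _)
  have m₃ : (N₃ : ℝ) ≤ (max (max N₁ N₂) (max N₃ N₄) : ℕ) := by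
    exact_mod_cast (le_max_left _ _).trans (le_max_right _ _)
  have m₄ : (N₄ : ℝ) ≤ (max (max N₁ N₂) (max N₃ N₄) : ℕ) := by
    exact_mod_cast (le_max_right _ _).trans (le_max_right _ _)
  filter_upwards [h₁, h₂, h₃, h₄] with x' e₁ e₂ e₃ e₄
  exact ⟨e₁.trans m₁, e₂.trans m₂, e₃.trans m₃, e₄.trans m₄⟩

lemma ch2_chart {g : P → P} {a b x : P} (hx : x ∈ (extChartAt 𝓘(ℝ, E) a).source) :
    ch2 a b g (extChartAt 𝓘(ℝ, E) a x) = extChartAt 𝓘(ℝ, E) b (g x) := by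
  show extChartAt 𝓘(ℝ, E) b (g ((extChartAt 𝓘(ℝ, E) a).symm (extChartAt 𝓘(ℝ, E) a x))) = _
  rw [(extChartAt 𝓘(ℝ, E) a).left_inv hx]

lemma loc_b (c : CD β R) (h : RF β R Fl) {g : P → P} (hg : St β g) {a b x : P}
    (hx : x ∈ (extChartAt 𝓘(ℝ, E) a).source) (hgx : g x ∈ (extChartAt 𝓘(ℝ, E) b).source)
    {c₂ : ℝ} (hc₂ : 0 < c₂) :
    ∀ᶠ q in 𝓝 (x, g x), ‖(chartForm 𝓘(ℝ, E) β b (extChartAt 𝓘(ℝ, E) b q.2)).comp
      (AE β Fl g a b (extChartAt 𝓘(ℝ, E) a q.1)) -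
      chartForm 𝓘(ℝ, E) β a (extChartAt 𝓘(ℝ, E) a q.1)‖ ≤ c₂ := by
  have hp := (extChartAt 𝓘(ℝ, E) a).map_source hx
  have hgp : g ((extChartAt 𝓘(ℝ, E) a).symm (extChartAt 𝓘(ℝ, E) a x)) ∈
      (extChartAt 𝓘(ℝ, E) b).source := by
    rw [(extChartAt 𝓘(ℝ, E) a).left_inv hx]; exact hgx
  have h1 : ContinuousAt (fun q : P × P => chartForm 𝓘(ℝ, E) β b (extChartAt 𝓘(ℝ, E) b q.2))
      (x, g x) :=
    ContinuousAt.comp (x := ((x, g x) : P × P)) (f := Prod.snd)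
      (g := fun y => chartForm 𝓘(ℝ, E) β b (extChartAt 𝓘(ℝ, E) b y))
      (contAt_chart hgx (contAt_b c b ((extChartAt 𝓘(ℝ, E) b).map_source hgx))) continuousAt_snd
  have h2 : ContinuousAt (fun q : P × P => AE β Fl g a b (extChartAt 𝓘(ℝ, E) a q.1))
      (x, g x) :=
    ContinuousAt.comp (x := ((x, g x) : P × P)) (f := Prod.fst)
      (g := fun y => AE β Fl g a b (extChartAt 𝓘(ℝ, E) a y))
      (contAt_chart hx (contAt_AE c h hg.smooth a b hp hgp)) continuousAt_fst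
  have h3 : ContinuousAt (fun q : P × P => chartForm 𝓘(ℝ, E) β a (extChartAt 𝓘(ℝ, E) a q.1))
      (x, g x) :=
    ContinuousAt.comp (x := ((x, g x) : P × P)) (f := Prod.fst)
      (g := fun y => chartForm 𝓘(ℝ, E) β a (extChartAt 𝓘(ℝ, E) a y))
      (contAt_chart hx (contAt_b c a hp)) continuousAt_fst
  have h4 := ((h1.clm_comp h2).sub h3).norm
  have h5 := h4.eventually (gt_mem_nhds (show ‖(chartForm 𝓘(ℝ, E) β b
    (extChartAt 𝓘(ℝ, E) b (g x))).comp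
      (AE β Fl g a b (extChartAt 𝓘(ℝ, E) a x)) -
      chartForm 𝓘(ℝ, E) β a (extChartAt 𝓘(ℝ, E) a x)‖ < c₂ by
      have h6 : (chartForm 𝓘(ℝ, E) β b (extChartAt 𝓘(ℝ, E) b (g x))).comp
        (AE β Fl g a b (extChartAt 𝓘(ℝ, E) a x)) -
        chartForm 𝓘(ℝ, E) β a (extChartAt 𝓘(ℝ, E) a x) = 0 := by
        ext w
        have h7 := b_AE c h hg a b hp hgp w
        rw [ch2_chart hx] at h7
        show chartForm 𝓘(ℝ, E) β b (extChartAt 𝓘(ℝ, E) b (g x))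
          (AE β Fl g a b (extChartAt 𝓘(ℝ, E) a x) w) -
          chartForm 𝓘(ℝ, E) β a (extChartAt 𝓘(ℝ, E) a x) w = 0
        rw [h7, sub_self]
      rw [h6, norm_zero]
      exact hc₂))
  exact h5.mono fun _ h => le_of_lt h

lemma ds_inj {a : P} {p z : E} (hp : p ∈ (extChartAt 𝓘(ℝ, E) a).target)
    (hz : (ds a p z : E) = 0) : z = 0 := by
  have h1 := mfderiv_extChartAt_comp_mfderivWithin_extChartAt_symm (I := 𝓘(ℝ, E)) (x := a) hp
  have h2 := DFunLike.congr_fun h1 z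
  have h3 : mfderivWithin 𝓘(ℝ, E) 𝓘(ℝ, E) (extChartAt 𝓘(ℝ, E) a).symm (range 𝓘(ℝ, E)) p z =
      ds a p z := by
    simp only [modelWithCornersSelf_coe, range_id, mfderivWithin_univ]
    rfl
  have h4 : (mfderiv 𝓘(ℝ, E) 𝓘(ℝ, E) (extChartAt 𝓘(ℝ, E) a)
      ((extChartAt 𝓘(ℝ, E) a).symm p)) (mfderivWithin 𝓘(ℝ, E) 𝓘(ℝ, E)
        (extChartAt 𝓘(ℝ, E) a).symm (range 𝓘(ℝ, E)) p z) = z := h2
  rw [h3] at h4
  have h5 : (ds a p z) = 0 := hz
  rw [h5, map_zero] at h4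
  exact h4.symm

/-- the strict inequality in charts -/
lemma strict_chart {g : P → P} (hg : St β g) {a b x : P}
    (hx : x ∈ (extChartAt 𝓘(ℝ, E) a).source) (hgx : g x ∈ (extChartAt 𝓘(ℝ, E) b).source)
    {B : P → F →L[ℝ] F →L[ℝ] ℝ} {e : P → F}
    (he : ContMDiff 𝓘(ℝ, E) 𝓘(ℝ, F) ∞ e)
    (hyp : ∀ v : E, β x v = 0 → v ≠ 0 →
      B x (dv E e x v) (dv E e x v) <
        B (g x) (dv E e (g x) (dm E g x v)) (dv E e (g x) (dm E g x v)))
    {z : E} (hz : chartForm 𝓘(ℝ, E) β a (extChartAt 𝓘(ℝ, E) a x) z = 0) (hz0 : z ≠ 0) :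
    qf B e a x z < qf B e b (g x) (fderiv ℝ (ch2 a b g) (extChartAt 𝓘(ℝ, E) a x) z) := by
  have hp := (extChartAt 𝓘(ℝ, E) a).map_source hx
  have hxs := (extChartAt 𝓘(ℝ, E) a).left_inv hx
  have hgp : g ((extChartAt 𝓘(ℝ, E) a).symm (extChartAt 𝓘(ℝ, E) a x)) ∈
      (extChartAt 𝓘(ℝ, E) b).source := by rw [hxs]; exact hgx
  have hyp' : ∀ x' : P, x' = x → ∀ v : E, β x' v = 0 → v ≠ 0 →
      B x' (dv E e x' v) (dv E e x' v) <
        B (g x') (dv E e (g x') (dm E g x' v)) (dv E e (g x') (dm E g x' v)) := by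
    rintro _ rfl; exact hyp
  have h1 := hyp' _ hxs (ds a (extChartAt 𝓘(ℝ, E) a x) z) hz
    (fun h0 => hz0 (ds_inj hp h0))
  have h2 : fderiv ℝ (cf a e) (extChartAt 𝓘(ℝ, E) a x) z =
      dv E e ((extChartAt 𝓘(ℝ, E) a).symm (extChartAt 𝓘(ℝ, E) a x))
        (ds a (extChartAt 𝓘(ℝ, E) a x) z) := fderiv_cf a he hp z
  have h3 := fderiv_cf_ch2 a b he hg.smooth hp hgp z
  rw [ch2_chart hx] at h3
  have h4 : fderiv ℝ (cf b e) (extChartAt 𝓘(ℝ, E) b (g x))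
      (fderiv ℝ (ch2 a b g) (extChartAt 𝓘(ℝ, E) a x) z) =
      dv E e (g ((extChartAt 𝓘(ℝ, E) a).symm (extChartAt 𝓘(ℝ, E) a x)))
        (dm E g ((extChartAt 𝓘(ℝ, E) a).symm (extChartAt 𝓘(ℝ, E) a x))
          (ds a (extChartAt 𝓘(ℝ, E) a x) z)) := h3
  unfold qf
  rw [h2, h4]
  have h5 : B x = B ((extChartAt 𝓘(ℝ, E) a).symm (extChartAt 𝓘(ℝ, E) a x)) := by rw [hxs]
  have h6 : B (g x) = B (g ((extChartAt 𝓘(ℝ, E) a).symm (extChartAt 𝓘(ℝ, E) a x))) := by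
    rw [hxs]
  rw [h5, h6]
  exact h1

lemma loc_q1 (c : CD β R) {g : P → P} (hg : St β g) {a b x : P}
    (hx : x ∈ (extChartAt 𝓘(ℝ, E) a).source) (hgx : g x ∈ (extChartAt 𝓘(ℝ, E) b).source)
    {B : P → F →L[ℝ] F →L[ℝ] ℝ} (hB : Continuous B) {e : P → F}
    (he : ContMDiff 𝓘(ℝ, E) 𝓘(ℝ, F) ∞ e)
    (hyp : ∀ v : E, β x v = 0 → v ≠ 0 →
      B x (dv E e x v) (dv E e x v) <
        B (g x) (dv E e (g x) (dm E g x v)) (dv E e (g x) (dm E g x v))) :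
    ∃ N : ℕ, ∀ᶠ x' in 𝓝 x, ∀ z : E,
      chartForm 𝓘(ℝ, E) β a (extChartAt 𝓘(ℝ, E) a x') z = 0 →
      qf B e a x' z + 1 / ((N:ℝ) + 1) * ‖z‖ ^ 2 ≤
        qf B e b (g x') (fderiv ℝ (ch2 a b g) (extChartAt 𝓘(ℝ, E) a x') z) := by
  have hp := (extChartAt 𝓘(ℝ, E) a).map_source hx
  have hgp : g ((extChartAt 𝓘(ℝ, E) a).symm (extChartAt 𝓘(ℝ, E) a x)) ∈
      (extChartAt 𝓘(ℝ, E) b).source := by
    rw [(extChartAt 𝓘(ℝ, E) a).left_inv hx]; exact hgx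
  have : ProperSpace E := FiniteDimensional.proper ℝ E
  set Φ : P × E → ℝ := fun q => qf B e b (g q.1)
    (fderiv ℝ (ch2 a b g) (extChartAt 𝓘(ℝ, E) a q.1) q.2) - qf B e a q.1 q.2 with hΦ
  have hΦc : ∀ z : E, ContinuousAt Φ (x, z) := by
    intro z
    have h1 : ContinuousAt (fun q : P × E => fderiv ℝ (ch2 a b g) (extChartAt 𝓘(ℝ, E) a q.1))
        (x, z) :=
      ContinuousAt.comp (x := ((x, z) : P × E)) (f := Prod.fst)
        (g := fun y => fderiv ℝ (ch2 a b g) (extChartAt 𝓘(ℝ, E) a y))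
        (contAt_chart hx (contAt_dch2 hg.smooth a b hp hgp)) continuousAt_fst
    have h2 : ContinuousAt (fun q : P × E => g q.1) (x, z) :=
      (hg.smooth.continuous.comp continuous_fst).continuousAt
    exact (contAt_qf hB he h2 (h1.clm_apply continuousAt_snd) hgx).sub
      (contAt_qf hB he continuousAt_fst continuousAt_snd hx)
  have hbc : ∀ z : E, ContinuousAt (fun q : P × E =>
      chartForm 𝓘(ℝ, E) β a (extChartAt 𝓘(ℝ, E) a q.1) q.2) (x, z) := by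
    intro z
    have h1 : ContinuousAt (fun q : P × E => chartForm 𝓘(ℝ, E) β a (extChartAt 𝓘(ℝ, E) a q.1))
        (x, z) :=
      ContinuousAt.comp (x := ((x, z) : P × E)) (f := Prod.fst)
        (g := fun y => chartForm 𝓘(ℝ, E) β a (extChartAt 𝓘(ℝ, E) a y))
        (contAt_chart hx (contAt_b c a hp)) continuousAt_fst
    exact h1.clm_apply continuousAt_snd
  -- the minimum on the unit sphere of the hyperplane
  obtain ⟨κ, hκ, hκ2⟩ : ∃ κ > 0, ∀ z : E, ‖z‖ = 1 →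
      chartForm 𝓘(ℝ, E) β a (extChartAt 𝓘(ℝ, E) a x) z = 0 → κ < Φ (x, z) := by
    set T : Set E := sphere (0:E) 1 ∩
      {z | chartForm 𝓘(ℝ, E) β a (extChartAt 𝓘(ℝ, E) a x) z = 0} with hT
    have hTc : IsCompact T := (isCompact_sphere 0 1).inter_right
      (isClosed_eq (chartForm 𝓘(ℝ, E) β a (extChartAt 𝓘(ℝ, E) a x)).continuous
        continuous_const)
    rcases T.eq_empty_or_nonempty with hemp | hne
    · refine ⟨1, one_pos, fun z hz1 hz2 => ?_⟩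
      have : z ∈ T := ⟨by rw [mem_sphere_zero_iff_norm]; exact hz1, hz2⟩
      rw [hemp] at this
      exact this.elim
    · obtain ⟨z₀, hz₀, hmin⟩ := hTc.exists_isMinOn hne (f := fun z => Φ (x, z))
        (fun z _ => (ContinuousAt.comp (g := Φ) (f := fun z : E => (x, z)) (hΦc z)
          (by fun_prop)).continuousWithinAt)
      have hz₀1 : ‖z₀‖ = 1 := by
        have := hz₀.1
        rwa [mem_sphere_zero_iff_norm] at this
      have hpos : 0 < Φ (x, z₀) := by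
        have h1 := strict_chart hg hx hgx he hyp hz₀.2 (by
          intro h0
          rw [h0, norm_zero] at hz₀1
          exact zero_ne_one hz₀1)
        simp only [hΦ]
        linarith
      refine ⟨Φ (x, z₀) / 2, by linarith, fun z hz1 hz2 => ?_⟩
      have h1 : Φ (x, z₀) ≤ Φ (x, z) :=
        hmin (show z ∈ T from ⟨by rw [mem_sphere_zero_iff_norm]; exact hz1, hz2⟩)
      linarith
  obtain ⟨N, hN⟩ := exists_nat_one_div_lt hκ
  have h1 : ∀ᶠ x' in 𝓝 x, ∀ z ∈ sphere (0:E) 1,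
      chartForm 𝓘(ℝ, E) β a (extChartAt 𝓘(ℝ, E) a x') z = 0 → κ < Φ (x', z) := by
    refine (isCompact_sphere (0:E) 1).eventually_forall_of_forall_eventually
      (P := fun x' z => chartForm 𝓘(ℝ, E) β a (extChartAt 𝓘(ℝ, E) a x') z = 0 →
        κ < Φ (x', z)) ?_
    intro z hz
    rw [mem_sphere_zero_iff_norm] at hz
    by_cases hz0 : chartForm 𝓘(ℝ, E) β a (extChartAt 𝓘(ℝ, E) a x) z = 0
    · have h2 := (hΦc z).eventually (lt_mem_nhds (hκ2 z hz hz0))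
      filter_upwards [h2] with q hq _
      exact hq
    · have h2 := (hbc z).eventually_ne hz0
      filter_upwards [h2] with q hq h3
      exact absurd h3 hq
  refine ⟨N, ?_⟩
  filter_upwards [h1] with x' hx' z hz
  by_cases hz0 : z = 0
  · subst hz0
    have e1 : ∀ a y, qf B e a y (0:E) = 0 := by
      intro a y
      unfold qf
      simp
    rw [map_zero, e1, e1, norm_zero]
    simp
  · have hzn : ‖z‖ ≠ 0 := norm_ne_zero_iff.2 hz0
    have h2 := hx' (‖z‖⁻¹ • z) (by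
      rw [mem_sphere_zero_iff_norm, norm_smul, norm_inv, norm_norm, inv_mul_cancel₀ hzn])
      (by rw [map_smul, hz, smul_zero])
    simp only [hΦ] at h2
    rw [map_smul, qf_smul, qf_smul, ← mul_sub] at h2
    have h3 : 0 < ‖z‖ ^ 2 := by positivity
    have h4 : ‖z‖ ^ 2 * κ < qf B e b (g x')
        (fderiv ℝ (ch2 a b g) (extChartAt 𝓘(ℝ, E) a x') z) - qf B e a x' z := by
      have h5 := mul_lt_mul_of_pos_left h2 h3
      have h6 : ‖z‖ ^ 2 * (‖z‖⁻¹ ^ 2 * (qf B e b (g x')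
        (fderiv ℝ (ch2 a b g) (extChartAt 𝓘(ℝ, E) a x') z) - qf B e a x' z)) =
        qf B e b (g x')
        (fderiv ℝ (ch2 a b g) (extChartAt 𝓘(ℝ, E) a x') z) - qf B e a x' z := by
        field_simp
      rw [h6] at h5
      exact h5
    have h5 : 1 / ((N:ℝ) + 1) * ‖z‖ ^ 2 ≤ ‖z‖ ^ 2 * κ := by
      rw [mul_comm]
      exact mul_le_mul_of_nonneg_left hN.le h3.le
    linarith

lemma loc_q2 (c : CD β R) (h : RF β R Fl) {g : P → P} (hg : St β g) {a b x : P}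
    (hx : x ∈ (extChartAt 𝓘(ℝ, E) a).source) (hgx : g x ∈ (extChartAt 𝓘(ℝ, E) b).source)
    {B : P → F →L[ℝ] F →L[ℝ] ℝ} (hB : Continuous B) {e : P → F}
    (he : ContMDiff 𝓘(ℝ, E) 𝓘(ℝ, F) ∞ e) {κ : ℝ}
    (hyp : ∀ z : E, chartForm 𝓘(ℝ, E) β a (extChartAt 𝓘(ℝ, E) a x) z = 0 →
      qf B e a x z + κ * ‖z‖ ^ 2 ≤
        qf B e b (g x) (fderiv ℝ (ch2 a b g) (extChartAt 𝓘(ℝ, E) a x) z))
    {c₂ : ℝ} (hc₂ : 0 < c₂) :
    ∀ᶠ q in 𝓝 (x, g x), ∀ w : E,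
      qf B e a q.1 (PE β Fl a (extChartAt 𝓘(ℝ, E) a q.1) w) +
        κ * ‖PE β Fl a (extChartAt 𝓘(ℝ, E) a q.1) w‖ ^ 2 ≤
      qf B e b q.2 (PE β Fl b (extChartAt 𝓘(ℝ, E) b q.2)
        (AE β Fl g a b (extChartAt 𝓘(ℝ, E) a q.1) w)) + c₂ * ‖w‖ ^ 2 := by
  have hp := (extChartAt 𝓘(ℝ, E) a).map_source hx
  have hgp : g ((extChartAt 𝓘(ℝ, E) a).symm (extChartAt 𝓘(ℝ, E) a x)) ∈
      (extChartAt 𝓘(ℝ, E) b).source := by
    rw [(extChartAt 𝓘(ℝ, E) a).left_inv hx]; exact hgx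
  have : ProperSpace E := FiniteDimensional.proper ℝ E
  set Φ : (P × P) × E → ℝ := fun q =>
    qf B e b q.1.2 (PE β Fl b (extChartAt 𝓘(ℝ, E) b q.1.2)
        (AE β Fl g a b (extChartAt 𝓘(ℝ, E) a q.1.1) q.2)) + c₂ * ‖q.2‖ ^ 2 -
      (qf B e a q.1.1 (PE β Fl a (extChartAt 𝓘(ℝ, E) a q.1.1) q.2) +
        κ * ‖PE β Fl a (extChartAt 𝓘(ℝ, E) a q.1.1) q.2‖ ^ 2) with hΦ
  have hΦc : ∀ w : E, ContinuousAt Φ ((x, g x), w) := by
    intro w
    have f11 : ContinuousAt (fun q : (P × P) × E => q.1.1) ((x, g x), w) :=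
      (continuous_fst.comp continuous_fst).continuousAt
    have f12 : ContinuousAt (fun q : (P × P) × E => q.1.2) ((x, g x), w) :=
      (continuous_snd.comp continuous_fst).continuousAt
    have h1 : ContinuousAt (fun q : (P × P) × E =>
        PE β Fl b (extChartAt 𝓘(ℝ, E) b q.1.2)) ((x, g x), w) :=
      ContinuousAt.comp (x := (((x, g x), w) : (P × P) × E)) (f := fun q => q.1.2)
        (g := fun y => PE β Fl b (extChartAt 𝓘(ℝ, E) b y))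
        (contAt_chart hgx (contAt_PE c h b ((extChartAt 𝓘(ℝ, E) b).map_source hgx))) f12
    have h2 : ContinuousAt (fun q : (P × P) × E =>
        AE β Fl g a b (extChartAt 𝓘(ℝ, E) a q.1.1)) ((x, g x), w) :=
      ContinuousAt.comp (x := (((x, g x), w) : (P × P) × E)) (f := fun q => q.1.1)
        (g := fun y => AE β Fl g a b (extChartAt 𝓘(ℝ, E) a y))
        (contAt_chart hx (contAt_AE c h hg.smooth a b hp hgp)) f11
    have h3 : ContinuousAt (fun q : (P × P) × E =>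
        PE β Fl a (extChartAt 𝓘(ℝ, E) a q.1.1)) ((x, g x), w) :=
      ContinuousAt.comp (x := (((x, g x), w) : (P × P) × E)) (f := fun q => q.1.1)
        (g := fun y => PE β Fl a (extChartAt 𝓘(ℝ, E) a y))
        (contAt_chart hx (contAt_PE c h a hp)) f11
    have h4 := h3.clm_apply (continuousAt_snd (p := (((x, g x), w) : (P × P) × E)))
    have h5 := h1.clm_apply (h2.clm_apply
      (continuousAt_snd (p := (((x, g x), w) : (P × P) × E))))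
    have h6 : ContinuousAt (fun q : (P × P) × E => c₂ * ‖q.2‖ ^ 2) ((x, g x), w) :=
      continuousAt_const.mul ((continuousAt_snd.norm).pow 2)
    exact ((contAt_qf hB he f12 h5 hgx).add h6).sub
      ((contAt_qf hB he f11 h4 hx).add (continuousAt_const.mul (h4.norm.pow 2)))
  have h1 : ∀ᶠ q in 𝓝 (x, g x), ∀ w ∈ sphere (0:E) 1, 0 < Φ (q, w) := by
    refine (isCompact_sphere (0:E) 1).eventually_forall_of_forall_eventually
      (P := fun q w => 0 < Φ (q, w)) ?_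
    intro w hw
    rw [mem_sphere_zero_iff_norm] at hw
    refine (hΦc w).eventually (lt_mem_nhds ?_)
    have h2 := P_AE c h hg a b hp hgp w
    rw [ch2_chart hx] at h2
    have h3 := hyp _ (b_PE c h a hp w)
    simp only [hΦ]
    rw [h2, hw]
    linarith
  filter_upwards [h1] with q hq w
  by_cases hw0 : w = 0
  · subst hw0
    have e1 : ∀ a y, qf B e a y (0:E) = 0 := by
      intro a y
      unfold qf
      simp
    simp only [map_zero, e1, norm_zero]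
    simp
  · have hwn : ‖w‖ ≠ 0 := norm_ne_zero_iff.2 hw0
    have h2 := hq (‖w‖⁻¹ • w) (by
      rw [mem_sphere_zero_iff_norm, norm_smul, norm_inv, norm_norm, inv_mul_cancel₀ hwn])
    simp only [hΦ] at h2
    simp only [map_smul, qf_smul, norm_smul, norm_inv, norm_norm, mul_pow] at h2
    have h3 : 0 < ‖w‖ ^ 2 := by positivity
    have h5 := mul_pos h3 h2
    have h6 : ‖w‖ ^ 2 * (‖w‖⁻¹ ^ 2 * qf B e b q.2 (PE β Fl b (extChartAt 𝓘(ℝ, E) b q.2)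
        (AE β Fl g a b (extChartAt 𝓘(ℝ, E) a q.1) w)) + c₂ * (‖w‖⁻¹ ^ 2 * ‖w‖ ^ 2) -
        (‖w‖⁻¹ ^ 2 * qf B e a q.1 (PE β Fl a (extChartAt 𝓘(ℝ, E) a q.1) w) +
          κ * (‖w‖⁻¹ ^ 2 * ‖PE β Fl a (extChartAt 𝓘(ℝ, E) a q.1) w‖ ^ 2))) =
        qf B e b q.2 (PE β Fl b (extChartAt 𝓘(ℝ, E) b q.2)
        (AE β Fl g a b (extChartAt 𝓘(ℝ, E) a q.1) w)) + c₂ * ‖w‖ ^ 2 -
        (qf B e a q.1 (PE β Fl a (extChartAt 𝓘(ℝ, E) a q.1) w) +
          κ * ‖PE β Fl a (extChartAt 𝓘(ℝ, E) a q.1) w‖ ^ 2) := by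
      field_simp
    rw [h6] at h5
    linarith

end Pool.Agent.R774.Hyp
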