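import Mathlib
import Pool.Agent.R774.Hyp4

/-! The quadratic form increases near the invariant set, for small shifts along the Reeb flow. -/

open scoped Topology ContDiff Manifold
open Set Metric Bundle Filter Pool.Agent.Helper186 Pool.Agent.H826R2.Wein Pool.Agent.W671.WU
open Pool.Agent.R774.Root

noncomputable section

namespace Pool.Agent.R774.Hyp

set_option linter.unusedSectionVars false

universe u

variable {E : Type u} [NormedAddCommGroup E] [NormedSpace ℝ E] [FiniteDimensional ℝ E]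
  {P : Type*} [TopologicalSpace P] [ChartedSpace E P] [IsManifold 𝓘(ℝ, E) ∞ P]
  {F : Type*} [NormedAddCommGroup F] [NormedSpace ℝ F]
  {β : (x : P) → TangentSpace 𝓘(ℝ, E) x →L[ℝ] ℝ}
  {R : (x : P) → TangentSpace 𝓘(ℝ, E) x} {Fl : P → ℝ → P}

lemma JJ_smooth (h : RF β R Fl) {g : P → P} (hg : ContMDiff 𝓘(ℝ, E) 𝓘(ℝ, E) ∞ g) (a b : P)
    {p : E} (hp : p ∈ (extChartAt 𝓘(ℝ, E) a).target)
    (hgp : g ((extChartAt 𝓘(ℝ, E) a).symm p) ∈ (extChartAt 𝓘(ℝ, E) b).source) :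
    ContDiffAt ℝ 1 (JJ Fl g a b) (p, 0) := by
  have hct : ch2 a b g p ∈ (extChartAt 𝓘(ℝ, E) b).target := (extChartAt 𝓘(ℝ, E) b).map_source hgp
  have hcs : (extChartAt 𝓘(ℝ, E) b).symm (ch2 a b g p) = g ((extChartAt 𝓘(ℝ, E) a).symm p) :=
    (extChartAt 𝓘(ℝ, E) b).left_inv hgp
  have h1 : ContDiffAt ℝ ∞ (RF.H Fl b) (ch2 a b g p, 0) := by
    refine h.smooth_H b (q := (ch2 a b g p, 0)) hct ?_
    simp only
    rw [h.zero, hcs]
    exact hgp
  have h3 : ContDiffAt ℝ ∞ (ch2 a b g) p := ch2_smooth a b hg hp hgp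
  have h4 : ContDiffAt ℝ ∞ (fun q : E × ℝ => (ch2 a b g q.1, q.2)) (p, 0) :=
    (ContDiffAt.comp (p, (0:ℝ)) (g := ch2 a b g) (f := Prod.fst) h3 contDiffAt_fst).prodMk
      contDiffAt_snd
  have h5 := ContDiffAt.comp (p, (0:ℝ)) (g := RF.H Fl b)
    (f := fun q : E × ℝ => (ch2 a b g q.1, q.2)) h1 h4
  have h6 : JJ Fl g a b =ᶠ[𝓝 (p, 0)] (RF.H Fl b ∘ fun q : E × ℝ => (ch2 a b g q.1, q.2)) := by
    have hFc : ContinuousAt (fun q : E × ℝ => g ((extChartAt 𝓘(ℝ, E) a).symm q.1)) (p, 0) := by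
      have h7 : ContinuousAt (fun p : E => g ((extChartAt 𝓘(ℝ, E) a).symm p)) p :=
        hg.continuous.continuousAt.comp ((continuousOn_extChartAt_symm a).continuousAt
          ((isOpen_extChartAt_target a).mem_nhds hp))
      exact ContinuousAt.comp (x := ((p, 0) : E × ℝ)) (f := Prod.fst)
        (g := fun p : E => g ((extChartAt 𝓘(ℝ, E) a).symm p)) h7 continuousAt_fst
    filter_upwards [hFc.eventually ((isOpen_extChartAt_source b).mem_nhds hgp)] with q hq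
    symm
    show extChartAt 𝓘(ℝ, E) b (Fl ((extChartAt 𝓘(ℝ, E) b).symm
      (extChartAt 𝓘(ℝ, E) b (g ((extChartAt 𝓘(ℝ, E) a).symm q.1)))) q.2) = _
    rw [(extChartAt 𝓘(ℝ, E) b).left_inv hq]
    rfl
  exact (h5.congr_of_eventuallyEq h6).of_le (by simp)

lemma fderiv_JJ {g : P → P} (a b : P) {p : E} {s : ℝ}
    (hd : DifferentiableAt ℝ (JJ Fl g a b) (p, s)) (z : E) :
    fderiv ℝ (ch2 a b (fun x => Fl (g x) s)) p z = fderiv ℝ (JJ Fl g a b) (p, s) (z, 0) := by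
  have h2 : HasFDerivAt (fun q : E => ((q, s) : E × ℝ)) (ContinuousLinearMap.inl ℝ E ℝ) p := by
    have := (hasFDerivAt_id (𝕜 := ℝ) p).prodMk (hasFDerivAt_const s p)
    exact this
  have h3 := HasFDerivAt.comp (g := JJ Fl g a b) p hd.hasFDerivAt h2
  have e : ch2 a b (fun x => Fl (g x) s) = (JJ Fl g a b) ∘ (fun q : E => ((q, s) : E × ℝ)) := rfl
  rw [e, h3.fderiv]
  rfl

lemma ds_surj {a : P} {p : E} (hp : p ∈ (extChartAt 𝓘(ℝ, E) a).target) (v : E) :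
    ∃ z : E, (ds a p z : E) = v := by
  have h1 := mfderivWithin_extChartAt_symm_comp_mfderiv_extChartAt (I := 𝓘(ℝ, E)) (x := a) hp
  have h2 := DFunLike.congr_fun h1 v
  refine ⟨(mfderiv 𝓘(ℝ, E) 𝓘(ℝ, E) (extChartAt 𝓘(ℝ, E) a)
    ((extChartAt 𝓘(ℝ, E) a).symm p) v : E), ?_⟩
  have h3 : ∀ z : E, mfderivWithin 𝓘(ℝ, E) 𝓘(ℝ, E) (extChartAt 𝓘(ℝ, E) a).symm
      (range 𝓘(ℝ, E)) p z = ds a p z := by
    intro z
    simp only [modelWithCornersSelf_coe, range_id, mfderivWithin_univ]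
    rfl
  exact (h3 _).symm.trans h2

/-- the quadratic form increases strictly under `φ_s ∘ g` at `y` -/
def Inc (β : (x : P) → TangentSpace 𝓘(ℝ, E) x →L[ℝ] ℝ) (B : P → F →L[ℝ] F →L[ℝ] ℝ) (e : P → F)
    (φ : P → P) (y : P) : Prop :=
  ∀ v : E, β y v = 0 → v ≠ 0 →
    B y (dv E e y v) (dv E e y v) <
      B (φ y) (dv E e (φ y) (dm E φ y v)) (dv E e (φ y) (dm E φ y v))

lemma loc_pos (c : CD β R) (h : RF β R Fl) {g : P → P} (hg : St β g) {x : P}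
    {B : P → F →L[ℝ] F →L[ℝ] ℝ} (hB : Continuous B) {e : P → F}
    (he : ContMDiff 𝓘(ℝ, E) 𝓘(ℝ, F) ∞ e) (hyp : Inc β B e g x) :
    ∀ᶠ q in 𝓝 (x, (0:ℝ)), Inc β B e (fun y => Fl (g y) q.2) q.1 := by
  obtain ⟨a, ha⟩ : ∃ a : P, a = x := ⟨_, rfl⟩
  obtain ⟨b, hb⟩ : ∃ b : P, b = g x := ⟨_, rfl⟩
  have hx : x ∈ (extChartAt 𝓘(ℝ, E) a).source := by rw [ha]; exact mem_extChartAt_source x
  have hgx : g x ∈ (extChartAt 𝓘(ℝ, E) b).source := by rw [hb]; exact mem_extChartAt_source _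
  clear ha hb
  have hp := (extChartAt 𝓘(ℝ, E) a).map_source hx
  have hxs := (extChartAt 𝓘(ℝ, E) a).left_inv hx
  have hgp : g ((extChartAt 𝓘(ℝ, E) a).symm (extChartAt 𝓘(ℝ, E) a x)) ∈
      (extChartAt 𝓘(ℝ, E) b).source := by rw [hxs]; exact hgx
  have : ProperSpace E := FiniteDimensional.proper ℝ E
  have hFc : Continuous (fun p : P × ℝ => Fl p.1 p.2) := h.smooth.continuous
  have hJs := JJ_smooth h hg.smooth a b hp hgp
  have hJd := (hJs.eventually (by simp)).mono fun q hq => hq.differentiableAt (by simp)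
  have hJc : ContinuousAt (fderiv ℝ (JJ Fl g a b)) (extChartAt 𝓘(ℝ, E) a x, 0) :=
    (hJs.fderiv_right (m := 0) (by simp)).continuousAt
  -- the point in the image
  have himg : Continuous (fun q : P × ℝ => Fl (g q.1) q.2) :=
    hFc.comp ((hg.smooth.continuous.comp continuous_fst).prodMk continuous_snd)
  have himg0 : Fl (g x) 0 = g x := h.zero _
  set Φ : (P × ℝ) × E → ℝ := fun q => qf B e b (Fl (g q.1.1) q.1.2)
    (fderiv ℝ (JJ Fl g a b) (extChartAt 𝓘(ℝ, E) a q.1.1, q.1.2) (q.2, 0)) -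
    qf B e a q.1.1 q.2 with hΦ
  have hΦc : ∀ z : E, ContinuousAt Φ ((x, 0), z) := by
    intro z
    have f11 : ContinuousAt (fun q : (P × ℝ) × E => q.1.1) ((x, 0), z) :=
      (continuous_fst.comp continuous_fst).continuousAt
    have f12 : ContinuousAt (fun q : (P × ℝ) × E => q.1.2) ((x, 0), z) :=
      (continuous_snd.comp continuous_fst).continuousAt
    have h1 : ContinuousAt (fun q : (P × ℝ) × E => ((extChartAt 𝓘(ℝ, E) a q.1.1, q.1.2) : E × ℝ))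
        ((x, 0), z) := by
      refine ContinuousAt.prodMk ?_ f12
      exact ContinuousAt.comp (x := (((x, 0), z) : (P × ℝ) × E)) (f := fun q => q.1.1)
        (g := extChartAt 𝓘(ℝ, E) a) (continuousAt_extChartAt' hx) f11
    have h2 : ContinuousAt (fun q : (P × ℝ) × E => fderiv ℝ (JJ Fl g a b)
        (extChartAt 𝓘(ℝ, E) a q.1.1, q.1.2)) ((x, 0), z) :=
      ContinuousAt.comp (x := (((x, 0), z) : (P × ℝ) × E))
        (f := fun q : (P × ℝ) × E => ((extChartAt 𝓘(ℝ, E) a q.1.1, q.1.2) : E × ℝ))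
        (g := fderiv ℝ (JJ Fl g a b)) hJc h1
    have h3 : ContinuousAt (fun q : (P × ℝ) × E => fderiv ℝ (JJ Fl g a b)
        (extChartAt 𝓘(ℝ, E) a q.1.1, q.1.2) (q.2, 0)) ((x, 0), z) :=
      h2.clm_apply (continuousAt_snd.prodMk continuousAt_const)
    have h4 : ContinuousAt (fun q : (P × ℝ) × E => Fl (g q.1.1) q.1.2) ((x, 0), z) :=
      (himg.comp continuous_fst).continuousAt
    refine (contAt_qf hB he h4 h3 ?_).sub (contAt_qf hB he f11 continuousAt_snd hx)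
    simp only
    rw [himg0]
    exact hgx
  have hbc : ∀ z : E, ContinuousAt (fun q : (P × ℝ) × E =>
      chartForm 𝓘(ℝ, E) β a (extChartAt 𝓘(ℝ, E) a q.1.1) q.2) ((x, 0), z) := by
    intro z
    have h1 : ContinuousAt (fun q : (P × ℝ) × E =>
        chartForm 𝓘(ℝ, E) β a (extChartAt 𝓘(ℝ, E) a q.1.1)) ((x, 0), z) :=
      ContinuousAt.comp (x := (((x, 0), z) : (P × ℝ) × E)) (f := fun q => q.1.1)
        (g := fun y => chartForm 𝓘(ℝ, E) β a (extChartAt 𝓘(ℝ, E) a y))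
        (contAt_chart hx (contAt_b c a hp)) (continuous_fst.comp continuous_fst).continuousAt
    exact h1.clm_apply continuousAt_snd
  have hpos : ∀ z : E, z ≠ 0 → chartForm 𝓘(ℝ, E) β a (extChartAt 𝓘(ℝ, E) a x) z = 0 →
      0 < Φ ((x, 0), z) := by
    intro z hz0 hz
    have h1 := strict_chart hg hx hgx he hyp hz hz0
    have h2 : fderiv ℝ (JJ Fl g a b) (extChartAt 𝓘(ℝ, E) a x, 0) (z, 0) =
        fderiv ℝ (ch2 a b g) (extChartAt 𝓘(ℝ, E) a x) z := by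
      rw [(JJ_strict h hg.smooth a b hp hgp).hasFDerivAt.fderiv]
      simp
    simp only [hΦ]
    rw [himg0, h2]
    linarith
  have h1loc : ∀ z ∈ sphere (0:E) 1, ∀ᶠ q : (P × ℝ) × E in 𝓝 ((x, (0:ℝ)), z),
      (chartForm 𝓘(ℝ, E) β a (extChartAt 𝓘(ℝ, E) a q.1.1) q.2 = 0 → 0 < Φ (q.1, q.2)) := by
    intro z hz
    rw [mem_sphere_zero_iff_norm] at hz
    have hz0 : z ≠ 0 := by
      intro h0
      rw [h0, norm_zero] at hz
      exact zero_ne_one hz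
    by_cases hzb : chartForm 𝓘(ℝ, E) β a (extChartAt 𝓘(ℝ, E) a x) z = 0
    · filter_upwards [(hΦc z).eventually (lt_mem_nhds (hpos z hz0 hzb))] with q hq _
      exact hq
    · filter_upwards [(hbc z).eventually_ne hzb] with q hq h3
      exact absurd h3 hq
  have h1 : ∀ᶠ q : P × ℝ in 𝓝 (x, (0:ℝ)), ∀ z ∈ sphere (0:E) 1,
      (chartForm 𝓘(ℝ, E) β a (extChartAt 𝓘(ℝ, E) a q.1) z = 0 → 0 < Φ (q, z)) :=
    IsCompact.eventually_forall_of_forall_eventually (X := P × ℝ) (Y := E)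
      (x₀ := ((x, (0:ℝ)) : P × ℝ)) (K := sphere (0:E) 1) (isCompact_sphere (0:E) 1)
      (P := fun q z => chartForm 𝓘(ℝ, E) β a (extChartAt 𝓘(ℝ, E) a q.1) z = 0 → 0 < Φ (q, z))
      h1loc
  have h2 : ∀ᶠ q in 𝓝 (x, (0:ℝ)), q.1 ∈ (extChartAt 𝓘(ℝ, E) a).source :=
    (continuous_fst.tendsto (x, (0:ℝ))).eventually ((isOpen_extChartAt_source a).mem_nhds hx)
  have h3 : ∀ᶠ q in 𝓝 (x, (0:ℝ)), Fl (g q.1) q.2 ∈ (extChartAt 𝓘(ℝ, E) b).source := by
    have h4 := himg.tendsto (x, (0:ℝ))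
    simp only [himg0] at h4
    exact h4.eventually ((isOpen_extChartAt_source b).mem_nhds hgx)
  have h4 : ∀ᶠ q in 𝓝 (x, (0:ℝ)), DifferentiableAt ℝ (JJ Fl g a b)
      (extChartAt 𝓘(ℝ, E) a q.1, q.2) := by
    have h5 : ContinuousAt (fun q : P × ℝ => ((extChartAt 𝓘(ℝ, E) a q.1, q.2) : E × ℝ))
        (x, 0) :=
      (ContinuousAt.comp (x := ((x, 0) : P × ℝ)) (f := Prod.fst)
        (g := extChartAt 𝓘(ℝ, E) a) (continuousAt_extChartAt' hx) continuousAt_fst).prodMk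
        continuousAt_snd
    exact h5.tendsto.eventually hJd
  filter_upwards [h1, h2, h3, h4] with q e1 e2 e3 e4
  obtain ⟨y, s⟩ := q
  simp only at e1 e2 e3 e4 ⊢
  have hyt := (extChartAt 𝓘(ℝ, E) a).map_source e2
  have hys := (extChartAt 𝓘(ℝ, E) a).left_inv e2
  have hst : St β (fun y => Fl (g y) s) := hg.comp (St.flow h s)
  have hfin : ∀ y' : P, y' = y → Inc β B e (fun y => Fl (g y) s) y' →
      Inc β B e (fun y => Fl (g y) s) y := by rintro _ rfl h; exact h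
  refine hfin _ hys ?_
  intro v hv hv0
  obtain ⟨z, hz⟩ := ds_surj hyt v
  subst hz
  have hz0 : z ≠ 0 := by
    intro h0
    apply hv0
    rw [h0]
    exact map_zero (mfderiv 𝓘(ℝ, E) 𝓘(ℝ, E) (extChartAt 𝓘(ℝ, E) a).symm
      (extChartAt 𝓘(ℝ, E) a y))
  have hzb : chartForm 𝓘(ℝ, E) β a (extChartAt 𝓘(ℝ, E) a y) z = 0 := hv
  -- the inequality for `z`
  have hzn : ‖z‖ ≠ 0 := norm_ne_zero_iff.2 hz0
  have e5 := e1 (‖z‖⁻¹ • z) (by
      rw [mem_sphere_zero_iff_norm, norm_smul, norm_inv, norm_norm, inv_mul_cancel₀ hzn])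
      (by rw [map_smul, hzb, smul_zero])
  simp only [hΦ] at e5
  have e6 : ((‖z‖⁻¹ • z, 0) : E × ℝ) = ‖z‖⁻¹ • ((z, 0) : E × ℝ) := by
    ext <;> simp
  rw [e6, map_smul, qf_smul, qf_smul, ← mul_sub, ← fderiv_JJ a b e4] at e5
  have e7 : 0 < qf B e b (Fl (g y) s) (fderiv ℝ (ch2 a b (fun x => Fl (g x) s))
      (extChartAt 𝓘(ℝ, E) a y) z) - qf B e a y z :=
    (mul_pos_iff_of_pos_left (by positivity)).1 e5
  have hgp' : (fun x => Fl (g x) s) ((extChartAt 𝓘(ℝ, E) a).symm (extChartAt 𝓘(ℝ, E) a y)) ∈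
      (extChartAt 𝓘(ℝ, E) b).source := by rw [hys]; exact e3
  have e8 := fderiv_cf_ch2 a b he hst.smooth hyt hgp' z
  rw [ch2_chart e2] at e8
  have e9 : fderiv ℝ (cf b e) (extChartAt 𝓘(ℝ, E) b (Fl (g y) s))
      (fderiv ℝ (ch2 a b (fun x => Fl (g x) s)) (extChartAt 𝓘(ℝ, E) a y) z) =
      dv E e ((fun x => Fl (g x) s) ((extChartAt 𝓘(ℝ, E) a).symm (extChartAt 𝓘(ℝ, E) a y)))
        (dm E (fun x => Fl (g x) s) ((extChartAt 𝓘(ℝ, E) a).symm (extChartAt 𝓘(ℝ, E) a y))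
          (ds a (extChartAt 𝓘(ℝ, E) a y) z)) := e8
  have e10 : fderiv ℝ (cf a e) (extChartAt 𝓘(ℝ, E) a y) z =
      dv E e ((extChartAt 𝓘(ℝ, E) a).symm (extChartAt 𝓘(ℝ, E) a y))
        (ds a (extChartAt 𝓘(ℝ, E) a y) z) := fderiv_cf a he hyt z
  unfold qf at e7
  rw [e9, e10] at e7
  have e11 : B y = B ((extChartAt 𝓘(ℝ, E) a).symm (extChartAt 𝓘(ℝ, E) a y)) := by rw [hys]
  have e12 : B (Fl (g y) s) = B ((fun x => Fl (g x) s)
      ((extChartAt 𝓘(ℝ, E) a).symm (extChartAt 𝓘(ℝ, E) a y))) := by rw [hys]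
  rw [e11, e12] at e7
  linarith

end Pool.Agent.R774.Hyp
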