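import Mathlib
import Pool.Agent.R774.Hyp5
import Pool.Agent.R774.Hyp1

/-! The closing lemma modulo the Reeb flow. -/

open scoped Topology ContDiff Manifold
open Set Metric Bundle Filter Pool.Agent.Helper186 Pool.Agent.H826R2.Wein Pool.Agent.W671.WU
open Pool.Agent.R774.Root

noncomputable section

namespace Pool.Agent.R774.Hyp

set_option linter.unusedSectionVars false

universe u

variable {E : Type u} [NormedAddCommGroup E] [NormedSpace ℝ E] [FiniteDimensional ℝ E]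
  {P : Type*} [TopologicalSpace P] [ChartedSpace E P] [IsManifold 𝓘(ℝ, E) ∞ P]
  {F : Type*} [NormedAddCommGroup F] [NormedSpace ℝ F]
  {β : (x : P) → TangentSpace 𝓘(ℝ, E) x →L[ℝ] ℝ}
  {R : (x : P) → TangentSpace 𝓘(ℝ, E) x} {Fl : P → ℝ → P}

lemma dm_comp {φ₁ φ₂ : P → P} (h1 : ContMDiff 𝓘(ℝ, E) 𝓘(ℝ, E) ∞ φ₁)
    (h2 : ContMDiff 𝓘(ℝ, E) 𝓘(ℝ, E) ∞ φ₂) (y : P) (v : E) :
    dm E (fun x => φ₂ (φ₁ x)) y v = dm E φ₂ (φ₁ y) (dm E φ₁ y v) := by
  have h3 : mfderiv 𝓘(ℝ, E) 𝓘(ℝ, E) (fun x => φ₂ (φ₁ x)) y =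
      (mfderiv 𝓘(ℝ, E) 𝓘(ℝ, E) φ₂ (φ₁ y)).comp (mfderiv 𝓘(ℝ, E) 𝓘(ℝ, E) φ₁ y) :=
    mfderiv_comp y (h2.mdifferentiableAt (by simp)) (h1.mdifferentiableAt (by simp))
  exact DFunLike.congr_fun h3 v

lemma dm_inj (c : CD β R) {φ : P → P} (hφ : St β φ) {y : P} {v : E} (hv : dm E φ y v = 0) :
    v = 0 := by
  apply HB_nondeg c.contact c.reeb y v
  intro w
  have h1 := hφ.HB_push c.contact.smooth y v w
  rw [← h1]
  have h2 : (mfderiv 𝓘(ℝ, E) 𝓘(ℝ, E) φ y v) = 0 := hv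
  rw [h2, map_zero]
  rfl

lemma Inc.comp (c : CD β R) {B : P → F →L[ℝ] F →L[ℝ] ℝ} {e : P → F} {φ₁ φ₂ : P → P}
    (h1 : St β φ₁) (h2 : St β φ₂) {y : P} (i1 : Inc β B e φ₁ y) (i2 : Inc β B e φ₂ (φ₁ y)) :
    Inc β B e (fun x => φ₂ (φ₁ x)) y := by
  intro v hv hv0
  have e1 := i1 v hv hv0
  have e2 := i2 (dm E φ₁ y v) ((h1.strict y v).trans hv) (fun h0 => hv0 (dm_inj c h1 h0))
  rw [dm_comp h1.smooth h2.smooth]
  exact e1.trans e2

lemma st_id : St β (fun x : P => x) where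
  smooth := contMDiff_id
  strict := fun x u => by
    have h1 : mfderiv 𝓘(ℝ, E) 𝓘(ℝ, E) (fun x : P => x) x =
        ContinuousLinearMap.id ℝ (TangentSpace 𝓘(ℝ, E) x) := mfderiv_id
    rw [h1]
    rfl

/-- a fixed point of a strict contact map without fixed direction lies on a closed orbit -/
theorem closed_of_fixed [T2Space P] [CompactSpace P] (c : CD β R) (h : RF β R Fl)
    {φ : P → P} (hφ : St β φ) {y : P} (hy : φ y = y)
    (hnd : ∀ v : E, β y v = 0 → dm E φ y v = v → v = 0) :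
    ∃ T, 0 < T ∧ Fl y T = y := by
  have hid : ∀ v : E, dm E (fun x : P => x) y v = v := by
    intro v
    have h1 : mfderiv 𝓘(ℝ, E) 𝓘(ℝ, E) (fun x : P => x) y =
        ContinuousLinearMap.id ℝ (TangentSpace 𝓘(ℝ, E) y) := mfderiv_id
    exact DFunLike.congr_fun h1 v
  refine closed_of_nondeg c h (ι := Bool) (g := fun i => if i then φ else (fun x => x))
    (a := fun i => if i then 1 else -1) ?_ ?_ (y := y) ?_ ?_
  · intro i
    cases i
    · exact st_id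
    · exact hφ
  · simp
  · intro i
    cases i
    · rfl
    · exact hy
  · intro v hv h0
    apply hnd v hv
    rw [Fintype.sum_bool] at h0
    simp only [if_true, Bool.false_eq_true, if_false, hid, one_smul, neg_smul] at h0
    exact add_neg_eq_zero.1 h0

/-- the closing chain -/
lemma chain (h : RF β R Fl) [T2Space P] (c : CD β R) {g : P → P} (hg : St β g)
    {B : P → F →L[ℝ] F →L[ℝ] ℝ} {e : P → F}
    {y : ℕ → P} {s : ℕ → ℝ} (hy : ∀ k, Fl (g (y k)) (s k) = y (k + 1))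
    (hi : ∀ k, Inc β B e (fun x => Fl (g x) (s k)) (y k)) (k : ℕ) :
    ∃ φ : P → P, St β φ ∧ φ (y 0) = y (k + 1) ∧ Inc β B e φ (y 0) := by
  induction k with
  | zero => exact ⟨fun x => Fl (g x) (s 0), hg.comp (St.flow h (s 0)), hy 0, hi 0⟩
  | succ k ih =>
    obtain ⟨φ, h1, h2, h3⟩ := ih
    refine ⟨fun x => Fl (g (φ x)) (s (k + 1)), h1.comp (hg.comp (St.flow h (s (k + 1)))), ?_, ?_⟩
    · simp only
      rw [h2, hy]
    · refine Inc.comp c (φ₁ := φ) (φ₂ := fun x => Fl (g x) (s (k + 1))) h1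
        (hg.comp (St.flow h (s (k + 1)))) h3 ?_
      rw [h2]
      exact hi (k + 1)

attribute [local irreducible] PE AE GE

/-- **Closing lemma modulo the Reeb flow.** -/
theorem closing [T2Space P] [CompactSpace P] (c : CD β R) (h : RF β R Fl) {g : P → P}
    (hg : St β g) {B : P → F →L[ℝ] F →L[ℝ] ℝ} (hB : Continuous B) {e : P → F}
    (he : ContMDiff 𝓘(ℝ, E) 𝓘(ℝ, F) ∞ e) (hinj : Function.Injective e)
    {K : Set P} (hK : IsClosed K) (hgK : ∀ x ∈ K, g x ∈ K) (hyp : ∀ x ∈ K, Inc β B e g x)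
    {η : ℝ} (hη : 0 < η) :
    ∃ δ > 0, ∀ x₀ ∈ K, ∀ m : ℕ, ‖e (g^[m + 1] x₀) - e x₀‖ < δ →
      ∃ y T, 0 < T ∧ Fl y T = y ∧ ‖e y - e x₀‖ < η := by
  obtain ⟨t, V, hVc, hVs, hVt⟩ := exists_cover E P
  choose ctr hctr hctrV using hVt
  have hgc := hg.smooth.continuous
  have hgp : ∀ {a b x : P}, x ∈ (extChartAt 𝓘(ℝ, E) a).source →
      g x ∈ (extChartAt 𝓘(ℝ, E) b).source →
      g ((extChartAt 𝓘(ℝ, E) a).symm (extChartAt 𝓘(ℝ, E) a x)) ∈
        (extChartAt 𝓘(ℝ, E) b).source := by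
    intro a b x hx hgx
    rw [(extChartAt 𝓘(ℝ, E) a).left_inv hx]
    exact hgx
  -- bounds
  obtain ⟨C₀, δ₀, hδ₀, hC₀⟩ := unif he.continuous hinj hgc hK hVc (t := t)
    (Q := fun N a b x _ => ‖AE β Fl g a b (extChartAt 𝓘(ℝ, E) a x)‖ ≤ N ∧
      ‖chartForm 𝓘(ℝ, E) β a (extChartAt 𝓘(ℝ, E) a x)‖ ≤ N ∧
      ‖RF.Rc Fl a (extChartAt 𝓘(ℝ, E) a x)‖ ≤ N ∧
      2 * ‖B x‖ * ‖fderiv ℝ (cf a e) (extChartAt 𝓘(ℝ, E) a x)‖ ^ 2 *
        ‖PE β Fl a (extChartAt 𝓘(ℝ, E) a x)‖ ^ 2 ≤ N)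
    (by
      intro m n a b x y hmn ⟨h1, h2, h3, h4⟩
      have : (m : ℝ) ≤ n := by exact_mod_cast hmn
      exact ⟨h1.trans this, h2.trans this, h3.trans this, h4.trans this⟩)
    (by
      intro a _ b _ x _ hxa hgb
      obtain ⟨N, hN⟩ := loc_bound c h hg (hVs a hxa) (hVs b hgb) hB he
      exact ⟨N, (continuous_fst.tendsto (x, g x)).eventually hN⟩)
  set C : ℝ := (C₀ : ℝ) + 1 with hC
  have hC1 : 1 ≤ C := by rw [hC]; linarith [Nat.cast_nonneg (α := ℝ) C₀]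
  have hC0 : 0 < C := by linarith
  have hCC : (C₀ : ℝ) ≤ C := by rw [hC]; linarith
  -- the increase of the quadratic form
  obtain ⟨N₁, δ₁, hδ₁, hN₁⟩ := unif he.continuous hinj hgc hK hVc (t := t)
    (Q := fun N a b x _ => ∀ z : E,
      chartForm 𝓘(ℝ, E) β a (extChartAt 𝓘(ℝ, E) a x) z = 0 →
      qf B e a x z + 1 / ((N:ℝ) + 1) * ‖z‖ ^ 2 ≤
        qf B e b (g x) (fderiv ℝ (ch2 a b g) (extChartAt 𝓘(ℝ, E) a x) z))
    (by
      intro m n a b x y hmn h1 z hz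
      refine le_trans ?_ (h1 z hz)
      have h2 : (m : ℝ) ≤ n := by exact_mod_cast hmn
      gcongr)
    (by
      intro a _ b _ x hx hxa hgb
      obtain ⟨N, hN⟩ := loc_q1 c hg (hVs a hxa) (hVs b hgb) hB he (hyp x hx)
      exact ⟨N, (continuous_fst.tendsto (x, g x)).eventually hN⟩)
  set κ : ℝ := 1 / ((N₁:ℝ) + 1) with hκ
  have hκ0 : 0 < κ := by positivity
  have hq1 : ∀ a ∈ t, ∀ b ∈ t, ∀ x ∈ K, x ∈ V a → g x ∈ V b → ∀ z : E,
      chartForm 𝓘(ℝ, E) β a (extChartAt 𝓘(ℝ, E) a x) z = 0 →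
      qf B e a x z + κ * ‖z‖ ^ 2 ≤
        qf B e b (g x) (fderiv ℝ (ch2 a b g) (extChartAt 𝓘(ℝ, E) a x) z) := by
    intro a ha b hb x hx hxa hgb
    exact hN₁ a ha b hb x hx (g x) hxa hgb (by rw [sub_self, norm_zero]; exact hδ₁)
  set c₂ : ℝ := min (1 / (2 * C)) (κ / 32) with hc₂
  have hc₂0 : 0 < c₂ := lt_min (by positivity) (by positivity)
  obtain ⟨_, δ₂, hδ₂, hb2⟩ := unif he.continuous hinj hgc hK hVc (t := t)
    (Q := fun _ a b x y => ‖(chartForm 𝓘(ℝ, E) β b (extChartAt 𝓘(ℝ, E) b y)).comp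
      (AE β Fl g a b (extChartAt 𝓘(ℝ, E) a x)) -
      chartForm 𝓘(ℝ, E) β a (extChartAt 𝓘(ℝ, E) a x)‖ ≤ c₂)
    (fun _ _ _ _ _ _ _ h1 => h1)
    (fun a _ b _ x _ hxa hgb => ⟨0, loc_b c h hg (hVs a hxa) (hVs b hgb) hc₂0⟩)
  obtain ⟨_, δ₃, hδ₃, hq2⟩ := unif he.continuous hinj hgc hK hVc (t := t)
    (Q := fun _ a b x y => ∀ w : E,
      qf B e a x (PE β Fl a (extChartAt 𝓘(ℝ, E) a x) w) +
        κ * ‖PE β Fl a (extChartAt 𝓘(ℝ, E) a x) w‖ ^ 2 ≤
      qf B e b y (PE β Fl b (extChartAt 𝓘(ℝ, E) b y)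
        (AE β Fl g a b (extChartAt 𝓘(ℝ, E) a x) w)) + c₂ * ‖w‖ ^ 2)
    (fun _ _ _ _ _ _ _ h1 => h1)
    (fun a ha b hb x hx hxa hgb => ⟨0, loc_q2 c h hg (hVs a hxa) (hVs b hgb) hB he
      (hq1 a ha b hb x hx hxa hgb) hc₂0⟩)
  have hKc := Kc_pos hC1 hκ0
  set Kk : ℝ := √(Kc C κ) with hKk
  have hKk0 : 0 < Kk := Real.sqrt_pos.2 hKc
  have hKk2 : Kc C κ ≤ Kk ^ 2 := by rw [hKk, Real.sq_sqrt hKc.le]
  set c₁ : ℝ := Kk⁻¹ / 2 with hc₁
  have hc₁0 : 0 < c₁ := by positivity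
  obtain ⟨N₄, δ₄, hδ₄, h4⟩ := unif he.continuous hinj hgc hK hVc (t := t)
    (Q := fun N a b x _ => ∀ w w', ‖w‖ ≤ 1 / ((N:ℝ) + 1) → ‖w'‖ ≤ 1 / ((N:ℝ) + 1) →
      ‖GE β Fl g a b (extChartAt 𝓘(ℝ, E) a x) w - GE β Fl g a b (extChartAt 𝓘(ℝ, E) a x) w' -
        AE β Fl g a b (extChartAt 𝓘(ℝ, E) a x) (w - w')‖ ≤ c₁ * ‖w - w'‖)
    (by
      intro m n a b x y hmn h1 w w' hw hw'
      have h2 : (m : ℝ) ≤ n := by exact_mod_cast hmn
      have h3 : 1 / ((n:ℝ) + 1) ≤ 1 / ((m:ℝ) + 1) := by gcongr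
      exact h1 w w' (hw.trans h3) (hw'.trans h3))
    (by
      intro a _ b _ x _ hxa hgb
      obtain ⟨N, hN⟩ := loc_approx c h hg.smooth a b
        ((extChartAt 𝓘(ℝ, E) a).map_source (hVs a hxa)) (hgp (hVs a hxa) (hVs b hgb)) hc₁0
      exact ⟨N, (continuous_fst.tendsto (x, g x)).eventually
        ((continuousAt_extChartAt' (hVs a hxa)).tendsto.eventually hN)⟩)
  have hFc : Continuous (fun p : P × ℝ => Fl p.1 p.2) := h.smooth.continuous
  obtain ⟨N₅, δ₅, hδ₅, h5⟩ := unif he.continuous hinj hgc hK hVc (t := t)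
    (Q := fun N a b x _ => ∀ w : E, ‖w‖ ≤ 1 / ((N:ℝ) + 1) →
      (Fl (g ((extChartAt 𝓘(ℝ, E) a).symm (extChartAt 𝓘(ℝ, E) a x +
        PE β Fl a (extChartAt 𝓘(ℝ, E) a x) w)))
        (chartForm 𝓘(ℝ, E) β a (extChartAt 𝓘(ℝ, E) a x) w) ∈ (extChartAt 𝓘(ℝ, E) b).source ∧
      Inc β B e (fun y => Fl (g y) (chartForm 𝓘(ℝ, E) β a (extChartAt 𝓘(ℝ, E) a x) w))
        ((extChartAt 𝓘(ℝ, E) a).symm (extChartAt 𝓘(ℝ, E) a x +
        PE β Fl a (extChartAt 𝓘(ℝ, E) a x) w)) ∧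
      ‖e ((extChartAt 𝓘(ℝ, E) a).symm (extChartAt 𝓘(ℝ, E) a x +
        PE β Fl a (extChartAt 𝓘(ℝ, E) a x) w)) - e x‖ < η))
    (by
      intro m n a b x y hmn h1 w hw
      have h2 : (m : ℝ) ≤ n := by exact_mod_cast hmn
      have h3 : 1 / ((n:ℝ) + 1) ≤ 1 / ((m:ℝ) + 1) := by gcongr
      exact h1 w (hw.trans h3))
    (by
      intro a _ b _ x hx hxa hgb
      have e1 : ∀ᶠ q in 𝓝 (x, x, (0:ℝ)), Fl (g q.2.1) q.2.2 ∈
          (extChartAt 𝓘(ℝ, E) b).source := by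
        have h6 : Continuous (fun q : P × P × ℝ => Fl (g q.2.1) q.2.2) :=
          hFc.comp ((hgc.comp (continuous_fst.comp continuous_snd)).prodMk
            (continuous_snd.comp continuous_snd))
        have h7 := h6.tendsto (x, x, (0:ℝ))
        simp only [h.zero] at h7
        exact h7.eventually ((isOpen_extChartAt_source b).mem_nhds (hVs b hgb))
      have e2 : ∀ᶠ q in 𝓝 (x, x, (0:ℝ)), Inc β B e (fun y => Fl (g y) q.2.2) q.2.1 :=
        (continuous_snd.tendsto (x, x, (0:ℝ))).eventually (loc_pos c h hg hB he (hyp x hx))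
      have e3 : ∀ᶠ q in 𝓝 (x, x, (0:ℝ)), ‖e q.2.1 - e q.1‖ < η := by
        have h6 : Continuous (fun q : P × P × ℝ => ‖e q.2.1 - e q.1‖) :=
          ((he.continuous.comp (continuous_fst.comp continuous_snd)).sub
            (he.continuous.comp continuous_fst)).norm
        have h7 := h6.tendsto (x, x, (0:ℝ))
        simp only [sub_self, norm_zero] at h7
        exact h7.eventually (gt_mem_nhds hη)
      obtain ⟨N, hN⟩ := loc_dyn c h (hVs a hxa) (Q := fun x' y s =>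
        Fl (g y) s ∈ (extChartAt 𝓘(ℝ, E) b).source ∧ Inc β B e (fun y => Fl (g y) s) y ∧
          ‖e y - e x'‖ < η) (e1.and (e2.and e3))
      exact ⟨N, (continuous_fst.tendsto (x, g x)).eventually hN⟩)
  set ε : ℝ := min (1 / ((N₄:ℝ) + 1)) (1 / ((N₅:ℝ) + 1)) with hε
  have hε0 : 0 < ε := lt_min (by positivity) (by positivity)
  set r : ℝ := (Kk⁻¹ - c₁) * ε with hr
  have hr0 : 0 < r := by
    have : Kk⁻¹ - c₁ = Kk⁻¹ / 2 := by rw [hc₁]; ring
    rw [hr, this]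
    positivity
  obtain ⟨_, δ₆, hδ₆, h6⟩ := unif he.continuous hinj hgc hK hVc (t := t)
    (Q := fun _ _ b x y => ‖extChartAt 𝓘(ℝ, E) b (g x) - extChartAt 𝓘(ℝ, E) b y‖ ≤ r)
    (fun _ _ _ _ _ _ _ h1 => h1)
    (by
      intro a _ b _ x _ hxa hgb
      refine ⟨0, ?_⟩
      have h7 : ContinuousAt (fun q : P × P => extChartAt 𝓘(ℝ, E) b (g q.1)) (x, g x) :=
        ContinuousAt.comp (x := ((x, g x) : P × P)) (f := fun q : P × P => g q.1)
          (g := extChartAt 𝓘(ℝ, E) b) (continuousAt_extChartAt' (hVs b hgb))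
          (hgc.comp continuous_fst).continuousAt
      have h8 : ContinuousAt (fun q : P × P => extChartAt 𝓘(ℝ, E) b q.2) (x, g x) :=
        ContinuousAt.comp (x := ((x, g x) : P × P)) (f := Prod.snd)
          (g := extChartAt 𝓘(ℝ, E) b) (continuousAt_extChartAt' (hVs b hgb)) continuousAt_snd
      have h9 : Tendsto (fun q : P × P => ‖extChartAt 𝓘(ℝ, E) b (g q.1) -
          extChartAt 𝓘(ℝ, E) b q.2‖) (𝓝 (x, g x)) (𝓝 0) := by
        have h10 := ((h7.sub h8).norm).tendsto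
        simp only [Pi.sub_apply, sub_self, norm_zero] at h10
        exact h10
      exact (h9.eventually (gt_mem_nhds hr0)).mono fun _ h => le_of_lt h)
  refine ⟨min (min (min δ₀ δ₂) (min δ₃ δ₄)) (min δ₅ δ₆), by
    refine lt_min (lt_min (lt_min ?_ ?_) (lt_min ?_ ?_)) (lt_min ?_ ?_) <;> assumption, ?_⟩
  intro x₀ hx₀ m hm
  -- the pseudo-orbit
  set σ : Fin (m + 1) ≃ Fin (m + 1) := finRotate (m + 1) with hσ
  obtain ⟨x, hxdef⟩ : ∃ x : Fin (m + 1) → P, ∀ i, x i = g^[i] x₀ := ⟨_, fun _ => rfl⟩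
  have hitK : ∀ k : ℕ, g^[k] x₀ ∈ K := by
    intro k
    induction k with
    | zero => exact hx₀
    | succ k ih => rw [Function.iterate_succ_apply']; exact hgK _ ih
  have hxK : ∀ i, x i ∈ K := fun i => by rw [hxdef]; exact hitK _
  have hne : ∀ i, i ≠ Fin.last m → x (σ i) = g (x i) := by
    intro i hi
    have h7 : ((σ i : Fin (m + 1)) : ℕ) = (i : ℕ) + 1 := by
      rw [hσ, coe_finRotate_of_ne_last hi]
    rw [hxdef, hxdef, h7, Function.iterate_succ_apply']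
  have hlast : x (σ (Fin.last m)) = x₀ ∧ g (x (Fin.last m)) = g^[m + 1] x₀ := by
    constructor
    · rw [hσ, finRotate_last, hxdef]
      rfl
    · rw [hxdef, Function.iterate_succ_apply']
      rfl
  have hstep : ∀ i, ‖e (x (σ i)) - e (g (x i))‖ <
      min (min (min δ₀ δ₂) (min δ₃ δ₄)) (min δ₅ δ₆) := by
    intro i
    by_cases hi : i = Fin.last m
    · subst hi
      rw [hlast.1, hlast.2, norm_sub_rev]
      exact hm
    · rw [hne i hi, sub_self, norm_zero]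
      refine lt_min (lt_min (lt_min ?_ ?_) (lt_min ?_ ?_)) (lt_min ?_ ?_) <;> assumption
  have hs0 : ∀ i, ‖e (x (σ i)) - e (g (x i))‖ < δ₀ := fun i => (hstep i).trans_le
    ((min_le_left _ _).trans ((min_le_left _ _).trans (min_le_left _ _)))
  have hs2 : ∀ i, ‖e (x (σ i)) - e (g (x i))‖ < δ₂ := fun i => (hstep i).trans_le
    ((min_le_left _ _).trans ((min_le_left _ _).trans (min_le_right _ _)))
  have hs3 : ∀ i, ‖e (x (σ i)) - e (g (x i))‖ < δ₃ := fun i => (hstep i).trans_le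
    ((min_le_left _ _).trans ((min_le_right _ _).trans (min_le_left _ _)))
  have hs4 : ∀ i, ‖e (x (σ i)) - e (g (x i))‖ < δ₄ := fun i => (hstep i).trans_le
    ((min_le_left _ _).trans ((min_le_right _ _).trans (min_le_right _ _)))
  have hs5 : ∀ i, ‖e (x (σ i)) - e (g (x i))‖ < δ₅ := fun i => (hstep i).trans_le
    ((min_le_right _ _).trans (min_le_left _ _))
  have hs6 : ∀ i, ‖e (x (σ i)) - e (g (x i))‖ < δ₆ := fun i => (hstep i).trans_le
    ((min_le_right _ _).trans (min_le_right _ _))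
  obtain ⟨a, ha⟩ : ∃ a : Fin (m + 1) → P, ∀ i, a i = ctr (x i) := ⟨_, fun _ => rfl⟩
  have hat : ∀ i, a i ∈ t := fun i => by rw [ha]; exact hctr _
  have haV : ∀ i, x i ∈ V (a i) := fun i => by rw [ha]; exact hctrV _
  have hxs : ∀ i, x i ∈ (extChartAt 𝓘(ℝ, E) (a i)).source := fun i => hVs _ (haV i)
  obtain ⟨p, hp⟩ : ∃ p : Fin (m + 1) → E, ∀ i, p i = extChartAt 𝓘(ℝ, E) (a i) (x i) :=
    ⟨_, fun _ => rfl⟩
  have hpt : ∀ i, p i ∈ (extChartAt 𝓘(ℝ, E) (a i)).target := fun i => by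
    rw [hp]; exact (extChartAt 𝓘(ℝ, E) (a i)).map_source (hxs i)
  have hbd : ∀ i, ‖AE β Fl g (a i) (a (σ i)) (p i)‖ ≤ C ∧
      ‖chartForm 𝓘(ℝ, E) β (a i) (p i)‖ ≤ C ∧ ‖RF.Rc Fl (a i) (p i)‖ ≤ C ∧
      2 * ‖B (x i)‖ * ‖fderiv ℝ (cf (a i) e) (p i)‖ ^ 2 * ‖PE β Fl (a i) (p i)‖ ^ 2 ≤ C := by
    intro i
    rw [hp]
    obtain ⟨h7, h8, h9, h10⟩ := hC₀ (a i) (hat i) (a (σ i)) (hat _) (x i) (hxK i) (x (σ i))
      (haV i) (haV _) (hs0 i)
    exact ⟨h7.trans hCC, h8.trans hCC, h9.trans hCC, h10.trans hCC⟩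
  have hLin : Lin σ (fun i => AE β Fl g (a i) (a (σ i)) (p i)) (fun i => PE β Fl (a i) (p i))
      (fun i => chartForm 𝓘(ℝ, E) β (a i) (p i)) (fun i => qf B e (a i) (x i)) C κ c₂ := by
    refine ⟨?_, ?_, ?_, ?_, ?_, ?_, ?_, ?_⟩
    · intro i w
      exact (ContinuousLinearMap.le_opNorm _ _).trans
        (mul_le_mul_of_nonneg_right (hbd i).1 (norm_nonneg _))
    · intro i w
      have h7 := ((chartForm 𝓘(ℝ, E) β (a i) (p i)).le_opNorm w).trans
        (mul_le_mul_of_nonneg_right (hbd i).2.1 (norm_nonneg _))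
      exact h7
    · intro i w
      have h7 : w = PE β Fl (a i) (p i) w +
          chartForm 𝓘(ℝ, E) β (a i) (p i) w • RF.Rc Fl (a i) (p i) := by
        rw [PE_apply, sub_add_cancel]
      have h8 : ‖w‖ ≤ ‖PE β Fl (a i) (p i) w‖ +
          ‖chartForm 𝓘(ℝ, E) β (a i) (p i) w • RF.Rc Fl (a i) (p i)‖ := by
        nth_rewrite 1 [h7]
        exact norm_add_le _ _
      rw [norm_smul, Real.norm_eq_abs] at h8
      refine h8.trans ?_
      rw [mul_comm C]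
      have h9 := mul_le_mul_of_nonneg_left (hbd i).2.2.1
        (abs_nonneg (chartForm 𝓘(ℝ, E) β (a i) (p i) w))
      linarith
    · intro i w
      exact b_PE c h (a i) (hpt i) w
    · intro i w
      exact P_PE c h (a i) (hpt i) w
    · intro i w
      have h7 := hb2 (a i) (hat i) (a (σ i)) (hat _) (x i) (hxK i) (x (σ i))
        (haV i) (haV _) (hs2 i)
      rw [← hp, ← hp] at h7
      have h8 := (ContinuousLinearMap.le_opNorm ((chartForm 𝓘(ℝ, E) β (a (σ i)) (p (σ i))).comp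
        (AE β Fl g (a i) (a (σ i)) (p i)) - chartForm 𝓘(ℝ, E) β (a i) (p i)) w).trans
        (mul_le_mul_of_nonneg_right h7 (norm_nonneg _))
      exact h8
    · intro i w
      have h7 := hq2 (a i) (hat i) (a (σ i)) (hat _) (x i) (hxK i) (x (σ i))
        (haV i) (haV _) (hs3 i) w
      rw [← hp, ← hp] at h7
      exact h7
    · intro i v w
      simp only [qf, ← hp]
      have h7 := (hbd i).2.2.2
      rw [map_sub, map_sub]
      set u := fderiv ℝ (cf (a i) e) (p i) (PE β Fl (a i) (p i) v) with hu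
      set u' := fderiv ℝ (cf (a i) e) (p i) (PE β Fl (a i) (p i) w) with hu'
      have e1 : B (x i) (u - u') (u - u') - B (x i) u u =
          B (x i) u' u' - B (x i) u u' - B (x i) u' u := by
        simp only [map_sub, sub_apply]
        ring
      have e2 : ‖u‖ ≤ ‖fderiv ℝ (cf (a i) e) (p i)‖ * (‖PE β Fl (a i) (p i)‖ * ‖v‖) :=
        (ContinuousLinearMap.le_opNorm _ _).trans
          (mul_le_mul_of_nonneg_left (ContinuousLinearMap.le_opNorm _ _) (norm_nonneg _))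
      have e3 : ‖u'‖ ≤ ‖fderiv ℝ (cf (a i) e) (p i)‖ * (‖PE β Fl (a i) (p i)‖ * ‖w‖) :=
        (ContinuousLinearMap.le_opNorm _ _).trans
          (mul_le_mul_of_nonneg_left (ContinuousLinearMap.le_opNorm _ _) (norm_nonneg _))
      have e4 : ∀ s s' : F, |B (x i) s s'| ≤ ‖B (x i)‖ * ‖s‖ * ‖s'‖ := fun s s' =>
        ContinuousLinearMap.le_opNorm₂ (B (x i)) s s'
      rw [e1]
      set J := ‖fderiv ℝ (cf (a i) e) (p i)‖ with hJ
      set Q := ‖PE β Fl (a i) (p i)‖ with hQ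
      have hJ0 : 0 ≤ J := norm_nonneg _
      have hQ0 : 0 ≤ Q := norm_nonneg _
      have hB0 : 0 ≤ ‖B (x i)‖ := ContinuousLinearMap.opNorm_nonneg _
      calc |B (x i) u' u' - B (x i) u u' - B (x i) u' u|
          ≤ |B (x i) u' u'| + |B (x i) u u'| + |B (x i) u' u| := by
            refine (abs_sub _ _).trans ?_
            gcongr
            exact abs_sub _ _
        _ ≤ ‖B (x i)‖ * ‖u'‖ * ‖u'‖ + ‖B (x i)‖ * ‖u‖ * ‖u'‖ + ‖B (x i)‖ * ‖u'‖ * ‖u‖ := by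
            gcongr <;> exact e4 _ _
        _ ≤ ‖B (x i)‖ * (J * (Q * ‖w‖)) * (J * (Q * ‖w‖)) +
            ‖B (x i)‖ * (J * (Q * ‖v‖)) * (J * (Q * ‖w‖)) +
            ‖B (x i)‖ * (J * (Q * ‖w‖)) * (J * (Q * ‖v‖)) := by gcongr
        _ ≤ (2 * ‖B (x i)‖ * J ^ 2 * Q ^ 2) * (‖v‖ * ‖w‖ + ‖w‖ ^ 2) := by
            have : 0 ≤ ‖B (x i)‖ * J ^ 2 * Q ^ 2 * ‖w‖ ^ 2 := by positivity
            nlinarith
        _ ≤ C * (‖v‖ * ‖w‖ + ‖w‖ ^ 2) := by gcongr
  -- the nonlinear equations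
  obtain ⟨w, hwε, hw⟩ := shadow hLin hC1 hκ0 hc₂0.le
    (by
      have h7 : C * c₂ ≤ C * (1 / (2 * C)) := by
        gcongr
        exact min_le_left _ _
      have h8 : C * (1 / (2 * C)) = 1 / 2 := by field_simp
      linarith) (min_le_right _ _) hKk0 hKk2
    (Γ := fun i w => GE β Fl g (a i) (a (σ i)) (p i) w - p (σ i)) hc₁0.le hε0
    (by
      intro i w w' hw hw'
      have h7 := h4 (a i) (hat i) (a (σ i)) (hat _) (x i) (hxK i) (x (σ i))
        (haV i) (haV _) (hs4 i) w w' (hw.trans (min_le_left _ _)) (hw'.trans (min_le_left _ _))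
      rw [← hp] at h7
      have h8 : GE β Fl g (a i) (a (σ i)) (p i) w - p (σ i) -
          (GE β Fl g (a i) (a (σ i)) (p i) w' - p (σ i)) =
          GE β Fl g (a i) (a (σ i)) (p i) w - GE β Fl g (a i) (a (σ i)) (p i) w' := by abel
      rw [h8]
      exact h7) (r := r) le_rfl hr0.le
    (by
      have h7 : ∀ i, GE β Fl g (a i) (a (σ i)) (p i) 0 - p (σ i) =
          extChartAt 𝓘(ℝ, E) (a (σ i)) (g (x i)) -
            extChartAt 𝓘(ℝ, E) (a (σ i)) (x (σ i)) := by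
        intro i
        have h8 : GE β Fl g (a i) (a (σ i)) (p i) 0 =
            extChartAt 𝓘(ℝ, E) (a (σ i)) (g (x i)) := by
          unfold GE
          rw [map_zero, map_zero, add_zero, h.zero, hp,
            (extChartAt 𝓘(ℝ, E) (a i)).left_inv (hxs i)]
        rw [h8, hp]
      simp only [h7]
      rw [Finset.sum_eq_single (Fin.last m)]
      · have h8 := h6 (a (Fin.last m)) (hat _) (a (σ (Fin.last m))) (hat _) (x (Fin.last m))
          (hxK _) (x (σ (Fin.last m))) (haV _) (haV _) (hs6 _)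
        gcongr
      · intro i _ hi
        rw [hne i hi, sub_self, norm_zero]
        simp
      · intro hi
        exact absurd (Finset.mem_univ _) hi)
  obtain ⟨y, hy⟩ : ∃ y : Fin (m + 1) → P, ∀ i, y i =
      (extChartAt 𝓘(ℝ, E) (a i)).symm (p i + PE β Fl (a i) (p i) (w i)) := ⟨_, fun _ => rfl⟩
  obtain ⟨s, hs⟩ : ∃ s : Fin (m + 1) → ℝ, ∀ i, s i = chartForm 𝓘(ℝ, E) β (a i) (p i) (w i) :=
    ⟨_, fun _ => rfl⟩
  have hdyn : ∀ i, Fl (g (y i)) (s i) ∈ (extChartAt 𝓘(ℝ, E) (a (σ i))).source ∧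
      Inc β B e (fun z => Fl (g z) (s i)) (y i) ∧ ‖e (y i) - e (x i)‖ < η := by
    intro i
    have h7 := h5 (a i) (hat i) (a (σ i)) (hat _) (x i) (hxK i) (x (σ i))
        (haV i) (haV _) (hs5 i) (w i) ((hwε i).trans (min_le_right _ _))
    rw [← hp, ← hy, ← hs] at h7
    exact h7
  have hstep2 : ∀ i, Fl (g (y i)) (s i) = y (σ i) := by
    intro i
    have h7 := hw i
    rw [sub_eq_iff_eq_add'] at h7
    have h8 : GE β Fl g (a i) (a (σ i)) (p i) (w i) =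
        extChartAt 𝓘(ℝ, E) (a (σ i)) (Fl (g (y i)) (s i)) := by
      unfold GE
      rw [← hy, ← hs]
    rw [h8] at h7
    rw [hy (σ i), ← h7, (extChartAt 𝓘(ℝ, E) (a (σ i))).left_inv (hdyn i).1]
  -- unroll
  obtain ⟨idx, hidx⟩ : ∃ idx : ℕ → Fin (m + 1), ∀ k, (idx k : ℕ) = k % (m + 1) :=
    ⟨fun k => ⟨k % (m + 1), Nat.mod_lt _ (Nat.succ_pos m)⟩, fun _ => rfl⟩
  have hidxs : ∀ k, σ (idx k) = idx (k + 1) := by
    intro k
    rw [hσ, finRotate_apply]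
    apply Fin.ext
    rw [Fin.val_add, hidx, hidx, Fin.val_one', ← Nat.add_mod]
  have hidx0 : idx 0 = 0 := Fin.ext (by rw [hidx]; simp)
  have hidxm : idx (m + 1) = 0 := Fin.ext (by rw [hidx]; simp)
  obtain ⟨φ, hφ, hφ0, hφi⟩ := chain h c hg (B := B) (e := e)
    (y := fun k => y (idx k)) (s := fun k => s (idx k))
    (fun k => by rw [hstep2, hidxs])
    (fun k => (hdyn _).2.1) m
  simp only [hidx0, hidxm] at hφ0 hφi
  obtain ⟨T, hT, hyT⟩ := closed_of_fixed c h hφ hφ0 (by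
    intro v hv hfix
    by_contra hv0
    have h7 := hφi v hv hv0
    rw [hφ0, hfix] at h7
    exact lt_irrefl _ h7)
  refine ⟨y 0, T, hT, hyT, ?_⟩
  have h7 := (hdyn 0).2.2
  have h8 : x 0 = x₀ := by rw [hxdef]; rfl
  rw [h8] at h7
  exact h7

end Pool.Agent.R774.Hyp
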