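import Mathlib
import Pool.Agent.R774.Root4

/-! Roots of the Reeb flow: the statement in terms of the elementary definitions. -/

open scoped Topology ContDiff Manifold
open Set Filter Pool.Agent.Helper186 Pool.Agent.H826R2 Pool.Agent.H826R2.WStmt
open Pool.Agent.W671 Pool.Agent.W671.RStmt

noncomputable section

set_option linter.unusedSectionVars false

namespace Pool.Agent.R774.RootStmt

universe u

section

variable {E : Type*} [NormedAddCommGroup E] [NormedSpace ℝ E]
  {M : Type*} [TopologicalSpace M] [ChartedSpace E M]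
  {F : Type*} [NormedAddCommGroup F] [NormedSpace ℝ F]

/-- `h : M → M` is a smooth map preserving the one-form `α`. -/
structure IsStrict (α : M → Cov E) (h : M → M) : Prop where
  smooth : ContMDiff 𝓘(ℝ, E) 𝓘(ℝ, E) ∞ h
  preserves : pull h α = α

/-- The maps `h k` are transversely close to the identity: there are continuous functions `τ k` on `M`
such that the maps `x ↦ Φ_{τ k x} (h k x)`, where `Φ` is the flow of the vector field `R`, converge
uniformly to the identity and such that, for large `k` and every `x`, with `t = τ k x` and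
`y = Φ_t (h k x)`, the derivative of `Φ_t ∘ h k` at `x` is, after the addition of a multiple
`v ↦ lam v • R y` of `R` (with a linear form `lam`), bounded by a constant `C` and bounded away from
`-1` by `1 / C`; lengths are measured by means of `e`. This holds with `τ k = 0`, `lam = 0` and any
`C > 1` if `h k` converges to the identity in the `C^1` topology. -/
structure NearId (e : M → F) (R : M → E) (Φ : M → ℝ → M) (h : ℕ → M → M) (τ : ℕ → M → ℝ) :
    Prop where
  cont : ∀ k, Continuous (τ k)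
  uniform : ∀ ε > 0, ∀ᶠ k in atTop, ∀ x, ‖e (Φ (h k x) (τ k x)) - e x‖ < ε
  deriv : ∃ C : ℝ, ∀ᶠ k in atTop, ∀ x : M, ∃ lam : E →L[ℝ] ℝ, ∀ v : E,
    ‖D (E := E) (E' := F) e (Φ (h k x) (τ k x))
        (D (E := E) (E' := E) (fun y => Φ (h k y) (τ k x)) x v + lam v • R (Φ (h k x) (τ k x)))‖ ≤
      C * ‖D (E := E) (E' := F) e x v‖ ∧
    ‖D (E := E) (E' := F) e x v‖ ≤ C * ‖D (E := E) (E' := F) e (Φ (h k x) (τ k x))
        (D (E := E) (E' := E) (fun y => Φ (h k y) (τ k x)) x v + lam v • R (Φ (h k x) (τ k x))) +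
      D (E := E) (E' := F) e x v‖

end

variable {E : Type u} [NormedAddCommGroup E] [NormedSpace ℝ E] [FiniteDimensional ℝ E]
  {M : Type*} [TopologicalSpace M] [ChartedSpace E M] [IsManifold 𝓘(ℝ, E) ∞ M]
  {F : Type*} [NormedAddCommGroup F] [NormedSpace ℝ F]

lemma IsStrict.toSt {α : M → Cov E} {h : M → M} (hh : IsStrict α h) :
    Root.St (toForm α) h where
  smooth := hh.smooth
  strict := fun x u => by
    have h1 := congrFun hh.preserves x
    exact congrArg (fun a : Cov E => ev a (u : E)) h1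

theorem exists_periodic_of_roots [T2Space M] [CompactSpace M]
    (α : M → Cov E) (hα : IsContact α) (R : M → E) (hR : IsReeb α R)
    (Φ : M → ℝ → M) (hΦ : IsFlow R Φ)
    (e : M → F) (he : IsInjImmersion (E := E) e)
    (h : ℕ → M → M) (hh : ∀ k, IsStrict α (h k)) (τ : ℕ → M → ℝ) (hτ : NearId e R Φ h τ)
    (ρ : ℕ → ℝ) (hroot : ∀ k x, ∃ n : ℕ, 0 < n ∧ (h k)^[n] x = Φ x (n * ρ k))
    (hne : ∀ k, ∃ x, h k x ≠ Φ x (ρ k)) :
    ∃ (γ : ℝ → M) (T : ℝ), IsPeriodicOrbit R γ T := by
  have : IsManifold 𝓘(ℝ, E) 1 M := IsManifold.of_le (n := ∞) (by simp)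
  have : Nonempty M := ⟨(hne 0).choose⟩
  have cd : Wein.CD (toForm α) (fun x => (R x : TangentSpace 𝓘(ℝ, E) x)) :=
    ⟨hα.toWein, hR.toWein⟩
  have hRF := WU.RF.of cd hΦ.zero hΦ.integral
  obtain ⟨C, hC⟩ := hτ.deriv
  have hcore := Root.root_core (F := F) cd hRF he.smooth he.injective he.immersion
    (η := h) (fun k => (hh k).toSt) (τ := τ) hτ.cont hτ.uniform (C := C) (by
      filter_upwards [hC] with k hk x
      obtain ⟨lam, hlam⟩ := hk x
      refine ⟨lam, fun v => ?_⟩
      have ha := hlam v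
      have e3 : D (E := E) (E' := F) e (Φ (h k x) (τ k x))
          (D (E := E) (E' := E) (fun y => Φ (h k y) (τ k x)) x v +
            lam v • R (Φ (h k x) (τ k x))) =
          WU.dv E e (Φ (h k x) (τ k x))
            (WU.dm E (fun y => Φ (h k y) (τ k x)) x v) +
            lam v • WU.dv E e (Φ (h k x) (τ k x)) (R (Φ (h k x) (τ k x))) := by
        rw [map_add, map_smul]
        rfl
      rw [e3] at ha
      exact ha)
  obtain ⟨k, x₁, t₁, x₂, t₂, h₁, h₂, heq⟩ := hcore.exists
  have hclosed : ∀ (x : M) (t : ℝ), Φ (h k x) t = x → ρ k + t ≠ 0 →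
      ∃ (γ : ℝ → M) (T : ℝ), IsPeriodicOrbit R γ T := by
    intro x t hx hct
    obtain ⟨n, hn, hr⟩ := hroot k x
    have hn' : (n : ℝ) ≠ 0 := by exact_mod_cast hn.ne'
    have hct' : n * (ρ k + t) ≠ 0 := mul_ne_zero hn' hct
    have h3 := Root.iterate_translated cd hRF (hh k).toSt hx n
    rw [hr] at h3
    have h4 : Φ x (n * (ρ k + t)) = x := by
      rw [mul_add, hRF.add, h3, ← hRF.add, neg_add_cancel, hRF.zero]
    have h5 : Φ x (-(n * (ρ k + t))) = x := by
      nth_rewrite 1 [← h4]
      rw [← hRF.add, add_neg_cancel, hRF.zero]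
    refine ⟨Φ x, |n * (ρ k + t)|, abs_pos.2 hct', hΦ.integral x, fun s => ?_⟩
    rcases abs_choice (n * (ρ k + t)) with h6 | h6
    · rw [h6, add_comm, hRF.add, h4]
    · rw [h6, add_comm, hRF.add, h5]
  by_cases hc₁ : ρ k + t₁ = 0
  · by_cases hc₂ : ρ k + t₂ = 0
    · exfalso
      have e1 : t₁ = - ρ k := by linarith
      have e2 : t₂ = - ρ k := by linarith
      have h6 := heq (e1.trans e2.symm)
      obtain ⟨x, hx⟩ := hne k
      apply hx
      have h7 := h6 x
      rw [e1] at h7
      have h8 : Φ (Φ (h k x) (-(ρ k))) (ρ k) = Φ x (ρ k) := by rw [h7]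
      rw [← hRF.add, neg_add_cancel, hRF.zero] at h8
      exact h8
    · exact hclosed x₂ t₂ h₂ hc₂
  · exact hclosed x₁ t₁ h₁ hc₁

end Pool.Agent.R774.RootStmt
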