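import Mathlib
import Pool.Agent.R774.Hyp6
import Pool.Agent.R774.Root5

/-! Closed Reeb orbits from transversally hyperbolic strict contact maps: the statement in terms of the
elementary definitions. -/

open scoped Topology ContDiff Manifold
open Set Filter Pool.Agent.Helper186 Pool.Agent.H826R2 Pool.Agent.H826R2.WStmt
open Pool.Agent.W671 Pool.Agent.W671.RStmt Pool.Agent.R774.RootStmt

noncomputable section

set_option linter.unusedSectionVars false

namespace Pool.Agent.R774.HypStmt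

universe u

section

variable {E : Type*} [NormedAddCommGroup E] [NormedSpace ℝ E]
  {M : Type*} [TopologicalSpace M] [ChartedSpace E M]
  {F : Type*} [NormedAddCommGroup F] [NormedSpace ℝ F]

/-- The quadratic form `Q_x(v) = B_x (De v, De v)` on the tangent spaces of `M`, given by bilinear forms
`B x` on the target of `e : M → F`. -/
def quad (e : M → F) (B : M → F →L[ℝ] F →L[ℝ] ℝ) (x : M) (v : E) : ℝ :=
  B x (D (E := E) (E' := F) e x v) (D (E := E) (E' := F) e x v)

/-- The map `g` is transversally hyperbolic on the set `K`: the quadratic form `Q = quad e B`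
(of any signature) increases strictly under `Dg` on the kernel of `α`, at the points of `K`. -/
def HyperbolicOn (α : M → Cov E) (e : M → F) (B : M → F →L[ℝ] F →L[ℝ] ℝ) (g : M → M)
    (K : Set M) : Prop :=
  ∀ x ∈ K, ∀ v : E, ev (α x) v = 0 → v ≠ 0 →
    quad e B x v < quad e B (g x) (D (E := E) (E' := E) g x v)

end

variable {E : Type u} [NormedAddCommGroup E] [NormedSpace ℝ E] [FiniteDimensional ℝ E]
  {M : Type*} [TopologicalSpace M] [ChartedSpace E M] [IsManifold 𝓘(ℝ, E) ∞ M]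
  {F : Type*} [NormedAddCommGroup F] [NormedSpace ℝ F]

theorem periodic_near [T2Space M] [CompactSpace M]
    (α : M → Cov E) (hα : IsContact α) (R : M → E) (hR : IsReeb α R)
    (g : M → M) (hg : IsStrict α g)
    (K : Set M) (hK : IsClosed K) (hgK : ∀ x ∈ K, g x ∈ K)
    (e : M → F) (he : IsInjImmersion (E := E) e) (B : M → F →L[ℝ] F →L[ℝ] ℝ) (hB : Continuous B)
    (hyp : HyperbolicOn α e B g K) (x : M) (hx : x ∈ K) (q : M)
    (hq : MapClusterPt q atTop (fun k : ℕ => g^[k] x)) (U : Set M) (hU : U ∈ 𝓝 q) :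
    ∃ (γ : ℝ → M) (T : ℝ), IsPeriodicOrbit R γ T ∧ γ 0 ∈ U := by
  have : IsManifold 𝓘(ℝ, E) 1 M := IsManifold.of_le (n := ∞) (by simp)
  have cd : Wein.CD (toForm α) (fun x => (R x : TangentSpace 𝓘(ℝ, E) x)) :=
    ⟨hα.toWein, hR.toWein⟩
  have hRs := WU.smooth_reeb cd
  choose Fl hF0 hF using fun x : M => Wein.complete_of_compact hRs isCompact_univ
    (fun y hy => absurd (mem_univ y) hy) x
  have hRF := WU.RF.of cd hF0 hF
  -- a metric neighbourhood
  have hemb : Topology.IsClosedEmbedding e := he.smooth.continuous.isClosedEmbedding he.injective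
  obtain ⟨η, hη, hηU⟩ : ∃ η > 0, ∀ y, ‖e y - e q‖ < 2 * η → y ∈ U := by
    rw [hemb.isInducing.nhds_eq_comap] at hU
    obtain ⟨W, hW, hWU⟩ := Filter.mem_comap.1 hU
    obtain ⟨ρ, hρ, hρW⟩ := Metric.mem_nhds_iff.1 hW
    refine ⟨ρ / 2, by positivity, fun y hy => hWU (hρW ?_)⟩
    rw [Metric.mem_ball, dist_eq_norm]
    linarith
  obtain ⟨δ, hδ, hclose⟩ := Hyp.closing cd hRF hg.toSt hB he.smooth he.injective hK hgK
    (fun x hx v hv hv0 => hyp x hx v hv hv0) hη
  have hfreq : ∃ᶠ k in atTop, ‖e (g^[k] x) - e q‖ < min (δ / 2) η := by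
    have h1 : {y | ‖e y - e q‖ < min (δ / 2) η} ∈ 𝓝 q := by
      have h2 : Continuous (fun y => ‖e y - e q‖) :=
        (he.smooth.continuous.sub continuous_const).norm
      have h3 := h2.tendsto q
      simp only [sub_self, norm_zero] at h3
      exact h3.eventually (gt_mem_nhds (lt_min (by positivity) hη))
    exact hq.frequently h1
  obtain ⟨k₁, -, hk₁⟩ := (frequently_atTop.1 hfreq) 0
  obtain ⟨k₂, hk, hk₂⟩ := (frequently_atTop.1 hfreq) (k₁ + 1)
  have hitK : ∀ k : ℕ, g^[k] x ∈ K := by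
    intro k
    induction k with
    | zero => exact hx
    | succ k ih => rw [Function.iterate_succ_apply']; exact hgK _ ih
  obtain ⟨m, hm⟩ : ∃ m, k₂ = m + 1 + k₁ := ⟨k₂ - k₁ - 1, by omega⟩
  obtain ⟨y, T, hT, hyT, hyn⟩ := hclose (g^[k₁] x) (hitK k₁) m (by
    rw [← Function.iterate_add_apply, ← hm]
    have h1 : e (g^[k₂] x) - e (g^[k₁] x) =
        (e (g^[k₂] x) - e q) - (e (g^[k₁] x) - e q) := by abel
    rw [h1]
    refine (norm_sub_le _ _).trans_lt ?_
    have h2 := hk₂.trans_le (min_le_left _ _)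
    have h3 := hk₁.trans_le (min_le_left _ _)
    linarith)
  refine ⟨Fl y, T, ⟨hT, hF y, fun t => ?_⟩, ?_⟩
  · rw [add_comm, hRF.add, hyT]
  · rw [hF0]
    apply hηU
    have h1 : e y - e q = (e y - e (g^[k₁] x)) + (e (g^[k₁] x) - e q) := by abel
    rw [h1]
    refine (norm_add_le _ _).trans_lt ?_
    have h3 := hk₁.trans_le (min_le_right _ _)
    linarith

theorem exists_periodic_hyperbolic [T2Space M] [CompactSpace M]
    (α : M → Cov E) (hα : IsContact α) (R : M → E) (hR : IsReeb α R)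
    (g : M → M) (hg : IsStrict α g)
    (K : Set M) (hK : IsClosed K) (hKne : K.Nonempty) (hgK : ∀ x ∈ K, g x ∈ K)
    (e : M → F) (he : IsInjImmersion (E := E) e) (B : M → F →L[ℝ] F →L[ℝ] ℝ) (hB : Continuous B)
    (hyp : HyperbolicOn α e B g K) :
    (∃ (γ : ℝ → M) (T : ℝ), IsPeriodicOrbit R γ T) ∧
      ∀ x ∈ K, ∀ q : M, MapClusterPt q atTop (fun k : ℕ => g^[k] x) → ∀ U ∈ 𝓝 q,
        ∃ (γ : ℝ → M) (T : ℝ), IsPeriodicOrbit R γ T ∧ γ 0 ∈ U := by
  have h2 : ∀ x ∈ K, ∀ q : M, MapClusterPt q atTop (fun k : ℕ => g^[k] x) → ∀ U ∈ 𝓝 q,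
        ∃ (γ : ℝ → M) (T : ℝ), IsPeriodicOrbit R γ T ∧ γ 0 ∈ U := fun x hx q hq U hU =>
    periodic_near α hα R hR g hg K hK hgK e he B hB hyp x hx q hq U hU
  refine ⟨?_, h2⟩
  obtain ⟨x, hx⟩ := hKne
  obtain ⟨q, hq⟩ := exists_clusterPt_of_compactSpace (map (fun k : ℕ => g^[k] x) atTop)
  obtain ⟨γ, T, h, -⟩ := h2 x hx q hq univ univ_mem
  exact ⟨γ, T, h⟩

end Pool.Agent.R774.HypStmt
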