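import Pool.Agent.TH94.MK.Main
import Pool.Agent.TH569.MK.ExpChain

/-!
Domains with compact quotient by affine groups whose linear parts are semilinear over a division
algebra `K` and bounded from below on `K`-hyperplanes: the boundary is a union of parallel
`K`-hyperplanes.
-/

set_option autoImplicit false

open Set Filter Topology Metric
open Pool.Agent.W689.Mk Pool.Agent.TH94.MK

namespace Pool.Agent.R774.MK

section lin
variable {K E : Type} [NormedDivisionRing K] [NormedAlgebra ℝ K]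
  [NormedAddCommGroup E] [NormedSpace ℝ E] [Module K E] [IsBoundedSMul K E]

/-- `K`-linear functionals -/
def KLin (ψ : E →L[ℝ] K) : Prop := ∀ (a : K) (v : E), ψ (a • v) = a * ψ v

theorem KLin.lim {Ψ : ℕ → E →L[ℝ] K} {ψ : E →L[ℝ] K} (h : ∀ j, KLin (Ψ j))
    (ht : Tendsto Ψ atTop (𝓝 ψ)) : KLin ψ := by
  intro a v
  have h1 : ∀ u : E, Tendsto (fun j => Ψ j u) atTop (𝓝 (ψ u)) := fun u =>
    ((ContinuousLinearMap.apply ℝ K u).continuous.tendsto ψ).comp ht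
  have h2 : Tendsto (fun j => Ψ j (a • v)) atTop (𝓝 (a * ψ v)) := by
    have := (h1 v).const_mul a
    refine this.congr fun j => ?_
    rw [h j a v]
  exact tendsto_nhds_unique (h1 (a • v)) h2

theorem KLin.exists_one {ψ : E →L[ℝ] K} (h : KLin ψ) (h0 : ψ ≠ 0) : ∃ v, ψ v = 1 := by
  obtain ⟨v, hv⟩ : ∃ v, ψ v ≠ 0 := by
    by_contra hcon
    push Not at hcon
    exact h0 (ContinuousLinearMap.ext fun v => by rw [hcon v]; rfl)
  exact ⟨(ψ v)⁻¹ • v, by rw [h, inv_mul_cancel₀ hv]⟩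

/-- vectors of the kernel of a limit are limits of vectors of the kernels -/
theorem ker_approx {Ψ : ℕ → E →L[ℝ] K} {ψ : E →L[ℝ] K} (h : ∀ j, KLin (Ψ j))
    (ht : Tendsto Ψ atTop (𝓝 ψ)) (h0 : ψ ≠ 0) {w : E} (hw : ψ w = 0) :
    ∃ W : ℕ → E, Tendsto W atTop (𝓝 w) ∧ ∀ᶠ j in atTop, Ψ j (W j) = 0 := by
  have h1 : ∀ u : E, Tendsto (fun j => Ψ j u) atTop (𝓝 (ψ u)) := fun u =>
    ((ContinuousLinearMap.apply ℝ K u).continuous.tendsto ψ).comp ht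
  obtain ⟨v, hv⟩ := (KLin.lim h ht).exists_one h0
  refine ⟨fun j => w - (Ψ j w * (Ψ j v)⁻¹) • v, ?_, ?_⟩
  · have h2 : Tendsto (fun j => Ψ j w * (Ψ j v)⁻¹) atTop (𝓝 (ψ w * (ψ v)⁻¹)) :=
      (h1 w).mul ((h1 v).inv₀ (by rw [hv]; exact one_ne_zero))
    have h3 := (tendsto_const_nhds (x := w)).sub (h2.smul_const v)
    rw [hw, zero_mul, zero_smul, sub_zero] at h3
    exact h3
  · have h2 : ∀ᶠ j in atTop, Ψ j v ≠ 0 := (h1 v).eventually_ne (by rw [hv]; exact one_ne_zero)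
    filter_upwards [h2] with j hj
    rw [map_sub, h j, mul_assoc, inv_mul_cancel₀ hj, mul_one, sub_self]

theorem ker_eq {ψ ψ' : E →L[ℝ] K} (h : KLin ψ) (h' : KLin ψ') (h0 : ψ ≠ 0) (h0' : ψ' ≠ 0)
    (hk : ∀ w, ψ' w = 0 → ψ w = 0) (w : E) : ψ w = 0 ↔ ψ' w = 0 := by
  refine ⟨fun hw => ?_, hk w⟩
  obtain ⟨v, hv⟩ := h'.exists_one h0'
  have h1 : ∀ u, ψ u = ψ' u * ψ v := by
    intro u
    have h2 : ψ (u - ψ' u • v) = 0 := hk _ (by rw [map_sub, h', hv, mul_one, sub_self])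
    rw [map_sub, h, sub_eq_zero] at h2
    exact h2
  have h2 : ψ v ≠ 0 := by
    intro h3
    apply h0
    ext u
    rw [h1 u, h3, mul_zero]; rfl
  have h3 := h1 w
  rw [hw] at h3
  exact (mul_eq_zero.1 h3.symm).resolve_right h2

variable (K) in
/-- `ψ` is the limit of functionals `Ψ j` such that `Ω` contains the discs of radius `ρ` of the
hyperplanes `ker Ψ j` about points converging to `q` -/
def Lim (Ω : Set E) (ρ : ℝ) (q : E) (ψ : E →L[ℝ] K) : Prop :=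
  KLin ψ ∧ ψ ≠ 0 ∧ ∃ (z : ℕ → E) (Ψ : ℕ → E →L[ℝ] K), Tendsto z atTop (𝓝 q) ∧
    Tendsto Ψ atTop (𝓝 ψ) ∧ (∀ j, KLin (Ψ j)) ∧ ∀ j w, Ψ j w = 0 → ‖w‖ ≤ ρ → z j + w ∈ Ω

theorem crossing {Ω : Set E} {ρ : ℝ} (hρ : 0 < ρ) {q : E} {ψ' : E →L[ℝ] K} (h : Lim K Ω ρ q ψ')
    {ψ : E →L[ℝ] K} (hψ : KLin ψ) {ε : ℝ} (hε : 0 < ε)
    (hpl : ∀ w, ψ w = 0 → ‖w‖ < ε → q + w ∉ Ω) : ∀ w, ψ' w = 0 → ψ w = 0 := by
  intro w hw
  by_contra hne
  obtain ⟨h1, h2, z, Ψ, hz, hΨ, hK, hin⟩ := h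
  obtain ⟨W, hW, hW0⟩ := ker_approx hK hΨ h2 hw
  have h3 : Tendsto (fun j => ψ (W j)) atTop (𝓝 (ψ w)) := (ψ.continuous.tendsto w).comp hW
  have h4 : Tendsto (fun j => ψ (z j - q)) atTop (𝓝 0) := by
    have h5 : Tendsto (fun j => z j - q) atTop (𝓝 (q - q)) := hz.sub_const q
    rw [sub_self] at h5
    have h6 := (ψ.continuous.tendsto (0 : E)).comp h5
    rwa [map_zero] at h6
  let s : ℕ → K := fun j => -(ψ (z j - q)) * (ψ (W j))⁻¹
  have hs : Tendsto s atTop (𝓝 0) := by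
    have := h4.neg.mul (h3.inv₀ hne)
    rwa [neg_zero, zero_mul] at this
  have hsW : Tendsto (fun j => s j • W j) atTop (𝓝 0) := by
    have := hs.smul hW
    rwa [zero_smul] at this
  have hsum : Tendsto (fun j => z j + s j • W j - q) atTop (𝓝 0) := by
    have := (hz.add hsW).sub_const q
    rwa [add_zero, sub_self] at this
  have e1 : ∀ᶠ j in atTop, ψ (W j) ≠ 0 := h3.eventually_ne hne
  have e2 : ∀ᶠ j in atTop, ‖s j • W j‖ < ρ := by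
    have := hsW.norm
    rw [norm_zero] at this
    exact this.eventually_lt_const hρ
  have e3 : ∀ᶠ j in atTop, ‖z j + s j • W j - q‖ < ε := by
    have := hsum.norm
    rw [norm_zero] at this
    exact this.eventually_lt_const hε
  obtain ⟨j, j1, j2, j3, j4⟩ := (e1.and (e2.and (e3.and hW0))).exists
  have h7 : ψ (z j + s j • W j - q) = 0 := by
    have : z j + s j • W j - q = (z j - q) + s j • W j := by abel
    rw [this, map_add, hψ]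
    show ψ (z j - q) + -(ψ (z j - q)) * (ψ (W j))⁻¹ * ψ (W j) = 0
    rw [mul_assoc, inv_mul_cancel₀ j1, mul_one, add_neg_cancel]
  have h8 := hpl _ h7 j3
  apply h8
  have h9 : q + (z j + s j • W j - q) = z j + s j • W j := by abel
  rw [h9]
  refine hin j _ ?_ j2.le
  rw [hK j, j4, mul_zero]

variable (K) in
/-- a limit hyperplane with a disc outside of `Ω` -/
def Good (Ω : Set E) (ρ : ℝ) (q : E) (ψ : E →L[ℝ] K) : Prop :=
  Lim K Ω ρ q ψ ∧ ∀ w, ψ w = 0 → ‖w‖ < ρ → q + w ∉ Ω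

theorem Good.closure {Ω : Set E} {ρ : ℝ} {q : E} {ψ : E →L[ℝ] K} (h : Good K Ω ρ q ψ)
    {w : E} (hw : ψ w = 0) (hwρ : ‖w‖ < ρ) : q + w ∈ closure Ω := by
  obtain ⟨⟨h1, h2, z, Ψ, hz, hΨ, hK, hin⟩, -⟩ := h
  obtain ⟨W, hW, hW0⟩ := ker_approx hK hΨ h2 hw
  have e1 : ∀ᶠ j in atTop, ‖W j‖ < ρ := hW.norm.eventually_lt_const hwρ
  refine mem_closure_of_tendsto (hz.add hW) ?_
  filter_upwards [hW0, e1] with j j1 j2
  exact hin j _ j1 j2.le

theorem step {Ω : Set E} {ρ : ℝ} (hρ : 0 < ρ) {q : E} {ψ : E →L[ℝ] K} (h : Good K Ω ρ q ψ)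
    {w : E} (hw : ψ w = 0) (hwρ : ‖w‖ < ρ / 2) {ψ' : E →L[ℝ] K} (h' : Good K Ω ρ (q + w) ψ')
    (u : E) : ψ u = 0 ↔ ψ' u = 0 := by
  refine ker_eq h.1.1 h'.1.1 h.1.2.1 h'.1.2.1 ?_ u
  refine crossing hρ h'.1 h.1.1 (ε := ρ / 2) (by linarith) fun v hv hvρ => ?_
  rw [add_assoc]
  refine h.2 _ (by rw [map_add, hw, hv, add_zero]) ?_
  calc ‖w + v‖ ≤ ‖w‖ + ‖v‖ := norm_add_le _ _
    _ < ρ := by linarith

/-- the whole hyperplane belongs to the boundary -/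
theorem whole {Ω : Set E} {ρ : ℝ} (hρ : 0 < ρ)
    (hB : ∀ p ∈ closure Ω, p ∉ Ω → ∃ ψ, Good K Ω ρ p ψ) {p : E} {ψ : E →L[ℝ] K}
    (h : Good K Ω ρ p ψ) {w : E} (hw : ψ w = 0) :
    p + w ∈ closure Ω ∧ p + w ∉ Ω ∧ ∃ ψ', Good K Ω ρ (p + w) ψ' ∧ ∀ u, ψ u = 0 ↔ ψ' u = 0 := by
  obtain ⟨N, hN⟩ := exists_nat_gt (‖w‖ / (ρ / 2))
  have hN0 : (0 : ℝ) < N := lt_of_le_of_lt (by positivity) hN
  have hstep : ‖((N : ℝ)⁻¹) • w‖ < ρ / 2 := by
    rw [norm_smul, norm_inv, Real.norm_of_nonneg hN0.le]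
    rw [div_lt_iff₀ (by positivity)] at hN
    rw [inv_mul_lt_iff₀ hN0]
    exact hN
  have key : ∀ i : ℕ, ∃ ψ', Good K Ω ρ (p + ((i : ℝ) * (N : ℝ)⁻¹) • w) ψ' ∧
      ∀ u, ψ u = 0 ↔ ψ' u = 0 := by
    intro i
    induction i with
    | zero =>
      refine ⟨ψ, ?_, fun u => Iff.rfl⟩
      simpa using h
    | succ i ih =>
      obtain ⟨ψ1, h1, h2⟩ := ih
      have h3 : ψ1 (((N : ℝ)⁻¹) • w) = 0 := by
        rw [map_smul, (h2 w).1 hw, smul_zero]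
      have e1 : p + (((i + 1 : ℕ) : ℝ) * (N : ℝ)⁻¹) • w =
          p + ((i : ℝ) * (N : ℝ)⁻¹) • w + ((N : ℝ)⁻¹) • w := by
        push_cast
        module
      have h4 := h1.closure h3 (hstep.trans (by linarith))
      have h5 := h1.2 _ h3 (hstep.trans (by linarith))
      obtain ⟨ψ2, h6⟩ := hB _ h4 h5
      rw [e1]
      exact ⟨ψ2, h6, fun u => (h2 u).trans (step hρ h1 h3 hstep h6 u)⟩
  obtain ⟨ψ', h1, h2⟩ := key N
  rw [mul_inv_cancel₀ hN0.ne', one_smul] at h1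
  refine ⟨?_, ?_, ψ', h1, h2⟩
  · have := h1.closure (w := 0) (map_zero _) (by rw [norm_zero]; exact hρ)
    rwa [add_zero] at this
  · have := h1.2 0 (map_zero _) (by rw [norm_zero]; exact hρ)
    rwa [add_zero] at this

/-- all boundary hyperplanes are parallel -/
theorem parallel {Ω : Set E} {ρ : ℝ} (hρ : 0 < ρ)
    (hB : ∀ p ∈ closure Ω, p ∉ Ω → ∃ ψ, Good K Ω ρ p ψ) {p q : E} {ψ φ : E →L[ℝ] K}
    (h : Good K Ω ρ p ψ) (h' : Good K Ω ρ q φ) (u : E) : ψ u = 0 ↔ φ u = 0 := by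
  by_cases hk : ∀ w, φ w = 0 → ψ w = 0
  · exact ker_eq h.1.1 h'.1.1 h.1.2.1 h'.1.2.1 hk u
  exfalso
  push Not at hk
  obtain ⟨w, hw, hne⟩ := hk
  -- the point of intersection
  let s : K := ψ (p - q) * (ψ w)⁻¹
  have hs : ψ (q + s • w - p) = 0 := by
    have : q + s • w - p = s • w - (p - q) := by abel
    rw [this, map_sub, h.1.1]
    show ψ (p - q) * (ψ w)⁻¹ * ψ w - ψ (p - q) = 0
    rw [mul_assoc, inv_mul_cancel₀ hne, mul_one, sub_self]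
  have hs' : φ (s • w) = 0 := by rw [h'.1.1, hw, mul_zero]
  obtain ⟨c1, c2, ψ1, c3, c4⟩ := whole hρ hB h hs
  obtain ⟨d1, d2, ψ2, d3, d4⟩ := whole hρ hB h' hs'
  have e : p + (q + s • w - p) = q + s • w := by abel
  rw [e] at c3
  -- both limits
  have h1 := crossing hρ c3.1 d3.1.1 hρ d3.2
  have h2 := ker_eq d3.1.1 c3.1.1 d3.1.2.1 c3.1.2.1 h1 w
  exact hne ((c4 w).2 (h2.1 ((d4 w).1 hw)))

end lin

end Pool.Agent.R774.MK
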