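import Pool.Agent.R774.MK1

set_option autoImplicit false

open Set Filter Topology Metric
open Pool.Agent.W689.Mk Pool.Agent.TH94.MK

namespace Pool.Agent.R774.MK

section semi
variable {K E Γ : Type} [NormedDivisionRing K] [NormedAlgebra ℝ K]
  [NormedAddCommGroup E] [NormedSpace ℝ E] [Module K E] [IsScalarTower ℝ K E] [IsBoundedSMul K E]

/-- a semilinear automorphism -/
def Semi (σ : K ≃+* K) (L : E ≃ₗ[ℝ] E) : Prop := ∀ (a : K) (v : E), L (a • v) = σ a • L v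

variable {σ : K ≃+* K} {L : E ≃ₗ[ℝ] E}

theorem Semi.real (h : Semi σ L) {v : E} (hv : v ≠ 0) (r : ℝ) (a : K) : σ (r • a) = r • σ a := by
  have h0 : L v ≠ 0 := fun h0 => hv (by simpa using h0)
  have h1 : σ (r • a) • L v = (r • σ a) • L v := by
    rw [← h, smul_assoc, map_smul, h, smul_assoc]
  by_contra hne
  have h2 : (σ (r • a) - r • σ a) • L v = 0 := by rw [sub_smul, h1, sub_self]
  rcases smul_eq_zero.1 h2 with h3 | h3
  · exact hne (sub_eq_zero.1 h3)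
  · exact h0 h3

theorem Semi.symm (h : Semi σ L) : Semi σ.symm L.symm := by
  intro a v
  apply L.injective
  rw [L.apply_symm_apply, h, σ.apply_symm_apply, L.apply_symm_apply]

theorem norm_smul_eq (a : K) (v : E) : ‖a • v‖ = ‖a‖ * ‖v‖ := by
  apply le_antisymm (_root_.norm_smul_le a v)
  by_cases ha : a = 0
  · rw [ha, norm_zero, zero_mul]; positivity
  have h1 : ‖v‖ ≤ ‖a⁻¹‖ * ‖a • v‖ := by
    calc ‖v‖ = ‖a⁻¹ • a • v‖ := by rw [smul_smul, inv_mul_cancel₀ ha, one_smul]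
      _ ≤ _ := _root_.norm_smul_le _ _
  rw [norm_inv] at h1
  have h2 : 0 < ‖a‖ := norm_pos_iff.2 ha
  rw [inv_mul_eq_div, le_div_iff₀ h2] at h1
  linarith

variable [FiniteDimensional ℝ E]

theorem Semi.norm_le (h : Semi σ L) {v : E} (hv : v ≠ 0) (a : K) : ‖σ a‖ ≤ ‖a‖ := by
  let Lc : E →L[ℝ] E := LinearMap.toContinuousLinearMap (L : E →ₗ[ℝ] E)
  have h0 : L v ≠ 0 := fun h0 => hv (by simpa using h0)
  have hv0 : 0 < ‖L v‖ := norm_pos_iff.2 h0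
  -- bound for all powers
  have h1 : ∀ n : ℕ, ‖σ a‖ ^ n ≤ (‖Lc‖ * ‖v‖ / ‖L v‖) * ‖a‖ ^ n := by
    intro n
    have h2 : ‖σ a‖ ^ n * ‖L v‖ ≤ ‖Lc‖ * (‖a‖ ^ n * ‖v‖) := by
      calc ‖σ a‖ ^ n * ‖L v‖ = ‖σ (a ^ n) • L v‖ := by rw [norm_smul_eq, map_pow, norm_pow]
        _ = ‖Lc (a ^ n • v)‖ := by rw [← h]; rfl
        _ ≤ ‖Lc‖ * ‖a ^ n • v‖ := Lc.le_opNorm _
        _ = ‖Lc‖ * (‖a‖ ^ n * ‖v‖) := by rw [norm_smul_eq, norm_pow]
    rw [div_mul_eq_mul_div, le_div_iff₀ hv0]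
    linarith
  by_contra hcon
  push Not at hcon
  by_cases ha : a = 0
  · rw [ha] at hcon
    simp at hcon
  have ha0 : 0 < ‖a‖ := norm_pos_iff.2 ha
  have h3 : 1 < ‖σ a‖ / ‖a‖ := (one_lt_div ha0).2 hcon
  obtain ⟨n, hn⟩ := pow_unbounded_of_one_lt (‖Lc‖ * ‖v‖ / ‖L v‖) h3
  have h4 := h1 n
  rw [div_pow, lt_div_iff₀ (by positivity)] at hn
  linarith

theorem Semi.norm_eq (h : Semi σ L) {v : E} (hv : v ≠ 0) (a : K) : ‖σ a‖ = ‖a‖ := by
  apply le_antisymm (h.norm_le hv a)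
  have h0 : L v ≠ 0 := fun h0 => hv (by simpa using h0)
  have := h.symm.norm_le h0 (σ a)
  rwa [σ.symm_apply_apply] at this

variable [FiniteDimensional ℝ K]

/-- the image of a functional under a semilinear map -/
theorem Semi.push (h : Semi σ L) {v : E} (hv : v ≠ 0) {f : E →L[ℝ] K} (hf : KLin f)
    (hf0 : f ≠ 0) : ∃ g : E →L[ℝ] K, KLin g ∧ ‖g‖ = 1 ∧ ∀ u, g (L u) = 0 → f u = 0 := by
  let S : K →ₗ[ℝ] K :=
    { toFun := σ
      map_add' := map_add σ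
      map_smul' := fun r a => h.real hv r a }
  let g0 : E →L[ℝ] K := LinearMap.toContinuousLinearMap
    (S ∘ₗ (f : E →ₗ[ℝ] K) ∘ₗ (L.symm : E →ₗ[ℝ] E))
  have hg0 : ∀ u, g0 u = σ (f (L.symm u)) := fun u => rfl
  have hK : KLin g0 := by
    intro a u
    rw [hg0, h.symm, hf, map_mul, σ.apply_symm_apply, ← hg0]
  have hne : g0 ≠ 0 := by
    intro h1
    apply hf0
    ext u
    have h2 : g0 (L u) = 0 := by rw [h1]; rfl
    rw [hg0, L.symm_apply_apply] at h2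
    simpa using h2
  have hn : 0 < ‖g0‖ := norm_pos_iff.2 hne
  refine ⟨‖g0‖⁻¹ • g0, ?_, ?_, ?_⟩
  · intro a u
    rw [ContinuousLinearMap.smul_apply, hK, ContinuousLinearMap.smul_apply, mul_smul_comm]
  · rw [norm_smul, norm_inv, norm_norm, inv_mul_cancel₀ hn.ne']
  · intro u hu
    rw [ContinuousLinearMap.smul_apply, smul_eq_zero] at hu
    rcases hu with h1 | h1
    · exact absurd h1 (inv_ne_zero hn.ne')
    · rw [hg0, L.symm_apply_apply] at h1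
      simpa using h1

variable [Group Γ] {hol : Γ →* (E ≃ᵃ[ℝ] E)}

theorem good_of_boundary {Ω : Set E} (hΩ : IsOpen Ω)
    (hinv : ∀ (γ : Γ), ∀ q ∈ Ω, hol γ q ∈ Ω)
    (hpd : ∀ C : Set E, IsCompact C → C ⊆ Ω → {γ : Γ | ∃ c ∈ C, hol γ c ∈ C}.Finite)
    {C0 : Set E} (hC0 : IsCompact C0) (hC0Ω : C0 ⊆ Ω)
    (hcc : ∀ q ∈ Ω, ∃ γ : Γ, ∃ c ∈ C0, hol γ c = q) {δ : ℝ} (hδ : 0 < δ)
    (hsemi : ∀ γ : Γ, ∃ σ : K ≃+* K, Semi σ (hol γ).linear)
    (hV : ∀ γ : Γ, ∃ f : E →L[ℝ] K, KLin f ∧ f ≠ 0 ∧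
      ∀ v, f v = 0 → δ * ‖v‖ ≤ ‖(hol γ).linear v‖) :
    ∃ ρ > 0, ∀ p ∈ closure Ω, p ∉ Ω → ∃ ψ : E →L[ℝ] K, Good K Ω ρ p ψ := by
  have : ProperSpace E := FiniteDimensional.proper_real E
  obtain ⟨r, hr, hrΩ⟩ := hC0.exists_cthickening_subset_open hΩ hC0Ω
  refine ⟨δ * r, by positivity, fun p hp hpΩ => ?_⟩
  obtain ⟨a, haΩ, ha⟩ := mem_closure_iff_seq_limit.1 hp
  choose γ c hc hγc using fun k => hcc (a k) (haΩ k)
  have hC1 : IsCompact (cthickening r C0) := hC0.cthickening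
  have hin : ∀ k (w : E), ‖w‖ ≤ r → c k + w ∈ cthickening r C0 := by
    intro k w hw
    refine mem_cthickening_of_dist_le _ _ _ _ (hc k) ?_
    rw [dist_eq_norm, add_sub_cancel_left]; exact hw
  have hmove : ∀ k (w : E), hol (γ k) (c k + w) = a k + (hol (γ k)).linear w := by
    intro k w
    rw [hol_add, hγc k]
  -- first claim
  have claim1 : ∀ q ∈ Ω, ∃ ε > 0, ∀ᶠ k in atTop, ∀ w : E, ‖w‖ ≤ r →
      a k + (hol (γ k)).linear w ∉ closedBall q ε := by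
    intro q hq
    obtain ⟨ε, hε, hεΩ⟩ := Metric.nhds_basis_closedBall.mem_iff.1 (hΩ.mem_nhds hq)
    refine ⟨ε, hε, ?_⟩
    have hC : IsCompact (cthickening r C0 ∪ closedBall q ε) := hC1.union (isCompact_closedBall _ _)
    have hCΩ : cthickening r C0 ∪ closedBall q ε ⊆ Ω := union_subset hrΩ hεΩ
    have hF := hpd _ hC hCΩ
    set F := {γ : Γ | ∃ c ∈ cthickening r C0 ∪ closedBall q ε,
      hol γ c ∈ cthickening r C0 ∪ closedBall q ε} with hFdef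
    have hT : IsCompact (⋃ g ∈ F, hol g '' C0) :=
      hF.isCompact_biUnion fun g _ => hC0.image (hol_cont g)
    have hpT : p ∉ ⋃ g ∈ F, hol g '' C0 := by
      intro hcon
      obtain ⟨g, _, hcon⟩ := mem_iUnion₂.1 hcon
      obtain ⟨c', hc', rfl⟩ := hcon
      exact hpΩ (hinv g c' (hC0Ω hc'))
    have hev : ∀ᶠ k in atTop, a k ∉ ⋃ g ∈ F, hol g '' C0 :=
      ha.eventually (hT.isClosed.isOpen_compl.mem_nhds hpT)
    filter_upwards [hev] with k hk w hw hcon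
    apply hk
    refine mem_iUnion₂.2 ⟨γ k, ?_, c k, hc k, hγc k⟩
    refine ⟨c k + w, Or.inl (hin k w hw), Or.inr ?_⟩
    rw [hmove]; exact hcon
  -- a nonzero vector
  obtain ⟨f0, -, hf0, -⟩ := hV 1
  obtain ⟨v0, hv0⟩ : ∃ v0 : E, v0 ≠ 0 := by
    by_contra hcon
    push Not at hcon
    apply hf0
    ext v
    rw [hcon v, map_zero, map_zero]
  -- functionals
  have hex : ∀ k, ∃ g : E →L[ℝ] K, KLin g ∧ ‖g‖ = 1 ∧
      ∀ w, g w = 0 → ‖w‖ ≤ δ * r → ∃ v, ‖v‖ ≤ r ∧ (hol (γ k)).linear v = w := by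
    intro k
    obtain ⟨σ, hσ⟩ := hsemi (γ k)
    obtain ⟨f, hf1, hf2, hf3⟩ := hV (γ k)
    obtain ⟨g, hg1, hg2, hg3⟩ := hσ.push hv0 hf1 hf2
    refine ⟨g, hg1, hg2, fun w hw hwr => ⟨(hol (γ k)).linear.symm w, ?_, by simp⟩⟩
    have h1 : f ((hol (γ k)).linear.symm w) = 0 := hg3 _ (by simpa using hw)
    have h2 := hf3 _ h1
    rw [LinearEquiv.apply_symm_apply] at h2
    have h3 := h2.trans hwr
    exact le_of_mul_le_mul_left h3 hδ
  choose g hg1 hg2 hg3 using hex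
  obtain ⟨ψ, hψ, φ, hφ, hφt⟩ := (isCompact_sphere (0 : E →L[ℝ] K) 1).tendsto_subseq
    (x := g) (fun k => by rw [mem_sphere_zero_iff_norm]; exact hg2 k)
  have hφa := hφ.tendsto_atTop
  have hψ1 : ‖ψ‖ = 1 := by rwa [mem_sphere_zero_iff_norm] at hψ
  have hψ0 : ψ ≠ 0 := by
    intro h0
    rw [h0, norm_zero] at hψ1
    exact zero_ne_one hψ1
  refine ⟨ψ, ⟨KLin.lim (fun j => hg1 (φ j)) hφt, hψ0, fun k => a (φ k), fun k => g (φ k),
    ha.comp hφa, hφt, fun j => hg1 _, ?_⟩, ?_⟩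
  · intro j w hw hwρ
    obtain ⟨v, hv, hve⟩ := hg3 (φ j) w hw hwρ
    show a (φ j) + w ∈ Ω
    rw [← hve, ← hmove]
    exact hinv _ _ (hrΩ (hin _ v hv))
  · intro w hw hwρ hq
    obtain ⟨ε, hε, hev⟩ := claim1 _ hq
    obtain ⟨W, hW, hW0⟩ := ker_approx (fun j => hg1 (φ j)) hφt hψ0 hw
    have h1 : Tendsto (fun k => a (φ k) + W k) atTop (𝓝 (p + w)) := (ha.comp hφa).add hW
    have h2 : ∀ᶠ j in atTop, ‖W j‖ < δ * r := hW.norm.eventually_lt_const hwρ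
    obtain ⟨k, hk1, hk2, hk3, hk4⟩ := ((h1.eventually (closedBall_mem_nhds _ hε)).and
      ((hφa.eventually hev).and (hW0.and h2))).exists
    obtain ⟨v, hv, hve⟩ := hg3 (φ k) (W k) hk3 hk4.le
    refine hk2 v hv ?_
    rw [hve]; exact hk1

end semi

end Pool.Agent.R774.MK
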