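import Pool.Agent.R774.MK2

set_option autoImplicit false

open Set Filter Topology Metric
open Pool.Agent.W689.Mk Pool.Agent.TH94.MK

namespace Pool.Agent.R774.MK

section main
variable {K E Γ X : Type} [NormedDivisionRing K] [NormedAlgebra ℝ K] [FiniteDimensional ℝ K]
  [NormedAddCommGroup E] [NormedSpace ℝ E] [Module K E] [IsScalarTower ℝ K E] [IsBoundedSMul K E]
  [FiniteDimensional ℝ E] [Group Γ] {hol : Γ →* (E ≃ᵃ[ℝ] E)}
  [TopologicalSpace X] [T2Space X] [SecondCountableTopology X] [ConnectedSpace X] [MulAction Γ X]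
  {dev : X → E}

theorem boundary_inv (D : AffData X Γ E dev hol) (γ : Γ) {p : E} (hp : p ∈ closure (range dev))
    (hpr : p ∉ range dev) : hol γ p ∈ closure (range dev) ∧ hol γ p ∉ range dev := by
  refine ⟨map_mem_closure (hol_cont γ) hp fun q hq => range_inv D γ q hq, fun h => hpr ?_⟩
  have := range_inv D γ⁻¹ _ h
  rwa [hol_inv_apply] at this

theorem complete (D : AffData X Γ E dev hol) (hinj : Function.Injective dev)
    (hsemi : ∀ γ : Γ, ∃ σ : K ≃+* K, Semi σ (hol γ).linear) {δ : ℝ} (hδ : 0 < δ)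
    (hV : ∀ γ : Γ, ∃ f : E →L[ℝ] K, KLin f ∧ f ≠ 0 ∧
      ∀ v, f v = 0 → δ * ‖v‖ ≤ ‖(hol γ).linear v‖) : IsHomeomorph dev := by
  by_cases hall : ∀ p ∈ closure (range dev), p ∈ range dev
  · obtain ⟨x⟩ := (inferInstance : Nonempty X)
    refine homeo_of_all D.loc (x := x) fun v => Geod.ex D.loc ?_
    by_contra hv
    obtain ⟨t, -, -, h1, h2⟩ := exit_point D.loc hinj hv
    exact h1 (hall _ h2)
  push Not at hall
  obtain ⟨p0, hp0, hp0'⟩ := hall
  obtain ⟨C0, hC0, hC0r, hcc⟩ := range_cc D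
  obtain ⟨ρ, hρ, hB⟩ := good_of_boundary (K := K) D.loc.isOpenMap.isOpen_range (range_inv D)
    (range_pd D hinj) hC0 hC0r hcc hδ hsemi hV
  obtain ⟨ψ, hψ⟩ := hB p0 hp0 hp0'
  obtain ⟨v0, hv0⟩ := hψ.1.1.exists_one hψ.1.2.1
  have hv0ne : v0 ≠ 0 := by
    intro h
    rw [h, map_zero] at hv0
    exact zero_ne_one hv0
  -- completeness in the directions of the kernel
  have hcomp : ∀ (x : X) (v : E), ψ v = 0 → Geod dev x v := by
    intro x v hv
    by_contra hg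
    obtain ⟨t, -, -, h1, h2⟩ := exit_point D.loc hinj hg
    obtain ⟨φ, hφ⟩ := hB _ h2 h1
    have h3 : φ (-(t • v)) = 0 := by
      rw [map_neg, map_smul, (parallel hρ hB hψ hφ v).1 hv, smul_zero, neg_zero]
    obtain ⟨-, h4, -⟩ := whole hρ hB hφ h3
    apply h4
    rw [add_neg_cancel_right]
    exact mem_range_self x
  -- invariance of the kernel
  have hinv1 : ∀ (γ : Γ) (w : E), ψ w = 0 → ψ ((hol γ).linear.symm w) = 0 := by
    intro γ w hw
    obtain ⟨σ, hσ⟩ := hsemi γ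
    obtain ⟨g, hg1, -, hg3⟩ := hσ.push hv0ne hψ.1.1 hψ.1.2.1
    obtain ⟨h1, h2⟩ := boundary_inv D γ hp0 hp0'
    obtain ⟨φ, hφ⟩ := hB _ h1 h2
    have h3 : ∀ u, g u = 0 → ‖u‖ < 1 → hol γ p0 + u ∉ range dev := by
      intro u hu _
      have h4 : ψ ((hol γ).linear.symm u) = 0 := hg3 _ (by simpa using hu)
      obtain ⟨h5, h6, -⟩ := whole hρ hB hψ h4
      have h7 := (boundary_inv D γ h5 h6).2
      rw [hol_add] at h7
      simpa [lin] using h7
    have h4 := crossing hρ hφ.1 hg1 one_pos h3 w ((parallel hρ hB hψ hφ w).1 hw)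
    exact hg3 _ (by simpa using h4)
  have hsymm : ∀ (γ : Γ) (v : E), (hol γ⁻¹).linear.symm v = (hol γ).linear v := by
    intro γ v
    rw [LinearEquiv.symm_apply_eq]
    exact (lin_inv_apply (hol := hol) γ v).symm
  have hinv : ∀ (γ : Γ) (w : E), ψ w = 0 → ψ ((hol γ).linear w) = 0 := by
    intro γ w hw
    have := hinv1 γ⁻¹ w hw
    rwa [hsymm] at this
  -- the induced maps of `K`
  let rl : Γ → K →ₗ[ℝ] K := fun γ =>
    { toFun := fun κ => ψ ((hol γ).linear (κ • v0))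
      map_add' := fun a b => by rw [add_smul, map_add, map_add]
      map_smul' := fun r a => by rw [smul_assoc, map_smul, map_smul]; rfl }
  have hrl : ∀ γ v, ψ ((hol γ).linear v) = rl γ (ψ v) := by
    intro γ v
    have h1 : ψ (v - ψ v • v0) = 0 := by
      rw [map_sub, hψ.1.1, hv0, mul_one, sub_self]
    have h2 := hinv γ _ h1
    rw [map_sub, map_sub, sub_eq_zero] at h2
    exact h2
  have hnorm : ∀ γ κ, ‖rl γ κ‖ = ‖κ‖ * ‖ψ ((hol γ).linear v0)‖ := by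
    intro γ κ
    obtain ⟨σ, hσ⟩ := hsemi γ
    show ‖ψ ((hol γ).linear (κ • v0))‖ = _
    rw [hσ, hψ.1.1, norm_mul, hσ.norm_eq hv0ne]
  have hprod : ∀ γ, ‖ψ ((hol γ).linear v0)‖ * ‖ψ ((hol γ⁻¹).linear v0)‖ = 1 := by
    intro γ
    rw [← hnorm, ← hrl]
    have h1 : (hol γ⁻¹).linear ((hol γ).linear v0) = v0 := lin_inv_apply (hol := hol) γ v0
    rw [h1, hv0, norm_one]
  let T : K ≃L[ℝ] EuclideanSpace ℝ (Fin (Module.finrank ℝ K)) := toEuclidean
  let rc : Γ → K →L[ℝ] K := fun γ => LinearMap.toContinuousLinearMap (rl γ)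
  have hrc : ∀ γ, ‖rc γ‖ ≤ ‖ψ ((hol γ).linear v0)‖ := by
    intro γ
    refine ContinuousLinearMap.opNorm_le_bound _ (norm_nonneg _) fun κ => ?_
    show ‖rl γ κ‖ ≤ _
    rw [hnorm, mul_comm]
  let Tc : K →L[ℝ] EuclideanSpace ℝ (Fin (Module.finrank ℝ K)) := T
  let Ts : EuclideanSpace ℝ (Fin (Module.finrank ℝ K)) →L[ℝ] K := T.symm
  let r : Γ → EuclideanSpace ℝ (Fin (Module.finrank ℝ K)) →L[ℝ]
    EuclideanSpace ℝ (Fin (Module.finrank ℝ K)) := fun γ => Tc.comp ((rc γ).comp Ts)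
  obtain ⟨C, hC0', hC⟩ : ∃ C : ℝ, 0 < C ∧ ∀ γ, ‖r γ‖ ≤ C * ‖ψ ((hol γ).linear v0)‖ := by
    refine ⟨‖Tc‖ * ‖Ts‖ + 1, by positivity, fun γ => ?_⟩
    calc ‖r γ‖ ≤ ‖Tc‖ * ‖(rc γ).comp Ts‖ := ContinuousLinearMap.opNorm_comp_le _ _
      _ ≤ ‖Tc‖ * (‖rc γ‖ * ‖Ts‖) := by
          gcongr; exact ContinuousLinearMap.opNorm_comp_le _ _
      _ ≤ ‖Tc‖ * (‖ψ ((hol γ).linear v0)‖ * ‖Ts‖) := by
          gcongr; exact hrc γ
      _ = (‖Tc‖ * ‖Ts‖) * ‖ψ ((hol γ).linear v0)‖ := by ring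
      _ ≤ _ := by gcongr; linarith
  refine Pool.Agent.TH569.MK.exp_chain_complete D
    (fun _ => LinearMap.ker (ψ : E →ₗ[ℝ] K)) 0 (fun x v hv => hcomp x v hv)
    (fun i hi => absurd hi (Nat.not_lt_zero i)) (Tc.comp ψ) ?_ ?_ r ?_ ?_
  · intro q
    refine ⟨Ts q • v0, ?_⟩
    show T (ψ (Ts q • v0)) = q
    rw [hψ.1.1, hv0, mul_one]
    exact T.apply_symm_apply q
  · intro v hv
    have h1 : T (ψ v) = 0 := hv
    exact T.injective (h1.trans (map_zero T).symm)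
  · intro γ v
    show T (ψ ((hol γ).linear v)) = T (rl γ (T.symm (T (ψ v))))
    rw [T.symm_apply_apply, hrl]
  · intro ε hε
    refine ⟨C ^ 2 / ε, fun γ hγ => ?_⟩
    have h1 := hγ.trans (hC γ)
    have h2 := hC γ⁻¹
    have h3 := hprod γ
    have h4 : 0 < ‖ψ ((hol γ).linear v0)‖ := by
      by_contra hcon
      have : ‖ψ ((hol γ).linear v0)‖ = 0 := le_antisymm (not_lt.1 hcon) (norm_nonneg _)
      rw [this, zero_mul] at h3
      exact zero_ne_one h3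
    refine h2.trans ?_
    have h5 : ‖ψ ((hol γ⁻¹).linear v0)‖ = ‖ψ ((hol γ).linear v0)‖⁻¹ := by
      rw [eq_comm, inv_eq_of_mul_eq_one_right h3]
    rw [h5, ← div_eq_mul_inv, div_le_iff₀ h4]
    rw [div_le_iff₀ hε] at h1
    have h6 : C * C ≤ C * (ε * ‖ψ ((hol γ).linear v0)‖) := by
      calc C * C = C ^ 2 := by ring
        _ ≤ C * ‖ψ ((hol γ).linear v0)‖ * ε := h1
        _ = _ := by ring
    exact le_of_mul_le_mul_left h6 hC0'

end main

end Pool.Agent.R774.MK
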