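import Pool.Agent.R774.MK3

set_option autoImplicit false

open Set Filter Topology Metric
open Pool.Agent.W689.Mk Pool.Agent.TH94.MK

namespace Pool.Agent.R774.MK

section two
variable {K E : Type} [NormedDivisionRing K] [NormedAlgebra ℝ K] [FiniteDimensional ℝ K]
  [NormedAddCommGroup E] [NormedSpace ℝ E] [Module K E] [IsScalarTower ℝ K E] [IsBoundedSMul K E]
  [FiniteDimensional ℝ E]

/-- a real functional from a `K`-linear one -/
theorem klin_of {f : E →ₗ[K] K} (hf : f ≠ 0) : ∃ g : E →L[ℝ] K, KLin g ∧ g ≠ 0 ∧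
    ∀ v, g v = f v := by
  refine ⟨LinearMap.toContinuousLinearMap (f.restrictScalars ℝ), ?_, ?_, fun v => rfl⟩
  · intro a v
    exact f.map_smul a v
  · intro h
    apply hf
    ext v
    exact congrArg (fun g : E →L[ℝ] K => g v) h

omit [NormedAlgebra ℝ K] [FiniteDimensional ℝ K] [Module K E] [IsScalarTower ℝ K E]
  [IsBoundedSMul K E] [NormedDivisionRing K] in
theorem exists_large [Nontrivial E] (L : E ≃ₗ[ℝ] E) (hdet : |LinearMap.det (L : E →ₗ[ℝ] E)| = 1) :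
    ∃ v : E, v ≠ 0 ∧ 1 / 2 * ‖v‖ ≤ ‖L v‖ := by
  by_contra hcon
  push Not at hcon
  letI : MeasurableSpace E := borel E
  haveI : BorelSpace E := ⟨rfl⟩
  let μ : MeasureTheory.Measure E := MeasureTheory.Measure.addHaar
  have h1 : (L : E →ₗ[ℝ] E) '' ball (0 : E) 1 ⊆ ball (0 : E) (1 / 2) := by
    rintro _ ⟨v, hv, rfl⟩
    rw [mem_ball_zero_iff] at hv ⊢
    by_cases h0 : v = 0
    · rw [h0, map_zero, norm_zero]; norm_num
    · have := hcon v h0
      show ‖L v‖ < 1 / 2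
      linarith
  have h2 := MeasureTheory.measure_mono (μ := μ) h1
  rw [MeasureTheory.Measure.addHaar_image_linearMap, hdet, ENNReal.ofReal_one, one_mul,
    MeasureTheory.Measure.addHaar_ball μ (0 : E) (by norm_num : (0 : ℝ) ≤ 1 / 2)] at h2
  have h3 : (0 : ENNReal) < μ (ball (0 : E) 1) := measure_ball_pos μ 0 one_pos
  have h4 : μ (ball (0 : E) 1) < ⊤ := MeasureTheory.measure_ball_lt_top
  have h5 : ENNReal.ofReal ((1 / 2 : ℝ) ^ Module.finrank ℝ E) < 1 := by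
    rw [ENNReal.ofReal_lt_one]
    exact pow_lt_one₀ (by norm_num) (by norm_num) Module.finrank_pos.ne'
  have h6 : ENNReal.ofReal ((1 / 2 : ℝ) ^ Module.finrank ℝ E) * μ (ball (0 : E) 1) <
      1 * μ (ball (0 : E) 1) :=
    ENNReal.mul_lt_mul_left h3.ne' h4.ne h5
  rw [one_mul] at h6
  exact absurd h2 (not_le.2 h6)

/-- in `K`-dimension two a volume preserving semilinear map is bounded below on a `K`-line -/
theorem two_dim (h2 : Module.finrank K E = 2) {σ : K ≃+* K} {L : E ≃ₗ[ℝ] E} (hσ : Semi σ L)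
    (hdet : |LinearMap.det (L : E →ₗ[ℝ] E)| = 1) : ∃ f : E →L[ℝ] K, KLin f ∧ f ≠ 0 ∧
      ∀ v, f v = 0 → 1 / 2 * ‖v‖ ≤ ‖L v‖ := by
  haveI : Module.Finite K E := Module.finite_of_finrank_pos (by rw [h2]; norm_num)
  haveI : Nontrivial E := by
    by_contra hcon
    rw [not_nontrivial_iff_subsingleton] at hcon
    rw [Module.finrank_zero_of_subsingleton] at h2
    norm_num at h2
  obtain ⟨v, hv, hvL⟩ := exists_large L hdet
  let N : Submodule K E := Submodule.span K {v}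
  have hN : Module.finrank K N = 1 := finrank_span_singleton hv
  have hQ : Module.finrank K (E ⧸ N) = Module.finrank K K := by
    have := Submodule.finrank_quotient_add_finrank N
    rw [hN, h2] at this
    rw [Module.finrank_self]
    omega
  let e : (E ⧸ N) ≃ₗ[K] K := LinearEquiv.ofFinrankEq _ _ hQ
  let f : E →ₗ[K] K := e.toLinearMap ∘ₗ N.mkQ
  have hf : ∀ u, f u = 0 ↔ u ∈ N := by
    intro u
    show e (N.mkQ u) = 0 ↔ _
    rw [LinearEquiv.map_eq_zero_iff, Submodule.mkQ_apply, Submodule.Quotient.mk_eq_zero]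
  have hf0 : f ≠ 0 := by
    intro h0
    have h3 : N = ⊤ := by
      rw [eq_top_iff]
      intro u _
      exact (hf u).1 (by rw [h0]; rfl)
    rw [h3, finrank_top, h2] at hN
    norm_num at hN
  obtain ⟨g, hg1, hg2, hg3⟩ := klin_of hf0
  refine ⟨g, hg1, hg2, fun u hu => ?_⟩
  rw [hg3, hf] at hu
  obtain ⟨a, rfl⟩ := Submodule.mem_span_singleton.1 hu
  rw [hσ, norm_smul_eq, norm_smul_eq, hσ.norm_eq hv]
  have := mul_le_mul_of_nonneg_left hvL (norm_nonneg a)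
  linarith

end two

section form
variable {K : Type} [NormedDivisionRing K] [NormedAlgebra ℝ K] [FiniteDimensional ℝ K]

/-- the form of signature `(n, 1)` -/
def form {n : ℕ} (v : Fin (n + 1) → K) : ℝ := ∑ i : Fin n, ‖v i.succ‖ ^ 2 - ‖v 0‖ ^ 2

theorem form_bound {n : ℕ} (L : (Fin (n + 1) → K) ≃ₗ[ℝ] (Fin (n + 1) → K))
    (hL : ∀ v, form (L v) = form v) : ∃ f : (Fin (n + 1) → K) →L[ℝ] K, KLin f ∧ f ≠ 0 ∧
      ∀ v, f v = 0 → (1 / (n + 1 : ℝ)) * ‖v‖ ≤ ‖L v‖ := by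
  have hf0 : (LinearMap.proj 0 : (Fin (n + 1) → K) →ₗ[K] K) ≠ 0 := by
    intro h
    have h1 : (LinearMap.proj 0 : (Fin (n + 1) → K) →ₗ[K] K) (fun _ => 1) = 0 := by
      rw [h]; rfl
    exact one_ne_zero (α := K) h1
  obtain ⟨g, hg1, hg2, hg3⟩ := klin_of hf0
  refine ⟨g, hg1, hg2, fun v hv => ?_⟩
  rw [hg3] at hv
  have hv0 : v 0 = 0 := hv
  have h1 := hL v
  unfold form at h1
  rw [hv0, norm_zero] at h1
  have h2 : ∑ i : Fin n, ‖v i.succ‖ ^ 2 ≤ ∑ _i : Fin n, ‖L v‖ ^ 2 := by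
    have h3 : ∑ i : Fin n, ‖L v i.succ‖ ^ 2 ≤ ∑ _i : Fin n, ‖L v‖ ^ 2 := by
      refine Finset.sum_le_sum fun i _ => ?_
      have := norm_le_pi_norm (L v) i.succ
      gcongr
    have h4 : 0 ≤ ‖L v 0‖ ^ 2 := by positivity
    linarith
  rw [Finset.sum_const, Finset.card_univ, Fintype.card_fin, nsmul_eq_mul] at h2
  have hn : (0 : ℝ) < (n : ℝ) + 1 := by positivity
  have h5 : ‖v‖ ≤ (n + 1) * ‖L v‖ := by
    refine (pi_norm_le_iff_of_nonneg (by positivity)).2 fun i => ?_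
    refine Fin.cases ?_ (fun j => ?_) i
    · rw [hv0, norm_zero]; positivity
    · have h6 : ‖v j.succ‖ ^ 2 ≤ ∑ i : Fin n, ‖v i.succ‖ ^ 2 :=
        Finset.single_le_sum (f := fun i : Fin n => ‖v i.succ‖ ^ 2) (fun i _ => by positivity)
          (Finset.mem_univ j)
      have h7 : ‖v j.succ‖ ^ 2 ≤ ((n + 1) * ‖L v‖) ^ 2 := by
        refine h6.trans (h2.trans ?_)
        have h8 : (n : ℝ) ≤ ((n : ℝ) + 1) ^ 2 := by nlinarith [(Nat.cast_nonneg n : (0 : ℝ) ≤ n)]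
        rw [mul_pow]
        exact mul_le_mul_of_nonneg_right h8 (by positivity)
      exact (sq_le_sq₀ (norm_nonneg _) (by positivity)).1 h7
  rw [one_div, inv_mul_le_iff₀ hn]
  exact h5

end form

section three
open scoped ComplexConjugate InnerProductSpace

/-- the standard complex quadratic form -/
def bil (v w : EuclideanSpace ℂ (Fin 3)) : ℂ := ∑ i, v i * w i

/-- complex conjugation -/
noncomputable def cj (v : EuclideanSpace ℂ (Fin 3)) : EuclideanSpace ℂ (Fin 3) :=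
  WithLp.toLp 2 fun i => conj (v i)

theorem bil_cj (v w : EuclideanSpace ℂ (Fin 3)) : bil v w = ⟪cj v, w⟫_ℂ := by
  rw [EuclideanSpace.inner_eq_star_dotProduct]
  simp only [bil, cj, dotProduct, Pi.star_apply, RCLike.star_def, Complex.conj_conj]
  exact Finset.sum_congr rfl fun i _ => mul_comm _ _

theorem cj_cj (v : EuclideanSpace ℂ (Fin 3)) : cj (cj v) = v := by
  ext i
  simp [cj]

theorem norm_cj (v : EuclideanSpace ℂ (Fin 3)) : ‖cj v‖ = ‖v‖ := by
  rw [EuclideanSpace.norm_eq, EuclideanSpace.norm_eq]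
  simp [cj]

theorem inner_cj (v w : EuclideanSpace ℂ (Fin 3)) : ⟪v, cj w⟫_ℂ = conj ⟪cj v, w⟫_ℂ := by
  rw [EuclideanSpace.inner_eq_star_dotProduct, EuclideanSpace.inner_eq_star_dotProduct]
  simp only [cj, dotProduct, Pi.star_apply, RCLike.star_def, map_sum, map_mul, Complex.conj_conj]

theorem three_dim (A : EuclideanSpace ℂ (Fin 3) →ₗ[ℂ] EuclideanSpace ℂ (Fin 3))
    (hA : ∀ v w, bil (A v) (A w) = bil v w) :
    ∃ f : EuclideanSpace ℂ (Fin 3) →ₗ[ℂ] ℂ, f ≠ 0 ∧ ∀ v, f v = 0 → ‖v‖ ≤ ‖A v‖ := by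
  set E3 := EuclideanSpace ℂ (Fin 3) with hE3
  let T : E3 →ₗ[ℂ] E3 := A.adjoint ∘ₗ A
  have hT : T.IsSymmetric := by
    intro v w
    show ⟪A.adjoint (A v), w⟫_ℂ = ⟪v, A.adjoint (A w)⟫_ℂ
    rw [LinearMap.adjoint_inner_left, LinearMap.adjoint_inner_right]
  have hn : Module.finrank ℂ E3 = 3 := finrank_euclideanSpace_fin
  let e : OrthonormalBasis (Fin 3) ℂ E3 := hT.eigenvectorBasis hn
  let l : Fin 3 → ℝ := hT.eigenvalues hn
  have he : ∀ i, T (e i) = (l i : ℂ) • e i := fun i => hT.apply_eigenvectorBasis hn i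
  -- norms
  have hnorm : ∀ v : E3, ‖A v‖ ^ 2 = ∑ i, l i * ‖⟪e i, v⟫_ℂ‖ ^ 2 := by
    intro v
    have h1 : ⟪v, T v⟫_ℂ = ((‖A v‖ ^ 2 : ℝ) : ℂ) := by
      show ⟪v, A.adjoint (A v)⟫_ℂ = _
      rw [LinearMap.adjoint_inner_right, inner_self_eq_norm_sq_to_K]
      push_cast; rfl
    have h2 : ⟪v, T v⟫_ℂ = ∑ i, ⟪v, e i⟫_ℂ * ⟪e i, T v⟫_ℂ := (e.sum_inner_mul_inner v (T v)).symm
    have h3 : ∀ i, ⟪v, e i⟫_ℂ * ⟪e i, T v⟫_ℂ = ((l i * ‖⟪e i, v⟫_ℂ‖ ^ 2 : ℝ) : ℂ) := by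
      intro i
      rw [← hT (e i) v, he i, inner_smul_left, Complex.conj_ofReal]
      rw [← inner_conj_symm v (e i)]
      have h4 : conj ⟪e i, v⟫_ℂ * ((l i : ℂ) * ⟪e i, v⟫_ℂ) =
          (l i : ℂ) * (⟪e i, v⟫_ℂ * conj ⟪e i, v⟫_ℂ) := by ring
      rw [h4, Complex.mul_conj, Complex.normSq_eq_norm_sq]
      push_cast; ring
    rw [h1] at h2
    rw [Finset.sum_congr rfl fun i _ => h3 i] at h2
    exact_mod_cast h2
  have hpars : ∀ v : E3, ‖v‖ ^ 2 = ∑ i, ‖⟪e i, v⟫_ℂ‖ ^ 2 := fun v =>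
    (e.sum_sq_norm_inner_right v).symm
  -- at most one eigenvalue less than one
  have hone : ∀ i j : Fin 3, i ≠ j → l i < 1 → 1 ≤ l j := by
    intro i j hij hi
    by_contra hj
    push Not at hj
    have hdec : ∀ i j : Fin 3, i ≠ j → ∃ k, k ≠ i ∧ k ≠ j := by decide
    have hdec2 : ∀ i j k m : Fin 3, i ≠ j → k ≠ i → k ≠ j → m ≠ k → m = i ∨ m = j := by decide
    obtain ⟨k, hki, hkj⟩ : ∃ k : Fin 3, k ≠ i ∧ k ≠ j := hdec i j hij
    -- a vector w of the span with conjugate in the span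
    let F : E3 →ₗ[ℂ] (Fin 2 → ℂ) :=
      LinearMap.pi ![(innerSL ℂ (e k)).toLinearMap, (innerSL ℂ (cj (e k))).toLinearMap]
    have hF : LinearMap.ker F ≠ ⊥ := by
      apply LinearMap.ker_ne_bot_of_finrank_lt
      rw [hn, Module.finrank_fin_fun]
      norm_num
    obtain ⟨w, hw, hw0⟩ := (Submodule.ne_bot_iff _).1 hF
    rw [LinearMap.mem_ker] at hw
    have hw1 : ⟪e k, w⟫_ℂ = 0 := by
      have := congrFun hw 0
      simpa [F] using this
    have hw2 : ⟪e k, cj w⟫_ℂ = 0 := by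
      have := congrFun hw 1
      rw [inner_cj]
      have h3 : ⟪cj (e k), w⟫_ℂ = 0 := by simpa [F] using this
      rw [h3, map_zero]
    have hsmall : ∀ u : E3, u ≠ 0 → ⟪e k, u⟫_ℂ = 0 → ‖A u‖ < ‖u‖ := by
      intro u hu hk
      have h1 : ‖A u‖ ^ 2 < ‖u‖ ^ 2 := by
        rw [hnorm, hpars u]
        have h2 : ∀ m : Fin 3, l m * ‖⟪e m, u⟫_ℂ‖ ^ 2 ≤ ‖⟪e m, u⟫_ℂ‖ ^ 2 := by
          intro m
          by_cases hm : m = k
          · rw [hm, hk, norm_zero]; norm_num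
          · have : m = i ∨ m = j := hdec2 i j k m hij hki hkj hm
            have h3 : l m ≤ 1 := by
              rcases this with rfl | rfl <;> linarith
            nlinarith [sq_nonneg ‖⟪e m, u⟫_ℂ‖]
        refine Finset.sum_lt_sum (fun m _ => h2 m) ?_
        by_contra hcon
        push Not at hcon
        have h4 : ∀ m : Fin 3, ‖⟪e m, u⟫_ℂ‖ ^ 2 = 0 := by
          intro m
          by_cases hm : m = k
          · rw [hm, hk, norm_zero]; norm_num
          · have : m = i ∨ m = j := hdec2 i j k m hij hki hkj hm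
            have h3 : l m < 1 := by
              rcases this with rfl | rfl <;> assumption
            have h5 := hcon m (Finset.mem_univ m)
            nlinarith [sq_nonneg ‖⟪e m, u⟫_ℂ‖]
        have h6 : ‖u‖ ^ 2 = 0 := by
          rw [hpars u]
          exact Finset.sum_eq_zero fun m _ => h4 m
        exact hu (norm_eq_zero.1 (pow_eq_zero_iff (two_ne_zero) |>.1 h6))
      exact lt_of_pow_lt_pow_left₀ 2 (norm_nonneg _) h1
    have hcw0 : cj w ≠ 0 := by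
      intro h
      apply hw0
      rw [← norm_eq_zero, ← norm_cj, h, norm_zero]
    have h5 := hsmall w hw0 hw1
    have h6 := hsmall (cj w) hcw0 hw2
    rw [norm_cj] at h6
    have h7 : ‖w‖ * ‖w‖ ≤ ‖A (cj w)‖ * ‖A w‖ := by
      have h8 : bil (cj w) w = ((‖w‖ ^ 2 : ℝ) : ℂ) := by
        rw [bil_cj, cj_cj, inner_self_eq_norm_sq_to_K]
        push_cast; rfl
      have h9 : ‖bil (A (cj w)) (A w)‖ ≤ ‖A (cj w)‖ * ‖A w‖ := by
        rw [bil_cj]
        refine (norm_inner_le_norm _ _).trans ?_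
        rw [norm_cj]
      rw [hA, h8, Complex.norm_real, Real.norm_of_nonneg (by positivity)] at h9
      nlinarith
    have hwpos : 0 < ‖w‖ := norm_pos_iff.2 hw0
    nlinarith [norm_nonneg (A w), norm_nonneg (A (cj w))]
  obtain ⟨i0, hi0⟩ : ∃ i0 : Fin 3, ∀ i, i ≠ i0 → 1 ≤ l i := by
    by_cases h : ∃ i, l i < 1
    · obtain ⟨i, hi⟩ := h
      exact ⟨i, fun j hj => hone i j hj.symm hi⟩
    · push Not at h
      exact ⟨0, fun i _ => h i⟩
  refine ⟨(innerSL ℂ (e i0)).toLinearMap, ?_, fun v hv => ?_⟩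
  · intro h
    have h1 : ⟪e i0, e i0⟫_ℂ = 0 := congrArg (fun g : E3 →ₗ[ℂ] ℂ => g (e i0)) h
    have h2 := e.orthonormal.1 i0
    rw [inner_self_eq_zero] at h1
    rw [h1, norm_zero] at h2
    exact zero_ne_one h2
  · have hv' : ⟪e i0, v⟫_ℂ = 0 := hv
    have h1 : ‖v‖ ^ 2 ≤ ‖A v‖ ^ 2 := by
      rw [hnorm, hpars v]
      refine Finset.sum_le_sum fun i _ => ?_
      by_cases hi : i = i0
      · rw [hi, hv', norm_zero]; norm_num
      · nlinarith [hi0 i hi, sq_nonneg ‖⟪e i, v⟫_ℂ‖]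
    exact (sq_le_sq₀ (norm_nonneg _) (norm_nonneg _)).1 h1

end three

end Pool.Agent.R774.MK
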