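import Pool.Agent.R774.Cl5
import Pool.Agent.TH80.OMS.Main
import Pool.Agent.TH80.OMS.SymDefs

/-! `Ω`-stability and sets which are hyperbolic transversally to the orbits of a commuting action. -/

open scoped Topology ContDiff Manifold
open Set Metric Filter

noncomputable section

set_option linter.unusedSectionVars false

namespace Pool.Agent.R774.OS

open Pool.Agent.H718R2.G Pool.Agent.R774.Cl Pool.Agent.W564.SC Pool.Agent.R774.ClStmt
open Pool.Agent.TH80.OMS

universe u

section chain
variable {N : Type u} [TopologicalSpace N]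

theorem exists_chainRec {F : N → N} (hF : Continuous F) {K : Set N} (hK : IsCompact K)
    (hne : K.Nonempty) (hinv : ∀ x ∈ K, F x ∈ K) : ∃ z ∈ K, ChainRecOn F K z := by
  obtain ⟨x, hx⟩ := hne
  have hit : ∀ j, F^[j] x ∈ K := by
    intro j
    induction j with
    | zero => exact hx
    | succ j ih => rw [Function.iterate_succ_apply']; exact hinv _ ih
  obtain ⟨z, hzK, hz⟩ := hK (f := Filter.map (fun j : ℕ => F^[j] x) atTop)
    (le_principal_iff.2 (mem_map.2 (Eventually.of_forall hit)))
  refine ⟨z, hzK, fun W hW hd => ?_⟩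
  have hfr : ∀ O ∈ 𝓝 z, ∀ a : ℕ, ∃ b ≥ a, F^[b] x ∈ O := by
    intro O hO a
    have h1 : ∃ᶠ y in Filter.map (fun j : ℕ => F^[j] x) atTop, y ∈ O := hz.frequently
      (by exact hO)
    have h2 : ∃ᶠ j : ℕ in atTop, F^[j] x ∈ O := h1
    obtain ⟨b, hb1, hb2⟩ := (frequently_atTop.1 h2) a
    exact ⟨b, hb1, hb2⟩
  -- the first jump
  have h1 : {y : N | (F z, F y) ∈ W} ∈ 𝓝 z := by
    have hc : Continuous fun y : N => (F z, F y) := continuous_const.prodMk hF
    exact (hW.preimage hc).mem_nhds (hd (F z))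
  have h2 : {y : N | (y, z) ∈ W} ∈ 𝓝 z := by
    have hc : Continuous fun y : N => (y, z) := continuous_id.prodMk continuous_const
    exact (hW.preimage hc).mem_nhds (hd z)
  obtain ⟨a, -, ha⟩ := hfr _ h1 0
  obtain ⟨b, hb, hb'⟩ := hfr _ h2 (a + 2)
  refine ⟨b - a, fun j => if j = 0 ∨ b - a ≤ j then z else F^[a + j] x, by omega, by simp, by simp,
    fun i _ => ?_, fun i hi => ?_⟩
  · show (if i = 0 ∨ b - a ≤ i then z else F^[a + i] x) ∈ K
    split_ifs
    · exact hzK
    · exact hit _
  · show (F (if i = 0 ∨ b - a ≤ i then z else F^[a + i] x),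
      if i + 1 = 0 ∨ b - a ≤ i + 1 then z else F^[a + (i + 1)] x) ∈ W
    by_cases hi0 : i = 0
    · subst hi0
      rw [if_pos (Or.inl rfl), if_neg (by omega)]
      have e : F^[a + (0 + 1)] x = F (F^[a] x) := Function.iterate_succ_apply' F a x
      rw [e]
      exact ha
    · rw [if_neg (by omega), ← Function.iterate_succ_apply' F]
      by_cases hl : b - a ≤ i + 1
      · rw [if_pos (Or.inr hl)]
        have e : (a + i).succ = b := by omega
        rw [e]
        exact hb'
      · rw [if_neg (by omega)]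
        have e : a + (i + 1) = (a + i).succ := by omega
        rw [e]
        exact hd _

end chain

section close
variable {k n m : ℕ} {N : Type u} [TopologicalSpace N] [ChartedSpace (V n) N]
  [IsManifold (𝓡 n) ∞ N] [T2Space N] [CompactSpace N]

/-- The closing lemma by means of the action: near every chain recurrent point there is a point `y`
such that all points of its orbit are periodic, with the same period, for the composition of `F` with a
small element of the action. -/
theorem per_near (r : ℕ∞) (hr : 1 ≤ r) (F : DiffM n N r)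
    {Φ : V k → N → N} {K : Set N} {e : N → V m} {B : N → V m →L[ℝ] V m →L[ℝ] ℝ}
    (h : HypSet (n := n) F Φ K e B) {z : N} (hz : ChainRecOn F K z) {κ : ℝ} (hκ : 0 < κ)
    {W : Set N} (hW' : W ∈ 𝓝 z) :
    ∃ c : V k, ‖c‖ < κ ∧ ∃ y ∈ W, ∃ p : ℕ, 1 ≤ p ∧
      ∀ a, (famD h.action r F c)^[p] (Φ a y) = Φ a y := by
  obtain ⟨O, hO, hKO, hOinv, hOcomm⟩ := h.comm
  have hΦ : Act (E := V n) Φ :=
    ⟨h.action.smooth.of_le (by exact_mod_cast le_top), h.action.zero⟩
  have hF1 : ContMDiff (𝓡 n) (𝓡 n) 1 F :=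
    F.contMDiff_toFun.of_le (by exact_mod_cast hr)
  obtain ⟨M, d, hd1, hd2, -⟩ := exists_embedding_euclidean_of_compact (I := 𝓡 n) (M := N)
  obtain ⟨δ, hδ, hcl⟩ := closing (E := V n) (T := V k) hΦ hF1 h.cont h.smooth
    (d := d) hd1.continuous hd2.injective h.closed h.inv h.free h.basic h.incr
    (Q := fun x y s => y ∈ O ∧ ‖s‖ < κ ∧ (x = z → y ∈ W))
    (by
      intro x hx
      have e1 : ∀ᶠ q : N × N × V k in 𝓝 (x, x, (0 : V k)), q.2.1 ∈ O := by
        have h1 : Continuous (fun q : N × N × V k => q.2.1) := continuous_fst.comp continuous_snd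
        exact (h1.tendsto (x, x, (0 : V k))).eventually (hO.mem_nhds (hKO hx))
      have e2 : ∀ᶠ q : N × N × V k in 𝓝 (x, x, (0 : V k)), ‖q.2.2‖ < κ := by
        have h1 : Continuous (fun q : N × N × V k => ‖q.2.2‖) :=
          (continuous_snd.comp continuous_snd).norm
        have h2 := h1.tendsto (x, x, (0 : V k))
        simp only [norm_zero] at h2
        exact h2.eventually (gt_mem_nhds hκ)
      have e3 : ∀ᶠ q : N × N × V k in 𝓝 (x, x, (0 : V k)), (q.1 = z → q.2.1 ∈ W) := by
        by_cases hxz : x = z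
        · have h1 : Continuous (fun q : N × N × V k => q.2.1) :=
            continuous_fst.comp continuous_snd
          rw [← hxz] at hW'
          filter_upwards [(h1.tendsto (x, x, (0 : V k))).eventually hW'] with q hq _
          exact hq
        · have h1 : Continuous (fun q : N × N × V k => q.1) := continuous_fst
          filter_upwards [(h1.tendsto (x, x, (0 : V k))).eventually
            (isOpen_ne.mem_nhds hxz)] with q hq h2
          exact absurd h2 hq
      filter_upwards [e1, e2, e3] with q h1 h2 h3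
      exact ⟨h1, h2, h3⟩)
  obtain ⟨m', x, hm', hx0, hxm, hxK, hxW⟩ := hz {q | ‖d q.2 - d q.1‖ < δ}
    (isOpen_lt ((hd1.continuous.comp continuous_snd).sub
      (hd1.continuous.comp continuous_fst)).norm continuous_const)
    (fun x => by simpa using hδ)
  have : NeZero m' := ⟨by omega⟩
  have hmpos : (0:ℝ) < m' := by exact_mod_cast hm'
  obtain ⟨y, s, hys, hQ⟩ := hcl m' (fun i => x i.val)
    (fun i => hxK _ (ZMod.val_lt i).le) (fun i => by
      have h1 := hxW i.val (ZMod.val_lt i)
      rw [wrap (hxm.trans hx0.symm) i]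
      exact h1)
  have hyO : ∀ i, y i ∈ O := fun i => (hQ i).1
  have hsκ : ∀ i, ‖s i‖ < κ := fun i => (hQ i).2.1
  have hy0 : y 0 ∈ W := (hQ 0).2.2 (by rw [ZMod.val_zero, hx0])
  obtain ⟨c, hc⟩ : ∃ c : V k, c = (m' : ℝ)⁻¹ • ∑ i, s i := ⟨_, rfl⟩
  have hcκ : ‖c‖ < κ := by
    rw [hc, norm_smul, norm_inv, Real.norm_natCast, inv_mul_lt_iff₀ hmpos]
    calc ‖∑ i, s i‖ ≤ ∑ i, ‖s i‖ := norm_sum_le _ _
      _ < ∑ _i : ZMod m', κ := Finset.sum_lt_sum_of_nonempty ⟨0, Finset.mem_univ _⟩
          fun i _ => hsκ i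
      _ = m' * κ := by simp [ZMod.card]
  have hstep : ∀ i, F (y i) = Φ (-(s i)) (y (i + 1)) := by
    intro i
    rw [← hys i, ← h.action.add, neg_add_cancel, h.action.zero]
  have hit : ∀ (a : V k) (j : ℕ), (famD h.action r F c)^[j] (Φ a (y 0)) =
      Φ (a + ((j : ℝ) • c - ∑ l ∈ Finset.range j, s (l : ZMod m'))) (y (j : ZMod m')) := by
    intro a j
    induction j with
    | zero => simp
    | succ j ih =>
      rw [Function.iterate_succ_apply', ih, famD_apply, hOcomm _ _ (hyO _), hstep,
        ← h.action.add, ← h.action.add, Finset.sum_range_succ]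
      have e1 : ((j + 1 : ℕ) : ZMod m') = (j : ZMod m') + 1 := by push_cast; rfl
      rw [e1]
      congr 1
      push_cast
      rw [add_smul, one_smul]
      abel
  refine ⟨c, hcκ, y 0, hy0, m', hm', fun a => ?_⟩
  rw [hit, sum_cast, hc, smul_smul, mul_inv_cancel₀ hmpos.ne', one_smul, sub_self, add_zero,
    ZMod.natCast_self]

/-- Near an `Ω`-stable diffeomorphism, a nonempty set which is hyperbolic transversally to the orbits
of an action of `ℝᵏ` is hyperbolic: `k = 0`. -/
theorem rank_zero (r : ℕ∞) (hr : 1 ≤ r) {F : DiffM n N r} (hF : OmegaStable n N r F) :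
    ∃ U : Set (DiffM n N r), IsOpen[strongTop n N r] U ∧ F ∈ U ∧ ∀ G ∈ U,
      ∀ (k m : ℕ) (Φ : V k → N → N) (K : Set N) (e : N → V m) (B : N → V m →L[ℝ] V m →L[ℝ] ℝ),
        HypSet (n := n) G Φ K e B → K.Nonempty → k = 0 := by
  obtain ⟨U, hU, hFU, hfin⟩ := finite_per hr hF
  refine ⟨U, hU, hFU, fun G hG k m Φ K e B h hne => ?_⟩
  by_contra hk
  obtain ⟨z, hzK, hz⟩ := exists_chainRec G.continuous h.closed.isCompact hne h.inv
  obtain ⟨κ, hκ, hκU⟩ := Pool.Agent.TH80.CLX.fam_mem r hr (famD h.action r G)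
    (famD_isFam h.action r G) z U hU (by rw [famD_zero]; exact hG)
  have hΦc : Continuous fun q : V k × N => Φ q.1 q.2 := h.action.smooth.continuous
  -- the fixed points of the action
  have hWo : IsOpen {y : N | ∃ a, Φ a y ≠ y} := by
    have e1 : {y : N | ∃ a, Φ a y ≠ y} = ⋃ a, {y : N | Φ a y ≠ y} := by
      ext y; simp
    rw [e1]
    refine isOpen_iUnion fun a => ?_
    have h1 : Continuous fun y : N => Φ a y := hΦc.comp (continuous_const.prodMk continuous_id)
    exact isOpen_ne_fun h1 continuous_id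
  have hzW : z ∈ {y : N | ∃ a, Φ a y ≠ y} := by
    by_contra hcon
    simp only [Set.mem_ofPred_eq, not_exists, not_not] at hcon
    have h1 : ∀ s : V k, orb (n := n) Φ z s = 0 := by
      intro s
      unfold orb
      have h2 : (fun a => Φ a z) = fun _ => z := funext hcon
      rw [h2]
      simp [dr]
      rfl
    have h3 : ∀ s : V k, s = 0 := fun s => h.free z hzK s (h1 s)
    have : Nontrivial (V k) := by
      have : NeZero k := ⟨hk⟩
      have : Nonempty (Fin k) := ⟨0⟩
      infer_instance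
    obtain ⟨s, hs⟩ := exists_ne (0 : V k)
    exact hs (h3 s)
  obtain ⟨c, hc, y, ⟨a, ha⟩, p, hp, hper⟩ := per_near r hr G h hz hκ (hWo.mem_nhds hzW)
  have h1 := hfin _ (hκU c hc) p hp
  have h2 : Continuous fun t : ℝ => Φ (t • a) y :=
    hΦc.comp ((continuous_id.smul continuous_const).prodMk continuous_const)
  have h3 := path_uncountable (fun t : ℝ => Φ (t • a) y) h2 (by
    simp only [zero_smul, one_smul, h.action.zero]
    exact fun h => ha h.symm)
  apply h3
  refine h1.countable.mono ?_
  rintro _ ⟨t, -, rfl⟩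
  exact hper _

/-- chain recurrent points of hyperbolic sets are limits of periodic points -/
theorem mem_closure_per (r : ℕ∞) (hr : 1 ≤ r) (F : DiffM n N r)
    {Φ : V 0 → N → N} {K : Set N} {e : N → V m} {B : N → V m →L[ℝ] V m →L[ℝ] ℝ}
    (h : HypSet (n := n) F Φ K e B) {z : N} (hz : ChainRecOn F K z) : z ∈ closure (Per F) := by
  rw [mem_closure_iff_nhds]
  intro W hW
  obtain ⟨c, -, y, hy, p, hp, hper⟩ := per_near r hr F h hz one_pos hW
  have hc : c = 0 := Subsingleton.elim _ _
  subst hc
  have h1 := hper 0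
  rw [famD_zero, h.action.zero] at h1
  exact ⟨y, hy, p, hp, h1⟩

end close

end Pool.Agent.R774.OS
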