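import Pool.Agent.R774.OS1

/-! The chain recurrent set of an `Ω`-stable diffeomorphism. -/

open scoped Topology ContDiff Manifold Uniformity
open Set Metric Filter

noncomputable section

namespace Pool.Agent.R774.OS

open Pool.Agent.H718R2.G Pool.Agent.R774.Cl Pool.Agent.R774.ClStmt
open Pool.Agent.TH80.OMS

universe u

/-- the chain recurrent set -/
def CR {N : Type u} [TopologicalSpace N] (F : N → N) : Set N := {z | ChainRecOn F univ z}

section metric
variable {N : Type u} [MetricSpace N] [CompactSpace N] {F : N → N}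

/-- closed pseudo-orbits, as periodic sequences -/
def Ch (F : N → N) (δ : ℝ) (z : N) : Prop :=
  ∃ (m : ℕ) (X : ℕ → N), 1 ≤ m ∧ X 0 = z ∧ (∀ j, X (j + m) = X j) ∧
    ∀ j, dist (F (X j)) (X (j + 1)) < δ

omit [CompactSpace N] in
theorem Ch.mono {δ δ' : ℝ} (h : δ ≤ δ') {z : N} (hz : Ch F δ z) : Ch F δ' z := by
  obtain ⟨m, X, h1, h2, h3, h4⟩ := hz
  exact ⟨m, X, h1, h2, h3, fun j => (h4 j).trans_le h⟩

omit [CompactSpace N] in
theorem Ch.of {δ : ℝ} {z : N} {m : ℕ} {x : ℕ → N} (hm : 1 ≤ m) (h0 : x 0 = z) (h1 : x m = z)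
    (h : ∀ i < m, dist (F (x i)) (x (i + 1)) < δ) : Ch F δ z := by
  refine ⟨m, fun j => x (j % m), hm, by simpa using h0, fun j => by simp, fun j => ?_⟩
  have hlt : j % m < m := Nat.mod_lt _ (by omega)
  show dist (F (x (j % m))) (x ((j + 1) % m)) < δ
  have e : x ((j + 1) % m) = x (j % m + 1) := by
    rcases Nat.lt_or_ge (j % m + 1) m with h2 | h2
    · have : (j + 1) % m = j % m + 1 := by
        rw [Nat.add_mod, Nat.mod_eq_of_lt (a := 1) (by omega), Nat.mod_eq_of_lt h2]
      rw [this]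
    · have h3 : j % m + 1 = m := by omega
      have : (j + 1) % m = 0 := by
        have h4 : j + 1 = m * (j / m + 1) := by
          have := Nat.div_add_mod j m
          rw [Nat.mul_add, mul_one]
          omega
        rw [h4, Nat.mul_mod_right]
      rw [this, h3, h0, h1]
  rw [e]
  exact h _ hlt

theorem leb {W : Set (N × N)} (hW : IsOpen W) (hd : ∀ x, (x, x) ∈ W) :
    ∃ δ > 0, ∀ x y : N, dist x y < δ → (x, y) ∈ W := by
  have h1 : W ∈ 𝓤 N := by
    rw [← nhdsSet_diagonal_eq_uniformity]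
    refine (hW.mem_nhdsSet).2 ?_
    rintro ⟨x, y⟩ hxy
    rw [mem_diagonal_iff] at hxy
    simp only at hxy
    rw [hxy]
    exact hd y
  obtain ⟨δ, hδ, h⟩ := Metric.mem_uniformity_dist.1 h1
  exact ⟨δ, hδ, fun x y hxy => h hxy⟩

theorem mem_CR {z : N} : z ∈ CR F ↔ ∀ δ > 0, Ch F δ z := by
  constructor
  · intro h δ hδ
    obtain ⟨m, x, hm, h0, h1, -, h2⟩ := h {q | dist q.1 q.2 < δ}
      (isOpen_lt continuous_dist continuous_const) (fun x => by simpa using hδ)
    exact Ch.of hm h0 h1 h2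
  · intro h W hW hd
    obtain ⟨δ, hδ, hδW⟩ := leb hW hd
    obtain ⟨m, X, hm, h0, h1, h2⟩ := h δ hδ
    refine ⟨m, X, hm, h0, ?_, fun i _ => mem_univ _, fun i _ => hδW _ _ (h2 i)⟩
    have := h1 0
    rw [zero_add] at this
    rw [this, h0]

theorem unif (hF : Continuous F) {ε : ℝ} (hε : 0 < ε) :
    ∃ δ > 0, ∀ a b : N, dist a b < δ → dist (F a) (F b) < ε := by
  have h1 := CompactSpace.uniformContinuous_of_continuous hF
  obtain ⟨δ, hδ, h⟩ := Metric.uniformContinuous_iff.1 h1 ε hε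
  exact ⟨δ, hδ, fun a b hab => h hab⟩

/-- perturbation of chains -/
theorem perturb (hF : Continuous F) {ε : ℝ} (hε : 0 < ε) :
    ∃ η > 0, ∀ X c : ℕ → N, (∀ j, dist (X j) (c j) < η) →
      (∀ j, dist (F (X j)) (X (j + 1)) < η) → ∀ j, dist (F (c j)) (c (j + 1)) < ε := by
  obtain ⟨δ₁, hδ₁, hu⟩ := unif hF (show (0:ℝ) < ε / 3 by positivity)
  refine ⟨min δ₁ (ε / 3), lt_min hδ₁ (by positivity), fun X c h1 h2 j => ?_⟩
  have e1 : dist (F (c j)) (F (X j)) < ε / 3 := by
    rw [dist_comm]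
    exact hu _ _ ((h1 j).trans_le (min_le_left _ _))
  have e2 : dist (F (X j)) (X (j + 1)) < ε / 3 := (h2 j).trans_le (min_le_right _ _)
  have e3 : dist (X (j + 1)) (c (j + 1)) < ε / 3 := (h1 (j + 1)).trans_le (min_le_right _ _)
  have e4 := dist_triangle4 (F (c j)) (F (X j)) (X (j + 1)) (c (j + 1))
  linarith

/-- limits of points with closed chains -/
theorem mem_CR_of_near (hF : Continuous F) {w : N}
    (h : ∀ δ > 0, ∃ w', dist w w' < δ ∧ Ch F δ w') : w ∈ CR F := by
  rw [mem_CR]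
  intro δ hδ
  obtain ⟨η, hη, hp⟩ := perturb hF hδ
  obtain ⟨w', hw', m, X, hm, h0, h1, h2⟩ := h η hη
  have hmul : ∀ a j : ℕ, X (j + a * m) = X j := by
    intro a
    induction a with
    | zero => intro j; simp
    | succ a ih =>
      intro j
      rw [Nat.succ_mul, ← Nat.add_assoc, h1, ih]
  have hdvd : ∀ j, m ∣ j → X j = w' := by
    rintro j ⟨a, rfl⟩
    have := hmul a 0
    rw [zero_add, Nat.mul_comm] at this
    rw [this, h0]
  refine ⟨m, fun j => if m ∣ j then w else X j, hm, if_pos (dvd_zero m), fun j => ?_,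
    hp X _ (fun j => ?_) h2⟩
  · have e : m ∣ j + m ↔ m ∣ j := (Nat.dvd_add_iff_left (dvd_refl m)).symm
    show (if m ∣ j + m then w else X (j + m)) = if m ∣ j then w else X j
    by_cases hj : m ∣ j
    · rw [if_pos hj, if_pos (e.2 hj)]
    · rw [if_neg hj, if_neg (fun h => hj (e.1 h)), h1]
  · show dist (X j) (if m ∣ j then w else X j) < η
    split_ifs with hj
    · rw [hdvd j hj, dist_comm]; exact hw'
    · rw [dist_self]; exact hη

theorem isClosed_CR (hF : Continuous F) : IsClosed (CR F) := by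
  rw [← closure_subset_iff_isClosed]
  intro w hw
  refine mem_CR_of_near hF fun δ hδ => ?_
  obtain ⟨w', hw', hd⟩ := Metric.mem_closure_iff.1 hw δ hδ
  exact ⟨w', hd, mem_CR.1 hw' δ hδ⟩

/-- points with closed chains are near the chain recurrent set -/
theorem near_CR (hF : Continuous F) {η : ℝ} (hη : 0 < η) :
    ∃ δ > 0, ∀ w, Ch F δ w → ∃ c ∈ CR F, dist w c < η := by
  by_contra hcon
  push Not at hcon
  have h1 : ∀ j : ℕ, ∃ w, Ch F (1 / ((j : ℝ) + 1)) w ∧ ∀ c ∈ CR F, η ≤ dist w c := fun j =>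
    hcon _ (by positivity)
  choose w hw hw2 using h1
  obtain ⟨w0, -, φ, hφ, hlim⟩ := isCompact_univ.tendsto_subseq (x := w) fun j => mem_univ _
  have hw0 : w0 ∈ CR F := by
    refine mem_CR_of_near hF fun δ hδ => ?_
    have e1 : ∀ᶠ j in atTop, dist (w (φ j)) w0 < δ := (Metric.tendsto_nhds.1 hlim) δ hδ
    have e2 : ∀ᶠ j : ℕ in atTop, 1 / ((j : ℝ) + 1) < δ :=
      (tendsto_one_div_add_atTop_nhds_zero_nat (𝕜 := ℝ)).eventually (gt_mem_nhds hδ)
    have e3 : ∀ᶠ j : ℕ in atTop, 1 / ((φ j : ℝ) + 1) < δ := hφ.tendsto_atTop.eventually e2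
    obtain ⟨j, h2, h3⟩ := (e1.and e3).exists
    exact ⟨w (φ j), by rw [dist_comm]; exact h2, (hw (φ j)).mono h3.le⟩
  have e1 : ∀ᶠ j in atTop, dist (w (φ j)) w0 < η := (Metric.tendsto_nhds.1 hlim) η hη
  obtain ⟨j, hj⟩ := e1.exists
  exact absurd hj (not_lt.2 (hw2 (φ j) w0 hw0))

/-- Conley: the points of the chain recurrent set are chain recurrent for the restriction -/
theorem conley (hF : Continuous F) {z : N} (hz : z ∈ CR F) : ChainRecOn F (CR F) z := by
  classical
  intro W hW hd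
  obtain ⟨δ₀, hδ₀, hδW⟩ := leb hW hd
  obtain ⟨η, hη, hp⟩ := perturb hF hδ₀
  obtain ⟨δ, hδ, hn⟩ := near_CR hF hη
  obtain ⟨m, X, hm, h0, h1, h2⟩ := mem_CR.1 hz _ (lt_min hδ hη)
  have hX : ∀ j, Ch F δ (X j) := by
    intro j
    refine ⟨m, fun i => X (j + i), hm, rfl, fun i => ?_, fun i => ?_⟩
    · show X (j + (i + m)) = X (j + i)
      rw [← Nat.add_assoc, h1]
    · exact (h2 (j + i)).trans_le (min_le_left _ _)
  choose c hc hc2 using fun j => hn (X j) (hX j)
  have hmul : ∀ a j : ℕ, X (j + a * m) = X j := by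
    intro a
    induction a with
    | zero => intro j; simp
    | succ a ih =>
      intro j
      rw [Nat.succ_mul, ← Nat.add_assoc, h1, ih]
  have hdvd : ∀ j, m ∣ j → X j = z := by
    rintro j ⟨a, rfl⟩
    have := hmul a 0
    rw [zero_add, Nat.mul_comm] at this
    rw [this, h0]
  have h3 := hp X (fun j => if m ∣ j then z else c j) (fun j => ?_)
    (fun j => (h2 j).trans_le (min_le_right _ _))
  · refine ⟨m, fun j => if m ∣ j then z else c j, hm, if_pos (dvd_zero m), if_pos (dvd_refl m),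
      fun i _ => ?_, fun i _ => hδW _ _ (h3 i)⟩
    show (if m ∣ i then z else c i) ∈ CR F
    split_ifs
    · exact hz
    · exact hc i
  · show dist (X j) (if m ∣ j then z else c j) < η
    split_ifs with hj
    · rw [hdvd j hj, dist_self]; exact hη
    · exact hc2 j

/-- nonwandering points are chain recurrent -/
theorem omega_CR (hF : Continuous F) {x : N} (hx : x ∈ Omega F) : x ∈ CR F := by
  rw [mem_CR]
  intro δ hδ
  obtain ⟨η, hη, hp⟩ := perturb hF hδ
  obtain ⟨k, hk, y, hy, hy2⟩ := hx (ball x (η / 2)) isOpen_ball (mem_ball_self (by positivity))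
  rw [mem_ball] at hy hy2
  -- the periodic sequence of the orbit of `y`
  obtain ⟨m, X, hm, h0, h1, h2⟩ : ∃ (m : ℕ) (X : ℕ → N), 1 ≤ m ∧ X 0 = y ∧
      (∀ j, X (j + m) = X j) ∧ ∀ j, dist (F (X j)) (X (j + 1)) < η := by
    refine Ch.of (m := k) (x := fun j => if j = k then y else F^[j] y) hk ?_ (if_pos rfl)
      fun i hi => ?_
    · show (if 0 = k then y else F^[0] y) = y
      split_ifs <;> rfl
    · show dist (F (if i = k then y else F^[i] y)) (if i + 1 = k then y else F^[i + 1] y) < η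
      rw [if_neg (by omega), ← Function.iterate_succ_apply' F]
      split_ifs with h
      · rw [show i.succ = k from h]
        calc dist (F^[k] y) y ≤ dist (F^[k] y) x + dist x y := dist_triangle _ _ _
          _ < η / 2 + η / 2 := add_lt_add hy2 (by rw [dist_comm]; exact hy)
          _ = η := by ring
      · rw [dist_self]; exact hη
  have hmul : ∀ a j : ℕ, X (j + a * m) = X j := by
    intro a
    induction a with
    | zero => intro j; simp
    | succ a ih =>
      intro j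
      rw [Nat.succ_mul, ← Nat.add_assoc, h1, ih]
  have hdvd : ∀ j, m ∣ j → X j = y := by
    rintro j ⟨a, rfl⟩
    have := hmul a 0
    rw [zero_add, Nat.mul_comm] at this
    rw [this, h0]
  refine ⟨m, fun j => if m ∣ j then x else X j, hm, if_pos (dvd_zero m), fun j => ?_,
    hp X _ (fun j => ?_) h2⟩
  · have e : m ∣ j + m ↔ m ∣ j := (Nat.dvd_add_iff_left (dvd_refl m)).symm
    show (if m ∣ j + m then x else X (j + m)) = if m ∣ j then x else X j
    by_cases hj : m ∣ j
    · rw [if_pos hj, if_pos (e.2 hj)]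
    · rw [if_neg hj, if_neg (fun h => hj (e.1 h)), h1]
  · show dist (X j) (if m ∣ j then x else X j) < η
    split_ifs with hj
    · rw [hdvd j hj]
      exact hy.trans (by linarith)
    · rw [dist_self]; exact hη

end metric

section top
variable {N : Type u} [TopologicalSpace N] {F : N → N}

/-- chain recurrence in the parts of a finite decomposition -/
theorem chainRec_part {ι : Type*} [Finite ι] {K : ι → Set N} (hK : ∀ i, IsClosed (K i))
    (hdis : ∀ i j, i ≠ j → Disjoint (K i) (K j)) (hinv : ∀ i, ∀ x ∈ K i, F x ∈ K i)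
    (hun : ⋃ i, K i = CR F) {z : N} {i : ι} (hzi : z ∈ K i) (hz : ChainRecOn F (CR F) z) :
    ChainRecOn F (K i) z := by
  intro W hW hd
  have hC : IsClosed (⋃ q : {q : ι × ι // q.1 ≠ q.2}, K q.1.1 ×ˢ K q.1.2) :=
    isClosed_iUnion_of_finite fun q => (hK _).prod (hK _)
  obtain ⟨m, x, hm, h0, h1, h2, h3⟩ := hz
    (W ∩ (⋃ q : {q : ι × ι // q.1 ≠ q.2}, K q.1.1 ×ˢ K q.1.2)ᶜ) (hW.inter hC.isOpen_compl)
    (fun x => ⟨hd x, fun hx => by
      obtain ⟨⟨q, hq⟩, hx⟩ := mem_iUnion.1 hx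
      exact disjoint_left.1 (hdis _ _ hq) hx.1 hx.2⟩)
  have hmem : ∀ j ≤ m, x j ∈ K i := by
    intro j
    induction j with
    | zero => intro _; rw [h0]; exact hzi
    | succ j ih =>
      intro hj
      have h4 := ih (by omega)
      have h5 : x (j + 1) ∈ ⋃ i, K i := by rw [hun]; exact h2 _ hj
      obtain ⟨b, hb⟩ := mem_iUnion.1 h5
      by_cases hib : i = b
      · rw [hib]; exact hb
      · have h6 : (F (x j), x (j + 1)) ∈ K i ×ˢ K b := ⟨hinv i _ h4, hb⟩
        exact absurd (mem_iUnion_of_mem (⟨(i, b), hib⟩ : {q : ι × ι // q.1 ≠ q.2}) h6)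
          (h3 j (by omega)).2
  exact ⟨m, x, hm, h0, h1, hmem, fun i hi => (h3 i hi).1⟩

end top

section main
variable {n : ℕ} {N : Type u} [TopologicalSpace N] [ChartedSpace (V n) N]
  [IsManifold (𝓡 n) ∞ N] [T2Space N] [CompactSpace N]

theorem main (r : ℕ∞) (hr : 1 ≤ r) {F : DiffM n N r} (hF : OmegaStable n N r F)
    {ι : Type} [Finite ι] {k m : ι → ℕ} {Φ : ∀ i, V (k i) → N → N} {K : ι → Set N}
    {e : ∀ i, N → V (m i)} {B : ∀ i, N → V (m i) →L[ℝ] V (m i) →L[ℝ] ℝ}
    (hyp : ∀ i, HypSet (n := n) F (Φ i) (K i) (e i) (B i))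
    (hdis : ∀ i j, i ≠ j → Disjoint (K i) (K j)) (hun : ⋃ i, K i = CR F) :
    (∀ i, (K i).Nonempty → k i = 0) ∧ CR F = closure (Per F) ∧ Omega F = closure (Per F) := by
  have hk : ∀ i, (K i).Nonempty → k i = 0 := by
    obtain ⟨U, -, hFU, h⟩ := rank_zero r hr hF
    intro i hi
    exact h F hFU _ _ _ _ _ _ (hyp i) hi
  have : SecondCountableTopology N := ChartedSpace.secondCountable_of_sigmaCompact (V n) N
  let _ : MetricSpace N := TopologicalSpace.metrizableSpaceMetric N
  have h1 : CR F ⊆ closure (Per F) := by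
    intro z hz
    have hzi : z ∈ ⋃ i, K i := by rw [hun]; exact hz
    obtain ⟨i, hi⟩ := mem_iUnion.1 hzi
    have hch : ChainRecOn F (K i) z := chainRec_part (fun i => (hyp i).closed) hdis
      (fun i => (hyp i).inv) hun hi (conley F.continuous hz)
    have hki := hk i ⟨z, hi⟩
    have gen : ∀ (k' : ℕ) (Φ' : V k' → N → N), k' = 0 →
        HypSet (n := n) F Φ' (K i) (e i) (B i) → z ∈ closure (Per F) := by
      intro k' Φ' hk' h'
      subst hk'
      exact mem_closure_per r hr F h' hch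
    exact gen _ _ hki (hyp i)
  have h2 : closure (Per F) ⊆ CR F := by
    rw [(isClosed_CR F.continuous).closure_subset_iff]
    rintro p ⟨k', hk', hp⟩
    exact omega_CR F.continuous (per_mem_omega hk' hp)
  have h3 : Omega F ⊆ closure (Per F) := fun x hx => h1 (omega_CR F.continuous hx)
  have h4 : closure (Per F) ⊆ Omega F := by
    have hcl : IsClosed (Omega (F : N → N)) := by
      rw [← isOpen_compl_iff, isOpen_iff_mem_nhds]
      intro x hx
      have hx' : ¬ ∀ W : Set N, IsOpen W → x ∈ W → ∃ k : ℕ, 1 ≤ k ∧ ∃ y ∈ W, F^[k] y ∈ W := hx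
      push Not at hx'
      obtain ⟨W, hW, hxW, h⟩ := hx'
      filter_upwards [hW.mem_nhds hxW] with y hy hcon
      obtain ⟨k', hk', w, hw, hw'⟩ := hcon W hW hy
      exact h k' hk' w hw hw'
    rw [hcl.closure_subset_iff]
    rintro p ⟨k', hk', hp⟩
    exact per_mem_omega hk' hp
  exact ⟨hk, h1.antisymm h2, h3.antisymm h4⟩

end main

end Pool.Agent.R774.OS
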